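import Pool.Agent.V8H19.AP.Mom

/-!
# The Croot-Sisask argument for a weighted law, with an entropy increment in place of a doubling constant

`h` is a law on the finite abelian group `G`. The proportion `Fl h S x` of the samples `b` of `h` with `x + b ∈ S`
is approximated by the mean of `n` samples. If `H(h * μ_U) - H(h) ≤ η` then a subset `T` of `U` with
`|U| ≤ 2 exp (4 (n η + 1)) |T|` consists of simultaneous translates of one good tuple.
-/

set_option autoImplicit false
set_option linter.unusedSectionVars false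

namespace Pool.Agent.V8H19.AP

open Finset

variable {G : Type} [AddCommGroup G] [Fintype G] [DecidableEq G]

/-- the probability that `x + b ∈ S` for a sample `b` of `h` -/
noncomputable def Fl (h : G → ℝ) (S : Finset G) (x : G) : ℝ := ∑ b, h b * (if x + b ∈ S then (1 : ℝ) else 0)

/-- the mean of `Fl h S (x + y)` over `x ∈ X` -/
noncomputable def Gl (h : G → ℝ) (X S : Finset G) (y : G) : ℝ := (∑ x ∈ X, Fl h S (x + y)) / X.card

/-- the sample mean -/
noncomputable def Fa (S : Finset G) {n : ℕ} (u : Fin n → G) (x : G) : ℝ :=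
  (∑ i, if x + u i ∈ S then (1 : ℝ) else 0) / n

/-- the law of `b + s`, `b` a sample of `h` and `s ∈ U` uniform -/
noncomputable def conv (h : G → ℝ) (U : Finset G) (w : G) : ℝ := (∑ s ∈ U, h (w - s)) / U.card

/-- Shannon entropy -/
noncomputable def Ent (h : G → ℝ) : ℝ := ∑ x, Real.negMulLog (h x)

theorem Ent_eq (h : G → ℝ) : Ent h = - ∑ x, h x * Real.log (h x) := by
  unfold Ent
  rw [← sum_neg_distrib]
  refine sum_congr rfl fun x _ => ?_
  rw [Real.negMulLog]
  ring

theorem sum_conv (h : G → ℝ) (U : Finset G) (φ : G → ℝ) :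
    ∑ w, conv h U w * φ w = (∑ s ∈ U, ∑ b, h b * φ (b + s)) / U.card := by
  unfold conv
  simp_rw [div_mul_eq_mul_div, sum_mul]
  rw [← sum_div, sum_comm]
  congr 1
  refine sum_congr rfl fun s _ => ?_
  rw [← Equiv.sum_comp (Equiv.addRight s)]
  refine sum_congr rfl fun b _ => ?_
  rw [Equiv.coe_addRight, add_sub_cancel_right]

theorem isLaw_conv {h : G → ℝ} (hh : IsLaw h) {U : Finset G} (hU : U.Nonempty) : IsLaw (conv h U) := by
  have hU0 : (0 : ℝ) < U.card := by exact_mod_cast hU.card_pos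
  constructor
  · intro x
    exact div_nonneg (sum_nonneg fun s _ => hh.nonneg _) hU0.le
  · have := sum_conv h U fun _ => 1
    simp only [mul_one] at this
    rw [this]
    simp only [hh.sum_one, sum_const, nsmul_eq_mul, mul_one]
    exact div_self hU0.ne'

theorem Fl_nonneg {h : G → ℝ} (hh : IsLaw h) (S : Finset G) (x : G) : 0 ≤ Fl h S x :=
  sum_nonneg fun b _ => mul_nonneg (hh.nonneg b) (by split_ifs <;> norm_num)

theorem Fl_le_one {h : G → ℝ} (hh : IsLaw h) (S : Finset G) (x : G) : Fl h S x ≤ 1 := by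
  rw [← hh.sum_one]
  refine sum_le_sum fun b _ => mul_le_of_le_one_right (hh.nonneg b) ?_
  split_ifs <;> norm_num

theorem sum_Fl {h : G → ℝ} (hh : IsLaw h) (S : Finset G) : ∑ x, Fl h S x = S.card := by
  unfold Fl
  rw [sum_comm]
  have h1 : ∀ b : G, ∑ x : G, h b * (if x + b ∈ S then (1 : ℝ) else 0) = h b * S.card := by
    intro b
    rw [← mul_sum]
    congr 1
    rw [← Equiv.sum_comp (Equiv.subRight b)]
    simp
  simp_rw [h1]
  rw [← sum_mul, hh.sum_one, one_mul]

/-- the error of the sample mean in `ℓ^(2m)` -/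
theorem err_mom {h : G → ℝ} (hh : IsLaw h) (S : Finset G) (m n : ℕ) (hm : 1 ≤ m) (hmn : m ≤ n) :
    ∑ u : Fin n → G, W h u * ∑ x, (Fa S u x - Fl h S x) ^ (2 * m) ≤ (12 * m / n : ℝ) ^ m * S.card := by
  have hn0 : (0 : ℝ) < n := by exact_mod_cast (by omega : 0 < n)
  have h1 : ∀ x : G, ∑ u : Fin n → G, W h u * (Fa S u x - Fl h S x) ^ (2 * m) ≤
      (12 * m / n : ℝ) ^ m * Fl h S x := by
    intro x
    have h2 := mom hh (fun b => if x + b ∈ S then (1 : ℝ) else 0) (fun b => by split_ifs <;> norm_num)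
      (fun b => by split_ifs <;> norm_num) (Fl h S x) rfl m n hm hmn
    have h3 : ∀ u : Fin n → G, (∑ i, ((if x + u i ∈ S then (1 : ℝ) else 0) - Fl h S x)) =
        n * (Fa S u x - Fl h S x) := by
      intro u
      rw [sum_sub_distrib, sum_const, card_univ, Fintype.card_fin, nsmul_eq_mul, mul_sub]
      unfold Fa
      congr 1
      field_simp
    simp_rw [h3] at h2
    have h4 : ∑ u : Fin n → G, W h u * ((n : ℝ) * (Fa S u x - Fl h S x)) ^ (2 * m) =
        (n : ℝ) ^ (2 * m) * ∑ u : Fin n → G, W h u * (Fa S u x - Fl h S x) ^ (2 * m) := by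
      rw [mul_sum]
      refine sum_congr rfl fun u _ => ?_
      rw [mul_pow]
      ring
    rw [h4] at h2
    have h5 : (12 * m * n : ℝ) ^ m * Fl h S x = (n : ℝ) ^ (2 * m) * ((12 * m / n : ℝ) ^ m * Fl h S x) := by
      rw [pow_mul, ← mul_assoc, ← mul_pow]
      congr 2
      field_simp
    rw [h5] at h2
    exact le_of_mul_le_mul_left h2 (by positivity)
  calc ∑ u : Fin n → G, W h u * ∑ x, (Fa S u x - Fl h S x) ^ (2 * m)
      = ∑ x, ∑ u : Fin n → G, W h u * (Fa S u x - Fl h S x) ^ (2 * m) := by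
        rw [sum_comm]
        refine sum_congr rfl fun u _ => ?_
        rw [mul_sum]
    _ ≤ ∑ x, (12 * m / n : ℝ) ^ m * Fl h S x := sum_le_sum fun x _ => h1 x
    _ = _ := by rw [← mul_sum, sum_Fl hh]

/-- the log-likelihood ratio -/
noncomputable def Zr (h h' : G → ℝ) {n : ℕ} (u : Fin n → G) (s : G) : ℝ :=
  ∑ i, (Real.log (h (u i)) - Real.log (h' (u i + s)))

theorem conv_pos {h : G → ℝ} (hh : IsLaw h) {U : Finset G} {b s : G} (hs : s ∈ U) (hb : 0 < h b) :
    0 < conv h U (b + s) := by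
  have hU0 : (0 : ℝ) < U.card := by exact_mod_cast (card_pos.2 ⟨s, hs⟩)
  refine div_pos ?_ hU0
  refine lt_of_lt_of_le hb ?_
  have := single_le_sum (f := fun t => h (b + s - t)) (fun t _ => hh.nonneg _) hs
  simpa using this

/-- the mean of `exp (-Z)` is at most `1` -/
theorem exp_neg_Zr {h : G → ℝ} (hh : IsLaw h) {U : Finset G} (n : ℕ) (s : G) (hs : s ∈ U) :
    ∑ u : Fin n → G, W h u * Real.exp (-Zr h (conv h U) u s) ≤ 1 := by
  have hU : U.Nonempty := ⟨s, hs⟩
  have h1 : ∀ u : Fin n → G, W h u * Real.exp (-Zr h (conv h U) u s) =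
      ∏ i, (h (u i) * Real.exp (-(Real.log (h (u i)) - Real.log (conv h U (u i + s))))) := by
    intro u
    unfold W Zr
    rw [prod_mul_distrib, ← Real.exp_sum, sum_neg_distrib]
  simp_rw [h1]
  rw [sum_prod n fun _ b => h b * Real.exp (-(Real.log (h b) - Real.log (conv h U (b + s)))), prod_const]
  apply pow_le_one₀ (sum_nonneg fun b _ => mul_nonneg (hh.nonneg b) (Real.exp_pos _).le)
  calc ∑ b, h b * Real.exp (-(Real.log (h b) - Real.log (conv h U (b + s))))
      ≤ ∑ b, conv h U (b + s) := by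
        refine sum_le_sum fun b _ => ?_
        rcases (hh.nonneg b).eq_or_lt with h0 | h0
        · rw [← h0, zero_mul]
          exact (isLaw_conv hh hU).nonneg _
        · have h2 := conv_pos hh hs h0
          rw [neg_sub, Real.exp_sub, Real.exp_log h2, Real.exp_log h0]
          apply le_of_eq
          field_simp
    _ = 1 := by
        rw [← (isLaw_conv hh hU).sum_one]
        exact Equiv.sum_comp (Equiv.addRight s) _

/-- the mean of `Z` -/
theorem mean_Zr {h : G → ℝ} (hh : IsLaw h) {U : Finset G} (hU : U.Nonempty) (n : ℕ) :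
    (∑ s ∈ U, ∑ u : Fin n → G, W h u * Zr h (conv h U) u s) / U.card = n * (Ent (conv h U) - Ent h) := by
  have hU0 : (0 : ℝ) < U.card := by exact_mod_cast hU.card_pos
  have h1 : ∀ s : G, ∑ u : Fin n → G, W h u * Zr h (conv h U) u s =
      n * ∑ b, h b * (Real.log (h b) - Real.log (conv h U (b + s))) := by
    intro s
    unfold Zr
    simp_rw [mul_sum]
    rw [sum_comm]
    have h2 : ∀ i : Fin n, ∑ u : Fin n → G, W h u * (Real.log (h (u i)) - Real.log (conv h U (u i + s))) =
        ∑ b, h b * (Real.log (h b) - Real.log (conv h U (b + s))) := fun i =>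
      sum_W_marg hh n (fun b => Real.log (h b) - Real.log (conv h U (b + s))) i
    simp_rw [h2]
    rw [sum_const, card_univ, Fintype.card_fin, nsmul_eq_mul, mul_sum]
  simp_rw [h1]
  rw [← mul_sum, mul_div_assoc]
  congr 1
  simp_rw [mul_sub, sum_sub_distrib]
  rw [sub_div, ← sum_conv h U fun w => Real.log (conv h U w), sum_const, nsmul_eq_mul,
    mul_div_cancel_left₀ _ hU0.ne', Ent_eq, Ent_eq]
  ring

theorem Fa_shift (S : Finset G) {n : ℕ} (w : Fin n → G) (x s : G) :
    Fa S (fun i => w i - s) (x + s) = Fa S w x := by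
  unfold Fa
  congr 1
  refine sum_congr rfl fun i _ => ?_
  have : x + s + (w i - s) = x + w i := by abel
  rw [this]

theorem pow_add_le (p q : ℝ) (m : ℕ) :
    (p + q) ^ (2 * m) ≤ 2 ^ (2 * m - 1) * (p ^ (2 * m) + q ^ (2 * m)) := by
  have h1 : (p + q) ^ (2 * m) = |p + q| ^ (2 * m) := (Even.pow_abs ⟨m, by ring⟩ _).symm
  have h2 : p ^ (2 * m) = |p| ^ (2 * m) := (Even.pow_abs ⟨m, by ring⟩ _).symm
  have h3 : q ^ (2 * m) = |q| ^ (2 * m) := (Even.pow_abs ⟨m, by ring⟩ _).symm
  rw [h1, h2, h3]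
  calc |p + q| ^ (2 * m) ≤ (|p| + |q|) ^ (2 * m) :=
        pow_le_pow_left₀ (abs_nonneg _) (abs_add_le _ _) _
    _ ≤ _ := add_pow_le (abs_nonneg _) (abs_nonneg _) _

/-- the combinatorial core: many translates of one good tuple -/
theorem cs_core {h : G → ℝ} (hh : IsLaw h) (S U : Finset G) (hS : S.Nonempty) (hU : U.Nonempty) (η : ℝ)
    (hη0 : 0 ≤ η) (hη : Ent (conv h U) - Ent h ≤ η) (m n : ℕ) (hm : 1 ≤ m) (hmn : m ≤ n) :
    ∃ w : Fin n → G, ∃ T : Finset G, T ⊆ U ∧ (U.card : ℝ) ≤ 2 * Real.exp (4 * (n * η + 1)) * T.card ∧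
      ∀ s ∈ T, ∑ x, (Fa S w x - Fl h S (x + s)) ^ (2 * m) ≤ 4 * ((12 * m / n : ℝ) ^ m * S.card) := by
  classical
  have hn0 : (0 : ℝ) < n := by exact_mod_cast (by omega : 0 < n)
  have hm0 : (0 : ℝ) < m := by exact_mod_cast (by omega : 0 < m)
  have hU0 : (0 : ℝ) < U.card := by exact_mod_cast hU.card_pos
  have hS0 : (0 : ℝ) < S.card := by exact_mod_cast hS.card_pos
  obtain ⟨M, hM⟩ : ∃ M : ℝ, M = (12 * m / n : ℝ) ^ m * S.card := ⟨_, rfl⟩
  have hM0 : 0 < M := by rw [hM]; positivity
  obtain ⟨L, hL⟩ : ∃ L : ℝ, L = 4 * (n * η + 1) := ⟨_, rfl⟩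
  have hL0 : 0 < L := by rw [hL]; positivity
  obtain ⟨E, hE⟩ : ∃ E : (Fin n → G) → ℝ, E = fun u => ∑ x, (Fa S u x - Fl h S x) ^ (2 * m) := ⟨_, rfl⟩
  have hE0 : ∀ u, 0 ≤ E u := fun u => by
    rw [hE]
    exact sum_nonneg fun x _ => (even_two_mul m).pow_nonneg _
  have hEM : ∑ u : Fin n → G, W h u * E u ≤ M := by
    rw [hE, hM]
    exact err_mom hh S m n hm hmn
  -- the two bad events
  have hbad1 : ∑ u : Fin n → G, W h u * (if 4 * M < E u then (1 : ℝ) else 0) ≤ 1 / 4 := by
    have h1 : (4 * M) * ∑ u : Fin n → G, W h u * (if 4 * M < E u then (1 : ℝ) else 0) ≤ M := by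
      refine le_trans ?_ hEM
      rw [mul_sum]
      refine sum_le_sum fun u _ => ?_
      split_ifs with h2
      · rw [mul_one, mul_comm]
        exact mul_le_mul_of_nonneg_left h2.le (W_nonneg hh u)
      · rw [mul_zero, mul_zero]
        exact mul_nonneg (W_nonneg hh u) (hE0 u)
    nlinarith
  have hbad2 : (∑ s ∈ U, ∑ u : Fin n → G, W h u * (if L < Zr h (conv h U) u s then (1 : ℝ) else 0)) / U.card ≤
      1 / 4 := by
    have h1 : L * ((∑ s ∈ U, ∑ u : Fin n → G, W h u * (if L < Zr h (conv h U) u s then (1 : ℝ) else 0)) / U.card) ≤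
        n * η + 1 := by
      have h2 : L * (∑ s ∈ U, ∑ u : Fin n → G, W h u * (if L < Zr h (conv h U) u s then (1 : ℝ) else 0)) ≤
          ∑ s ∈ U, ∑ u : Fin n → G, W h u * Zr h (conv h U) u s + U.card := by
        calc L * (∑ s ∈ U, ∑ u : Fin n → G, W h u * (if L < Zr h (conv h U) u s then (1 : ℝ) else 0))
            ≤ ∑ s ∈ U, ∑ u : Fin n → G, (W h u * Zr h (conv h U) u s +
                W h u * Real.exp (-Zr h (conv h U) u s)) := by
              rw [mul_sum]
              refine sum_le_sum fun s _ => ?_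
              rw [mul_sum]
              refine sum_le_sum fun u _ => ?_
              have hw := W_nonneg hh u
              have he := Real.exp_pos (-Zr h (conv h U) u s)
              have he2 := Real.add_one_le_exp (-Zr h (conv h U) u s)
              split_ifs with h3
              · nlinarith
              · rw [mul_zero, mul_zero, ← mul_add]
                exact mul_nonneg hw (by linarith)
          _ = ∑ s ∈ U, ∑ u : Fin n → G, W h u * Zr h (conv h U) u s +
              ∑ s ∈ U, ∑ u : Fin n → G, W h u * Real.exp (-Zr h (conv h U) u s) := by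
              simp_rw [sum_add_distrib]
          _ ≤ ∑ s ∈ U, ∑ u : Fin n → G, W h u * Zr h (conv h U) u s + ∑ s ∈ U, (1 : ℝ) := by
              gcongr with s hs
              exact exp_neg_Zr hh n s hs
          _ = _ := by simp
      rw [← mul_div_assoc, div_le_iff₀ hU0]
      refine h2.trans ?_
      have h3 := mean_Zr hh hU n
      rw [div_eq_iff hU0.ne'] at h3
      rw [h3]
      have h4 : (n : ℝ) * (Ent (conv h U) - Ent h) ≤ n * η := mul_le_mul_of_nonneg_left hη hn0.le
      nlinarith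
    have h5 : L = 4 * (n * η + 1) := hL
    have h6 : (0 : ℝ) < n * η + 1 := by positivity
    rw [h5] at h1
    have h7 : (n * η + 1) * (4 * ((∑ s ∈ U, ∑ u : Fin n → G, W h u *
        (if 4 * (n * η + 1) < Zr h (conv h U) u s then (1 : ℝ) else 0)) / U.card)) ≤ (n * η + 1) * 1 := by
      calc _ = 4 * (n * η + 1) * ((∑ s ∈ U, ∑ u : Fin n → G, W h u *
          (if 4 * (n * η + 1) < Zr h (conv h U) u s then (1 : ℝ) else 0)) / U.card) := by ring
        _ ≤ _ := by rw [mul_one]; exact h1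
    have h8 := le_of_mul_le_mul_left h7 h6
    rw [hL]
    linarith
  -- the good event
  obtain ⟨gd, hgd⟩ : ∃ gd : (Fin n → G) → G → Prop, gd = fun u s => E u ≤ 4 * M ∧ Zr h (conv h U) u s ≤ L :=
    ⟨_, rfl⟩
  have hgood : (U.card : ℝ) / 2 ≤ ∑ s ∈ U, ∑ u : Fin n → G, W h u * (if gd u s then (1 : ℝ) else 0) := by
    rw [div_le_iff₀ hU0] at hbad2
    have h1 : ∑ s ∈ U, ∑ u : Fin n → G, W h u * (1 - (if 4 * M < E u then (1 : ℝ) else 0) -
        (if L < Zr h (conv h U) u s then (1 : ℝ) else 0)) ≤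
        ∑ s ∈ U, ∑ u : Fin n → G, W h u * (if gd u s then (1 : ℝ) else 0) := by
      refine sum_le_sum fun s _ => sum_le_sum fun u _ => mul_le_mul_of_nonneg_left ?_ (W_nonneg hh u)
      rw [hgd]
      dsimp only
      by_cases h2 : E u ≤ 4 * M
      · have a2 : ¬ 4 * M < E u := not_lt.2 h2
        by_cases h3 : Zr h (conv h U) u s ≤ L
        · have a3 : ¬ L < Zr h (conv h U) u s := not_lt.2 h3
          simp [h2, h3, a2, a3]
        · have a3 : L < Zr h (conv h U) u s := not_le.1 h3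
          simp [h3, a2, a3]
      · have a2 : 4 * M < E u := not_le.1 h2
        by_cases h3 : Zr h (conv h U) u s ≤ L
        · have a3 : ¬ L < Zr h (conv h U) u s := not_lt.2 h3
          simp [h2, a2, a3]
        · have a3 : L < Zr h (conv h U) u s := not_le.1 h3
          simp [h2, a2, a3]
    refine le_trans ?_ h1
    have h4 : ∑ s ∈ U, ∑ u : Fin n → G, W h u * (1 - (if 4 * M < E u then (1 : ℝ) else 0) -
        (if L < Zr h (conv h U) u s then (1 : ℝ) else 0)) =
        U.card * 1 - U.card * (∑ u : Fin n → G, W h u * (if 4 * M < E u then (1 : ℝ) else 0)) -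
        ∑ s ∈ U, ∑ u : Fin n → G, W h u * (if L < Zr h (conv h U) u s then (1 : ℝ) else 0) := by
      simp_rw [mul_sub, sum_sub_distrib, mul_one, sum_W hh, sum_const, nsmul_eq_mul]
      ring
    rw [h4]
    have h5 : (U.card : ℝ) * (∑ u : Fin n → G, W h u * (if 4 * M < E u then (1 : ℝ) else 0)) ≤ U.card * (1 / 4) :=
      mul_le_mul_of_nonneg_left hbad1 hU0.le
    linarith
  -- change of variables
  obtain ⟨T, hT⟩ : ∃ T : (Fin n → G) → Finset G, T = fun w => U.filter fun s => E (fun i => w i - s) ≤ 4 * M :=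
    ⟨_, rfl⟩
  have hlaw' := isLaw_conv hh hU
  have hkey : (U.card : ℝ) / 2 ≤ ∑ w : Fin n → G, W (conv h U) w * (Real.exp L * (T w).card) := by
    refine hgood.trans ?_
    have h1 : ∀ s ∈ U, ∑ u : Fin n → G, W h u * (if gd u s then (1 : ℝ) else 0) ≤
        ∑ w : Fin n → G, W (conv h U) w * (Real.exp L * (if E (fun i => w i - s) ≤ 4 * M then (1 : ℝ) else 0)) := by
      intro s hs
      have h2 : ∑ w : Fin n → G, W (conv h U) w *
          (Real.exp L * (if E (fun i => w i - s) ≤ 4 * M then (1 : ℝ) else 0)) =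
          ∑ u : Fin n → G, W (conv h U) (fun i => u i + s) *
            (Real.exp L * (if E u ≤ 4 * M then (1 : ℝ) else 0)) := by
        rw [← Equiv.sum_comp (Equiv.addRight (fun _ : Fin n => s))]
        refine sum_congr rfl fun u _ => ?_
        have e1 : (Equiv.addRight (fun _ : Fin n => s)) u = fun i => u i + s := rfl
        rw [e1]
        have e2 : (fun i => u i + s - s) = u := by funext i; abel
        rw [e2]
      rw [h2]
      refine sum_le_sum fun u _ => ?_
      by_cases hg : gd u s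
      · rw [if_pos hg]
        rw [hgd] at hg
        rw [if_pos hg.1, mul_one, mul_one]
        by_cases hpos : ∀ i, 0 < h (u i)
        · have h3 : W h u = W (conv h U) (fun i => u i + s) * Real.exp (Zr h (conv h U) u s) := by
            unfold W Zr
            rw [Real.exp_sum, ← prod_mul_distrib]
            refine prod_congr rfl fun i _ => ?_
            have h4 := conv_pos hh hs (hpos i)
            rw [Real.exp_sub, Real.exp_log h4, Real.exp_log (hpos i)]
            field_simp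
          rw [h3]
          exact mul_le_mul_of_nonneg_left (Real.exp_le_exp.2 hg.2) (W_nonneg hlaw' _)
        · push Not at hpos
          obtain ⟨i, hi⟩ := hpos
          have h3 : W h u = 0 := prod_eq_zero (mem_univ i) (le_antisymm hi (hh.nonneg _))
          rw [h3]
          exact mul_nonneg (W_nonneg hlaw' _) (Real.exp_pos L).le
      · rw [if_neg hg, mul_zero]
        refine mul_nonneg (W_nonneg hlaw' _) (mul_nonneg (Real.exp_pos L).le ?_)
        split_ifs <;> norm_num
    refine (sum_le_sum h1).trans (le_of_eq ?_)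
    rw [sum_comm]
    refine sum_congr rfl fun w _ => ?_
    rw [← mul_sum, ← mul_sum]
    congr 2
    rw [hT]
    simp only [card_filter, Nat.cast_sum, Nat.cast_ite, Nat.cast_one, Nat.cast_zero]
  -- one good tuple
  obtain ⟨w, hw⟩ : ∃ w : Fin n → G, (U.card : ℝ) / 2 ≤ Real.exp L * (T w).card := by
    by_contra hcon
    push Not at hcon
    have h1 : ∑ w : Fin n → G, W (conv h U) w * (Real.exp L * (T w).card) <
        ∑ w : Fin n → G, W (conv h U) w * ((U.card : ℝ) / 2) := by
      have hex : ∃ w : Fin n → G, 0 < W (conv h U) w := by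
        by_contra hno
        push Not at hno
        have h2 : ∑ w : Fin n → G, W (conv h U) w ≤ 0 := sum_nonpos fun w _ => hno w
        rw [sum_W hlaw'] at h2
        linarith
      obtain ⟨w₀, hw₀⟩ := hex
      refine sum_lt_sum (fun w _ => mul_le_mul_of_nonneg_left (hcon w).le (W_nonneg hlaw' w)) ⟨w₀, mem_univ _, ?_⟩
      exact mul_lt_mul_of_pos_left (hcon w₀) hw₀
    rw [← sum_mul, sum_W hlaw', one_mul] at h1
    linarith
  refine ⟨w, T w, ?_, ?_, ?_⟩
  · rw [hT]
    exact filter_subset _ _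
  · rw [← hL]
    linarith
  · intro s hs
    rw [hT] at hs
    have h1 := (mem_filter.1 hs).2
    rw [hE] at h1
    dsimp only at h1
    rw [← hM]
    refine le_trans (le_of_eq ?_) h1
    rw [← Equiv.sum_comp (Equiv.addRight s) (fun x => (Fa S (fun i => w i - s) x - Fl h S x) ^ (2 * m))]
    refine sum_congr rfl fun x _ => ?_
    rw [Equiv.coe_addRight, Fa_shift]

/-- **the Croot-Sisask step** -/
theorem cs_step {h : G → ℝ} (hh : IsLaw h) (X S U : Finset G) (hX : X.Nonempty) (hS : S.Nonempty)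
    (hU : U.Nonempty) (K η θ : ℝ) (hSK : (S.card : ℝ) ≤ K * X.card)
    (hη0 : 0 ≤ η) (hη : Ent (conv h U) - Ent h ≤ η) (m n : ℕ) (hm : 1 ≤ m) (hmn : m ≤ n) (hθ : 0 ≤ θ)
    (hnum : 2 ^ (2 * m) * (4 * ((12 * m / n : ℝ) ^ m * K)) ≤ θ ^ (2 * m)) :
    ∃ T : Finset G, T ⊆ U ∧ (U.card : ℝ) ≤ 2 * Real.exp (4 * (n * η + 1)) * T.card ∧
      ∀ s ∈ T, ∀ s' ∈ T, ∀ y, |Gl h X S (y + s - s') - Gl h X S y| ≤ θ := by
  obtain ⟨w, T, hTU, hTc, hT⟩ := cs_core hh S U hS hU η hη0 hη m n hm hmn
  refine ⟨T, hTU, hTc, ?_⟩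
  intro s hs s' hs' y
  have hX0 : (0 : ℝ) < X.card := by exact_mod_cast hX.card_pos
  have h1 := hT s hs
  have h2 := hT s' hs'
  have h3 : ∑ x, (Fl h S (x + s) - Fl h S (x + s')) ^ (2 * m) ≤
      ∑ x, 2 ^ (2 * m - 1) * ((Fa S w x - Fl h S (x + s)) ^ (2 * m) +
        (Fa S w x - Fl h S (x + s')) ^ (2 * m)) := by
    refine sum_le_sum fun x _ => ?_
    have h4 := pow_add_le (-(Fa S w x - Fl h S (x + s))) (Fa S w x - Fl h S (x + s')) m
    have h5 : -(Fa S w x - Fl h S (x + s)) + (Fa S w x - Fl h S (x + s')) =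
        Fl h S (x + s) - Fl h S (x + s') := by ring
    rw [h5, Even.neg_pow ⟨m, by ring⟩] at h4
    exact h4
  rw [← mul_sum, sum_add_distrib] at h3
  have h6 : (2 : ℝ) ^ (2 * m) = 2 ^ (2 * m - 1) * 2 := by
    rw [← pow_succ]
    congr 1
    omega
  have h7 : ∑ x, (Fl h S (x + s) - Fl h S (x + s')) ^ (2 * m) ≤
      2 ^ (2 * m) * (4 * ((12 * m / n : ℝ) ^ m * S.card)) := by
    calc ∑ x, (Fl h S (x + s) - Fl h S (x + s')) ^ (2 * m)
        ≤ 2 ^ (2 * m - 1) * (∑ x, (Fa S w x - Fl h S (x + s)) ^ (2 * m) +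
          ∑ x, (Fa S w x - Fl h S (x + s')) ^ (2 * m)) := h3
      _ ≤ 2 ^ (2 * m - 1) * (4 * ((12 * m / n : ℝ) ^ m * S.card) + 4 * ((12 * m / n : ℝ) ^ m * S.card)) :=
          mul_le_mul_of_nonneg_left (by linarith) (by positivity)
      _ = _ := by rw [h6]; ring
  have h8 : (Gl h X S (y + s - s') - Gl h X S y) ^ (2 * m) ≤
      (∑ x, (Fl h S (x + s) - Fl h S (x + s')) ^ (2 * m)) / X.card := by
    have e : Gl h X S (y + s - s') - Gl h X S y =
        ∑ x ∈ X, (1 / (X.card : ℝ)) * (Fl h S ((x + y - s') + s) - Fl h S ((x + y - s') + s')) := by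
      unfold Gl
      rw [← mul_sum, sum_sub_distrib, ← sub_div, one_div, inv_mul_eq_div]
      congr 2
      · refine sum_congr rfl fun x _ => ?_
        congr 1
        abel
      · refine sum_congr rfl fun x _ => ?_
        congr 1
        abel
    rw [e]
    have h9 := Real.pow_arith_mean_le_arith_mean_pow_of_even X (fun _ => 1 / (X.card : ℝ))
      (fun x => Fl h S ((x + y - s') + s) - Fl h S ((x + y - s') + s')) (fun _ _ => by positivity)
      (by rw [sum_const, nsmul_eq_mul]; field_simp) (n := 2 * m) (even_two_mul m)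
    refine h9.trans ?_
    rw [← mul_sum, one_div, inv_mul_eq_div]
    refine div_le_div_of_nonneg_right ?_ hX0.le
    have hinj : Set.InjOn (fun x : G => x + y - s') (X : Set G) := by
      intro a _ b _ hab
      simpa using hab
    have e2 : ∑ x ∈ X, (Fl h S ((x + y - s') + s) - Fl h S ((x + y - s') + s')) ^ (2 * m) =
        ∑ z ∈ X.image (fun x : G => x + y - s'), (Fl h S (z + s) - Fl h S (z + s')) ^ (2 * m) :=
      (sum_image (f := fun z => (Fl h S (z + s) - Fl h S (z + s')) ^ (2 * m)) hinj).symm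
    rw [e2]
    refine sum_le_sum_of_subset_of_nonneg (subset_univ _) fun z _ _ => ?_
    exact (even_two_mul m).pow_nonneg _
  have h10 : (Gl h X S (y + s - s') - Gl h X S y) ^ (2 * m) ≤ θ ^ (2 * m) := by
    refine h8.trans ?_
    rw [div_le_iff₀ hX0]
    refine h7.trans ?_
    calc 2 ^ (2 * m) * (4 * ((12 * m / n : ℝ) ^ m * S.card))
        ≤ 2 ^ (2 * m) * (4 * ((12 * m / n : ℝ) ^ m * (K * X.card))) := by gcongr
      _ = (2 ^ (2 * m) * (4 * ((12 * m / n : ℝ) ^ m * K))) * X.card := by ring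
      _ ≤ θ ^ (2 * m) * X.card := mul_le_mul_of_nonneg_right hnum hX0.le
  by_contra hcon
  push Not at hcon
  have h11 : θ ^ (2 * m) < |Gl h X S (y + s - s') - Gl h X S y| ^ (2 * m) :=
    pow_lt_pow_left₀ hcon hθ (by omega)
  rw [(even_two_mul m).pow_abs] at h11
  exact absurd h10 (not_le.2 h11)

end Pool.Agent.V8H19.AP
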