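import Pool.Agent.V8H19.AP.CS

/-!
# The chain of almost periods

Starting with the uniform law on `Y`, the law is smoothed again and again by differences of almost periods found in
the previous steps; the increments of the entropy of the smoothed laws have a bounded sum, and so most of them are
small. The result is a set `T` of translations, all of whose differences change the mean `Gl h X S` of a law `h` by at
most `ε / 16^J`, and with `|S₀| ≤ exp (O(m (1 + log K₂) 16^J / ε²)) |T|`: the exponent is linear in `16^J`, and not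
quadratic as in the argument of Croot and Sisask.
-/

set_option autoImplicit false
set_option linter.unusedSectionVars false

namespace Pool.Agent.V8H19.AP

open Finset
open scoped Pointwise

variable {G : Type} [AddCommGroup G] [Fintype G] [DecidableEq G]

/-- the entropy is at most the logarithm of the number of elements of the support -/
theorem Ent_le {h : G → ℝ} (hh : IsLaw h) (R : Finset G) (hR : ∀ x, h x ≠ 0 → x ∈ R) :
    Ent h ≤ Real.log R.card := by
  have hRne : R.Nonempty := by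
    by_contra hne
    rw [not_nonempty_iff_eq_empty] at hne
    have : ∑ x, h x = 0 := sum_eq_zero fun x _ => by
      by_contra hx
      have := hR x hx
      rw [hne] at this
      exact absurd this (notMem_empty x)
    rw [hh.sum_one] at this
    exact one_ne_zero this
  have hR0 : (0 : ℝ) < R.card := by exact_mod_cast hRne.card_pos
  have h1 : Ent h = ∑ x ∈ R, Real.negMulLog (h x) := by
    unfold Ent
    symm
    apply sum_subset (subset_univ R)
    intro x _ hx
    have : h x = 0 := by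
      by_contra h0
      exact hx (hR x h0)
    rw [this, Real.negMulLog_zero]
  have h2 : ∑ x ∈ R, h x = 1 := by
    rw [← hh.sum_one]
    apply sum_subset (subset_univ R)
    intro x _ hx
    by_contra h0
    exact hx (hR x h0)
  rw [h1]
  have h3 : ∀ x ∈ R, Real.negMulLog (h x) ≤ h x * Real.log R.card + ((R.card : ℝ)⁻¹ - h x) := by
    intro x _
    rcases (hh.nonneg x).eq_or_lt with h0 | h0
    · rw [← h0, Real.negMulLog_zero]
      simp only [zero_mul, sub_zero, zero_add]
      positivity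
    · have h4 := Real.log_le_sub_one_of_pos (show 0 < (R.card : ℝ)⁻¹ / h x by positivity)
      rw [Real.log_div (by positivity) h0.ne', Real.log_inv] at h4
      rw [Real.negMulLog]
      have h5 := mul_le_mul_of_nonneg_left h4 h0.le
      have h6 : h x * ((R.card : ℝ)⁻¹ / h x - 1) = (R.card : ℝ)⁻¹ - h x := by
        field_simp
      rw [h6] at h5
      linarith
  calc ∑ x ∈ R, Real.negMulLog (h x) ≤ ∑ x ∈ R, (h x * Real.log R.card + ((R.card : ℝ)⁻¹ - h x)) := sum_le_sum h3
    _ = Real.log R.card := by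
      rw [sum_add_distrib, sum_sub_distrib, ← sum_mul, h2, sum_const, nsmul_eq_mul, mul_inv_cancel₀ hR0.ne']
      ring

/-- a law with small masses has large entropy -/
theorem Ent_ge {h : G → ℝ} (hh : IsLaw h) (c : ℝ) (hle : ∀ x, h x ≤ 1 / c) : Real.log c ≤ Ent h := by
  rw [Ent_eq]
  have h1 : ∀ x, h x * Real.log (h x) ≤ h x * (-Real.log c) := by
    intro x
    rcases (hh.nonneg x).eq_or_lt with h0 | h0
    · rw [← h0]; simp
    · refine mul_le_mul_of_nonneg_left ?_ h0.le
      rw [← Real.log_inv, ← one_div]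
      exact Real.log_le_log h0 (hle x)
  have h2 : ∑ x, h x * Real.log (h x) ≤ ∑ x, h x * (-Real.log c) := sum_le_sum fun x _ => h1 x
  rw [← sum_mul, hh.sum_one, one_mul] at h2
  linarith

/-- the uniform law on `Y` -/
noncomputable def uf (Y : Finset G) (x : G) : ℝ := if x ∈ Y then 1 / (Y.card : ℝ) else 0

theorem isLaw_uf {Y : Finset G} (hY : Y.Nonempty) : IsLaw (uf Y) := by
  have hY0 : (0 : ℝ) < Y.card := by exact_mod_cast hY.card_pos
  constructor
  · intro x
    unfold uf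
    split_ifs <;> positivity
  · unfold uf
    rw [sum_ite_mem, univ_inter, sum_const, nsmul_eq_mul]
    field_simp

theorem uf_le (Y : Finset G) (x : G) : uf Y x ≤ 1 / (Y.card : ℝ) := by
  unfold uf
  split_ifs
  · exact le_rfl
  · positivity

/-- the `j`-th smoothing -/
noncomputable def cn (h : G → ℝ) (U : Finset G) : ℕ → G → ℝ
  | 0 => h
  | j + 1 => conv (cn h U j) U

theorem isLaw_cn {h : G → ℝ} (hh : IsLaw h) {U : Finset G} (hU : U.Nonempty) (j : ℕ) : IsLaw (cn h U j) := by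
  induction j with
  | zero => exact hh
  | succ j ih => exact isLaw_conv ih hU

theorem conv_le {h : G → ℝ} {U : Finset G} (hU : U.Nonempty) (c : ℝ) (hc : ∀ x, h x ≤ c) (x : G) :
    conv h U x ≤ c := by
  have hU0 : (0 : ℝ) < U.card := by exact_mod_cast hU.card_pos
  unfold conv
  rw [div_le_iff₀ hU0]
  calc ∑ s ∈ U, h (x - s) ≤ ∑ s ∈ U, c := sum_le_sum fun s _ => hc _
    _ = c * U.card := by rw [sum_const, nsmul_eq_mul]; ring

theorem cn_le {h : G → ℝ} {U : Finset G} (hU : U.Nonempty) (c : ℝ) (hc : ∀ x, h x ≤ c) (j : ℕ) (x : G) :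
    cn h U j x ≤ c := by
  induction j generalizing x with
  | zero => exact hc x
  | succ j ih => exact conv_le hU c ih x

theorem conv_supp {h : G → ℝ} {U : Finset G} {x : G} (hx : conv h U x ≠ 0) : ∃ s ∈ U, h (x - s) ≠ 0 := by
  by_contra hcon
  push Not at hcon
  apply hx
  unfold conv
  rw [sum_eq_zero hcon, zero_div]

theorem cn_supp {h : G → ℝ} {U : Finset G} (j : ℕ) {x : G} (hx : cn h U j x ≠ 0) :
    ∃ t ∈ j • U, h (x - t) ≠ 0 := by
  induction j generalizing x with
  | zero => exact ⟨0, by simp, by simpa [cn] using hx⟩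
  | succ j ih =>
    obtain ⟨s, hs, h1⟩ := conv_supp hx
    obtain ⟨t, ht, h2⟩ := ih h1
    refine ⟨t + s, ?_, ?_⟩
    · rw [succ_nsmul]
      exact add_mem_add ht hs
    · rwa [add_comm t s, ← sub_sub]

theorem Gl_conv (h : G → ℝ) (X S U : Finset G) (y : G) :
    Gl (conv h U) X S y = (∑ s ∈ U, Gl h X S (y + s)) / U.card := by
  unfold Gl Fl
  have h1 : ∀ x : G, ∑ b, conv h U b * (if x + b ∈ S then (1 : ℝ) else 0) =
      (∑ s ∈ U, ∑ b, h b * (if x + (b + s) ∈ S then (1 : ℝ) else 0)) / U.card := fun x =>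
    sum_conv h U fun b => if x + b ∈ S then (1 : ℝ) else 0
  simp_rw [h1]
  rw [← sum_div, sum_comm, ← sum_div, div_div, div_div, mul_comm (U.card : ℝ)]
  congr 1
  refine sum_congr rfl fun s _ => sum_congr rfl fun x _ => sum_congr rfl fun b _ => ?_
  have : x + y + (b + s) = x + (y + s) + b := by abel
  rw [this]

theorem avg_le {U : Finset G} (hU : U.Nonempty) (f : G → ℝ) (c θ : ℝ) (h : ∀ s ∈ U, |f s - c| ≤ θ) :
    |(∑ s ∈ U, f s) / U.card - c| ≤ θ := by
  have hU0 : (0 : ℝ) < U.card := by exact_mod_cast hU.card_pos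
  have h1 : (∑ s ∈ U, f s) / U.card - c = (∑ s ∈ U, (f s - c)) / U.card := by
    rw [sum_sub_distrib, sum_const, nsmul_eq_mul, sub_div, mul_div_cancel_left₀ _ hU0.ne']
  rw [h1, abs_div, abs_of_pos hU0, div_le_iff₀ hU0]
  calc |∑ s ∈ U, (f s - c)| ≤ ∑ s ∈ U, |f s - c| := abs_sum_le_sum_abs _ _
    _ ≤ ∑ s ∈ U, θ := sum_le_sum h
    _ = θ * U.card := by rw [sum_const, nsmul_eq_mul]; ring

/-- smoothing preserves almost periods -/
theorem cn_per {h : G → ℝ} (X S : Finset G) {U : Finset G} (hU : U.Nonempty) (t : G) (θ : ℝ)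
    (hp : ∀ y, |Gl h X S (y + t) - Gl h X S y| ≤ θ) (j : ℕ) :
    ∀ y, |Gl (cn h U j) X S (y + t) - Gl (cn h U j) X S y| ≤ θ := by
  have hU0 : (0 : ℝ) < U.card := by exact_mod_cast hU.card_pos
  induction j with
  | zero => exact hp
  | succ j ih =>
    intro y
    show |Gl (conv (cn h U j) U) X S (y + t) - Gl (conv (cn h U j) U) X S y| ≤ θ
    rw [Gl_conv, Gl_conv, ← sub_div, ← sum_sub_distrib]
    have := avg_le hU (fun s => Gl (cn h U j) X S (y + t + s) - Gl (cn h U j) X S (y + s)) 0 θ (fun s _ => by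
      rw [sub_zero]
      have := ih (y + s)
      rwa [show y + s + t = y + t + s by abel] at this)
    simpa using this

/-- smoothing by almost periods changes little -/
theorem cn_close {h : G → ℝ} (X S : Finset G) {U : Finset G} (hU : U.Nonempty) (θ : ℝ)
    (hp : ∀ s ∈ U, ∀ y, |Gl h X S (y + s) - Gl h X S y| ≤ θ) (j : ℕ) (y : G) :
    |Gl (cn h U j) X S y - Gl h X S y| ≤ j * θ := by
  induction j with
  | zero => simp [cn]
  | succ j ih =>
    have h1 : |Gl (cn h U (j + 1)) X S y - Gl (cn h U j) X S y| ≤ θ := by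
      show |Gl (conv (cn h U j) U) X S y - Gl (cn h U j) X S y| ≤ θ
      rw [Gl_conv]
      exact avg_le hU _ _ θ fun s hs => cn_per X S hU s θ (hp s hs) j y
    calc |Gl (cn h U (j + 1)) X S y - Gl h X S y|
        = |(Gl (cn h U (j + 1)) X S y - Gl (cn h U j) X S y) + (Gl (cn h U j) X S y - Gl h X S y)| := by
          ring_nf
      _ ≤ θ + j * θ := (abs_add_le _ _).trans (add_le_add h1 ih)
      _ = ((j + 1 : ℕ) : ℝ) * θ := by push_cast; ring

/-- a sum of `j` almost periods -/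
theorem sum_per {h : G → ℝ} (X S : Finset G) {U : Finset G} (θ : ℝ)
    (hp : ∀ s ∈ U, ∀ y, |Gl h X S (y + s) - Gl h X S y| ≤ θ) (j : ℕ) (t : G) (ht : t ∈ j • U) (y : G) :
    |Gl h X S (y + t) - Gl h X S y| ≤ j * θ := by
  induction j generalizing t y with
  | zero =>
    rw [zero_nsmul] at ht
    rw [mem_zero.1 ht]
    simp
  | succ j ih =>
    rw [succ_nsmul] at ht
    obtain ⟨a, ha, b, hb, rfl⟩ := mem_add.1 ht
    have h1 := ih a ha y
    have h2 := hp b hb (y + a)
    rw [← add_assoc]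
    calc |Gl h X S (y + a + b) - Gl h X S y|
        = |(Gl h X S (y + a + b) - Gl h X S (y + a)) + (Gl h X S (y + a) - Gl h X S y)| := by ring_nf
      _ ≤ θ + j * θ := (abs_add_le _ _).trans (add_le_add h2 h1)
      _ = ((j + 1 : ℕ) : ℝ) * θ := by push_cast; ring

/-- one of the increments of the entropy is small -/
theorem pigeon_ent {h : G → ℝ} (hh : IsLaw h) {U : Finset G} (hU : U.Nonempty) (c : ℝ) (hc : 0 < c)
    (hle : ∀ x, h x ≤ 1 / c) (R : Finset G) (K : ℝ) (hRK : (R.card : ℝ) ≤ K * c) (hK : 1 ≤ K) (M : ℕ) (hM : 1 ≤ M)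
    (hR : ∀ x, cn h U M x ≠ 0 → x ∈ R) :
    ∃ j < M, Ent (conv (cn h U j) U) - Ent (cn h U j) ≤ Real.log K / M := by
  have hM0 : (0 : ℝ) < M := by exact_mod_cast hM
  by_contra hcon
  push Not at hcon
  have h1 : ∑ j ∈ range M, Real.log K / M < ∑ j ∈ range M, (Ent (cn h U (j + 1)) - Ent (cn h U j)) :=
    sum_lt_sum_of_nonempty ⟨0, mem_range.2 hM⟩ fun j hj => hcon j (mem_range.1 hj)
  rw [sum_const, card_range, nsmul_eq_mul, mul_div_cancel₀ _ hM0.ne', sum_range_sub (fun j => Ent (cn h U j))] at h1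
  have h2 := Ent_ge hh c hle
  have h3 := Ent_le (isLaw_cn hh hU M) R hR
  have hR0 : (0 : ℝ) < R.card := by
    have : R.Nonempty := by
      by_contra hne
      rw [not_nonempty_iff_eq_empty] at hne
      have h4 : ∑ x, cn h U M x = 0 := sum_eq_zero fun x _ => by
        by_contra hx
        have := hR x hx
        rw [hne] at this
        exact absurd this (notMem_empty x)
      rw [(isLaw_cn hh hU M).sum_one] at h4
      exact one_ne_zero h4
    exact_mod_cast this.card_pos
  have h4 : Real.log R.card ≤ Real.log K + Real.log c := by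
    rw [← Real.log_mul (by linarith) hc.ne']
    exact Real.log_le_log hR0 hRK
  have h5 : cn h U 0 = h := rfl
  rw [h5] at h1
  linarith

/-- the number of samples -/
theorem exists_n (K θ : ℝ) (m : ℕ) (hm : 1 ≤ m) (hK : 1 ≤ K) (hmK : Real.log (4 * K) ≤ m) (hθ : 0 < θ)
    (hθ1 : θ ≤ 1) : ∃ n : ℕ, m ≤ n ∧ (n : ℝ) ≤ 145 * m / θ ^ 2 ∧
      2 ^ (2 * m) * (4 * ((12 * m / n : ℝ) ^ m * K)) ≤ θ ^ (2 * m) := by
  have hmR : (1 : ℝ) ≤ m := by exact_mod_cast hm
  have hθ2 : 0 < θ ^ 2 := by positivity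
  have hθ21 : θ ^ 2 ≤ 1 := pow_le_one₀ hθ.le hθ1
  have h144 : (m : ℝ) ≤ 144 * m / θ ^ 2 := by
    rw [le_div_iff₀ hθ2]
    nlinarith
  refine ⟨⌈144 * m / θ ^ 2⌉₊, ?_, ?_, ?_⟩
  · have := Nat.le_ceil (144 * (m : ℝ) / θ ^ 2)
    exact_mod_cast h144.trans this
  · have := (Nat.ceil_lt_add_one (by positivity : 0 ≤ 144 * (m : ℝ) / θ ^ 2)).le
    refine this.trans ?_
    rw [← sub_nonneg]
    have : 145 * (m : ℝ) / θ ^ 2 - (144 * m / θ ^ 2 + 1) = (m - θ ^ 2) / θ ^ 2 := by
      field_simp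
      ring
    rw [this]
    apply div_nonneg _ hθ2.le
    linarith
  · obtain ⟨n, hn⟩ : ∃ n : ℕ, n = ⌈144 * (m : ℝ) / θ ^ 2⌉₊ := ⟨_, rfl⟩
    rw [← hn]
    have h1 : 144 * (m : ℝ) / θ ^ 2 ≤ n := by rw [hn]; exact Nat.le_ceil _
    have hn0 : (0 : ℝ) < n := lt_of_lt_of_le (by positivity) h1
    have h2 : 12 * (m : ℝ) / n ≤ θ ^ 2 / 12 := by
      rw [div_le_div_iff₀ hn0 (by norm_num)]
      rw [div_le_iff₀ hθ2] at h1
      linarith
    have h3 : 4 * K ≤ 3 ^ m := by
      have h4 : 4 * K ≤ Real.exp m := by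
        rw [← Real.log_le_iff_le_exp (by linarith)]
        exact hmK
      have h5 : Real.exp m = Real.exp 1 ^ m := by rw [← Real.exp_nat_mul, mul_one]
      rw [h5] at h4
      refine h4.trans (pow_le_pow_left₀ (Real.exp_pos 1).le ?_ m)
      linarith [Real.exp_one_lt_d9]
    calc 2 ^ (2 * m) * (4 * ((12 * m / n : ℝ) ^ m * K)) = 2 ^ (2 * m) * ((12 * m / n : ℝ) ^ m * (4 * K)) := by ring
      _ ≤ 2 ^ (2 * m) * ((θ ^ 2 / 12) ^ m * 3 ^ m) := by gcongr
      _ = θ ^ (2 * m) := by
        rw [← mul_pow, pow_mul, ← mul_pow, pow_mul]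
        congr 1
        ring

/-- **the chain** -/
theorem chain (X Y S S₀ R R₀ : Finset G) (hX : X.Nonempty) (hY : Y.Nonempty) (hS : S.Nonempty) (hS₀ : S₀.Nonempty)
    (K K₂ ε : ℝ) (m J : ℕ) (hm : 1 ≤ m) (hK : 1 ≤ K) (hmK : Real.log (4 * K) ≤ m) (hSK : (S.card : ℝ) ≤ K * X.card)
    (hK₂ : 1 ≤ K₂) (hε : 0 < ε) (hε1 : ε ≤ 1)
    (hR₀ : ∀ y ∈ Y, ∀ s ∈ S₀, y + s ∈ R₀) (hR₀c : (R₀.card : ℝ) ≤ K₂ * Y.card)
    (hR : ∀ y ∈ Y, ∀ t ∈ (16 ^ J) • (S₀ - S₀),
      (∀ z, |Gl (uf Y) X S (z + t) - Gl (uf Y) X S z| ≤ 3 * ε) → y + t ∈ R)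
    (hRc : (R.card : ℝ) ≤ K₂ * Y.card) :
    ∃ (h : G → ℝ) (T : Finset G), IsLaw h ∧ T ⊆ S₀ ∧ T.Nonempty ∧
      (S₀.card : ℝ) ≤ Real.exp (20000 * m * (1 + Real.log K₂) * 16 ^ J / ε ^ 2) * T.card ∧
      (∀ s ∈ T, ∀ s' ∈ T, ∀ y, |Gl h X S (y + s - s') - Gl h X S y| ≤ ε / 16 ^ J) ∧
      ∀ y, |Gl h X S y - Gl (uf Y) X S y| ≤ ε := by
  have hmR : (1 : ℝ) ≤ m := by exact_mod_cast hm
  have hY0 : (0 : ℝ) < Y.card := by exact_mod_cast hY.card_pos
  have hl2 : 0 ≤ Real.log K₂ := Real.log_nonneg hK₂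
  have hε2 : 0 < ε ^ 2 := by positivity
  have hε21 : ε ^ 2 ≤ 1 := pow_le_one₀ hε.le hε1
  obtain ⟨A, hA⟩ : ∃ A : ℝ, A = 10000 * m * (1 + Real.log K₂) / ε ^ 2 := ⟨_, rfl⟩
  have hA5 : 9280 * m * Real.log K₂ / ε ^ 2 + 5 ≤ A := by
    rw [hA, div_add' _ _ _ hε2.ne', div_le_div_iff_of_pos_right hε2]
    nlinarith [mul_nonneg (by linarith : (0 : ℝ) ≤ m) hl2]
  have hA0 : 0 < A := by
    have : 0 ≤ 9280 * m * Real.log K₂ / ε ^ 2 := by positivity
    linarith
  obtain ⟨D, hD⟩ : ∃ D : Finset G, D = S₀ - S₀ := ⟨_, rfl⟩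
  have hD0 : (0 : G) ∈ D := by
    obtain ⟨s, hs⟩ := hS₀
    rw [hD, ← sub_self s]
    exact sub_mem_sub hs hs
  have hDmono : ∀ a b : ℕ, a ≤ b → a • D ⊆ b • D := fun a b hab => nsmul_subset_nsmul_right hD0 hab
  -- the state after `i` steps
  have main : ∀ i : ℕ, i ≤ J → ∃ (h : G → ℝ) (T : Finset G), IsLaw h ∧ (∀ x, h x ≤ 1 / (Y.card : ℝ)) ∧
      T ⊆ S₀ ∧ T.Nonempty ∧ (S₀.card : ℝ) ≤ Real.exp (2 * A * 4 ^ J * 4 ^ i) * T.card ∧
      (∀ s ∈ T, ∀ s' ∈ T, ∀ y, |Gl h X S (y + s - s') - Gl h X S y| ≤ ε / (2 ^ J * 8 ^ i)) ∧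
      (∀ y, |Gl h X S y - Gl (uf Y) X S y| ≤ ε * 2 ^ i / 2 ^ J) ∧
      (∀ x, h x ≠ 0 → ∃ y ∈ Y, ∃ t ∈ (16 ^ i) • D,
        (∀ z, |Gl (uf Y) X S (z + t) - Gl (uf Y) X S z| ≤ 3 * ε * 2 ^ i / 2 ^ J) ∧ x = y + t) := by
    intro i
    induction i with
    | zero =>
      intro _
      have hη : Ent (conv (uf Y) S₀) - Ent (uf Y) ≤ Real.log K₂ := by
        have h1 := Ent_ge (isLaw_uf hY) _ (uf_le Y)
        have h2 := Ent_le (isLaw_conv (isLaw_uf hY) hS₀) R₀ (fun x hx => by
          obtain ⟨s, hs, h3⟩ := conv_supp hx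
          have h4 : x - s ∈ Y := by
            by_contra h5
            apply h3
            unfold uf
            rw [if_neg h5]
          have := hR₀ _ h4 s hs
          rwa [sub_add_cancel] at this)
        have hR₀0 : (0 : ℝ) < R₀.card := by
          obtain ⟨y, hy⟩ := hY
          obtain ⟨s, hs⟩ := hS₀
          exact_mod_cast card_pos.2 ⟨_, hR₀ y hy s hs⟩
        have h3 : Real.log R₀.card ≤ Real.log K₂ + Real.log Y.card := by
          rw [← Real.log_mul (by linarith) hY0.ne']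
          exact Real.log_le_log hR₀0 hR₀c
        linarith
      have hθ0 : 0 < ε / 2 ^ J := by positivity
      have hθ1 : ε / 2 ^ J ≤ 1 := by
        rw [div_le_one (by positivity)]
        exact hε1.trans (one_le_pow₀ (by norm_num))
      obtain ⟨n, hmn, hn1, hn2⟩ := exists_n K (ε / 2 ^ J) m hm hK hmK hθ0 hθ1
      obtain ⟨T, hT1, hT2, hT3⟩ := cs_step (isLaw_uf hY) X S S₀ hX hS hS₀ K (Real.log K₂) (ε / 2 ^ J) hSK hl2 hη
        m n hm hmn hθ0.le hn2
      have hTne : T.Nonempty := by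
        rw [nonempty_iff_ne_empty]
        rintro rfl
        simp only [card_empty, Nat.cast_zero, mul_zero] at hT2
        have : (0 : ℝ) < S₀.card := by exact_mod_cast hS₀.card_pos
        linarith
      refine ⟨uf Y, T, isLaw_uf hY, uf_le Y, hT1, hTne, ?_, ?_, ?_, ?_⟩
      · refine hT2.trans (mul_le_mul_of_nonneg_right ?_ (Nat.cast_nonneg _))
        have e2 : (2 : ℝ) ≤ Real.exp 1 := by linarith [Real.add_one_le_exp (1 : ℝ)]
        calc 2 * Real.exp (4 * (n * Real.log K₂ + 1)) ≤ Real.exp 1 * Real.exp (4 * (n * Real.log K₂ + 1)) := by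
              gcongr
          _ = Real.exp (1 + 4 * (n * Real.log K₂ + 1)) := by rw [Real.exp_add]
          _ ≤ _ := by
            apply Real.exp_le_exp.2
            have h1 : (n : ℝ) * Real.log K₂ ≤ 145 * m / (ε / 2 ^ J) ^ 2 * Real.log K₂ := by gcongr
            have h2 : 145 * (m : ℝ) / (ε / 2 ^ J) ^ 2 * Real.log K₂ = 145 * m * Real.log K₂ / ε ^ 2 * 4 ^ J := by
              rw [div_pow, ← pow_mul, mul_comm J 2, pow_mul]
              norm_num
              field_simp
            rw [h2] at h1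
            have h4J : (1 : ℝ) ≤ 4 ^ J := one_le_pow₀ (by norm_num)
            have h5 : 0 ≤ 145 * (m : ℝ) * Real.log K₂ / ε ^ 2 := by positivity
            have h6 : 4 * (145 * (m : ℝ) * Real.log K₂ / ε ^ 2) + 5 ≤ A := by
              have : 4 * (145 * (m : ℝ) * Real.log K₂ / ε ^ 2) ≤ 9280 * m * Real.log K₂ / ε ^ 2 := by
                have e : 9280 * (m : ℝ) * Real.log K₂ / ε ^ 2 = 64 * (145 * (m : ℝ) * Real.log K₂ / ε ^ 2) := by ring
                rw [e]; linarith
              linarith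
            rw [pow_zero, mul_one]
            calc 1 + 4 * ((n : ℝ) * Real.log K₂ + 1) ≤ 5 * 4 ^ J + 4 * (145 * (m : ℝ) * Real.log K₂ / ε ^ 2) * 4 ^ J := by
                  nlinarith
              _ = (4 * (145 * (m : ℝ) * Real.log K₂ / ε ^ 2) + 5) * 4 ^ J := by ring
              _ ≤ A * 4 ^ J := by gcongr
              _ ≤ 2 * A * 4 ^ J := by nlinarith
      · intro s hs s' hs' y
        rw [pow_zero, mul_one]
        exact hT3 s hs s' hs' y
      · intro y
        rw [sub_self, abs_zero]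
        positivity
      · intro x hx
        refine ⟨x, ?_, 0, ?_, ?_, by rw [add_zero]⟩
        · by_contra h5
          apply hx
          unfold uf
          rw [if_neg h5]
        · rw [pow_zero, one_nsmul]
          exact hD0
        · intro z
          rw [add_zero, sub_self, abs_zero]
          positivity
    | succ i ih =>
      intro hi
      obtain ⟨h, T, hh, hle, hTS, hTne, hTc, hTp, hcl, hsupp⟩ := ih (by omega)
      obtain ⟨s₀, hs₀⟩ := hTne
      obtain ⟨U, hU⟩ : ∃ U : Finset G, U = T.image fun s => s - s₀ := ⟨_, rfl⟩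
      have hUne : U.Nonempty := by rw [hU]; exact ⟨s₀ - s₀, mem_image_of_mem _ hs₀⟩
      have hUc : U.card = T.card := by
        rw [hU]
        exact card_image_of_injective _ (sub_left_injective)
      have hUD : U ⊆ D := by
        intro u hu
        rw [hU] at hu
        obtain ⟨s, hs, rfl⟩ := mem_image.1 hu
        rw [hD]
        exact sub_mem_sub (hTS hs) (hTS hs₀)
      obtain ⟨θ, hθ⟩ : ∃ θ : ℝ, θ = ε / (2 ^ J * 8 ^ i) := ⟨_, rfl⟩
      have hθ0 : 0 < θ := by rw [hθ]; positivity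
      rw [← hθ] at hTp
      have hUp : ∀ u ∈ U, ∀ y, |Gl h X S (y + u) - Gl h X S y| ≤ θ := by
        intro u hu y
        rw [hU] at hu
        obtain ⟨s, hs, rfl⟩ := mem_image.1 hu
        have := hTp s hs s₀ hs₀ y
        rwa [add_sub_assoc] at this
      obtain ⟨M, hM⟩ : ∃ M : ℕ, M = 16 ^ i := ⟨_, rfl⟩
      have hM1 : 1 ≤ M := by rw [hM]; exact Nat.one_le_pow _ _ (by norm_num)
      have hMθ : (M : ℝ) * θ = ε * 2 ^ i / 2 ^ J := by
        rw [hM, hθ]
        push_cast
        have : (16 : ℝ) ^ i = 2 ^ i * 8 ^ i := by rw [← mul_pow]; norm_num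
        rw [this]
        field_simp
      have h2i : ε * 2 ^ i / 2 ^ J + ε * 2 ^ i / 2 ^ J = ε * 2 ^ (i + 1) / 2 ^ J := by
        rw [pow_succ]; ring
      -- supports
      have hadm : ∀ (x : G) (j : ℕ), j ≤ M → cn h U j x ≠ 0 → ∃ y ∈ Y, ∃ t ∈ (16 ^ (i + 1)) • D,
          (∀ z, |Gl (uf Y) X S (z + t) - Gl (uf Y) X S z| ≤ 3 * ε * 2 ^ (i + 1) / 2 ^ J) ∧ x = y + t := by
        intro x j hj hx
        obtain ⟨t, ht, hxt⟩ := cn_supp j hx
        obtain ⟨y, hy, t', ht', hz, he⟩ := hsupp _ hxt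
        refine ⟨y, hy, t' + t, ?_, ?_, ?_⟩
        · have h1 : t ∈ j • D := nsmul_subset_nsmul_left hUD ht
          have h2 : t' + t ∈ (16 ^ i + j) • D := by
            rw [add_nsmul]
            exact add_mem_add ht' h1
          refine hDmono _ _ ?_ h2
          rw [pow_succ]
          rw [hM] at hj
          omega
        · intro z
          have h1 := hz z
          have h2 := sum_per X S θ hUp j t ht (z + t')
          have h3 := hcl (z + t' + t)
          have h4 := hcl (z + t')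
          have h5 : (j : ℝ) * θ ≤ ε * 2 ^ i / 2 ^ J := by
            rw [← hMθ]
            exact mul_le_mul_of_nonneg_right (by exact_mod_cast hj) hθ0.le
          rw [← add_assoc]
          have a1 := abs_le.1 h1
          have a2 := abs_le.1 h2
          have a3 := abs_le.1 h3
          have a4 := abs_le.1 h4
          have h6 : 3 * ε * 2 ^ (i + 1) / 2 ^ J = 6 * (ε * 2 ^ i / 2 ^ J) := by rw [pow_succ]; ring
          have h7 : 3 * ε * 2 ^ i / 2 ^ J = 3 * (ε * 2 ^ i / 2 ^ J) := by ring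
          rw [h7] at a1
          rw [h6, abs_le]
          constructor <;> linarith [a1.1, a1.2, a2.1, a2.2, a3.1, a3.2, a4.1, a4.2]
        · rw [← add_assoc, ← he, sub_add_cancel]
      have hd_le : 3 * ε * 2 ^ (i + 1) / 2 ^ J ≤ 3 * ε := by
        rw [div_le_iff₀ (by positivity)]
        gcongr
        · norm_num
      have hRM : ∀ x, cn h U M x ≠ 0 → x ∈ R := by
        intro x hx
        obtain ⟨y, hy, t, ht, hz, rfl⟩ := hadm x M le_rfl hx
        refine hR y hy t ?_ fun z => (hz z).trans hd_le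
        rw [← hD]
        exact hDmono _ _ (Nat.pow_le_pow_right (by norm_num) hi) ht
      obtain ⟨j, hjM, hj⟩ := pigeon_ent hh hUne _ hY0 hle R K₂ hRc hK₂ M hM1 hRM
      have hη0 : 0 ≤ Real.log K₂ / M := by positivity
      obtain ⟨θ', hθ'⟩ : ∃ θ' : ℝ, θ' = ε / (2 ^ J * 8 ^ (i + 1)) := ⟨_, rfl⟩
      have hθ'0 : 0 < θ' := by rw [hθ']; positivity
      have hθ'1 : θ' ≤ 1 := by
        rw [hθ', div_le_one (by positivity)]
        refine hε1.trans ?_
        exact one_le_mul_of_one_le_of_one_le (one_le_pow₀ (by norm_num)) (one_le_pow₀ (by norm_num))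
      obtain ⟨n, hmn, hn1, hn2⟩ := exists_n K θ' m hm hK hmK hθ'0 hθ'1
      have hlawj := isLaw_cn hh hUne j
      obtain ⟨T', hT1, hT2, hT3⟩ := cs_step hlawj X S U hX hS hUne K (Real.log K₂ / M) θ' hSK hη0 hj
        m n hm hmn hθ'0.le hn2
      have hT'ne : T'.Nonempty := by
        rw [nonempty_iff_ne_empty]
        rintro rfl
        simp only [card_empty, Nat.cast_zero, mul_zero] at hT2
        have : (0 : ℝ) < U.card := by exact_mod_cast hUne.card_pos
        linarith
      obtain ⟨T₂, hT₂⟩ : ∃ T₂ : Finset G, T₂ = T'.image fun u => u + s₀ := ⟨_, rfl⟩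
      have hT₂c : T₂.card = T'.card := by
        rw [hT₂]
        exact card_image_of_injective _ (add_left_injective _)
      have hT₂T : T₂ ⊆ T := by
        intro x hx
        rw [hT₂] at hx
        obtain ⟨u, hu, rfl⟩ := mem_image.1 hx
        have := hT1 hu
        rw [hU] at this
        obtain ⟨s, hs, rfl⟩ := mem_image.1 this
        rw [sub_add_cancel]
        exact hs
      refine ⟨cn h U j, T₂, hlawj, cn_le hUne _ hle j, hT₂T.trans hTS, ?_, ?_, ?_, ?_, ?_⟩
      · rw [hT₂]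
        exact hT'ne.image _
      · rw [hT₂c]
        rw [hUc] at hT2
        have hnη : (n : ℝ) * (Real.log K₂ / M) ≤ 9280 / 4 * m * Real.log K₂ / ε ^ 2 * (4 ^ J * 4 ^ (i + 1)) := by
          have h1 : (n : ℝ) * (Real.log K₂ / M) ≤ 145 * m / θ' ^ 2 * (Real.log K₂ / M) := by gcongr
          refine h1.trans (le_of_eq ?_)
          rw [hθ', hM]
          push_cast
          have e1 : ((2 : ℝ) ^ J) ^ 2 = 4 ^ J := by rw [← pow_mul, mul_comm, pow_mul]; norm_num
          have e2 : ((8 : ℝ) ^ (i + 1)) ^ 2 = 16 * 16 ^ i * 4 ^ (i + 1) := by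
            have e3 : (16 : ℝ) * 16 ^ i = 16 ^ (i + 1) := by rw [pow_succ]; ring
            rw [← pow_mul, mul_comm (i + 1) 2, pow_mul, e3, ← mul_pow]; norm_num
          rw [div_pow, mul_pow, e1, e2]
          field_simp
          ring
        calc (S₀.card : ℝ) ≤ Real.exp (2 * A * 4 ^ J * 4 ^ i) * T.card := hTc
          _ ≤ Real.exp (2 * A * 4 ^ J * 4 ^ i) * (2 * Real.exp (4 * (n * (Real.log K₂ / M) + 1)) * T'.card) := by
              gcongr
          _ ≤ Real.exp (2 * A * 4 ^ J * 4 ^ i) * (Real.exp 1 * Real.exp (4 * (n * (Real.log K₂ / M) + 1)) * T'.card) := by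
              have e2 : (2 : ℝ) ≤ Real.exp 1 := by linarith [Real.add_one_le_exp (1 : ℝ)]
              gcongr
          _ = Real.exp (2 * A * 4 ^ J * 4 ^ i + (1 + 4 * (n * (Real.log K₂ / M) + 1))) * T'.card := by
              rw [Real.exp_add, Real.exp_add]
              ring
          _ ≤ _ := by
            refine mul_le_mul_of_nonneg_right (Real.exp_le_exp.2 ?_) (Nat.cast_nonneg _)
            obtain ⟨Q, hQ⟩ : ∃ Q : ℝ, Q = (4 : ℝ) ^ J * 4 ^ (i + 1) := ⟨_, rfl⟩
            have hQ1 : 1 ≤ Q := by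
              rw [hQ]
              exact one_le_mul_of_one_le_of_one_le (one_le_pow₀ (by norm_num)) (one_le_pow₀ (by norm_num))
            have e1 : 2 * A * 4 ^ J * 4 ^ i = A / 2 * Q := by rw [hQ, pow_succ]; ring
            have e2 : 2 * A * 4 ^ J * 4 ^ (i + 1) = 2 * A * Q := by rw [hQ]; ring
            rw [← hQ] at hnη
            rw [e1, e2]
            have h5 : 1 + 4 * ((n : ℝ) * (Real.log K₂ / M) + 1) ≤ (9280 * m * Real.log K₂ / ε ^ 2 + 5) * Q := by
              have e3 : (9280 * (m : ℝ) * Real.log K₂ / ε ^ 2 + 5) * Q =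
                4 * (9280 / 4 * m * Real.log K₂ / ε ^ 2 * Q) + 5 * Q := by ring
              rw [e3]
              linarith
            have h6 : (9280 * m * Real.log K₂ / ε ^ 2 + 5) * Q ≤ A * Q := by gcongr
            nlinarith
      · intro s hs s' hs' y
        rw [hT₂] at hs hs'
        obtain ⟨u, hu, rfl⟩ := mem_image.1 hs
        obtain ⟨u', hu', rfl⟩ := mem_image.1 hs'
        have := hT3 u hu u' hu' y
        rw [hθ'] at this
        rwa [show y + (u + s₀) - (u' + s₀) = y + u - u' by abel]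
      · intro y
        have h1 := cn_close X S hUne θ hUp j y
        have h2 := hcl y
        have h5 : (j : ℝ) * θ ≤ ε * 2 ^ i / 2 ^ J := by
          rw [← hMθ]
          exact mul_le_mul_of_nonneg_right (by exact_mod_cast hjM.le) hθ0.le
        rw [← h2i]
        calc |Gl (cn h U j) X S y - Gl (uf Y) X S y|
            = |(Gl (cn h U j) X S y - Gl h X S y) + (Gl h X S y - Gl (uf Y) X S y)| := by ring_nf
          _ ≤ _ := (abs_add_le _ _).trans (add_le_add (h1.trans h5) h2)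
      · intro x hx
        exact hadm x j hjM.le hx
  obtain ⟨h, T, hh, -, hTS, hTne, hTc, hTp, hcl, -⟩ := main J le_rfl
  refine ⟨h, T, hh, hTS, hTne, ?_, ?_, ?_⟩
  · refine hTc.trans (le_of_eq ?_)
    congr 2
    rw [hA]
    have : (16 : ℝ) ^ J = 4 ^ J * 4 ^ J := by rw [← mul_pow]; norm_num
    rw [this]
    ring
  · intro s hs s' hs' y
    have := hTp s hs s' hs' y
    have e : (2 : ℝ) ^ J * 8 ^ J = 16 ^ J := by rw [← mul_pow]; norm_num
    rwa [e] at this
  · intro y
    have := hcl y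
    rwa [mul_div_assoc, div_self (by positivity), mul_one] at this

end Pool.Agent.V8H19.AP
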