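import Pool.Agent.V8H19.AP.Law
import Pool.Agent.V8H19.AP.Chain

/-!
# Capped entropies and an extremal pair of laws

`Hc Λ p = ∑ p x min (log (1 / p x), Λ)`. For sets `X`, `Y`, `S ⊇ X + Y`, `S₀` with `|S + S₀ - S₀| ≤ K₁ |X|, K₁ |Y|` let
`(p, q)` maximize `Hc p + Hc q + λ P (x + b ∈ S)` over the pairs of laws of bounded density, `λ = 40 (log K₁ + 3)`.
Then `P (x + b ∈ S) ≥ 19/20`, and smoothing of `p` by differences of elements of `S₀` increases the entropy of `p` by
at most `λ` times the decrease of `P (x + b ∈ S)`, up to `1/20`.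
-/

set_option autoImplicit false
set_option linter.unusedSectionVars false

namespace Pool.Agent.V8H19.AP

open Finset
open scoped Pointwise

/-- the capped function -/
noncomputable def cap (Λ u : ℝ) : ℝ := min (Real.negMulLog u) (Λ * u)

theorem cap_le (Λ u : ℝ) : cap Λ u ≤ Real.negMulLog u := min_le_left _ _

theorem cap_le' (Λ u : ℝ) : cap Λ u ≤ Λ * u := min_le_right _ _

theorem continuous_cap (Λ : ℝ) : Continuous (cap Λ) :=
  Real.continuous_negMulLog.min (continuous_const.mul continuous_id)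

theorem cap_diff_le (Λ u v : ℝ) (hv : 0 ≤ v) (huv : v ≤ u) : cap Λ u - cap Λ v ≤ Λ * (u - v) := by
  rcases min_choice (Real.negMulLog v) (Λ * v) with h | h
  · rcases hv.eq_or_lt with h0 | h0
    · have e : cap Λ v = 0 := by unfold cap; rw [← h0]; simp
      rw [e, ← h0]
      have := cap_le' Λ u
      linarith
    · have hu : 0 < u := lt_of_lt_of_le h0 huv
      have h1 : cap Λ v = Real.negMulLog v := h
      have h2 : Real.negMulLog v ≤ Λ * v := by rw [← h]; exact min_le_right _ _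
      have h3 := cap_le Λ u
      rw [h1]
      rw [Real.negMulLog] at h2 ⊢
      rw [Real.negMulLog] at h3
      have h4 : - Real.log v ≤ Λ := by
        have : v * (-Real.log v) ≤ v * Λ := by linarith
        exact le_of_mul_le_mul_left this h0
      have h5 := Real.log_le_sub_one_of_pos (show 0 < v / u by positivity)
      rw [Real.log_div h0.ne' hu.ne'] at h5
      have h6 := mul_le_mul_of_nonneg_left h5 hu.le
      have h7 : u * (v / u - 1) = v - u := by field_simp
      rw [h7] at h6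
      have h8 : (u - v) * (-Real.log v) ≤ (u - v) * Λ := mul_le_mul_of_nonneg_left h4 (by linarith)
      nlinarith
  · have h1 : cap Λ v = Λ * v := h
    have := cap_le' Λ u
    rw [h1]
    linarith

theorem cap_diff_ge (Λ u v c : ℝ) (hv : 0 ≤ v) (huv : v ≤ u) (hu : 0 < u) (hc : c ≤ - Real.log u - 1) (hcΛ : c ≤ Λ) :
    c * (u - v) ≤ cap Λ u - cap Λ v := by
  have huv' : 0 ≤ u - v := by linarith
  rcases min_choice (Real.negMulLog u) (Λ * u) with h | h
  · have h1 : cap Λ u = Real.negMulLog u := h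
    have h2 := cap_le Λ v
    have h3 : (-Real.log u - 1) * (u - v) ≤ Real.negMulLog u - Real.negMulLog v := by
      rcases hv.eq_or_lt with h0 | h0
      · rw [← h0, Real.negMulLog_zero, Real.negMulLog]
        nlinarith
      · rw [Real.negMulLog, Real.negMulLog]
        have h5 := Real.log_le_sub_one_of_pos (show 0 < u / v by positivity)
        rw [Real.log_div hu.ne' h0.ne'] at h5
        have h6 := mul_le_mul_of_nonneg_left h5 h0.le
        have h7 : v * (u / v - 1) = u - v := by field_simp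
        rw [h7] at h6
        nlinarith
    have h4 : c * (u - v) ≤ (-Real.log u - 1) * (u - v) := mul_le_mul_of_nonneg_right hc huv'
    rw [h1]
    linarith
  · have h1 : cap Λ u = Λ * u := h
    have h2 := cap_le' Λ v
    have h3 : c * (u - v) ≤ Λ * (u - v) := mul_le_mul_of_nonneg_right hcΛ huv'
    rw [h1]
    linarith

theorem cap_ge (Λ u : ℝ) (hu : 0 ≤ u) : Real.negMulLog u - Real.exp (-Λ - 1) ≤ cap Λ u := by
  rcases min_choice (Real.negMulLog u) (Λ * u) with h | h
  · have h1 : cap Λ u = Real.negMulLog u := h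
    rw [h1]
    have := Real.exp_pos (-Λ - 1)
    linarith
  · have h1 : cap Λ u = Λ * u := h
    rw [h1]
    rcases hu.eq_or_lt with h0 | h0
    · rw [← h0, Real.negMulLog_zero]
      have := Real.exp_pos (-Λ - 1)
      linarith
    · rw [Real.negMulLog]
      have h5 := Real.log_le_sub_one_of_pos (show 0 < Real.exp (-Λ - 1) / u by positivity)
      rw [Real.log_div (Real.exp_pos _).ne' h0.ne', Real.log_exp] at h5
      have h6 := mul_le_mul_of_nonneg_left h5 h0.le
      have h7 : u * (Real.exp (-Λ - 1) / u - 1) = Real.exp (-Λ - 1) - u := by field_simp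
      rw [h7] at h6
      nlinarith

variable {G : Type} [AddCommGroup G] [Fintype G] [DecidableEq G]

/-- the capped entropy -/
noncomputable def Hc (Λ : ℝ) (p : G → ℝ) : ℝ := ∑ x, cap Λ (p x)

theorem Hc_le_Ent (Λ : ℝ) (p : G → ℝ) : Hc Λ p ≤ Ent p := sum_le_sum fun x _ => cap_le Λ (p x)

theorem Hc_le (Λ : ℝ) {p : G → ℝ} (hp : IsLaw p) : Hc Λ p ≤ Λ := by
  unfold Hc
  calc ∑ x, cap Λ (p x) ≤ ∑ x, Λ * p x := sum_le_sum fun x _ => cap_le' Λ (p x)
    _ = Λ := by rw [← mul_sum, hp.sum_one, mul_one]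

/-- the entropy of a law with a small support -/
theorem Ent_le_Hc (Λ : ℝ) {p : G → ℝ} (hp : IsLaw p) (B : Finset G) (hB : ∀ x, p x ≠ 0 → x ∈ B) :
    Ent p ≤ Hc Λ p + B.card * Real.exp (-Λ - 1) := by
  have h1 : ∀ f : ℝ → ℝ, f 0 = 0 → ∑ x, f (p x) = ∑ x ∈ B, f (p x) := by
    intro f hf
    symm
    apply sum_subset (subset_univ B)
    intro x _ hx
    have : p x = 0 := by
      by_contra h
      exact hx (hB x h)
    rw [this, hf]
  unfold Ent Hc
  rw [h1 Real.negMulLog Real.negMulLog_zero, h1 (cap Λ) (by unfold cap; simp), ← nsmul_eq_mul, ← sum_const,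
    ← sum_add_distrib]
  refine sum_le_sum fun x _ => ?_
  have := cap_ge Λ (p x) (hp.nonneg x)
  linarith

theorem Hc_uf (Λ : ℝ) {X : Finset G} (hX : X.Nonempty) (hΛ : Real.log X.card ≤ Λ) :
    Real.log X.card ≤ Hc Λ (uf X) := by
  have hX0 : (0 : ℝ) < X.card := by exact_mod_cast hX.card_pos
  unfold Hc
  have h1 : ∀ x, cap Λ (uf X x) = if x ∈ X then Real.log X.card / X.card else 0 := by
    intro x
    unfold uf
    split_ifs with h
    · unfold cap
      rw [Real.negMulLog, one_div, Real.log_inv]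
      rw [min_eq_left]
      · field_simp
      · have : (0 : ℝ) < (X.card : ℝ)⁻¹ := by positivity
        nlinarith
    · unfold cap; simp
  simp_rw [h1]
  rw [sum_ite_mem, univ_inter, sum_const, nsmul_eq_mul]
  exact le_of_eq (by field_simp)

/-- the support of a maximizer -/
theorem supp_claim (F : G → ℝ) (hF1 : ∀ x, F x ≤ 1) {p : G → ℝ} (hp : IsLaw p) (a Λ' : ℝ)
    (ha : 0 < a) (hΛ' : 1 ≤ Λ') (hpc : ∀ x, p x ≤ Real.exp (4 * Λ') / a)
    (hmax : ∀ p' : G → ℝ, IsLaw p' → (∀ x, p' x ≤ Real.exp (4 * Λ') / a) →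
      Hc (Real.log a + Λ') p' + 40 * Λ' * ∑ x, p' x * F x ≤ Hc (Real.log a + Λ') p + 40 * Λ' * ∑ x, p x * F x)
    (hP : 19 / 20 ≤ ∑ x, p x * F x) (hH : Real.log a - Λ' ≤ Hc (Real.log a + Λ') p) (x₁ : G) (hx₁ : p x₁ ≠ 0) :
    1 / 2 ≤ F x₁ := by
  by_contra hcon
  push Not at hcon
  obtain ⟨c, hc⟩ : ∃ c : ℝ, c = Real.exp (4 * Λ') / a := ⟨_, rfl⟩
  have hc0 : 0 < c := by rw [hc]; positivity
  have hlogc : Real.log c = 4 * Λ' - Real.log a := by
    rw [hc, Real.log_div (Real.exp_pos _).ne' ha.ne', Real.log_exp]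
  rw [← hc] at hpc hmax
  have hx₁p : 0 < p x₁ := lt_of_le_of_ne (hp.nonneg x₁) (Ne.symm hx₁)
  -- a good point that is not saturated
  obtain ⟨x₂, hx₂F, hx₂c⟩ : ∃ x₂, 9 / 10 ≤ F x₂ ∧ p x₂ < c := by
    by_contra hno
    push Not at hno
    have hsat : ∀ x, 9 / 10 ≤ F x → p x = c := fun x hx => le_antisymm (hpc x) (hno x hx)
    obtain ⟨θ, hθ⟩ : ∃ θ : ℝ, θ = ∑ x ∈ univ.filter (fun x => 9 / 10 ≤ F x), p x := ⟨_, rfl⟩
    obtain ⟨θ', hθ'⟩ : ∃ θ' : ℝ, θ' = ∑ x ∈ univ.filter (fun x => ¬ 9 / 10 ≤ F x), p x := ⟨_, rfl⟩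
    have hθθ' : θ + θ' = 1 := by
      rw [hθ, hθ', sum_filter_add_sum_filter_not, hp.sum_one]
    have hθ'0 : 0 ≤ θ' := by rw [hθ']; exact sum_nonneg fun x _ => hp.nonneg x
    have hθ2 : 1 / 2 ≤ θ := by
      have h1 : ∑ x, p x * F x ≤ θ * 1 + θ' * (9 / 10) := by
        rw [← sum_filter_add_sum_filter_not univ (fun x => 9 / 10 ≤ F x)]
        refine add_le_add ?_ ?_
        · rw [hθ, sum_mul]
          exact sum_le_sum fun x _ => mul_le_mul_of_nonneg_left (hF1 x) (hp.nonneg x)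
        · rw [hθ', sum_mul]
          refine sum_le_sum fun x hx => mul_le_mul_of_nonneg_left ?_ (hp.nonneg x)
          have := (mem_filter.1 hx).2
          push Not at this
          exact this.le
      linarith
    have h2 : Hc (Real.log a + Λ') p ≤ θ * (Real.log a - 4 * Λ') + θ' * (Real.log a + Λ') := by
      unfold Hc
      rw [← sum_filter_add_sum_filter_not univ (fun x => 9 / 10 ≤ F x)]
      refine add_le_add ?_ ?_
      · rw [hθ, sum_mul]
        refine sum_le_sum fun x hx => ?_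
        refine (cap_le _ _).trans (le_of_eq ?_)
        rw [Real.negMulLog, hsat x (mem_filter.1 hx).2, hlogc]
        ring
      · rw [hθ', sum_mul]
        refine sum_le_sum fun x _ => ?_
        refine (cap_le' _ _).trans (le_of_eq ?_)
        ring
    have h3 : θ' = 1 - θ := by linarith
    rw [h3] at h2
    nlinarith
  -- the perturbation
  have hne : x₁ ≠ x₂ := by
    intro h
    rw [h] at hcon
    linarith
  obtain ⟨ε, hε⟩ : ∃ ε : ℝ, ε = min (p x₁) (c - p x₂) := ⟨_, rfl⟩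
  have hε0 : 0 < ε := by rw [hε]; exact lt_min hx₁p (by linarith)
  have hε1 : ε ≤ p x₁ := by rw [hε]; exact min_le_left _ _
  have hε2 : p x₂ + ε ≤ c := by
    have : ε ≤ c - p x₂ := by rw [hε]; exact min_le_right _ _
    linarith
  obtain ⟨p', hp'⟩ : ∃ p' : G → ℝ, p' = Function.update (Function.update p x₁ (p x₁ - ε)) x₂ (p x₂ + ε) := ⟨_, rfl⟩
  have hp'1 : p' x₁ = p x₁ - ε := by
    rw [hp', Function.update_of_ne hne, Function.update_self]
  have hp'2 : p' x₂ = p x₂ + ε := by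
    rw [hp', Function.update_self]
  have hp'3 : ∀ x, x ≠ x₁ → x ≠ x₂ → p' x = p x := by
    intro x h1 h2
    rw [hp', Function.update_of_ne h2, Function.update_of_ne h1]
  have hsum : ∀ φ : G → ℝ → ℝ, ∑ x, φ x (p' x) - ∑ x, φ x (p x) =
      (φ x₁ (p x₁ - ε) - φ x₁ (p x₁)) + (φ x₂ (p x₂ + ε) - φ x₂ (p x₂)) := by
    intro φ
    rw [← sum_sub_distrib]
    rw [← sum_subset (subset_univ {x₁, x₂})]
    · rw [sum_pair hne, hp'1, hp'2]
    · intro x _ hx
      rw [mem_insert, mem_singleton, not_or] at hx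
      rw [hp'3 x hx.1 hx.2, sub_self]
  have hlaw : IsLaw p' := by
    constructor
    · intro x
      by_cases h1 : x = x₁
      · rw [h1, hp'1]; linarith
      · by_cases h2 : x = x₂
        · rw [h2, hp'2]; linarith [hp.nonneg x₂]
        · rw [hp'3 x h1 h2]; exact hp.nonneg x
    · have := hsum fun _ u => u
      rw [hp.sum_one] at this
      linarith
  have hp'c : ∀ x, p' x ≤ c := by
    intro x
    by_cases h1 : x = x₁
    · rw [h1, hp'1]; linarith [hpc x₁]
    · by_cases h2 : x = x₂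
      · rw [h2, hp'2]; exact hε2
      · rw [hp'3 x h1 h2]; exact hpc x
  have h1 := hmax p' hlaw hp'c
  have h2 := hsum fun _ u => cap (Real.log a + Λ') u
  have h3 := hsum fun x u => u * F x
  have h4 := cap_diff_le (Real.log a + Λ') (p x₁) (p x₁ - ε) (by linarith) (by linarith)
  have h5 := cap_diff_ge (Real.log a + Λ') (p x₂ + ε) (p x₂) (Real.log a - 4 * Λ' - 1) (hp.nonneg x₂) (by linarith)
    (by linarith [hp.nonneg x₂]) (by
      have h6 : Real.log (p x₂ + ε) ≤ Real.log c := Real.log_le_log (by linarith [hp.nonneg x₂]) hε2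
      rw [hlogc] at h6
      linarith) (by linarith)
  have h6 : Hc (Real.log a + Λ') p' - Hc (Real.log a + Λ') p =
      cap (Real.log a + Λ') (p x₁ - ε) - cap (Real.log a + Λ') (p x₁) +
        (cap (Real.log a + Λ') (p x₂ + ε) - cap (Real.log a + Λ') (p x₂)) := h2
  have h7 : p x₁ - (p x₁ - ε) = ε := by ring
  have h8 : p x₂ + ε - p x₂ = ε := by ring
  rw [h7] at h4
  rw [h8] at h5
  have h9 : ∑ x, p' x * F x - ∑ x, p x * F x = ε * (F x₂ - F x₁) := by
    rw [h3]
    ring
  have h10 : ε * (2 / 5) ≤ ε * (F x₂ - F x₁) := mul_le_mul_of_nonneg_left (by linarith) hε0.le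
  have h11 : 40 * Λ' * (ε * (2 / 5)) ≤ 40 * Λ' * (ε * (F x₂ - F x₁)) := by gcongr
  have h12 : 40 * Λ' * (∑ x, p' x * F x) - 40 * Λ' * (∑ x, p x * F x) = 40 * Λ' * (ε * (F x₂ - F x₁)) := by
    rw [← mul_sub, h9]
  have h13 : ε * 1 ≤ ε * Λ' := mul_le_mul_of_nonneg_left hΛ' hε0.le
  nlinarith

/-- the size of the support after smoothing -/
theorem supp_size {p q : G → ℝ} (hq : IsLaw q) (S S₀ : Finset G) (hsupp : ∀ x, p x ≠ 0 → 1 / 2 ≤ Fl q S x)
    (B : Finset G) (hB : ∀ z ∈ B, ∃ x, p x ≠ 0 ∧ ∃ s ∈ S₀, ∃ s' ∈ S₀, z = x + s - s') :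
    (B.card : ℝ) ≤ 2 * (S + (S₀ - S₀)).card := by
  have h1 : ∀ z ∈ B, 1 / 2 ≤ Fl q (S + (S₀ - S₀)) z := by
    intro z hz
    obtain ⟨x, hx, s, hs, s', hs', rfl⟩ := hB z hz
    refine (hsupp x hx).trans ?_
    unfold Fl
    refine sum_le_sum fun b _ => mul_le_mul_of_nonneg_left ?_ (hq.nonneg b)
    by_cases h : x + b ∈ S
    · rw [if_pos h, if_pos]
      rw [show x + s - s' + b = (x + b) + (s - s') by abel]
      exact add_mem_add h (sub_mem_sub hs hs')
    · rw [if_neg h]
      split_ifs <;> norm_num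
  have h2 : ∑ z ∈ B, Fl q (S + (S₀ - S₀)) z ≤ (S + (S₀ - S₀)).card := by
    rw [← sum_Fl hq (S + (S₀ - S₀))]
    exact sum_le_sum_of_subset_of_nonneg (subset_univ B) fun z _ _ => Fl_nonneg hq _ z
  have h3 := sum_le_sum h1
  rw [sum_const, nsmul_eq_mul] at h3
  linarith

end Pool.Agent.V8H19.AP
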