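import Pool.Agent.V8H19.AP.Lev

/-!
# Smoothing laws for a pair of sets

For sets `X`, `Y`, `S ⊇ X + Y`, `S₀` with `|S + S₀ - S₀| ≤ K₁ |X|`, `≤ K₂ |Y|`, and `l ≤ 10 min (log K₁, log K₂) + 30`
there are laws `P`, `q` with densities at most `e^(4Λ) / |X|`, `e^(4M) / |Y|` and laws `ν_0, …, ν_{l-1}` on `S₀` of
density at most `exp (C Λ M (1 + log l)) / |S₀|` such that after all the `l` smoothings `P (x + b ∈ S) ≥ 9/10`.
-/

set_option autoImplicit false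
set_option linter.unusedSectionVars false

namespace Pool.Agent.V8H19.AP

open Finset
open scoped Pointwise

variable {G : Type} [AddCommGroup G] [Fintype G] [DecidableEq G]

theorem smooth {X Y S S₀ : Finset G} (hX : X.Nonempty) (hY : Y.Nonempty) (hS₀ : S₀.Nonempty)
    (hXY : ∀ x ∈ X, ∀ y ∈ Y, x + y ∈ S) (Λ M K₁ K₂ : ℝ) (hK₁ : 1 ≤ K₁) (hK₂ : 1 ≤ K₂) (hΛ : Λ = Real.log K₁ + 3)
    (hM : M = Real.log K₂ + 3)
    (hcX : ((S + (S₀ - S₀)).card : ℝ) ≤ K₁ * X.card) (hcY : ((S + (S₀ - S₀)).card : ℝ) ≤ K₂ * Y.card)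
    (l : ℕ) (hl : 1 ≤ l) (hlΛ : (l : ℝ) ≤ 10 * Λ) (hlM : (l : ℝ) ≤ 10 * M) :
    ∃ (q : G → ℝ) (ν P : ℕ → G → ℝ), IsLaw q ∧ (∀ j, IsLaw (P j)) ∧ (∀ j, P (j + 1) = sm (ν j) (P j)) ∧
      (∀ x, P 0 x ≤ Real.exp (4 * Λ) / X.card) ∧ (∀ x, q x ≤ Real.exp (4 * M) / Y.card) ∧
      9 / 10 ≤ Ph (P l) q S ∧
      ∀ j, IsLaw (ν j) ∧ ∀ s, ν j s ≤ Real.exp (1280000000 * (Λ * M) * (1 + Real.log l)) * uf S₀ s := by
  have hlR : (1 : ℝ) ≤ l := by exact_mod_cast hl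
  have hlogK : 0 ≤ Real.log K₁ := Real.log_nonneg hK₁
  have hlogK2 : 0 ≤ Real.log K₂ := Real.log_nonneg hK₂
  have hΛ0 : 3 ≤ Λ := by linarith
  have hM0 : 3 ≤ M := by linarith
  have hΛM : 9 ≤ Λ * M := by nlinarith
  obtain ⟨p, q, hp, hq, hpc, hqc, hP, H1, H2, H3, H4⟩ := ext_pair hX hY hS₀ hXY Λ M K₁ K₂ hK₁ hK₂ hΛ hM hcX hcY
  obtain ⟨i, hi1, hi2⟩ := exists_nat_pow_near hlR (by norm_num : (1 : ℝ) < 2)
  obtain ⟨J, hJ⟩ : ∃ J : ℕ, J = i + 1 := ⟨_, rfl⟩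
  rw [← hJ] at hi2
  have hJ2 : (2 : ℝ) ^ J ≤ 2 * l := by
    rw [hJ, pow_succ]
    linarith
  obtain ⟨π, hπ1, hπ2, hπ3, hπ4⟩ := levels hp hq S S₀ hS₀ (2 * Λ) (2 * M) (by linarith) (by linarith) H1 H2
    (fun ν hν hs => (H3 ν hν hs).trans (le_of_eq (by ring))) (fun ν hν hs => (H4 ν hν hs).trans (le_of_eq (by ring)))
    J (by linarith) (by linarith)
  have h2J0 : (0 : ℝ) < 2 ^ J := by positivity
  have hl0 : (0 : ℝ) < l := by linarith
  obtain ⟨ν, P, hP0, hPl, hPs, hν, hPh⟩ := finals hp hq hπ1 S (2 * Λ / 2 ^ J) (2 * M / 2 ^ J) (1 / (20 * l))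
    (9830424 * (Λ * M)) (by positivity) (by positivity) hπ3 hπ4 (by positivity) (by
      rw [div_le_one (by positivity)]
      linarith) (by
      have e1 : (32 / (1 / (20 * (l : ℝ)))) ^ 2 = 409600 * (l * l) := by
        field_simp
        norm_num
      rw [e1]
      have e2 : 2 * Λ / 2 ^ J ≤ 2 * Λ / l := by gcongr
      have e3 : 2 * M / 2 ^ J ≤ 2 * M / l := by gcongr
      have e4 : 409600 * ((l : ℝ) * l) * (2 * Λ / l + 1) + 1 ≤ 4915212 * l * Λ := by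
        have e5 : 409600 * ((l : ℝ) * l) * (2 * Λ / l + 1) = 819200 * l * Λ + 409600 * (l * l) := by
          field_simp
          ring
        rw [e5]
        have e6 : (l : ℝ) * l ≤ l * (10 * Λ) := by gcongr
        have e7 : 1 ≤ l * Λ := by nlinarith
        linarith
      calc (409600 * ((l : ℝ) * l) * (2 * Λ / 2 ^ J + 1) + 1) * (2 * M / 2 ^ J)
          ≤ (409600 * ((l : ℝ) * l) * (2 * Λ / l + 1) + 1) * (2 * M / l) := by gcongr
        _ ≤ 4915212 * l * Λ * (2 * M / l) := by gcongr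
        _ = 9830424 * (Λ * M) := by field_simp; ring)
  refine ⟨q, ν, P, hq, hPl, hPs, ?_, hqc, ?_, ?_⟩
  · rw [hP0]
    exact hpc
  · have h1 := hPh l
    have h2 : (l : ℝ) * (1 / (20 * l)) = 1 / 20 := by field_simp
    rw [h2] at h1
    linarith
  · intro j
    refine ⟨(hν j).1, fun s => ((hν j).2 s).trans ?_⟩
    have hu : 0 ≤ uf S₀ s := (isLaw_uf hS₀).nonneg s
    have hJl : (J : ℝ) + 1 ≤ 2 * (1 + Real.log l) := by
      have h1 : i * Real.log 2 ≤ Real.log l := by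
        rw [← Real.log_pow]
        exact Real.log_le_log (by positivity) hi1
      have h2 := Real.log_two_gt_d9
      have h3 : (i : ℝ) ≤ 2 * Real.log l := by
        have h4 : (0 : ℝ) ≤ i := Nat.cast_nonneg i
        nlinarith
      rw [hJ]
      push_cast
      linarith
    calc Real.exp (4 * (9830424 * (Λ * M)) + 3) * π s
        ≤ Real.exp (4 * (9830424 * (Λ * M)) + 3) * (Real.exp (160000000 * J * (2 * Λ * (2 * M))) * uf S₀ s) := by
          gcongr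
          exact hπ2 s
      _ = Real.exp (4 * (9830424 * (Λ * M)) + 3 + 160000000 * J * (2 * Λ * (2 * M))) * uf S₀ s := by
          rw [← mul_assoc, ← Real.exp_add]
      _ ≤ Real.exp (1280000000 * (Λ * M) * (1 + Real.log l)) * uf S₀ s := by
          gcongr
          have h5 : 640000000 * (Λ * M) * (J + 1) ≤ 640000000 * (Λ * M) * (2 * (1 + Real.log l)) := by gcongr
          nlinarith

end Pool.Agent.V8H19.AP
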