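import Pool.Agent.V8H19.AP.Engine
import Pool.Agent.N142.CD.FIN2
import Pool.Agent.N142.CD.FR
import Pool.Agent.N142.CD.VOL
import Pool.Agent.N142.CD.INV
import Pool.Agent.N142.CD.LCH

/-!
# Sets of small doubling: the exponent `3`

For `|A + A| ≤ K |A|` and every `R ≥ 300 log (2K) + 3` the set `2A - 2A` contains a Bohr set with at most
`C (log (N/|A|) / log R + log³ (2K))` frequencies and radius `1 / (8R)`. The structure of the argument is the one of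
the starting files `N142.CD` (a translate of a proper coset progression contains a large part of the set of almost
periods; local form of Chang's theorem); the almost periods are those of `Engine`.
-/

set_option autoImplicit false

namespace Pool.Agent.V8H19.AP

open Finset Pool.Agent.TH858 Pool.Agent.N142.CD
open scoped Pointwise

/-- Plünnecke -/
theorem five {N : ℕ} [NeZero N] (A : Finset (ZMod N)) (K : ℝ) (hA : A.Nonempty)
    (hAA : ((A + A).card : ℝ) ≤ K * A.card) : ((A + (A + A - A - A)).card : ℝ) ≤ K ^ 5 * A.card := by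
  have h := pluennecke_ruzsa_inequality_nsmul_sub_nsmul_add hA A 3 2
  have e : (3 : ℕ) • A - (2 : ℕ) • A = A + (A + A - A - A) := by
    rw [two_nsmul, show (3 : ℕ) = 1 + 2 by norm_num, add_nsmul, one_nsmul, two_nsmul, ← sub_sub, add_sub_assoc,
      add_sub_assoc]
  rw [e] at h
  have hA0 : (0 : ℝ) < A.card := by exact_mod_cast hA.card_pos
  have h2 : ((A + (A + A - A - A)).card : ℝ) ≤ (((A + A).card : ℝ) / A.card) ^ (3 + 2) * A.card := by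
    have h3 : (((A + (A + A - A - A)).card : ℚ≥0) : ℝ) ≤
        ((((A + A).card / A.card : ℚ≥0) ^ (3 + 2) * A.card : ℚ≥0) : ℝ) := by
      exact_mod_cast h
    push_cast at h3
    exact_mod_cast h3
  refine h2.trans (mul_le_mul_of_nonneg_right ?_ hA0.le)
  have h4 : ((A + A).card : ℝ) / A.card ≤ K := by
    rw [div_le_iff₀ hA0]
    exact hAA
  exact pow_le_pow_left₀ (by positivity) h4 5

/-- the almost periods for a set of doubling `K` -/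
theorem ap3 : ∃ C : ℝ, 1 ≤ C ∧ ∀ (N : ℕ) [NeZero N] (A : Finset (ZMod N)) (K : ℝ), A.Nonempty → 1 ≤ K →
    ((A + A).card : ℝ) ≤ K * A.card →
    ∃ T : Finset (ZMod N), T ⊆ A ∧ T.Nonempty ∧ (A.card : ℝ) ≤ Real.exp (C * Real.log (2 * K) ^ 3) * T.card ∧
      ∀ T₁ : Finset (ZMod N), T₁ ⊆ T → T₁.Nonempty → ∀ y : ZMod N,
        (∀ γ : ZMod N, (T₁.card : ℝ) / 2 ≤ ‖∑ t ∈ T₁, ψ (γ * t)‖ → ‖ψ (γ * y) - 1‖ ≤ 1 / 40) →
        ∃ a₁ ∈ A, ∃ a₂ ∈ A, ∃ a₃ ∈ A, ∃ a₄ ∈ A, y = a₁ + a₂ - a₃ - a₄ := by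
  classical
  obtain ⟨C, hC, h⟩ := engine2
  refine ⟨7 * C, by linarith, ?_⟩
  intro N _ A K hA hK hAA
  have hA0 : (0 : ℝ) < A.card := by exact_mod_cast hA.card_pos
  have hlog2 := Real.log_two_gt_d9
  have hL : Real.log 2 ≤ Real.log (2 * K) := Real.log_le_log (by norm_num) (by linarith)
  obtain ⟨T, h1, h2, h3, h4⟩ := h N A A A (A + (A + A - A - A)) (A + A) K (K ^ 5)
    ⌈160 * Real.log (2 * K)⌉₊ hA hA hA hK hAA (one_le_pow₀ hK) (fun y hy s hs => add_mem_add hy hs)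
    (hAA.trans (mul_le_mul_of_nonneg_right (le_self_pow₀ hK (by norm_num)) hA0.le)) (Nat.le_ceil _)
    (fun y hy t _ ht => add_mem_add hy ht) (five A K hA hAA)
  refine ⟨T, h1, h2, h3.trans ?_, h4⟩
  refine mul_le_mul_of_nonneg_right (Real.exp_le_exp.2 ?_) (Nat.cast_nonneg _)
  have hKL : Real.log K ≤ Real.log (2 * K) := Real.log_le_log (by linarith) (by linarith)
  have h5 : 1 + Real.log (K ^ 5) ≤ 7 * Real.log (2 * K) := by
    rw [Real.log_pow]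
    push_cast
    linarith
  have hL0 : 0 ≤ Real.log (2 * K) := by linarith
  calc C * Real.log (2 * K) ^ 2 * (1 + Real.log (K ^ 5)) ≤ C * Real.log (2 * K) ^ 2 * (7 * Real.log (2 * K)) := by
        gcongr
    _ = 7 * C * Real.log (2 * K) ^ 3 := by ring

/-- the combinatorial part, without the estimates -/
theorem comb3 (N : ℕ) [NeZero N] (A T₁ : Finset (ZMod N)) (hT : T₁.Nonempty)
    (hT2 : ∀ y : ZMod N, (∀ γ : ZMod N, (T₁.card : ℝ) / 2 ≤ ‖∑ t ∈ T₁, ψ (γ * t)‖ → ‖ψ (γ * y) - 1‖ ≤ 1 / 40) →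
        y ∈ A)
    (H : AddSubgroup (ZMod N)) (d : ℕ) (a : Fin d → ZMod N) (L : Fin d → ℕ) (hP : ProperH H a L) (t : ZMod N)
    (hTX : ∀ x ∈ T₁, x - t ∈ HP H a L) (n M : ℕ)
    (hn : 8 * Real.log (4 * (HP H a L).card / T₁.card) ≤ n) (hM : 160 * (d + 1) ≤ M)
    (R J : ℕ) (hR : (d : ℝ) + 2 ≤ R) (hJ : 40 * Real.pi * n ≤ (R : ℝ) ^ (J + 1)) :
    ∃ Γ : Finset (ZMod N), (Γ.card : ℝ) ≤ n * (J + 1) + (175 * d + 1 +
      5 * (Real.log (N / (Nat.card H * (∏ i, (2 * (L i / (4 * (d + 1) * (n + 1) * M)) + 1) : ℕ))) / Real.log R)) ∧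
      ∀ y : ZMod N, (∀ g ∈ Γ, CB.nn (g * y) ≤ 1 / (8 * R)) → y ∈ A := by
  classical
  have hM1 : 1 ≤ M := by omega
  have hM1R : (1 : ℝ) ≤ M := by exact_mod_cast hM1
  have hMR : 160 * ((d : ℝ) + 1) ≤ M := by exact_mod_cast hM
  have hR2 : 2 ≤ R := by
    have : (2 : ℝ) ≤ R := by
      have h1 : (0 : ℝ) ≤ d := Nat.cast_nonneg d
      linarith
    exact_mod_cast this
  have hR0 : (0 : ℝ) < R := by exact_mod_cast (by omega : 0 < R)
  obtain ⟨m, hm⟩ : ∃ m : ℕ, m = n + 1 := ⟨_, rfl⟩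
  obtain ⟨L₂, hL₂⟩ : ∃ L₂ : Fin d → ℕ, L₂ = fun i => L i / (4 * (d + 1) * m) := ⟨_, rfl⟩
  obtain ⟨L₃, hL₃⟩ : ∃ L₃ : Fin d → ℕ, L₃ = fun i => L₂ i / M := ⟨_, rfl⟩
  have hq : 0 < 4 * (d + 1) * m := by rw [hm]; positivity
  have h21 : ∀ i, 4 * (d + 1) * m * L₂ i ≤ L i := fun i => by rw [hL₂]; exact Nat.mul_div_le _ _
  have h32 : ∀ i, M * L₃ i ≤ L₂ i := fun i => by rw [hL₃]; exact Nat.mul_div_le _ _
  have h32' : ∀ i, L₃ i ≤ L₂ i := fun i => by rw [hL₃]; exact Nat.div_le_self _ _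
  have h21' : ∀ i, 4 * L₂ i ≤ L i := fun i => by
    have h1 := h21 i
    have h2 : 4 * L₂ i ≤ 4 * (d + 1) * m * L₂ i := by
      have : 1 ≤ (d + 1) * m := by rw [hm]; exact Nat.one_le_iff_ne_zero.2 (by positivity)
      calc 4 * L₂ i = 4 * 1 * L₂ i := by ring
        _ ≤ 4 * ((d + 1) * m) * L₂ i := by gcongr
        _ = _ := by ring
    omega
  -- Chang
  obtain ⟨X, hX⟩ : ∃ X, X = HP H a L := ⟨_, rfl⟩
  obtain ⟨S, hS⟩ : ∃ S, S = HP H a L₂ := ⟨_, rfl⟩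
  obtain ⟨Y, hY⟩ : ∃ Y, Y = HP H a (fun i => L i + m * L₂ i) := ⟨_, rfl⟩
  have hYX : (Y.card : ℝ) ≤ 2 * X.card := by
    have h1 := (t_VOL N H d a (fun i => L i + m * L₂ i)).1
    have h2 := (t_VOL N H d a L).2 hP
    rw [← hY] at h1
    rw [← hX] at h2
    have h3 := AS.box_double L (fun i => m * L₂ i) (fun i => by
      have := h21 i
      calc 4 * (d + 1) * (m * L₂ i) = 4 * (d + 1) * m * L₂ i := by ring
        _ ≤ L i := this)
    calc (Y.card : ℝ) ≤ ((Nat.card H * ∏ i, (2 * (L i + m * L₂ i) + 1) : ℕ) : ℝ) := by exact_mod_cast h1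
      _ = (Nat.card H : ℝ) * ((∏ i, (2 * (L i + m * L₂ i) + 1) : ℕ) : ℝ) := by push_cast; ring
      _ ≤ (Nat.card H : ℝ) * (2 * ((∏ i, (2 * L i + 1) : ℕ) : ℝ)) := by gcongr
      _ = 2 * ((Nat.card H * ∏ i, (2 * L i + 1) : ℕ) : ℝ) := by push_cast; ring
      _ = 2 * X.card := by rw [h2]
  obtain ⟨Λ, hΛn, hΛ⟩ := t_LCH N T₁ X Y S t m n hT ⟨0, by rw [hS]; exact AS.zero_mem_HP H a L₂⟩
    (fun s hs => by rw [hS] at hs ⊢; exact AS.neg_mem_HP H a L₂ s hs)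
    (fun x hx => by rw [hX]; exact hTX x hx)
    (fun x hx s hs => by
      rw [hY]
      rw [hX] at hx
      exact AS.sum_mem_HP H a L L₂ x hx m s fun i => by have := hs i; rwa [hS] at this)
    hYX (by rw [hX]; exact hn) (by omega)
  -- the Bohr set in the short coset progression
  have hL₃eq : L₃ = fun i => L i / (4 * (d + 1) * (n + 1) * M) := by
    rw [hL₃, hL₂, hm]
    funext i
    rw [Nat.div_div_eq_div_mul]
  obtain ⟨Γ₁, hΓ1, hΓ1'⟩ := GP.coset H a L₃ (AS.mono_HP H a L L₃ (fun i => by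
    have h1 := h32' i
    have h2 := h21' i
    omega) hP) R hR
  obtain ⟨Γ₂, hΓ2⟩ : ∃ Γ₂ : Finset (ZMod N), Γ₂ = (Λ ×ˢ range (J + 1)).image
    fun p => ((R ^ p.2 : ℕ) : ZMod N) * p.1 := ⟨_, rfl⟩
  refine ⟨Γ₂ ∪ Γ₁, ?_, ?_⟩
  · have h1 : (Γ₂.card : ℝ) ≤ n * (J + 1) := by
      have : Γ₂.card ≤ n * (J + 1) := by
        rw [hΓ2]
        refine card_image_le.trans ?_
        rw [card_product, card_range]
        exact Nat.mul_le_mul_right _ hΛn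
      exact_mod_cast this
    have h2 : ((Γ₂ ∪ Γ₁).card : ℝ) ≤ Γ₂.card + Γ₁.card := by exact_mod_cast card_union_le _ _
    rw [GP.card_box, hL₃eq] at hΓ1
    linarith
  · intro y hy
    refine hT2 y fun γ hγ => ?_
    obtain ⟨ε, hε, hδ⟩ := hΛ γ hγ
    obtain ⟨δ, hδ'⟩ : ∃ δ : ZMod N, δ = γ - ∑ z ∈ Λ, (ε z : ZMod N) * z := ⟨_, rfl⟩
    rw [← hδ'] at hδ
    have hyL : y ∈ HP H a L₃ := by
      obtain ⟨h, hh, k, hk, he⟩ := hΓ1' y fun g hg => hy g (mem_union_right _ hg)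
      rw [mem_HP]
      exact ⟨k, hk, by rw [he]; simpa using hh⟩
    have h1 : ‖ψ (δ * y) - 1‖ ≤ 1 / 80 := by
      have h2 := t_INV N H d M a L L₂ L₃ hP hM1 (fun i => by
        have h1 := h32' i
        have h2 := h21' i
        omega) h32 δ (by rw [hS] at hδ; exact hδ) y hyL
      refine h2.trans ?_
      rw [div_le_div_iff₀ (by linarith) (by norm_num)]
      linarith
    have h2 : ‖ψ ((∑ z ∈ Λ, (ε z : ZMod N) * z) * y) - 1‖ ≤ 1 / (8 * 10) := by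
      refine bohr_small Λ R J hR2 10 (by norm_num) ?_ y ?_ ε hε
      · refine le_trans ?_ hJ
        have h3 : (Λ.card : ℝ) ≤ n := by exact_mod_cast hΛn
        have := Real.pi_pos
        calc 4 * Real.pi * 10 * Λ.card ≤ 4 * Real.pi * 10 * n := by gcongr
          _ = 40 * Real.pi * n := by ring
      · intro z hz i hi
        have h3 := hy (((R ^ i : ℕ) : ZMod N) * z) (mem_union_left _ (by
          rw [hΓ2, mem_image]
          exact ⟨(z, i), mem_product.2 ⟨hz, mem_range.2 hi⟩, rfl⟩))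
        refine h3.trans ?_
        apply one_div_le_one_div_of_le (by positivity)
        linarith
    have h3 : γ * y = (∑ z ∈ Λ, (ε z : ZMod N) * z) * y + δ * y := by rw [hδ']; ring
    rw [h3]
    refine (GP.norm_ψ_sub_one_add _ _).trans ?_
    calc ‖ψ ((∑ z ∈ Λ, (ε z : ZMod N) * z) * y) - 1‖ + ‖ψ (δ * y) - 1‖ ≤ 1 / (8 * 10) + 1 / 80 :=
          add_le_add h2 h1
      _ = 1 / 40 := by norm_num

/-- small powers of `L` -/
theorem pow_facts3 (L : ℝ) (hL : Real.log 2 ≤ L) :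
    0 < L ∧ 1 ≤ 8 * L ^ 3 ∧ L ^ 2 ≤ 2 * L ^ 3 ∧ L ≤ 4 * L ^ 3 ∧ 1 ≤ 2 * L := by
  have hlog2 := Real.log_two_gt_d9
  have hL0 : 0 < L := by linarith
  have h2L : 1 ≤ 2 * L := by linarith
  have hL2 : 0 < L ^ 2 := by positivity
  refine ⟨hL0, ?_, ?_, ?_, h2L⟩
  · have := one_le_pow₀ h2L (n := 3)
    calc (1 : ℝ) ≤ (2 * L) ^ 3 := this
      _ = 8 * L ^ 3 := by ring
  · calc L ^ 2 = L ^ 2 * 1 := (mul_one _).symm
      _ ≤ L ^ 2 * (2 * L) := by gcongr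
      _ = 2 * L ^ 3 := by ring
  · have h1 : 1 ≤ 4 * L ^ 2 := by nlinarith
    calc L = L * 1 := (mul_one L).symm
      _ ≤ L * (4 * L ^ 2) := by gcongr
      _ = 4 * L ^ 3 := by ring

/-- the large set of almost periods in a translate of a proper coset progression -/
theorem data3 : ∃ C₁ : ℝ, 1 ≤ C₁ ∧
    ∀ (N : ℕ) [NeZero N] (A : Finset (ZMod N)) (K : ℝ), A.Nonempty → 1 ≤ K →
    ((A + A).card : ℝ) ≤ K * A.card →
    ∃ (T₁ : Finset (ZMod N)) (H : AddSubgroup (ZMod N)) (d : ℕ) (a : Fin d → ZMod N) (Lb : Fin d → ℕ)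
      (t : ZMod N), T₁.Nonempty ∧
      (∀ y : ZMod N, (∀ γ : ZMod N, (T₁.card : ℝ) / 2 ≤ ‖∑ t ∈ T₁, ψ (γ * t)‖ → ‖ψ (γ * y) - 1‖ ≤ 1 / 40) →
        ∃ a₁ ∈ A, ∃ a₂ ∈ A, ∃ a₃ ∈ A, ∃ a₄ ∈ A, y = a₁ + a₂ - a₃ - a₄) ∧
      (d : ℝ) ≤ 300 * Real.log (2 * K) ∧ ProperH H a Lb ∧ (∀ x ∈ T₁, x - t ∈ HP H a Lb) ∧
      Real.log (4 * (HP H a Lb).card / T₁.card) ≤ C₁ * Real.log (2 * K) ^ 3 ∧
      (A.card : ℝ) ≤ Real.exp (C₁ * Real.log (2 * K) ^ 2) * (HP H a Lb).card := by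
  classical
  obtain ⟨CF, hCF, hFR⟩ := t_FR
  obtain ⟨CA, hCA, hAP⟩ := ap3
  refine ⟨16 + 4 * CF + CA, by linarith, ?_⟩
  intro N _ A K hA hK hAA
  obtain ⟨T₀, hTA, hT₀, hT1, hT2⟩ := hAP N A K hA hK hAA
  obtain ⟨H, d, a, Lb, Tc, hd, hP, hX1, hTc, hcov⟩ := hFR N A K hA hK hAA
  obtain ⟨L, hL⟩ : ∃ L : ℝ, L = Real.log (2 * K) := ⟨_, rfl⟩
  have hL2 : Real.log 2 ≤ L := by rw [hL]; exact Real.log_le_log (by norm_num) (by linarith)
  obtain ⟨hL0, hL41, hL42, hL43, h2L⟩ := pow_facts3 L hL2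
  have hL3 : 0 < L ^ 3 := by positivity
  have hAc : (0 : ℝ) < A.card := by exact_mod_cast hA.card_pos
  obtain ⟨X, hX⟩ : ∃ X, X = HP H a Lb := ⟨_, rfl⟩
  rw [← hX] at hX1 hcov
  obtain ⟨t, ht, hpig⟩ := AS.pigeon T₀ Tc X (fun x hx => hcov x (hTA hx)) hT₀
  obtain ⟨T₁, hT₁⟩ : ∃ T₁, T₁ = T₀.filter fun x => x - t ∈ X := ⟨_, rfl⟩
  rw [← hT₁] at hpig
  have hT₁ne : T₁.Nonempty := by
    rw [← card_pos]
    rcases Nat.eq_zero_or_pos T₁.card with h | h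
    · rw [h, mul_zero] at hpig
      have := hT₀.card_pos
      omega
    · exact h
  have hT₁c : (0 : ℝ) < T₁.card := by exact_mod_cast hT₁ne.card_pos
  have hcc := AS.cover_card A Tc X hcov
  rw [← hL] at hT1 hd hX1 hTc
  obtain ⟨E, hE⟩ : ∃ E : ℝ, E = Real.exp (CF * L ^ 2) := ⟨_, rfl⟩
  rw [← hE] at hX1 hTc
  have hE0 : 0 < E := by rw [hE]; exact Real.exp_pos _
  have hlogE : Real.log E = CF * L ^ 2 := by rw [hE, Real.log_exp]
  have hpig' : (T₀.card : ℝ) ≤ E * T₁.card := by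
    have h1 : (T₀.card : ℝ) ≤ Tc.card * T₁.card := by exact_mod_cast hpig
    exact h1.trans (mul_le_mul_of_nonneg_right hTc hT₁c.le)
  have hcc' : (A.card : ℝ) ≤ E * X.card := by
    have h1 : (A.card : ℝ) ≤ Tc.card * X.card := by exact_mod_cast hcc
    exact h1.trans (mul_le_mul_of_nonneg_right hTc (Nat.cast_nonneg _))
  have hXc : (0 : ℝ) < X.card := by
    by_contra hcon
    have h1 : (X.card : ℝ) = 0 := le_antisymm (not_lt.1 hcon) (Nat.cast_nonneg _)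
    rw [h1, mul_zero] at hcc'
    linarith
  have hlog4 : Real.log 4 ≤ 2 := by
    have h1 : Real.log 4 = 2 * Real.log 2 := by
      rw [show (4 : ℝ) = 2 ^ 2 by norm_num, Real.log_pow]; norm_num
    have := Real.log_two_lt_d9
    linarith
  have hBle : Real.log (4 * X.card / T₁.card) ≤ Real.log 4 + 2 * CF * L ^ 2 + CA * L ^ 3 := by
    have h1 : (A.card : ℝ) ≤ Real.exp (CA * L ^ 3) * (E * T₁.card) := by
      refine hT1.trans ?_
      gcongr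
    have h2 : 4 * (X.card : ℝ) / T₁.card ≤ 4 * (E * (Real.exp (CA * L ^ 3) * E)) := by
      rw [div_le_iff₀ hT₁c]
      calc 4 * (X.card : ℝ) ≤ 4 * (E * (Real.exp (CA * L ^ 3) * (E * T₁.card))) := by
            gcongr
            exact hX1.trans (by gcongr)
        _ = _ := by ring
    refine (Real.log_le_log (by positivity) h2).trans ?_
    rw [Real.log_mul (by norm_num) (by positivity), Real.log_mul hE0.ne' (by positivity),
      Real.log_mul (Real.exp_pos _).ne' hE0.ne', Real.log_exp, hlogE]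
    linarith
  refine ⟨T₁, H, d, a, Lb, t, hT₁ne, ?_, ?_, hP, ?_, ?_, ?_⟩
  · exact hT2 T₁ (by rw [hT₁]; exact filter_subset _ _) hT₁ne
  · rw [← hL]; exact hd
  · intro x hx
    rw [hT₁, mem_filter] at hx
    rw [← hX]
    exact hx.2
  · rw [← hX, ← hL]
    refine hBle.trans ?_
    have h3 : 2 * CF * L ^ 2 ≤ 2 * CF * (2 * L ^ 3) := by gcongr
    nlinarith
  · rw [← hX, ← hL]
    refine hcc'.trans ?_
    rw [hE]
    have h1 : CF * L ^ 2 ≤ (16 + 4 * CF + CA) * L ^ 2 := by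
      gcongr
      linarith
    gcongr

/-- choice of the numbers `n`, `J` -/
theorem numbers3 (C₁ : ℝ) (hC₁ : 1 ≤ C₁) : ∃ C : ℝ, 1 ≤ C ∧ ∀ (K : ℝ) (d R : ℕ), 1 ≤ K →
    (d : ℝ) ≤ 300 * Real.log (2 * K) → 300 * Real.log (2 * K) + 3 ≤ R →
    ∃ n J : ℕ, 8 * (C₁ * Real.log (2 * K) ^ 3) ≤ n ∧
      40 * Real.pi * n ≤ (R : ℝ) ^ (J + 1) ∧
      (n : ℝ) * (J + 1) ≤ C * Real.log (2 * K) ^ 3 ∧
      Real.log (2 * ((4 * (d + 1) * (n + 1) * (160 * (d + 1)) : ℕ) : ℝ)) ≤ C * Real.log (2 * K) := by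
  obtain ⟨C₄, hC₄⟩ : ∃ C₄ : ℝ, C₄ = 8 * C₁ + 16 := ⟨_, rfl⟩
  obtain ⟨C₅, hC₅⟩ : ∃ C₅ : ℝ, C₅ = 1280 * 302 ^ 2 * C₄ := ⟨_, rfl⟩
  have hC₄1 : 1 ≤ C₄ := by rw [hC₄]; linarith
  have hC₅1 : 1 ≤ C₅ := by rw [hC₅]; linarith
  obtain ⟨J₀, hJ₀⟩ : ∃ J₀ : ℕ, 40 * Real.pi * C₄ ≤ (3 : ℝ) ^ J₀ := by
    obtain ⟨J₀, h⟩ := pow_unbounded_of_one_lt (40 * Real.pi * C₄) (by norm_num : (1 : ℝ) < 3)
    exact ⟨J₀, h.le⟩
  refine ⟨C₄ * (J₀ + 3) + (2 * C₅ + 6), by nlinarith [(Nat.cast_nonneg J₀ : (0 : ℝ) ≤ J₀)], ?_⟩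
  intro K d R hK hd hR
  obtain ⟨L, hL⟩ : ∃ L : ℝ, L = Real.log (2 * K) := ⟨_, rfl⟩
  rw [← hL] at hd hR ⊢
  have hL2 : Real.log 2 ≤ L := by rw [hL]; exact Real.log_le_log (by norm_num) (by linarith)
  obtain ⟨hL0, hL41, hL42, hL43, h2L⟩ := pow_facts3 L hL2
  have hL3 : 0 < L ^ 3 := by positivity
  obtain ⟨n, hn⟩ : ∃ n : ℕ, n = ⌈8 * (C₁ * L ^ 3)⌉₊ := ⟨_, rfl⟩
  have hn1 : 8 * (C₁ * L ^ 3) ≤ n := by rw [hn]; exact Nat.le_ceil _
  have hn2 : (n : ℝ) + 1 ≤ C₄ * L ^ 3 := by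
    have h1 : (n : ℝ) ≤ 8 * (C₁ * L ^ 3) + 1 := by rw [hn]; exact (Nat.ceil_lt_add_one (by positivity)).le
    rw [hC₄]
    linarith
  have hn0 : (0 : ℝ) ≤ n := Nat.cast_nonneg n
  have hd0 : (0 : ℝ) ≤ d := Nat.cast_nonneg d
  have hR3 : (3 : ℝ) ≤ R := by linarith
  have hRL : L ≤ R := by linarith
  have hR0 : (0 : ℝ) < R := by linarith
  have hpi := Real.pi_pos
  refine ⟨n, J₀ + 2, hn1, ?_, ?_, ?_⟩
  · calc 40 * Real.pi * (n : ℝ) ≤ 40 * Real.pi * (C₄ * L ^ 3) := by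
          gcongr
          linarith
      _ = 40 * Real.pi * C₄ * L ^ 3 := by ring
      _ ≤ 3 ^ J₀ * (R : ℝ) ^ 3 := by gcongr
      _ ≤ (R : ℝ) ^ J₀ * R ^ 3 := by gcongr
      _ = (R : ℝ) ^ (J₀ + 2 + 1) := by rw [← pow_add]
  · have h1 : (n : ℝ) * ((J₀ + 2 : ℕ) + 1) ≤ (C₄ * L ^ 3) * (J₀ + 3) := by
      push_cast
      have : (J₀ : ℝ) + 2 + 1 = J₀ + 3 := by ring
      rw [this]
      gcongr
      linarith
    refine h1.trans ?_
    have h2 : 0 ≤ (2 * C₅ + 6) * L ^ 3 := by positivity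
    nlinarith
  · have h1 : (2 : ℝ) * ((4 * (d + 1) * (n + 1) * (160 * (d + 1)) : ℕ) : ℝ) ≤ C₅ * L ^ 5 := by
      push_cast
      have h2 : (d : ℝ) + 1 ≤ 302 * L := by linarith
      calc (2 : ℝ) * (4 * ((d : ℝ) + 1) * ((n : ℝ) + 1) * (160 * ((d : ℝ) + 1)))
          ≤ 2 * (4 * (302 * L) * (C₄ * L ^ 3) * (160 * (302 * L))) := by gcongr
        _ = C₅ * L ^ 5 := by rw [hC₅]; ring
    have h4 : (0 : ℝ) < 2 * ((4 * (d + 1) * (n + 1) * (160 * (d + 1)) : ℕ) : ℝ) := by push_cast; positivity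
    refine (Real.log_le_log h4 h1).trans ?_
    rw [Real.log_mul (by linarith) (by positivity), Real.log_pow]
    have h3 : Real.log C₅ ≤ C₅ := by
      have := Real.log_le_sub_one_of_pos (by linarith : 0 < C₅)
      linarith
    have hlogL : Real.log L ≤ L := by
      have := Real.log_le_sub_one_of_pos hL0
      linarith
    have h5 : C₅ ≤ 2 * C₅ * L := by nlinarith
    have h6 : 0 ≤ C₄ * (J₀ + 3) * L := by positivity
    push_cast
    linarith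

/-- the main bound with a free parameter `R` -/
theorem core3 : ∃ C : ℝ, 1 ≤ C ∧ ∀ (N : ℕ) [NeZero N] (A : Finset (ZMod N)) (K : ℝ) (R : ℕ), A.Nonempty → 1 ≤ K →
    ((A + A).card : ℝ) ≤ K * A.card → 300 * Real.log (2 * K) + 3 ≤ R →
    ∃ Γ : Finset (ZMod N), (Γ.card : ℝ) ≤ C * (Real.log (N / A.card) / Real.log R + Real.log (2 * K) ^ 3) ∧
      ∀ y : ZMod N, (∀ g ∈ Γ, CB.nn (g * y) ≤ 1 / (8 * R)) →
        ∃ a₁ ∈ A, ∃ a₂ ∈ A, ∃ a₃ ∈ A, ∃ a₄ ∈ A, y = a₁ + a₂ - a₃ - a₄ := by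
  obtain ⟨C₁, hC₁, hdata⟩ := data3
  obtain ⟨C₂, hC₂, hnum⟩ := numbers3 C₁ hC₁
  refine ⟨5 + C₂ + 210008 + 10 * (C₁ + 300 * C₂), by linarith, ?_⟩
  intro N _ A K R hA hK hAA hR
  obtain ⟨T₁, H, d, a, Lb, t, hT₁, hAPP, hd, hP, hTX, hlog, hAX⟩ := hdata N A K hA hK hAA
  obtain ⟨n, J, hn1, hpow, hnJ, hlogq⟩ := hnum K d R hK hd hR
  have hL2 : Real.log 2 ≤ Real.log (2 * K) := Real.log_le_log (by norm_num) (by linarith)
  obtain ⟨hL0, hL41, hL42, hL43, h2L⟩ := pow_facts3 _ hL2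
  classical
  obtain ⟨D, hD⟩ : ∃ D : Finset (ZMod N), D = univ.filter fun y : ZMod N =>
    ∃ a₁ ∈ A, ∃ a₂ ∈ A, ∃ a₃ ∈ A, ∃ a₄ ∈ A, y = a₁ + a₂ - a₃ - a₄ := ⟨_, rfl⟩
  have hDm : ∀ y : ZMod N, y ∈ D ↔ ∃ a₁ ∈ A, ∃ a₂ ∈ A, ∃ a₃ ∈ A, ∃ a₄ ∈ A, y = a₁ + a₂ - a₃ - a₄ := by
    intro y
    rw [hD, mem_filter]
    exact ⟨fun h => h.2, fun h => ⟨mem_univ _, h⟩⟩
  obtain ⟨Γ, hΓ1, hΓ2⟩ := comb3 N D T₁ hT₁ (fun y hy => (hDm y).2 (hAPP y hy)) H d a Lb hP t hTX n (160 * (d + 1))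
    (by linarith) le_rfl R J (by linarith) hpow
  refine ⟨Γ, ?_, fun y hy => (hDm y).1 (hΓ2 y hy)⟩
  obtain ⟨q, hq⟩ : ∃ q : ℕ, q = 4 * (d + 1) * (n + 1) * (160 * (d + 1)) := ⟨_, rfl⟩
  rw [← hq] at hΓ1 hlogq
  have hq1 : 1 ≤ q := by rw [hq]; exact Nat.one_le_iff_ne_zero.2 (by positivity)
  obtain ⟨V₃, hV₃⟩ : ∃ V₃ : ℕ, V₃ = ∏ i, (2 * (Lb i / q) + 1) := ⟨_, rfl⟩
  rw [← hV₃] at hΓ1
  have hvolX := (t_VOL N H d a Lb).2 hP
  obtain ⟨X, hX⟩ : ∃ X, X = HP H a Lb := ⟨_, rfl⟩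
  rw [← hX] at hlog hAX hvolX
  obtain ⟨L, hL⟩ : ∃ L : ℝ, L = Real.log (2 * K) := ⟨_, rfl⟩
  rw [← hL] at hd hlog hAX hR hn1 hnJ hlogq hL2 hL0 hL41 hL42 hL43 h2L ⊢
  have hL3 : 0 < L ^ 3 := by positivity
  have hAc : (0 : ℝ) < A.card := by exact_mod_cast hA.card_pos
  have hNpos : (0 : ℝ) < N := by exact_mod_cast NeZero.pos N
  have hV₃0 : (0 : ℝ) < V₃ := by
    have : 0 < V₃ := by rw [hV₃]; exact prod_pos fun i _ => by omega
    exact_mod_cast this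
  have hHc : (0 : ℝ) < Nat.card H := by exact_mod_cast Nat.card_pos
  have hq1R : (1 : ℝ) ≤ q := by exact_mod_cast hq1
  obtain ⟨E, hE⟩ : ∃ E : ℝ, E = Real.exp (C₁ * L ^ 2) := ⟨_, rfl⟩
  rw [← hE] at hAX
  have hE0 : 0 < E := by rw [hE]; exact Real.exp_pos _
  have hlogE : Real.log E = C₁ * L ^ 2 := by rw [hE, Real.log_exp]
  have hvol : (A.card : ℝ) ≤ E * ((Nat.card H : ℝ) * ((2 * (q : ℝ)) ^ d * V₃)) := by
    have h2 : (X.card : ℝ) ≤ (Nat.card H : ℝ) * ((2 * (q : ℝ)) ^ d * V₃) := by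
      rw [hvolX]
      push_cast
      have h3 := AS.box_ratio Lb q hq1
      rw [← hV₃] at h3
      push_cast at h3
      gcongr
    exact hAX.trans (by gcongr)
  have hR3 : (3 : ℝ) ≤ R := by linarith
  have hR0 : (0 : ℝ) < R := by linarith
  have hlogR : 1 ≤ Real.log R := by
    rw [Real.le_log_iff_exp_le hR0]
    have := Real.exp_one_lt_d9
    linarith
  have hlogR0 : 0 < Real.log R := by linarith
  have hlogvol : Real.log (N / (Nat.card H * V₃)) ≤ Real.log (N / A.card) + (C₁ + 300 * C₂) * L ^ 2 := by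
    have h1 : (N : ℝ) / (Nat.card H * V₃) ≤ (N / A.card) * (E * (2 * (q : ℝ)) ^ d) := by
      rw [div_mul_eq_mul_div, div_le_div_iff₀ (by positivity) hAc]
      calc (N : ℝ) * A.card ≤ N * (E * ((Nat.card H : ℝ) * ((2 * (q : ℝ)) ^ d * V₃))) := by gcongr
        _ = _ := by ring
    refine (Real.log_le_log (by positivity) h1).trans ?_
    rw [Real.log_mul (by positivity) (by positivity), Real.log_mul hE0.ne' (by positivity), hlogE, Real.log_pow]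
    have h2 : (d : ℝ) * Real.log (2 * q) ≤ 300 * C₂ * L ^ 2 := by
      have h3 : 0 ≤ Real.log (2 * q) := Real.log_nonneg (by linarith)
      calc (d : ℝ) * Real.log (2 * q) ≤ (300 * L) * (C₂ * L) := by gcongr
        _ = 300 * C₂ * L ^ 2 := by ring
    linarith
  have e2 : 175 * (d : ℝ) + 1 ≤ 210008 * L ^ 3 := by linarith
  have hCC : 0 ≤ C₁ + 300 * C₂ := by linarith
  have e3 : Real.log (N / (Nat.card H * V₃)) / Real.log R ≤
      Real.log (N / A.card) / Real.log R + 2 * (C₁ + 300 * C₂) * L ^ 3 := by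
    have h1 : Real.log (N / (Nat.card H * V₃)) / Real.log R ≤
        (Real.log (N / A.card) + (C₁ + 300 * C₂) * L ^ 2) / Real.log R := by gcongr
    have h2 : (C₁ + 300 * C₂) * L ^ 2 / Real.log R ≤ (C₁ + 300 * C₂) * (2 * L ^ 3) := by
      rw [div_le_iff₀ hlogR0]
      have h3 : (C₁ + 300 * C₂) * L ^ 2 ≤ (C₁ + 300 * C₂) * (2 * L ^ 3) := by gcongr
      have h4 : 0 ≤ (C₁ + 300 * C₂) * (2 * L ^ 3) := by positivity
      have h5 := mul_le_mul_of_nonneg_left hlogR h4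
      linarith
    rw [add_div] at h1
    linarith
  have hx0 : 0 ≤ Real.log (N / A.card) / Real.log R := by
    apply div_nonneg _ hlogR0.le
    apply Real.log_nonneg
    rw [le_div_iff₀ hAc, one_mul]
    have := card_le_univ A
    rw [ZMod.card] at this
    exact_mod_cast this
  obtain ⟨x', hx'⟩ : ∃ x' : ℝ, x' = Real.log (N / A.card) / Real.log R := ⟨_, rfl⟩
  obtain ⟨W, hW⟩ : ∃ W : ℝ, W = L ^ 3 := ⟨_, rfl⟩
  rw [← hx'] at e3 hx0 ⊢
  rw [← hW] at hnJ e3 e2 hL3 ⊢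
  have e7 : 0 ≤ (C₂ + 210008 + 10 * (C₁ + 300 * C₂)) * x' := by positivity
  calc (Γ.card : ℝ) ≤ n * (J + 1) + (175 * d + 1 +
      5 * (Real.log (N / (Nat.card H * V₃)) / Real.log R)) := hΓ1
    _ ≤ C₂ * W + (210008 * W + 5 * (x' + 2 * (C₁ + 300 * C₂) * W)) := by linarith
    _ ≤ (5 + C₂ + 210008 + 10 * (C₁ + 300 * C₂)) * (x' + W) := by
        have h8 : (5 + C₂ + 210008 + 10 * (C₁ + 300 * C₂)) * (x' + W) =
          5 * x' + (C₂ + 210008 + 10 * (C₁ + 300 * C₂)) * x' + 5 * W + C₂ * W + 210008 * W +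
            10 * (C₁ + 300 * C₂) * W := by ring
        rw [h8]
        linarith

/-- choice of the parameters -/
theorem fin33 : ∃ C : ℝ, 1 ≤ C ∧
    ∀ (N : ℕ) [NeZero N] (A : Finset (ZMod N)) (K : ℝ), A.Nonempty → (A.card : ℝ) / N ≤ 1 / 2 → 1 ≤ K →
    ((A + A).card : ℝ) ≤ K * A.card →
    ∃ (Γ : Finset (ZMod N)) (ε : ℝ), 0 < ε ∧
      (Γ.card : ℝ) ≤ C * (Real.log (N / A.card) / Real.log (2 + Real.log (N / A.card)) + Real.log (2 * K) ^ 3) ∧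
      1 / C / Real.log (N / A.card) ≤ ε ∧
      ∀ y : ZMod N, (∀ g ∈ Γ, CB.nn (g * y) ≤ ε) →
        ∃ a₁ ∈ A, ∃ a₂ ∈ A, ∃ a₃ ∈ A, ∃ a₄ ∈ A, y = a₁ + a₂ - a₃ - a₄ := by
  classical
  obtain ⟨C, hC, hcore⟩ := core3
  refine ⟨C + 4872, by linarith, ?_⟩
  intro N _ A K hA hα hK hAA
  have hAc : (0 : ℝ) < A.card := by exact_mod_cast hA.card_pos
  have hNpos : (0 : ℝ) < N := by exact_mod_cast NeZero.pos N
  have hlog2 := Real.log_two_gt_d9
  have hlog2' := Real.log_two_lt_d9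
  have hNA : 2 ≤ (N : ℝ) / A.card := by
    rw [div_le_iff₀ hNpos] at hα
    rw [le_div_iff₀ hAc]
    linarith
  have hx2 : Real.log 2 ≤ Real.log (N / A.card) := Real.log_le_log (by norm_num) hNA
  obtain ⟨x, hx⟩ : ∃ x : ℝ, x = Real.log (N / A.card) := ⟨_, rfl⟩
  obtain ⟨K', hK'⟩ : ∃ K' : ℝ, K' = min K (N / A.card) := ⟨_, rfl⟩
  have hK'1 : 1 ≤ K' := by rw [hK']; exact le_min hK (by linarith)
  have hAA' : ((A + A).card : ℝ) ≤ K' * A.card := by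
    rw [hK', min_mul_of_nonneg _ _ hAc.le]
    refine le_min hAA ?_
    rw [div_mul_cancel₀ _ hAc.ne']
    have := card_le_univ (A + A)
    rw [ZMod.card] at this
    exact_mod_cast this
  obtain ⟨L', hL'⟩ : ∃ L' : ℝ, L' = Real.log (2 * K') := ⟨_, rfl⟩
  obtain ⟨L, hL⟩ : ∃ L : ℝ, L = Real.log (2 * K) := ⟨_, rfl⟩
  have hL'L : L' ≤ L := by
    rw [hL', hL]
    apply Real.log_le_log (by linarith)
    have : K' ≤ K := by rw [hK']; exact min_le_left _ _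
    linarith
  have hL'0 : 0 < L' := by rw [hL']; exact Real.log_pos (by linarith)
  have hL'x : L' ≤ Real.log 2 + x := by
    rw [hL', hx, ← Real.log_mul (by norm_num) (by positivity)]
    apply Real.log_le_log (by linarith)
    have : K' ≤ N / A.card := by rw [hK']; exact min_le_right _ _
    linarith
  obtain ⟨R, hR⟩ : ∃ R : ℕ, R = ⌈x⌉₊ + ⌈300 * L'⌉₊ + 3 := ⟨_, rfl⟩
  rw [← hx] at hx2
  have hx0 : 0 < x := by linarith
  have h1 := Nat.le_ceil x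
  have h2 := (Nat.ceil_lt_add_one hx0.le).le
  have h3 := Nat.le_ceil (300 * L')
  have h4 := (Nat.ceil_lt_add_one (by positivity : 0 ≤ 300 * L')).le
  have hRR : (R : ℝ) = ⌈x⌉₊ + ⌈300 * L'⌉₊ + 3 := by rw [hR]; push_cast; ring
  obtain ⟨Γ, hΓ1, hΓ2⟩ := hcore N A K' R hA hK'1 hAA' (by rw [← hL', hRR]; linarith)
  have hRx : 2 + x ≤ (R : ℝ) := by rw [hRR]; linarith
  have hRx' : (R : ℝ) ≤ 609 * x := by rw [hRR]; linarith
  have hR0 : (0 : ℝ) < R := by linarith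
  refine ⟨Γ, 1 / (8 * R), by positivity, ?_, ?_, hΓ2⟩
  · rw [← hx, ← hL'] at hΓ1
    rw [← hx, ← hL]
    have hlx : 0 < Real.log (2 + x) := Real.log_pos (by linarith)
    have hlR : Real.log (2 + x) ≤ Real.log R := Real.log_le_log (by linarith) hRx
    have e1 : x / Real.log R ≤ x / Real.log (2 + x) := div_le_div_of_nonneg_left hx0.le hlx hlR
    have hL0 : 0 < L := by linarith
    calc (Γ.card : ℝ) ≤ C * (x / Real.log R + L' ^ 3) := hΓ1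
      _ ≤ C * (x / Real.log (2 + x) + L ^ 3) := by
          have hlR0 : 0 < Real.log R := by linarith
          gcongr
      _ ≤ (C + 4872) * (x / Real.log (2 + x) + L ^ 3) := by
          gcongr
          linarith
  · rw [← hx, div_div, div_le_div_iff₀ (by positivity) (by positivity), one_mul, one_mul]
    nlinarith

end Pool.Agent.V8H19.AP
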