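import Pool.Agent.V8H19.AP.LCH2
import Pool.Agent.V8H19.AP.Smooth
import Pool.Agent.V8H19.AP.Three

/-!
# From laws with almost invariant smoothings to Bohr sets

The combinatorial part for a family of laws, and the main theorem for sets `X`, `Y` and a set `T` of translations.
-/

set_option autoImplicit false

namespace Pool.Agent.V8H19.AP

open Finset Pool.Agent.TH858 Pool.Agent.N142.CD
open scoped Pointwise

/-- the combinatorial part, without the estimates -/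
theorem comb4 (N : ℕ) [NeZero N] (D : Finset (ZMod N)) (ν : ℕ → ZMod N → ℝ) (l : ℕ) (hl : 1 ≤ l)
    (hν : ∀ j, IsLaw (ν j))
    (hD : ∀ y : ZMod N, (∀ γ : ZMod N, (l : ℝ) / 2 ≤ ∑ j ∈ range l, ‖ft (ν j) γ‖ → ‖ψ (γ * y) - 1‖ ≤ 1 / 40) →
        y ∈ D)
    (H : AddSubgroup (ZMod N)) (d : ℕ) (a : Fin d → ZMod N) (L : Fin d → ℕ) (hP : ProperH H a L) (t : ZMod N)
    (Q : ℝ) (hTX : ∀ j x, ν j x ≠ 0 → x - t ∈ HP H a L) (hQ : ∀ j x, ν j x ≤ Q / (HP H a L).card) (n M : ℕ)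
    (hn : 8 * Real.log (4 * Q) ≤ n) (hM : 160 * (d + 1) ≤ M)
    (R J : ℕ) (hR : (d : ℝ) + 2 ≤ R) (hJ : 40 * Real.pi * n ≤ (R : ℝ) ^ (J + 1)) :
    ∃ Γ : Finset (ZMod N), (Γ.card : ℝ) ≤ n * (J + 1) + (175 * d + 1 +
      5 * (Real.log (N / (Nat.card H * (∏ i, (2 * (L i / (4 * (d + 1) * (n + 1) * M)) + 1) : ℕ))) / Real.log R)) ∧
      ∀ y : ZMod N, (∀ g ∈ Γ, CB.nn (g * y) ≤ 1 / (8 * R)) → y ∈ D := by
  classical
  have hM1 : 1 ≤ M := by omega
  have hM1R : (1 : ℝ) ≤ M := by exact_mod_cast hM1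
  have hMR : 160 * ((d : ℝ) + 1) ≤ M := by exact_mod_cast hM
  have hR2 : 2 ≤ R := by
    have : (2 : ℝ) ≤ R := by
      have h1 : (0 : ℝ) ≤ d := Nat.cast_nonneg d
      linarith
    exact_mod_cast this
  have hR0 : (0 : ℝ) < R := by exact_mod_cast (by omega : 0 < R)
  obtain ⟨m, hm⟩ : ∃ m : ℕ, m = n + 1 := ⟨_, rfl⟩
  obtain ⟨L₂, hL₂⟩ : ∃ L₂ : Fin d → ℕ, L₂ = fun i => L i / (4 * (d + 1) * m) := ⟨_, rfl⟩
  obtain ⟨L₃, hL₃⟩ : ∃ L₃ : Fin d → ℕ, L₃ = fun i => L₂ i / M := ⟨_, rfl⟩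
  have hq : 0 < 4 * (d + 1) * m := by rw [hm]; positivity
  have h21 : ∀ i, 4 * (d + 1) * m * L₂ i ≤ L i := fun i => by rw [hL₂]; exact Nat.mul_div_le _ _
  have h32 : ∀ i, M * L₃ i ≤ L₂ i := fun i => by rw [hL₃]; exact Nat.mul_div_le _ _
  have h32' : ∀ i, L₃ i ≤ L₂ i := fun i => by rw [hL₃]; exact Nat.div_le_self _ _
  have h21' : ∀ i, 4 * L₂ i ≤ L i := fun i => by
    have h1 := h21 i
    have h2 : 4 * L₂ i ≤ 4 * (d + 1) * m * L₂ i := by
      have : 1 ≤ (d + 1) * m := by rw [hm]; exact Nat.one_le_iff_ne_zero.2 (by positivity)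
      calc 4 * L₂ i = 4 * 1 * L₂ i := by ring
        _ ≤ 4 * ((d + 1) * m) * L₂ i := by gcongr
        _ = _ := by ring
    omega
  -- Chang
  obtain ⟨X, hX⟩ : ∃ X, X = HP H a L := ⟨_, rfl⟩
  obtain ⟨S, hS⟩ : ∃ S, S = HP H a L₂ := ⟨_, rfl⟩
  obtain ⟨Y, hY⟩ : ∃ Y, Y = HP H a (fun i => L i + m * L₂ i) := ⟨_, rfl⟩
  have hYX : (Y.card : ℝ) ≤ 2 * X.card := by
    have h1 := (t_VOL N H d a (fun i => L i + m * L₂ i)).1
    have h2 := (t_VOL N H d a L).2 hP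
    rw [← hY] at h1
    rw [← hX] at h2
    have h3 := AS.box_double L (fun i => m * L₂ i) (fun i => by
      have := h21 i
      calc 4 * (d + 1) * (m * L₂ i) = 4 * (d + 1) * m * L₂ i := by ring
        _ ≤ L i := this)
    calc (Y.card : ℝ) ≤ ((Nat.card H * ∏ i, (2 * (L i + m * L₂ i) + 1) : ℕ) : ℝ) := by exact_mod_cast h1
      _ = (Nat.card H : ℝ) * ((∏ i, (2 * (L i + m * L₂ i) + 1) : ℕ) : ℝ) := by push_cast; ring
      _ ≤ (Nat.card H : ℝ) * (2 * ((∏ i, (2 * L i + 1) : ℕ) : ℝ)) := by gcongr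
      _ = 2 * ((Nat.card H * ∏ i, (2 * L i + 1) : ℕ) : ℝ) := by push_cast; ring
      _ = 2 * X.card := by rw [h2]
  obtain ⟨Λ, hΛn, hΛ⟩ := lch2 ν l hl hν X Y S t m n Q ⟨0, by rw [hS]; exact AS.zero_mem_HP H a L₂⟩
    (fun s hs => by rw [hS] at hs ⊢; exact AS.neg_mem_HP H a L₂ s hs)
    (fun j x hx => by rw [hX]; exact hTX j x hx)
    (fun j x => by rw [hX]; exact hQ j x)
    (fun x hx s hs => by
      rw [hY]
      rw [hX] at hx
      exact AS.sum_mem_HP H a L L₂ x hx m s fun i => by have := hs i; rwa [hS] at this)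
    hYX hn (by omega)
  -- the Bohr set in the short coset progression
  have hL₃eq : L₃ = fun i => L i / (4 * (d + 1) * (n + 1) * M) := by
    rw [hL₃, hL₂, hm]
    funext i
    rw [Nat.div_div_eq_div_mul]
  obtain ⟨Γ₁, hΓ1, hΓ1'⟩ := GP.coset H a L₃ (AS.mono_HP H a L L₃ (fun i => by
    have h1 := h32' i
    have h2 := h21' i
    omega) hP) R hR
  obtain ⟨Γ₂, hΓ2⟩ : ∃ Γ₂ : Finset (ZMod N), Γ₂ = (Λ ×ˢ range (J + 1)).image
    fun p => ((R ^ p.2 : ℕ) : ZMod N) * p.1 := ⟨_, rfl⟩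
  refine ⟨Γ₂ ∪ Γ₁, ?_, ?_⟩
  · have h1 : (Γ₂.card : ℝ) ≤ n * (J + 1) := by
      have : Γ₂.card ≤ n * (J + 1) := by
        rw [hΓ2]
        refine card_image_le.trans ?_
        rw [card_product, card_range]
        exact Nat.mul_le_mul_right _ hΛn
      exact_mod_cast this
    have h2 : ((Γ₂ ∪ Γ₁).card : ℝ) ≤ Γ₂.card + Γ₁.card := by exact_mod_cast card_union_le _ _
    rw [GP.card_box, hL₃eq] at hΓ1
    linarith
  · intro y hy
    refine hD y fun γ hγ => ?_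
    obtain ⟨ε, hε, hδ⟩ := hΛ γ hγ
    obtain ⟨δ, hδ'⟩ : ∃ δ : ZMod N, δ = γ - ∑ z ∈ Λ, (ε z : ZMod N) * z := ⟨_, rfl⟩
    rw [← hδ'] at hδ
    have hyL : y ∈ HP H a L₃ := by
      obtain ⟨h, hh, k, hk, he⟩ := hΓ1' y fun g hg => hy g (mem_union_right _ hg)
      rw [mem_HP]
      exact ⟨k, hk, by rw [he]; simpa using hh⟩
    have h1 : ‖ψ (δ * y) - 1‖ ≤ 1 / 80 := by
      have h2 := t_INV N H d M a L L₂ L₃ hP hM1 (fun i => by
        have h1 := h32' i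
        have h2 := h21' i
        omega) h32 δ (by rw [hS] at hδ; exact hδ) y hyL
      refine h2.trans ?_
      rw [div_le_div_iff₀ (by linarith) (by norm_num)]
      linarith
    have h2 : ‖ψ ((∑ z ∈ Λ, (ε z : ZMod N) * z) * y) - 1‖ ≤ 1 / (8 * 10) := by
      refine bohr_small Λ R J hR2 10 (by norm_num) ?_ y ?_ ε hε
      · refine le_trans ?_ hJ
        have h3 : (Λ.card : ℝ) ≤ n := by exact_mod_cast hΛn
        have := Real.pi_pos
        calc 4 * Real.pi * 10 * Λ.card ≤ 4 * Real.pi * 10 * n := by gcongr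
          _ = 40 * Real.pi * n := by ring
      · intro z hz i hi
        have h3 := hy (((R ^ i : ℕ) : ZMod N) * z) (mem_union_left _ (by
          rw [hΓ2, mem_image]
          exact ⟨(z, i), mem_product.2 ⟨hz, mem_range.2 hi⟩, rfl⟩))
        refine h3.trans ?_
        apply one_div_le_one_div_of_le (by positivity)
        linarith
    have h3 : γ * y = (∑ z ∈ Λ, (ε z : ZMod N) * z) * y + δ * y := by rw [hδ']; ring
    rw [h3]
    refine (GP.norm_ψ_sub_one_add _ _).trans ?_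
    calc ‖ψ ((∑ z ∈ Λ, (ε z : ZMod N) * z) * y) - 1‖ + ‖ψ (δ * y) - 1‖ ≤ 1 / (8 * 10) + 1 / 80 :=
          add_le_add h2 h1
      _ = 1 / 40 := by norm_num

/-- the laws for a pair `X`, `Y` and translations from `S₀` -/
theorem laws4 : ∃ C : ℝ, 1 ≤ C ∧ ∀ (N : ℕ) [NeZero N] (X Y S₀ : Finset (ZMod N)) (K₁ K₂ : ℝ), X.Nonempty →
    Y.Nonempty → S₀.Nonempty → 1 ≤ K₁ → 1 ≤ K₂ →
    ((X + Y + (S₀ - S₀)).card : ℝ) ≤ K₁ * X.card → ((X + Y + (S₀ - S₀)).card : ℝ) ≤ K₂ * Y.card →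
    ∃ (l : ℕ) (ν : ℕ → ZMod N → ℝ), 1 ≤ l ∧ (∀ j, IsLaw (ν j)) ∧
      (∀ j s, ν j s ≤ Real.exp (C * (Real.log (2 * K₁) * Real.log (2 * K₂) *
        (1 + Real.log (1 + min (Real.log (2 * K₁)) (Real.log (2 * K₂)))))) * uf S₀ s) ∧
      ∀ y : ZMod N, (∀ γ : ZMod N, (l : ℝ) / 2 ≤ ∑ j ∈ range l, ‖ft (ν j) γ‖ → ‖ψ (γ * y) - 1‖ ≤ 1 / 40) →
        ∃ x ∈ X, ∃ b ∈ Y, ∃ x' ∈ X, ∃ b' ∈ Y, y = x + b - x' - b' := by
  classical
  refine ⟨1280000000 * 36 * 4, by norm_num, ?_⟩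
  intro N _ X Y S₀ K₁ K₂ hX hY hS₀ hK₁ hK₂ hcX hcY
  have hlog2 := Real.log_two_gt_d9
  obtain ⟨L₁, hL₁⟩ : ∃ L₁ : ℝ, L₁ = Real.log (2 * K₁) := ⟨_, rfl⟩
  obtain ⟨L₂, hL₂⟩ : ∃ L₂ : ℝ, L₂ = Real.log (2 * K₂) := ⟨_, rfl⟩
  obtain ⟨Λ, hΛ⟩ : ∃ Λ : ℝ, Λ = Real.log K₁ + 3 := ⟨_, rfl⟩
  obtain ⟨M, hM⟩ : ∃ M : ℝ, M = Real.log K₂ + 3 := ⟨_, rfl⟩
  rw [← hL₁, ← hL₂]
  have hk1 : 0 ≤ Real.log K₁ := Real.log_nonneg hK₁
  have hk2 : 0 ≤ Real.log K₂ := Real.log_nonneg hK₂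
  have e1 : L₁ = Real.log 2 + Real.log K₁ := by rw [hL₁, Real.log_mul (by norm_num) (by linarith)]
  have e2 : L₂ = Real.log 2 + Real.log K₂ := by rw [hL₂, Real.log_mul (by norm_num) (by linarith)]
  have hΛ0 : 3 ≤ Λ := by linarith
  have hM0 : 3 ≤ M := by linarith
  have hΛL : Λ ≤ 6 * L₁ := by linarith
  have hML : M ≤ 6 * L₂ := by linarith
  obtain ⟨μ, hμ⟩ : ∃ μ : ℝ, μ = min Λ M := ⟨_, rfl⟩
  have hμ3 : 3 ≤ μ := by rw [hμ]; exact le_min hΛ0 hM0
  have hμΛ : μ ≤ Λ := by rw [hμ]; exact min_le_left _ _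
  have hμM : μ ≤ M := by rw [hμ]; exact min_le_right _ _
  obtain ⟨l, hl⟩ : ∃ l : ℕ, l = ⌈3 * μ⌉₊ := ⟨_, rfl⟩
  have hl1 : 3 * μ ≤ l := by rw [hl]; exact Nat.le_ceil _
  have hl2 : (l : ℝ) ≤ 3 * μ + 1 := by rw [hl]; exact (Nat.ceil_lt_add_one (by linarith)).le
  have hl3 : 1 ≤ l := by
    have : (1 : ℝ) ≤ l := by linarith
    exact_mod_cast this
  have hS : (X + Y).Nonempty := hX.add hY
  have hX0 : (0 : ℝ) < X.card := by exact_mod_cast hX.card_pos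
  have hY0 : (0 : ℝ) < Y.card := by exact_mod_cast hY.card_pos
  obtain ⟨q, ν, P, hq, hPl, hPs, hP0, hq0, hPh, hν⟩ := smooth hX hY hS₀ (fun x hx y hy => add_mem_add hx hy) Λ M K₁ K₂
    hK₁ hK₂ hΛ hM hcX hcY l hl3 (by linarith) (by linarith)
  refine ⟨l, ν, hl3, fun j => (hν j).1, fun j s => ((hν j).2 s).trans ?_, ?_⟩
  · have hu : 0 ≤ uf S₀ s := (isLaw_uf hS₀).nonneg s
    refine mul_le_mul_of_nonneg_right (Real.exp_le_exp.2 ?_) hu
    have hmin0 : 0 ≤ min L₁ L₂ := le_min (by linarith) (by linarith)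
    have hll : Real.log l ≤ 3 + Real.log (1 + min L₁ L₂) := by
      have h1 : (l : ℝ) ≤ 10 * (1 + min L₁ L₂) := by
        have : μ ≤ min L₁ L₂ + 3 := by
          rw [hμ, ← min_add_add_right]
          apply min_le_min <;> linarith
        linarith
      have h2 : Real.log l ≤ Real.log (10 * (1 + min L₁ L₂)) :=
        Real.log_le_log (by exact_mod_cast hl3) h1
      rw [Real.log_mul (by norm_num) (by linarith)] at h2
      have h3 : Real.log 10 ≤ 3 := by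
        rw [Real.log_le_iff_le_exp (by norm_num)]
        have h4 : Real.exp 3 = Real.exp 1 ^ 3 := by rw [← Real.exp_nat_mul]; norm_num
        rw [h4]
        have h5 := Real.exp_one_gt_d9
        calc (10 : ℝ) ≤ 2.7 ^ 3 := by norm_num
          _ ≤ Real.exp 1 ^ 3 := by gcongr; linarith
      linarith
    have hlog0 : 0 ≤ Real.log (1 + min L₁ L₂) := Real.log_nonneg (by linarith)
    have hl0 : 0 ≤ Real.log l := Real.log_nonneg (by exact_mod_cast hl3)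
    have hL10 : 0 ≤ L₁ := by linarith
    have hL20 : 0 ≤ L₂ := by linarith
    calc 1280000000 * (Λ * M) * (1 + Real.log l)
        ≤ 1280000000 * ((6 * L₁) * (6 * L₂)) * (4 * (1 + Real.log (1 + min L₁ L₂))) := by
          gcongr
          linarith
      _ = 1280000000 * 36 * 4 * (L₁ * L₂ * (1 + Real.log (1 + min L₁ L₂))) := by ring
  · intro y hy
    have hSX : ((X + Y).card : ℝ) ≤ K₁ * X.card := by
      refine le_trans ?_ hcX
      obtain ⟨s, hs⟩ := hS₀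
      have : (X + Y).card ≤ (X + Y + (S₀ - S₀)).card := card_le_card_add_right (⟨s - s, sub_mem_sub hs hs⟩)
      exact_mod_cast this
    have hSY : ((X + Y).card : ℝ) ≤ K₂ * Y.card := by
      refine le_trans ?_ hcY
      obtain ⟨s, hs⟩ := hS₀
      have : (X + Y).card ≤ (X + Y + (S₀ - S₀)).card := card_le_card_add_right (⟨s - s, sub_mem_sub hs hs⟩)
      exact_mod_cast this
    have key : ∀ c : ℝ, ((∀ x, P 0 x ≤ c) ∨ (∀ x, q x ≤ c)) → c * (X + Y).card ≤ Real.exp (5 * μ - 3) →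
        ∃ s ∈ X + Y, ∃ s' ∈ X + Y, y = s - s' := by
      intro c hc hcc
      refine four2 ν P q (X + Y) hPl hq hPs c hc l ?_ hPh y hy
      have h1 : Real.sqrt (c * (X + Y).card) ≤ Real.exp ((5 * μ - 3) / 2) := by
        rw [Real.sqrt_le_left (Real.exp_pos _).le, ← Real.exp_nat_mul]
        refine hcc.trans (le_of_eq ?_)
        congr 1
        push_cast
        ring
      have h2 : (4 : ℝ) ^ l = Real.exp (l * Real.log 4) := by
        rw [mul_comm, Real.exp_mul, Real.exp_log (by norm_num), Real.rpow_natCast]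
      have h3 : Real.log 4 = 2 * Real.log 2 := by
        rw [show (4 : ℝ) = 2 ^ 2 by norm_num, Real.log_pow]; norm_num
      have h4 : (100 : ℝ) ≤ Real.exp 5 := by
        have h4 : Real.exp 5 = Real.exp 1 ^ 5 := by rw [← Real.exp_nat_mul]; norm_num
        rw [h4]
        have h5 := Real.exp_one_gt_d9
        calc (100 : ℝ) ≤ 2.7 ^ 5 := by norm_num
          _ ≤ Real.exp 1 ^ 5 := by gcongr; linarith
      rw [h2, h3]
      calc 100 * Real.sqrt (c * (X + Y).card) ≤ Real.exp 5 * Real.exp ((5 * μ - 3) / 2) := by gcongr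
        _ = Real.exp (5 + (5 * μ - 3) / 2) := by rw [Real.exp_add]
        _ ≤ Real.exp (l * (2 * Real.log 2)) := by
            apply Real.exp_le_exp.2
            have : (3 * μ) * (2 * 0.6931) ≤ l * (2 * Real.log 2) := by
              gcongr
              linarith
            linarith
    have hres : ∃ s ∈ X + Y, ∃ s' ∈ X + Y, y = s - s' := by
      rcases min_choice Λ M with h | h
      · refine key _ (Or.inl hP0) ?_
        have hμ' : μ = Λ := by rw [hμ]; exact h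
        rw [hμ']
        have h1 : Real.exp (5 * Λ - 3) = Real.exp (4 * Λ) * K₁ := by
          rw [show 5 * Λ - 3 = 4 * Λ + Real.log K₁ by linarith, Real.exp_add, Real.exp_log (by linarith)]
        rw [h1]
        calc Real.exp (4 * Λ) / X.card * (X + Y).card ≤ Real.exp (4 * Λ) / X.card * (K₁ * X.card) := by gcongr
          _ = Real.exp (4 * Λ) * K₁ := by field_simp
      · refine key _ (Or.inr hq0) ?_
        have hμ' : μ = M := by rw [hμ]; exact h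
        rw [hμ']
        have h1 : Real.exp (5 * M - 3) = Real.exp (4 * M) * K₂ := by
          rw [show 5 * M - 3 = 4 * M + Real.log K₂ by linarith, Real.exp_add, Real.exp_log (by linarith)]
        rw [h1]
        calc Real.exp (4 * M) / Y.card * (X + Y).card ≤ Real.exp (4 * M) / Y.card * (K₂ * Y.card) := by gcongr
          _ = Real.exp (4 * M) * K₂ := by field_simp
    obtain ⟨s, hs, s', hs', rfl⟩ := hres
    obtain ⟨x, hx, b, hb, rfl⟩ := mem_add.1 hs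
    obtain ⟨x', hx', b', hb', rfl⟩ := mem_add.1 hs'
    exact ⟨x, hx, b, hb, x', hx', b', hb', by ring⟩

end Pool.Agent.V8H19.AP
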