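import Pool.Agent.V8H19.AP.Comb4

/-!
# The main theorem for two sets and a set of translations
-/

set_option autoImplicit false

namespace Pool.Agent.V8H19.AP

open Finset Pool.Agent.TH858 Pool.Agent.N142.CD
open scoped Pointwise

/-- the cost -/
noncomputable def Wc (L₁ L₂ : ℝ) : ℝ := L₁ * L₂ * (1 + Real.log (1 + min L₁ L₂))

theorem Wc_nonneg {L₁ L₂ : ℝ} (h1 : 0 ≤ L₁) (h2 : 0 ≤ L₂) : 0 ≤ Wc L₁ L₂ := by
  unfold Wc
  have h3 : 0 ≤ min L₁ L₂ := le_min h1 h2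
  have : 0 ≤ Real.log (1 + min L₁ L₂) := Real.log_nonneg (by linarith)
  positivity

theorem Wc_le {L₁ L₂ R : ℝ} (h1 : 0 ≤ L₁) (h2 : 0 ≤ L₂) (h3 : L₁ ≤ R) (h4 : L₂ ≤ R) :
    Wc L₁ L₂ ≤ R * R * (1 + R) := by
  unfold Wc
  have h5 : 0 ≤ min L₁ L₂ := le_min h1 h2
  have h6 : 0 ≤ Real.log (1 + min L₁ L₂) := Real.log_nonneg (by linarith)
  have h7 : Real.log (1 + min L₁ L₂) ≤ R := by
    have := Real.log_le_sub_one_of_pos (by linarith : 0 < 1 + min L₁ L₂)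
    have h8 : min L₁ L₂ ≤ L₁ := min_le_left _ _
    linarith
  have hR : 0 ≤ R := h1.trans h3
  gcongr

/-- the laws in a translate of a proper coset progression -/
theorem data4 : ∃ C₁ : ℝ, 1 ≤ C₁ ∧
    ∀ (N : ℕ) [NeZero N] (X Y T A : Finset (ZMod N)) (K K₁ K₂ : ℝ), X.Nonempty → Y.Nonempty → T.Nonempty →
    T ⊆ A → 1 ≤ K → 1 ≤ K₁ → 1 ≤ K₂ → ((A + A).card : ℝ) ≤ K * A.card →
    ((X + Y + (T - T)).card : ℝ) ≤ K₁ * X.card → ((X + Y + (T - T)).card : ℝ) ≤ K₂ * Y.card →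
    ∃ (l : ℕ) (ν : ℕ → ZMod N → ℝ) (H : AddSubgroup (ZMod N)) (d : ℕ) (a : Fin d → ZMod N) (Lb : Fin d → ℕ)
      (t : ZMod N) (Q : ℝ), 1 ≤ l ∧ (∀ j, IsLaw (ν j)) ∧
      (∀ y : ZMod N, (∀ γ : ZMod N, (l : ℝ) / 2 ≤ ∑ j ∈ range l, ‖ft (ν j) γ‖ → ‖ψ (γ * y) - 1‖ ≤ 1 / 40) →
        ∃ x ∈ X, ∃ b ∈ Y, ∃ x' ∈ X, ∃ b' ∈ Y, y = x + b - x' - b') ∧
      (d : ℝ) ≤ 300 * Real.log (2 * K) ∧ ProperH H a Lb ∧ (∀ j x, ν j x ≠ 0 → x - t ∈ HP H a Lb) ∧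
      (∀ j x, ν j x ≤ Q / (HP H a Lb).card) ∧
      Real.log (4 * Q) ≤ C₁ * (Real.log (2 * K) ^ 2 + Real.log (A.card / T.card) +
        Wc (Real.log (2 * K₁)) (Real.log (2 * K₂))) ∧
      (A.card : ℝ) ≤ Real.exp (C₁ * Real.log (2 * K) ^ 2) * (HP H a Lb).card := by
  classical
  obtain ⟨CF, hCF, hFR⟩ := t_FR
  obtain ⟨C₄, hC₄, hlaws⟩ := laws4
  refine ⟨5 + 2 * CF + C₄, by linarith, ?_⟩
  intro N _ X Y T A K K₁ K₂ hX hY hT hTA hK hK₁ hK₂ hAA hcX hcY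
  obtain ⟨H, d, a, Lb, Tc, hd, hP, hX1, hTc, hcov⟩ := hFR N A K (hT.mono hTA) hK hAA
  obtain ⟨L, hL⟩ : ∃ L : ℝ, L = Real.log (2 * K) := ⟨_, rfl⟩
  have hlog2 := Real.log_two_gt_d9
  have hL2 : Real.log 2 ≤ L := by rw [hL]; exact Real.log_le_log (by norm_num) (by linarith)
  have hL4 : 0.48 ≤ L ^ 2 := by nlinarith
  have hAc : (0 : ℝ) < A.card := by exact_mod_cast (hT.mono hTA).card_pos
  have hTc0 : (0 : ℝ) < T.card := by exact_mod_cast hT.card_pos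
  obtain ⟨Z, hZ⟩ : ∃ Z, Z = HP H a Lb := ⟨_, rfl⟩
  rw [← hZ] at hX1 hcov
  obtain ⟨t, ht, hpig⟩ := AS.pigeon T Tc Z (fun x hx => hcov x (hTA hx)) hT
  obtain ⟨S₀, hS₀⟩ : ∃ S₀, S₀ = T.filter fun x => x - t ∈ Z := ⟨_, rfl⟩
  rw [← hS₀] at hpig
  have hS₀ne : S₀.Nonempty := by
    rw [← card_pos]
    rcases Nat.eq_zero_or_pos S₀.card with h | h
    · rw [h, mul_zero] at hpig
      have := hT.card_pos
      omega
    · exact h
  have hS₀c : (0 : ℝ) < S₀.card := by exact_mod_cast hS₀ne.card_pos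
  have hS₀T : S₀ ⊆ T := by rw [hS₀]; exact filter_subset _ _
  have hcc := AS.cover_card A Tc Z hcov
  rw [← hL] at hd hX1 hTc
  obtain ⟨E, hE⟩ : ∃ E : ℝ, E = Real.exp (CF * L ^ 2) := ⟨_, rfl⟩
  rw [← hE] at hX1 hTc
  have hE0 : 0 < E := by rw [hE]; exact Real.exp_pos _
  have hlogE : Real.log E = CF * L ^ 2 := by rw [hE, Real.log_exp]
  have hpig' : (T.card : ℝ) ≤ E * S₀.card := by
    have h1 : (T.card : ℝ) ≤ Tc.card * S₀.card := by exact_mod_cast hpig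
    exact h1.trans (mul_le_mul_of_nonneg_right hTc hS₀c.le)
  have hcc' : (A.card : ℝ) ≤ E * Z.card := by
    have h1 : (A.card : ℝ) ≤ Tc.card * Z.card := by exact_mod_cast hcc
    exact h1.trans (mul_le_mul_of_nonneg_right hTc (Nat.cast_nonneg _))
  have hZc : (0 : ℝ) < Z.card := by
    by_contra hcon
    have h1 : (Z.card : ℝ) = 0 := le_antisymm (not_lt.1 hcon) (Nat.cast_nonneg _)
    rw [h1, mul_zero] at hcc'
    linarith
  have hsub : X + Y + (S₀ - S₀) ⊆ X + Y + (T - T) := add_subset_add_left (sub_subset_sub hS₀T hS₀T)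
  have hsubc : ((X + Y + (S₀ - S₀)).card : ℝ) ≤ (X + Y + (T - T)).card := by exact_mod_cast card_le_card hsub
  obtain ⟨l, ν, hl, hν, hνle, hy⟩ := hlaws N X Y S₀ K₁ K₂ hX hY hS₀ne hK₁ hK₂ (hsubc.trans hcX) (hsubc.trans hcY)
  obtain ⟨w, hw⟩ : ∃ w : ℝ, w = Wc (Real.log (2 * K₁)) (Real.log (2 * K₂)) := ⟨_, rfl⟩
  have hw' : Real.log (2 * K₁) * Real.log (2 * K₂) *
        (1 + Real.log (1 + min (Real.log (2 * K₁)) (Real.log (2 * K₂)))) = w := by rw [hw]; rfl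
  rw [hw'] at hνle
  have hw0 : 0 ≤ w := by
    rw [hw]
    exact Wc_nonneg (Real.log_nonneg (by linarith)) (Real.log_nonneg (by linarith))
  refine ⟨l, ν, H, d, a, Lb, t, Real.exp (C₄ * w) * Z.card / S₀.card, hl, hν, hy, ?_, hP, ?_, ?_, ?_, ?_⟩
  · rw [← hL]; exact hd
  · intro j x hx
    have h1 := supp_of_le (hν j) (hνle j) x hx
    rw [hS₀, mem_filter] at h1
    rw [← hZ]
    exact h1.2
  · intro j x
    refine (hνle j x).trans ?_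
    rw [← hZ]
    have h1 := uf_le S₀ x
    calc Real.exp (C₄ * w) * uf S₀ x ≤ Real.exp (C₄ * w) * (1 / S₀.card) := by gcongr
      _ = Real.exp (C₄ * w) * Z.card / S₀.card / Z.card := by field_simp
  · rw [← hL, ← hw]
    have hAT : 1 ≤ (A.card : ℝ) / T.card := by
      rw [le_div_iff₀ hTc0, one_mul]
      exact_mod_cast card_le_card hTA
    have hlogAT : 0 ≤ Real.log (A.card / T.card) := Real.log_nonneg hAT
    have h2 : 4 * (Real.exp (C₄ * w) * Z.card / S₀.card) ≤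
        4 * (Real.exp (C₄ * w) * (E * (E * (A.card / T.card)))) := by
      have h3 : (Z.card : ℝ) / S₀.card ≤ E * (E * (A.card / T.card)) := by
        rw [div_le_iff₀ hS₀c]
        calc (Z.card : ℝ) ≤ E * A.card := hX1
          _ = E * (A.card / T.card) * T.card := by field_simp
          _ ≤ E * (A.card / T.card) * (E * S₀.card) := by gcongr
          _ = E * (E * (A.card / T.card)) * S₀.card := by ring
      calc 4 * (Real.exp (C₄ * w) * Z.card / S₀.card) = 4 * (Real.exp (C₄ * w) * (Z.card / S₀.card)) := by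
            rw [mul_div_assoc]
        _ ≤ _ := by gcongr
    refine (Real.log_le_log (by positivity) h2).trans ?_
    have hlog4 : Real.log 4 ≤ 2 := by
      have h1 : Real.log 4 = 2 * Real.log 2 := by
        rw [show (4 : ℝ) = 2 ^ 2 by norm_num, Real.log_pow]; norm_num
      have := Real.log_two_lt_d9
      linarith
    rw [Real.log_mul (by norm_num) (by positivity), Real.log_mul (Real.exp_pos _).ne' (by positivity), Real.log_exp,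
      Real.log_mul hE0.ne' (by positivity), Real.log_mul hE0.ne' (by positivity), hlogE]
    have h5 : 0 ≤ (4 + 2 * CF + C₄) * Real.log (A.card / T.card) := by positivity
    have h6 : 0 ≤ (5 + 2 * CF) * w := by positivity
    have h7 : 0 ≤ C₄ * L ^ 2 := by positivity
    nlinarith
  · rw [← hZ, ← hL]
    refine hcc'.trans ?_
    rw [hE]
    have h1 : CF * L ^ 2 ≤ (5 + 2 * CF + C₄) * L ^ 2 := by
      gcongr
      linarith
    gcongr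

/-- the main bound with a free parameter `R` -/
theorem core4 : ∃ C : ℝ, 1 ≤ C ∧ ∀ (N : ℕ) [NeZero N] (X Y T A : Finset (ZMod N)) (K K₁ K₂ : ℝ) (R : ℕ),
    X.Nonempty → Y.Nonempty → T.Nonempty →
    T ⊆ A → 1 ≤ K → 1 ≤ K₁ → 1 ≤ K₂ → ((A + A).card : ℝ) ≤ K * A.card →
    ((X + Y + (T - T)).card : ℝ) ≤ K₁ * X.card → ((X + Y + (T - T)).card : ℝ) ≤ K₂ * Y.card →
    300 * Real.log (2 * K) + 3 ≤ R → Real.log (2 * K₁) ≤ R → Real.log (2 * K₂) ≤ R →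
    Real.log (A.card / T.card) ≤ R →
    ∃ Γ : Finset (ZMod N), (Γ.card : ℝ) ≤ C * (Real.log (N / A.card) / Real.log R + (Real.log (2 * K) ^ 2 +
        Real.log (A.card / T.card) + Wc (Real.log (2 * K₁)) (Real.log (2 * K₂)))) ∧
      ∀ y : ZMod N, (∀ g ∈ Γ, CB.nn (g * y) ≤ 1 / (8 * R)) →
        ∃ x ∈ X, ∃ b ∈ Y, ∃ x' ∈ X, ∃ b' ∈ Y, y = x + b - x' - b' := by
  classical
  obtain ⟨C₁, hC₁, hdata⟩ := data4
  obtain ⟨C₆, hC₆⟩ : ∃ C₆ : ℝ, C₆ = 8 * C₁ + 5 := ⟨_, rfl⟩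
  have hC₆1 : 1 ≤ C₆ := by rw [hC₆]; linarith
  obtain ⟨J₀, hJ₀⟩ : ∃ J₀ : ℕ, 160 * Real.pi * C₆ ≤ (3 : ℝ) ^ J₀ := by
    obtain ⟨J₀, h⟩ := pow_unbounded_of_one_lt (160 * Real.pi * C₆) (by norm_num : (1 : ℝ) < 3)
    exact ⟨J₀, h.le⟩
  obtain ⟨J₁, hJ₁⟩ : ∃ J₁ : ℕ, 5120 * C₆ ≤ (3 : ℝ) ^ J₁ := by
    obtain ⟨J₁, h⟩ := pow_unbounded_of_one_lt (5120 * C₆) (by norm_num : (1 : ℝ) < 3)
    exact ⟨J₁, h.le⟩
  have hJ₀R : (0 : ℝ) ≤ J₀ := Nat.cast_nonneg _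
  have hJ₁R : (0 : ℝ) ≤ J₁ := Nat.cast_nonneg _
  refine ⟨5 + C₆ * (J₀ + 3) + 80000 + 5 * (C₁ + 600 * (J₁ + 5)), by nlinarith, ?_⟩
  intro N _ X Y T A K K₁ K₂ R hX hY hT hTA hK hK₁ hK₂ hAA hcX hcY hR hR₁ hR₂ hRT
  obtain ⟨l, ν, H, d, a, Lb, t, Q, hl, hν, hAPP, hd, hP, hTX, hQ, hlog, hAX⟩ :=
    hdata N X Y T A K K₁ K₂ hX hY hT hTA hK hK₁ hK₂ hAA hcX hcY
  have hlog2 := Real.log_two_gt_d9
  obtain ⟨L, hL⟩ : ∃ L : ℝ, L = Real.log (2 * K) := ⟨_, rfl⟩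
  have hL2 : Real.log 2 ≤ L := by rw [hL]; exact Real.log_le_log (by norm_num) (by linarith)
  have hL0 : 0 < L := by linarith
  have hL4 : 0.48 ≤ L ^ 2 := by nlinarith
  have hL5 : L ≤ 2 * L ^ 2 := by nlinarith
  obtain ⟨τ, hτ⟩ : ∃ τ : ℝ, τ = Real.log (A.card / T.card) := ⟨_, rfl⟩
  obtain ⟨w, hw⟩ : ∃ w : ℝ, w = Wc (Real.log (2 * K₁)) (Real.log (2 * K₂)) := ⟨_, rfl⟩
  rw [← hL, ← hτ, ← hw] at hlog ⊢
  rw [← hL] at hd hR hAX
  rw [← hτ] at hRT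
  have hAc : (0 : ℝ) < A.card := by exact_mod_cast (hT.mono hTA).card_pos
  have hTc0 : (0 : ℝ) < T.card := by exact_mod_cast hT.card_pos
  have hτ0 : 0 ≤ τ := by
    rw [hτ]
    refine Real.log_nonneg ?_
    rw [le_div_iff₀ hTc0, one_mul]
    exact_mod_cast card_le_card hTA
  have hL₁0 : 0 ≤ Real.log (2 * K₁) := Real.log_nonneg (by linarith)
  have hL₂0 : 0 ≤ Real.log (2 * K₂) := Real.log_nonneg (by linarith)
  have hw0 : 0 ≤ w := by rw [hw]; exact Wc_nonneg hL₁0 hL₂0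
  have hR3 : (3 : ℝ) ≤ R := by linarith
  have hR0 : (0 : ℝ) < R := by linarith
  obtain ⟨W, hW⟩ : ∃ W : ℝ, W = L ^ 2 + τ + w := ⟨_, rfl⟩
  rw [← hW] at hlog ⊢
  have hW1 : 0.48 ≤ W := by linarith
  have hWR : W ≤ 4 * (R : ℝ) ^ 3 := by
    have h1 : w ≤ R * R * (1 + R) := by rw [hw]; exact Wc_le hL₁0 hL₂0 hR₁ hR₂
    have h2 : L ^ 2 ≤ R * R := by
      have : L ≤ R := by linarith
      nlinarith
    have h3 : (R : ℝ) ≤ R * R := by nlinarith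
    have h4 : (R : ℝ) * R ≤ R * R * R := by nlinarith
    have h5 : (R : ℝ) ^ 3 = R * R * R := by ring
    rw [h5]
    nlinarith
  obtain ⟨n, hn⟩ : ∃ n : ℕ, n = ⌈8 * (C₁ * W)⌉₊ := ⟨_, rfl⟩
  have hn1 : 8 * (C₁ * W) ≤ n := by rw [hn]; exact Nat.le_ceil _
  have hn2 : (n : ℝ) + 1 ≤ C₆ * W := by
    have h1 : (n : ℝ) ≤ 8 * (C₁ * W) + 1 := by rw [hn]; exact (Nat.ceil_lt_add_one (by positivity)).le
    rw [hC₆]
    linarith
  have hn0 : (0 : ℝ) ≤ n := Nat.cast_nonneg n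
  have hpi := Real.pi_pos
  have hpow : 40 * Real.pi * n ≤ (R : ℝ) ^ (J₀ + 2 + 1) := by
    calc 40 * Real.pi * (n : ℝ) ≤ 40 * Real.pi * (C₆ * (4 * (R : ℝ) ^ 3)) := by
          gcongr
          calc (n : ℝ) ≤ C₆ * W := by linarith
            _ ≤ C₆ * (4 * (R : ℝ) ^ 3) := by gcongr
      _ = 160 * Real.pi * C₆ * R ^ 3 := by ring
      _ ≤ 3 ^ J₀ * (R : ℝ) ^ 3 := by gcongr
      _ ≤ (R : ℝ) ^ J₀ * R ^ 3 := by gcongr
      _ = (R : ℝ) ^ (J₀ + 2 + 1) := by rw [← pow_add]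
  obtain ⟨D, hD⟩ : ∃ D : Finset (ZMod N), D = univ.filter fun y : ZMod N =>
    ∃ x ∈ X, ∃ b ∈ Y, ∃ x' ∈ X, ∃ b' ∈ Y, y = x + b - x' - b' := ⟨_, rfl⟩
  have hDm : ∀ y : ZMod N, y ∈ D ↔ ∃ x ∈ X, ∃ b ∈ Y, ∃ x' ∈ X, ∃ b' ∈ Y, y = x + b - x' - b' := by
    intro y
    rw [hD, mem_filter]
    exact ⟨fun h => h.2, fun h => ⟨mem_univ _, h⟩⟩
  obtain ⟨Γ, hΓ1, hΓ2⟩ := comb4 N D ν l hl hν (fun y hy => (hDm y).2 (hAPP y hy)) H d a Lb hP t Q hTX hQ n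
    (160 * (d + 1)) (by linarith) le_rfl R (J₀ + 2) (by linarith) hpow
  refine ⟨Γ, ?_, fun y hy => (hDm y).1 (hΓ2 y hy)⟩
  obtain ⟨q, hq⟩ : ∃ q : ℕ, q = 4 * (d + 1) * (n + 1) * (160 * (d + 1)) := ⟨_, rfl⟩
  rw [← hq] at hΓ1
  have hq1 : 1 ≤ q := by rw [hq]; exact Nat.one_le_iff_ne_zero.2 (by positivity)
  have hq1R : (1 : ℝ) ≤ q := by exact_mod_cast hq1
  have hd0 : (0 : ℝ) ≤ d := Nat.cast_nonneg d
  have hlogR : 1 ≤ Real.log R := by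
    rw [Real.le_log_iff_exp_le hR0]
    have := Real.exp_one_lt_d9
    linarith
  have hlogR0 : 0 < Real.log R := by linarith
  have hlogq : Real.log (2 * q) ≤ (J₁ + 5) * Real.log R := by
    have h1 : 2 * (q : ℝ) ≤ (R : ℝ) ^ (J₁ + 5) := by
      rw [hq]
      push_cast
      have h2 : (d : ℝ) + 1 ≤ R := by linarith
      calc (2 : ℝ) * (4 * ((d : ℝ) + 1) * ((n : ℝ) + 1) * (160 * ((d : ℝ) + 1)))
          ≤ 2 * (4 * R * (C₆ * (4 * (R : ℝ) ^ 3)) * (160 * R)) := by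
            gcongr
            exact hn2.trans (by gcongr)
        _ = 5120 * C₆ * R ^ 5 := by ring
        _ ≤ 3 ^ J₁ * (R : ℝ) ^ 5 := by gcongr
        _ ≤ (R : ℝ) ^ J₁ * R ^ 5 := by gcongr
        _ = (R : ℝ) ^ (J₁ + 5) := by rw [← pow_add]
    have h2 := Real.log_le_log (by linarith) h1
    rw [Real.log_pow] at h2
    push_cast at h2
    exact h2
  obtain ⟨V₃, hV₃⟩ : ∃ V₃ : ℕ, V₃ = ∏ i, (2 * (Lb i / q) + 1) := ⟨_, rfl⟩
  rw [← hV₃] at hΓ1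
  have hvolX := (t_VOL N H d a Lb).2 hP
  obtain ⟨Z, hZ⟩ : ∃ Z, Z = HP H a Lb := ⟨_, rfl⟩
  rw [← hZ] at hAX hvolX
  have hNpos : (0 : ℝ) < N := by exact_mod_cast NeZero.pos N
  have hV₃0 : (0 : ℝ) < V₃ := by
    have : 0 < V₃ := by rw [hV₃]; exact prod_pos fun i _ => by omega
    exact_mod_cast this
  have hHc : (0 : ℝ) < Nat.card H := by exact_mod_cast Nat.card_pos
  obtain ⟨E, hE⟩ : ∃ E : ℝ, E = Real.exp (C₁ * L ^ 2) := ⟨_, rfl⟩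
  rw [← hE] at hAX
  have hE0 : 0 < E := by rw [hE]; exact Real.exp_pos _
  have hlogE : Real.log E = C₁ * L ^ 2 := by rw [hE, Real.log_exp]
  have hvol : (A.card : ℝ) ≤ E * ((Nat.card H : ℝ) * ((2 * (q : ℝ)) ^ d * V₃)) := by
    have h2 : (Z.card : ℝ) ≤ (Nat.card H : ℝ) * ((2 * (q : ℝ)) ^ d * V₃) := by
      rw [hvolX]
      push_cast
      have h3 := AS.box_ratio Lb q hq1
      rw [← hV₃] at h3
      push_cast at h3
      gcongr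
    exact hAX.trans (by gcongr)
  have hlogvol : Real.log (N / (Nat.card H * V₃)) ≤ Real.log (N / A.card) + C₁ * L ^ 2 +
      300 * L * ((J₁ + 5) * Real.log R) := by
    have h1 : (N : ℝ) / (Nat.card H * V₃) ≤ (N / A.card) * (E * (2 * (q : ℝ)) ^ d) := by
      rw [div_mul_eq_mul_div, div_le_div_iff₀ (by positivity) hAc]
      calc (N : ℝ) * A.card ≤ N * (E * ((Nat.card H : ℝ) * ((2 * (q : ℝ)) ^ d * V₃))) := by gcongr
        _ = _ := by ring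
    refine (Real.log_le_log (by positivity) h1).trans ?_
    rw [Real.log_mul (by positivity) (by positivity), Real.log_mul hE0.ne' (by positivity), hlogE, Real.log_pow]
    have h2 : (d : ℝ) * Real.log (2 * q) ≤ 300 * L * ((J₁ + 5) * Real.log R) := by
      have h3 : 0 ≤ Real.log (2 * q) := Real.log_nonneg (by linarith)
      gcongr
    linarith
  have e2 : 175 * (d : ℝ) + 1 ≤ 80000 * W := by nlinarith
  have e3 : Real.log (N / (Nat.card H * V₃)) / Real.log R ≤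
      Real.log (N / A.card) / Real.log R + (C₁ + 600 * (J₁ + 5)) * W := by
    have h1 : Real.log (N / (Nat.card H * V₃)) / Real.log R ≤
        (Real.log (N / A.card) + C₁ * L ^ 2 + 300 * L * ((J₁ + 5) * Real.log R)) / Real.log R := by gcongr
    have h2 : (Real.log (N / A.card) + C₁ * L ^ 2 + 300 * L * ((J₁ + 5) * Real.log R)) / Real.log R =
        Real.log (N / A.card) / Real.log R + C₁ * L ^ 2 / Real.log R + 300 * L * (J₁ + 5) := by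
      field_simp
    have h3 : C₁ * L ^ 2 / Real.log R ≤ C₁ * L ^ 2 := div_le_self (by positivity) hlogR
    have h4 : 300 * L * (J₁ + 5) ≤ 300 * (2 * L ^ 2) * (J₁ + 5) := by gcongr
    have h5 : (C₁ + 600 * (J₁ + 5)) * L ^ 2 ≤ (C₁ + 600 * (J₁ + 5)) * W := by
      gcongr
      linarith
    linarith
  have hx0 : 0 ≤ Real.log (N / A.card) / Real.log R := by
    apply div_nonneg _ hlogR0.le
    apply Real.log_nonneg
    rw [le_div_iff₀ hAc, one_mul]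
    have := card_le_univ A
    rw [ZMod.card] at this
    exact_mod_cast this
  have e1 : (n : ℝ) * ((J₀ + 2 : ℕ) + 1) ≤ C₆ * (J₀ + 3) * W := by
    push_cast
    calc (n : ℝ) * ((J₀ : ℝ) + 2 + 1) ≤ (C₆ * W) * ((J₀ : ℝ) + 2 + 1) := by
          gcongr
          linarith
      _ = C₆ * (J₀ + 3) * W := by ring
  obtain ⟨x', hx'⟩ : ∃ x' : ℝ, x' = Real.log (N / A.card) / Real.log R := ⟨_, rfl⟩
  rw [← hx'] at e3 hx0 ⊢
  have hCC : 0 ≤ C₆ * (J₀ + 3) + 80000 + 5 * (C₁ + 600 * (J₁ + 5)) := by positivity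
  have e7 : 0 ≤ (C₆ * (J₀ + 3) + 80000 + 5 * (C₁ + 600 * (J₁ + 5))) * x' := mul_nonneg hCC hx0
  have e8 : (5 + C₆ * (J₀ + 3) + 80000 + 5 * (C₁ + 600 * (J₁ + 5))) * (x' + W) =
      5 * x' + (C₆ * (J₀ + 3) + 80000 + 5 * (C₁ + 600 * (J₁ + 5))) * x' + 5 * W +
        C₆ * (J₀ + 3) * W + 80000 * W + 5 * ((C₁ + 600 * (J₁ + 5)) * W) := by ring
  rw [e8]
  linarith

end Pool.Agent.V8H19.AP
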