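import Pool.Agent.V8H19.AP.Four

/-!
# The engine

For sets `X`, `Y` with `|X + Y| ≤ K |X|` and a set `S₀` of translations with room `K₂` there is `T ⊆ S₀` with
`|S₀| ≤ exp (C log² (2K) (1 + log K₂)) |T|` such that for every nonempty `T₁ ⊆ T` the approximate annihilator of the
large spectrum of `T₁`, with an absolute tolerance, lies in `X + Y - X - Y`.
-/

set_option autoImplicit false

namespace Pool.Agent.V8H19.AP

open Finset Pool.Agent.TH858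
open Pool.Agent.N142.CD (ψ)
open scoped Pointwise

theorem engine {N : ℕ} [NeZero N] (X Y S₀ R R₀ : Finset (ZMod N)) (hX : X.Nonempty) (hY : Y.Nonempty)
    (hS₀ : S₀.Nonempty) (K K₂ : ℝ) (m J l : ℕ) (hm : 1 ≤ m) (hK : 1 ≤ K) (hmK : Real.log (4 * K) ≤ m)
    (hXY : ((X + Y).card : ℝ) ≤ K * X.card) (hK₂ : 1 ≤ K₂)
    (hR₀ : ∀ y ∈ Y, ∀ s ∈ S₀, y + s ∈ R₀) (hR₀c : (R₀.card : ℝ) ≤ K₂ * Y.card)
    (hR : ∀ y ∈ Y, ∀ t ∈ (16 ^ J) • (S₀ - S₀), t ∈ X + Y - X - Y → y + t ∈ R)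
    (hRc : (R.card : ℝ) ≤ K₂ * Y.card) (hl : 100 * K ≤ 4 ^ l) (hlJ : l ≤ 16 ^ J) :
    ∃ T : Finset (ZMod N), T ⊆ S₀ ∧ T.Nonempty ∧
      (S₀.card : ℝ) ≤ Real.exp (2000000 * m * (1 + Real.log K₂) * 16 ^ J) * T.card ∧
      ∀ T₁ : Finset (ZMod N), T₁ ⊆ T → T₁.Nonempty → ∀ y : ZMod N,
        (∀ γ : ZMod N, (T₁.card : ℝ) / 2 ≤ ‖∑ t ∈ T₁, ψ (γ * t)‖ → ‖ψ (γ * y) - 1‖ ≤ 1 / 40) →
        ∃ x ∈ X, ∃ b ∈ Y, ∃ x' ∈ X, ∃ b' ∈ Y, y = x + b - x' - b' := by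
  classical
  have hS : (X + Y).Nonempty := hX.add hY
  obtain ⟨h, T, hlaw, hTS, hTne, hTc, hTp, hcl⟩ := chain X Y (X + Y) S₀ R R₀ hX hY hS hS₀ K K₂ (1 / 10) m J hm hK hmK
    hXY hK₂ (by norm_num) (by norm_num) hR₀ hR₀c (by
      intro y hy t ht hz
      refine hR y hy t ht ?_
      have h1 := hz 0
      rw [Gl_zero X Y hX hY, zero_add] at h1
      have h2 : 0 < Gl (uf Y) X (X + Y) t := by
        have := (abs_le.1 h1).1
        norm_num at this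
        linarith
      obtain ⟨x, hx, b, hb, hs⟩ := Gl_pos X Y (X + Y) t h2
      obtain ⟨x', hx', b', hb', he⟩ := mem_add.1 hs
      have : t = x' + b' - x - b := by rw [he]; ring
      rw [this]
      exact sub_mem_sub (sub_mem_sub (add_mem_add hx' hb') hx) hb) hRc
  refine ⟨T, hTS, hTne, ?_, ?_⟩
  · refine hTc.trans (le_of_eq ?_)
    congr 2
    norm_num
    ring
  · intro T₁ hT₁ hT₁ne y hy
    have h16 : (0 : ℝ) < 16 ^ J := by positivity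
    have h4 := four (Gl h X (X + Y)) (cG h X (X + Y)) K (Gl_nonneg hlaw X _) (Gl_le_one hlaw X _ hX)
      (Gl_eq h X (X + Y)) (cG_norm hlaw X (X + Y) hX K hK hXY) T₁ hT₁ne (1 / 10 / 16 ^ J)
      (fun s hs s' hs' z => hTp s (hT₁ hs) s' (hT₁ hs') z) l hl (1 / 40) (by norm_num) y hy
    have h5 : (l : ℝ) * (1 / 10 / 16 ^ J) ≤ 1 / 10 := by
      have : (l : ℝ) ≤ 16 ^ J := by exact_mod_cast hlJ
      calc (l : ℝ) * (1 / 10 / 16 ^ J) ≤ 16 ^ J * (1 / 10 / 16 ^ J) := by gcongr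
        _ = 1 / 10 := by field_simp
    have h6 := hcl y
    have h7 := hcl 0
    rw [Gl_zero X Y hX hY] at h7
    have h2 : 0 < Gl (uf Y) X (X + Y) y := by
      have a1 := abs_le.1 h4
      have a2 := abs_le.1 h6
      have a3 := abs_le.1 h7
      norm_num at a1 a2 a3
      linarith [a1.1, a1.2, a2.1, a2.2, a3.1, a3.2]
    obtain ⟨x, hx, b, hb, hs⟩ := Gl_pos X Y (X + Y) y h2
    obtain ⟨x', hx', b', hb', he⟩ := mem_add.1 hs
    exact ⟨x', hx', b', hb', x, hx, b, hb, by rw [he]; ring⟩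

/-- the choice of the numbers `m`, `l`, `J` -/
theorem exists_mlJ : ∀ K : ℝ, 1 ≤ K → ∃ m l J : ℕ, 1 ≤ m ∧ Real.log (4 * K) ≤ m ∧
    (m : ℝ) ≤ 4 * Real.log (2 * K) ∧ 100 * K ≤ 4 ^ l ∧ l ≤ 16 ^ J ∧ (16 : ℝ) ^ J ≤ 160 * Real.log (2 * K) := by
  intro K hK
  have hlog2 := Real.log_two_gt_d9
  have hlog2' := Real.log_two_lt_d9
  have hL : Real.log 2 ≤ Real.log (2 * K) := Real.log_le_log (by norm_num) (by linarith)
  have h4 : Real.log 4 = 2 * Real.log 2 := by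
    rw [show (4 : ℝ) = 2 ^ 2 by norm_num, Real.log_pow]; norm_num
  have h4K : Real.log (4 * K) = Real.log 2 + Real.log (2 * K) := by
    rw [show 4 * K = 2 * (2 * K) by ring, Real.log_mul (by norm_num) (by linarith)]
  have h100 : Real.log (100 * K) ≤ 5 * Real.log 2 + Real.log 2 + Real.log (2 * K) := by
    have : Real.log (100 * K) ≤ Real.log (2 ^ 6 * (2 * K)) := Real.log_le_log (by linarith) (by linarith)
    have h2 : Real.log (2 ^ 6 * (2 * K)) = 6 * Real.log 2 + Real.log (2 * K) := by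
      rw [Real.log_mul (by norm_num) (by linarith), Real.log_pow]
      push_cast
      ring
    linarith
  have h100' : 0 < Real.log (100 * K) := Real.log_pos (by linarith)
  obtain ⟨l, hl⟩ : ∃ l : ℕ, l = ⌈Real.log (100 * K) / Real.log 4⌉₊ := ⟨_, rfl⟩
  have hl1 : 100 * K ≤ (4 : ℝ) ^ l := by
    have h1 := Nat.le_ceil (Real.log (100 * K) / Real.log 4)
    rw [← hl, div_le_iff₀ (by rw [h4]; linarith)] at h1
    have h2 : Real.log (100 * K) ≤ Real.log ((4 : ℝ) ^ l) := by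
      rw [Real.log_pow]; exact h1
    exact (Real.log_le_log_iff (by linarith) (by positivity)).1 h2
  have hl0 : 1 ≤ l := by
    rw [hl]
    exact Nat.one_le_iff_ne_zero.2 (Nat.ceil_pos.2 (div_pos h100' (by rw [h4]; linarith))).ne'
  have hl2 : (l : ℝ) ≤ 8 * Real.log (2 * K) := by
    have h1 : (l : ℝ) ≤ Real.log (100 * K) / Real.log 4 + 1 := by
      rw [hl]
      exact (Nat.ceil_lt_add_one (div_nonneg h100'.le (by rw [h4]; linarith))).le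
    have h2 : Real.log (100 * K) / Real.log 4 ≤ 3 + Real.log (2 * K) := by
      rw [div_le_iff₀ (by rw [h4]; linarith), h4]
      nlinarith
    linarith
  obtain ⟨J, hJ1, hJ2⟩ : ∃ J : ℕ, l ≤ 16 ^ J ∧ 16 ^ J ≤ 16 * l := by
    have hex : ∃ J : ℕ, l ≤ 16 ^ J := ⟨l, (Nat.lt_pow_self (by norm_num)).le⟩
    classical
    refine ⟨Nat.find hex, Nat.find_spec hex, ?_⟩
    rcases Nat.eq_zero_or_pos (Nat.find hex) with h | h
    · rw [h, pow_zero]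
      omega
    · have h1 := Nat.find_min hex (m := Nat.find hex - 1) (by omega)
      push Not at h1
      have h2 : 16 ^ (Nat.find hex) = 16 * 16 ^ (Nat.find hex - 1) := by
        rw [← pow_succ']
        congr 1
        omega
      omega
  refine ⟨⌈Real.log (4 * K)⌉₊, l, J, ?_, Nat.le_ceil _, ?_, hl1, hJ1, ?_⟩
  · exact Nat.one_le_iff_ne_zero.2 (Nat.ceil_pos.2 (by rw [h4K]; linarith)).ne'
  · have := (Nat.ceil_lt_add_one (by rw [h4K]; linarith : 0 ≤ Real.log (4 * K))).le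
    rw [h4K] at this ⊢
    linarith
  · have : ((16 ^ J : ℕ) : ℝ) ≤ ((16 * l : ℕ) : ℝ) := by exact_mod_cast hJ2
    push_cast at this
    linarith

/-- multiples of a set that contains `0` -/
theorem nsmul_mono_zero {G : Type} [AddCommGroup G] [DecidableEq G] (D : Finset G) (h0 : (0 : G) ∈ D) {a b : ℕ}
    (h : a ≤ b) : a • D ⊆ b • D := nsmul_subset_nsmul_right h0 h

/-- the engine with the numbers chosen -/
theorem engine2 : ∃ C : ℝ, 1 ≤ C ∧ ∀ (N : ℕ) [NeZero N] (X Y S₀ R R₀ : Finset (ZMod N)) (K K₂ : ℝ) (q : ℕ),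
    X.Nonempty → Y.Nonempty → S₀.Nonempty → 1 ≤ K → ((X + Y).card : ℝ) ≤ K * X.card → 1 ≤ K₂ →
    (∀ y ∈ Y, ∀ s ∈ S₀, y + s ∈ R₀) → (R₀.card : ℝ) ≤ K₂ * Y.card → 160 * Real.log (2 * K) ≤ q →
    (∀ y ∈ Y, ∀ t ∈ q • (S₀ - S₀), t ∈ X + Y - X - Y → y + t ∈ R) → (R.card : ℝ) ≤ K₂ * Y.card →
    ∃ T : Finset (ZMod N), T ⊆ S₀ ∧ T.Nonempty ∧
      (S₀.card : ℝ) ≤ Real.exp (C * Real.log (2 * K) ^ 2 * (1 + Real.log K₂)) * T.card ∧
      ∀ T₁ : Finset (ZMod N), T₁ ⊆ T → T₁.Nonempty → ∀ y : ZMod N,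
        (∀ γ : ZMod N, (T₁.card : ℝ) / 2 ≤ ‖∑ t ∈ T₁, ψ (γ * t)‖ → ‖ψ (γ * y) - 1‖ ≤ 1 / 40) →
        ∃ x ∈ X, ∃ b ∈ Y, ∃ x' ∈ X, ∃ b' ∈ Y, y = x + b - x' - b' := by
  classical
  refine ⟨2000000 * (4 * 160), by norm_num, ?_⟩
  intro N _ X Y S₀ R R₀ K K₂ q hX hY hS₀ hK hXY hK₂ hR₀ hR₀c hq hR hRc
  obtain ⟨m, l, J, hm, hmK, hm2, hl, hlJ, hJ⟩ := exists_mlJ K hK
  have h16q : 16 ^ J ≤ q := by
    have : (16 : ℝ) ^ J ≤ q := hJ.trans hq
    exact_mod_cast this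
  have hD0 : (0 : ZMod N) ∈ S₀ - S₀ := by
    obtain ⟨s, hs⟩ := hS₀
    have := sub_mem_sub hs hs
    rwa [sub_self] at this
  obtain ⟨T, h1, h2, h3, h4⟩ := engine X Y S₀ R R₀ hX hY hS₀ K K₂ m J l hm hK hmK hXY hK₂ hR₀ hR₀c
    (fun y hy t ht => hR y hy t (nsmul_mono_zero _ hD0 h16q ht)) hRc hl hlJ
  refine ⟨T, h1, h2, h3.trans ?_, h4⟩
  have hl2 : 0 ≤ Real.log K₂ := Real.log_nonneg hK₂
  have hL0 : 0 ≤ Real.log (2 * K) := Real.log_nonneg (by linarith)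
  refine mul_le_mul_of_nonneg_right (Real.exp_le_exp.2 ?_) (Nat.cast_nonneg _)
  calc 2000000 * (m : ℝ) * (1 + Real.log K₂) * 16 ^ J
      ≤ 2000000 * (4 * Real.log (2 * K)) * (1 + Real.log K₂) * (160 * Real.log (2 * K)) := by gcongr
    _ = 2000000 * (4 * 160) * Real.log (2 * K) ^ 2 * (1 + Real.log K₂) := by ring

end Pool.Agent.V8H19.AP
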