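import Pool.Agent.V8H19.AP.Cap

/-!
# The extremal pair
-/

set_option autoImplicit false
set_option linter.unusedSectionVars false

namespace Pool.Agent.V8H19.AP

open Finset
open scoped Pointwise

variable {G : Type} [AddCommGroup G] [Fintype G] [DecidableEq G]

theorem isCompact_laws (c : ℝ) : IsCompact {p : G → ℝ | IsLaw p ∧ ∀ x, p x ≤ c} := by
  have h1 : {p : G → ℝ | IsLaw p ∧ ∀ x, p x ≤ c} = (Set.Icc (0 : G → ℝ) (fun _ => c)) ∩ {p | ∑ x, p x = 1} := by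
    ext p
    constructor
    · rintro ⟨h, h'⟩
      exact ⟨⟨fun x => h.nonneg x, fun x => h' x⟩, h.sum_one⟩
    · rintro ⟨⟨h1, h2⟩, h3⟩
      exact ⟨⟨fun x => h1 x, h3⟩, fun x => h2 x⟩
  rw [h1]
  exact isCompact_Icc.inter_right (isClosed_eq (by fun_prop) continuous_const)

theorem Ph_uf {X Y S : Finset G} (hX : X.Nonempty) (hY : Y.Nonempty) (hXY : ∀ x ∈ X, ∀ y ∈ Y, x + y ∈ S) :
    Ph (uf X) (uf Y) S = 1 := by
  unfold Ph
  refine Eq.trans (sum_congr rfl fun x _ => ?_) (isLaw_uf hX).sum_one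
  by_cases hx : x ∈ X
  · have : Fl (uf Y) S x = 1 := by
      unfold Fl
      refine Eq.trans (sum_congr rfl fun y _ => ?_) (isLaw_uf hY).sum_one
      by_cases hy : y ∈ Y
      · rw [if_pos (hXY x hx y hy), mul_one]
      · unfold uf
        rw [if_neg hy, zero_mul]
    rw [this, mul_one]
  · unfold uf
    rw [if_neg hx, zero_mul]

/-- the maximizer -/
theorem exists_max {X Y S : Finset G} (hX : X.Nonempty) (hY : Y.Nonempty) (Λ M : ℝ) (hΛ : 0 ≤ Λ) (hM : 0 ≤ M) :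
    ∃ p q : G → ℝ, IsLaw p ∧ IsLaw q ∧ (∀ x, p x ≤ Real.exp (4 * Λ) / X.card) ∧
      (∀ x, q x ≤ Real.exp (4 * M) / Y.card) ∧
      ∀ p' q' : G → ℝ, IsLaw p' → IsLaw q' → (∀ x, p' x ≤ Real.exp (4 * Λ) / X.card) →
        (∀ x, q' x ≤ Real.exp (4 * M) / Y.card) →
        M * Hc (Real.log X.card + Λ) p' + Λ * Hc (Real.log Y.card + M) q' + 40 * (Λ * M) * Ph p' q' S ≤
          M * Hc (Real.log X.card + Λ) p + Λ * Hc (Real.log Y.card + M) q + 40 * (Λ * M) * Ph p q S := by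
  have hX0 : (0 : ℝ) < X.card := by exact_mod_cast hX.card_pos
  have hY0 : (0 : ℝ) < Y.card := by exact_mod_cast hY.card_pos
  have h1 := (isCompact_laws (G := G) (Real.exp (4 * Λ) / X.card)).prod
    (isCompact_laws (G := G) (Real.exp (4 * M) / Y.card))
  have h2 : ∀ Z : Finset G, (0 : ℝ) < Z.card → ∀ L : ℝ, 0 ≤ L → ∀ x, uf Z x ≤ Real.exp (4 * L) / Z.card := by
    intro Z hZ L hL x
    refine (uf_le Z x).trans ?_
    rw [div_le_div_iff_of_pos_right hZ]
    exact Real.one_le_exp (by linarith)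
  have h3 := h1.exists_isMaxOn ⟨(uf X, uf Y), ⟨isLaw_uf hX, h2 X hX0 Λ hΛ⟩, ⟨isLaw_uf hY, h2 Y hY0 M hM⟩⟩
    (f := fun z : (G → ℝ) × (G → ℝ) => M * Hc (Real.log X.card + Λ) z.1 + Λ * Hc (Real.log Y.card + M) z.2 +
      40 * (Λ * M) * Ph z.1 z.2 S) (by
      apply Continuous.continuousOn
      refine ((continuous_const.mul ?_).add (continuous_const.mul ?_)).add (continuous_const.mul ?_)
      · unfold Hc
        exact continuous_finsetSum _ fun x _ => (continuous_cap _).comp ((continuous_apply x).comp continuous_fst)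
      · unfold Hc
        exact continuous_finsetSum _ fun x _ => (continuous_cap _).comp ((continuous_apply x).comp continuous_snd)
      · unfold Ph Fl
        fun_prop)
  obtain ⟨⟨p, q⟩, ⟨⟨hp1, hp2⟩, ⟨hq1, hq2⟩⟩, hmax⟩ := h3
  refine ⟨p, q, hp1, hq1, hp2, hq2, ?_⟩
  intro p' q' hp' hq' hp'2 hq'2
  exact hmax (show (p', q') ∈ _ from ⟨⟨hp', hp'2⟩, ⟨hq', hq'2⟩⟩)

/-- one side of the conclusion -/
theorem one_side {X S S₀ : Finset G} (hX : X.Nonempty) (Λ K₁ : ℝ) (hK₁ : 1 ≤ K₁)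
    (hΛ : Λ = Real.log K₁ + 3) {p q : G → ℝ} (hp : IsLaw p) (hq : IsLaw q)
    (hpc : ∀ x, p x ≤ Real.exp (4 * Λ) / X.card)
    (hmax : ∀ p' : G → ℝ, IsLaw p' → (∀ x, p' x ≤ Real.exp (4 * Λ) / X.card) →
      Hc (Real.log X.card + Λ) p' + 40 * Λ * Ph p' q S ≤ Hc (Real.log X.card + Λ) p + 40 * Λ * Ph p q S)
    (hP : 19 / 20 ≤ Ph p q S) (hH : Real.log X.card - Λ ≤ Hc (Real.log X.card + Λ) p)
    (hcard : ((S + (S₀ - S₀)).card : ℝ) ≤ K₁ * X.card) (hS₀ : S₀.Nonempty) :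
    (∀ π : G → ℝ, IsLaw π → ((∀ s, π s ≠ 0 → s ∈ S₀) ∨ (∀ s, π s ≠ 0 → -s ∈ S₀)) →
      Ent (cv π p) - Ent p ≤ 2 * Λ) ∧
    ∀ ν : G → ℝ, IsLaw ν → (∀ s, ν s ≠ 0 → s ∈ S₀) →
      Ent (sm ν p) - Ent p ≤ 40 * Λ * (Ph p q S - Ph (sm ν p) q S) + 1 / 20 := by
  have hX0 : (0 : ℝ) < X.card := by exact_mod_cast hX.card_pos
  have hK₁0 : 0 < K₁ := by linarith
  have hlogK : 0 ≤ Real.log K₁ := Real.log_nonneg hK₁
  have hsupp : ∀ x, p x ≠ 0 → 1 / 2 ≤ Fl q S x := fun x hx =>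
    supp_claim (Fl q S) (Fl_le_one hq S) hp X.card Λ hX0 (by linarith) hpc hmax hP hH x hx
  have hlog2 := Real.log_two_lt_d9
  constructor
  · intro π hπ hπS
    obtain ⟨B, hB⟩ : ∃ B : Finset G, B = univ.filter fun z => cv π p z ≠ 0 := ⟨_, rfl⟩
    have hBm : ∀ z, z ∈ B ↔ cv π p z ≠ 0 := fun z => by
      rw [hB, mem_filter]
      exact ⟨fun h => h.2, fun h => ⟨mem_univ z, h⟩⟩
    have h1 := Ent_le (isLaw_cv hπ hp) B fun z hz => (hBm z).2 hz
    have hBne : B.Nonempty := by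
      by_contra hne
      rw [not_nonempty_iff_eq_empty] at hne
      have : ∑ z, cv π p z = 0 := sum_eq_zero fun z _ => by
        by_contra hz
        have := (hBm z).2 hz
        rw [hne] at this
        exact absurd this (notMem_empty z)
      rw [(isLaw_cv hπ hp).sum_one] at this
      norm_num at this
    obtain ⟨s₀, hs₀⟩ := hS₀
    have h2 : (B.card : ℝ) ≤ 2 * (K₁ * X.card) := by
      refine le_trans ?_ (mul_le_mul_of_nonneg_left hcard (by norm_num : (0 : ℝ) ≤ 2))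
      rcases hπS with hπS | hπS
      · have h3 : (B.image fun z => z - s₀).card = B.card := card_image_of_injective _ fun a b h => by
          simpa using h
        rw [← h3]
        refine supp_size hq S S₀ hsupp (B.image fun z => z - s₀) ?_
        intro z hz
        rw [mem_image] at hz
        obtain ⟨z', hz', rfl⟩ := hz
        obtain ⟨s, hs, hz2⟩ := cv_supp ((hBm z').1 hz')
        exact ⟨z' - s, hz2, s, hπS s hs, s₀, hs₀, by abel⟩
      · have h3 : (B.image fun z => z + s₀).card = B.card := card_image_of_injective _ fun a b h => by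
          simpa using h
        rw [← h3]
        refine supp_size hq S S₀ hsupp (B.image fun z => z + s₀) ?_
        intro z hz
        rw [mem_image] at hz
        obtain ⟨z', hz', rfl⟩ := hz
        obtain ⟨s, hs, hz2⟩ := cv_supp ((hBm z').1 hz')
        exact ⟨z' - s, hz2, s₀, hs₀, -s, hπS s hs, by abel⟩
    have hB0 : (0 : ℝ) < B.card := by exact_mod_cast hBne.card_pos
    have h3 : Real.log B.card ≤ Real.log 2 + (Real.log K₁ + Real.log X.card) := by
      rw [← Real.log_mul hK₁0.ne' hX0.ne', ← Real.log_mul (by norm_num) (by positivity)]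
      exact Real.log_le_log hB0 h2
    have h4 := Hc_le_Ent (Real.log X.card + Λ) p
    linarith
  · intro ν hν hνS
    have hlaw := isLaw_sm hν hp
    have h1 := hmax (sm ν p) hlaw (fun x => sm_le hν _ hpc x)
    obtain ⟨B, hB⟩ : ∃ B : Finset G, B = univ.filter fun z => sm ν p z ≠ 0 := ⟨_, rfl⟩
    have hBm : ∀ z, z ∈ B ↔ sm ν p z ≠ 0 := fun z => by
      rw [hB, mem_filter]
      exact ⟨fun h => h.2, fun h => ⟨mem_univ z, h⟩⟩
    have h2 := Ent_le_Hc (Real.log X.card + Λ) hlaw B fun z hz => (hBm z).2 hz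
    have h3 : (B.card : ℝ) ≤ 2 * (K₁ * X.card) := by
      refine le_trans ?_ (mul_le_mul_of_nonneg_left hcard (by norm_num : (0 : ℝ) ≤ 2))
      refine supp_size hq S S₀ hsupp B ?_
      intro z hz
      obtain ⟨s, s', hs, hs', hz2⟩ := sm_supp ((hBm z).1 hz)
      exact ⟨z - s + s', hz2, s, hνS s hs, s', hνS s' hs', by abel⟩
    have h4 : Real.exp (-(Real.log X.card + Λ) - 1) = 1 / (K₁ * X.card) * Real.exp (-4) := by
      rw [show -(Real.log X.card + Λ) - 1 = -Real.log X.card + (-Real.log K₁ + -4) by rw [hΛ]; ring,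
        Real.exp_add, Real.exp_add, Real.exp_neg, Real.exp_neg, Real.exp_log hX0, Real.exp_log hK₁0]
      field_simp
    have h5 : (B.card : ℝ) * Real.exp (-(Real.log X.card + Λ) - 1) ≤ 1 / 20 := by
      rw [h4]
      have h6 : Real.exp (-4) ≤ 1 / 40 := by
        rw [Real.exp_neg, inv_eq_one_div]
        apply one_div_le_one_div_of_le (by norm_num)
        have h7 : Real.exp 4 = Real.exp 1 ^ 4 := by rw [← Real.exp_nat_mul]; norm_num
        rw [h7]
        have h8 := Real.exp_one_gt_d9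
        calc (40 : ℝ) ≤ 2.7 ^ 4 := by norm_num
          _ ≤ Real.exp 1 ^ 4 := by gcongr; linarith
      calc (B.card : ℝ) * (1 / (K₁ * X.card) * Real.exp (-4))
          ≤ (2 * (K₁ * X.card)) * (1 / (K₁ * X.card) * (1 / 40)) := by gcongr
        _ = 1 / 20 := by field_simp; norm_num
    have h6 := Hc_le_Ent (Real.log X.card + Λ) p
    have h7 : 40 * Λ * (Ph p q S - Ph (sm ν p) q S) = 40 * Λ * Ph p q S - 40 * Λ * Ph (sm ν p) q S := by ring
    rw [h7]
    linarith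

/-- **the extremal pair** -/
theorem ext_pair {X Y S S₀ : Finset G} (hX : X.Nonempty) (hY : Y.Nonempty) (hS₀ : S₀.Nonempty)
    (hXY : ∀ x ∈ X, ∀ y ∈ Y, x + y ∈ S) (Λ M K₁ K₂ : ℝ) (hK₁ : 1 ≤ K₁) (hK₂ : 1 ≤ K₂) (hΛ : Λ = Real.log K₁ + 3)
    (hM : M = Real.log K₂ + 3)
    (hcX : ((S + (S₀ - S₀)).card : ℝ) ≤ K₁ * X.card) (hcY : ((S + (S₀ - S₀)).card : ℝ) ≤ K₂ * Y.card) :
    ∃ p q : G → ℝ, IsLaw p ∧ IsLaw q ∧ (∀ x, p x ≤ Real.exp (4 * Λ) / X.card) ∧
      (∀ x, q x ≤ Real.exp (4 * M) / Y.card) ∧ 19 / 20 ≤ Ph p q S ∧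
      (∀ π : G → ℝ, IsLaw π → (∀ s, π s ≠ 0 → s ∈ S₀) → Ent (cv (ng π) p) - Ent p ≤ 2 * Λ) ∧
      (∀ π : G → ℝ, IsLaw π → (∀ s, π s ≠ 0 → s ∈ S₀) → Ent (cv π q) - Ent q ≤ 2 * M) ∧
      (∀ ν : G → ℝ, IsLaw ν → (∀ s, ν s ≠ 0 → s ∈ S₀) →
        Ent (sm ν p) - Ent p ≤ 40 * Λ * (Ph p q S - Ph (sm ν p) q S) + 1 / 20) ∧
      (∀ ν : G → ℝ, IsLaw ν → (∀ s, ν s ≠ 0 → s ∈ S₀) →
        Ent (sm ν q) - Ent q ≤ 40 * M * (Ph p q S - Ph (sm ν p) q S) + 1 / 20) := by
  have hX0 : (0 : ℝ) < X.card := by exact_mod_cast hX.card_pos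
  have hY0 : (0 : ℝ) < Y.card := by exact_mod_cast hY.card_pos
  have hlogK : 0 ≤ Real.log K₁ := Real.log_nonneg hK₁
  have hlogK2 : 0 ≤ Real.log K₂ := Real.log_nonneg hK₂
  have hΛ0 : 3 ≤ Λ := by linarith
  have hM0 : 3 ≤ M := by linarith
  have hΛM : 0 < Λ * M := by positivity
  obtain ⟨p, q, hp, hq, hpc, hqc, hmax⟩ := exists_max (S := S) hX hY Λ M (by linarith) (by linarith)
  have h2 : ∀ Z : Finset G, (0 : ℝ) < Z.card → ∀ L : ℝ, 0 ≤ L → ∀ x, uf Z x ≤ Real.exp (4 * L) / Z.card := by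
    intro Z hZ L hL x
    refine (uf_le Z x).trans ?_
    rw [div_le_div_iff_of_pos_right hZ]
    exact Real.one_le_exp (by linarith)
  have h3 := hmax (uf X) (uf Y) (isLaw_uf hX) (isLaw_uf hY) (h2 X hX0 Λ (by linarith)) (h2 Y hY0 M (by linarith))
  rw [Ph_uf hX hY hXY] at h3
  have h4 := mul_le_mul_of_nonneg_left (Hc_uf (Real.log X.card + Λ) hX (by linarith)) (by linarith : 0 ≤ M)
  have h5 := mul_le_mul_of_nonneg_left (Hc_uf (Real.log Y.card + M) hY (by linarith)) (by linarith : 0 ≤ Λ)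
  have h6 := mul_le_mul_of_nonneg_left (Hc_le (Real.log X.card + Λ) hp) (by linarith : 0 ≤ M)
  have h7 := mul_le_mul_of_nonneg_left (Hc_le (Real.log Y.card + M) hq) (by linarith : 0 ≤ Λ)
  have h8 := Ph_le_one hp hq S
  have hP : 19 / 20 ≤ Ph p q S := by
    by_contra hc
    push Not at hc
    nlinarith
  have h9 : 40 * (Λ * M) * Ph p q S ≤ 40 * (Λ * M) * 1 := mul_le_mul_of_nonneg_left h8 (by linarith)
  have hHp : Real.log X.card - Λ ≤ Hc (Real.log X.card + Λ) p := by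
    have : M * (Real.log X.card - Λ) ≤ M * Hc (Real.log X.card + Λ) p := by nlinarith
    exact le_of_mul_le_mul_left this (by linarith)
  have hHq : Real.log Y.card - M ≤ Hc (Real.log Y.card + M) q := by
    have : Λ * (Real.log Y.card - M) ≤ Λ * Hc (Real.log Y.card + M) q := by nlinarith
    exact le_of_mul_le_mul_left this (by linarith)
  obtain ⟨a1, a2⟩ := one_side (S₀ := S₀) hX Λ K₁ hK₁ hΛ hp hq hpc (by
    intro p' hp' hp'c
    have h10 := hmax p' q hp' hq hp'c hqc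
    have : M * (Hc (Real.log X.card + Λ) p' + 40 * Λ * Ph p' q S) ≤
        M * (Hc (Real.log X.card + Λ) p + 40 * Λ * Ph p q S) := by linarith
    exact le_of_mul_le_mul_left this (by linarith)) hP hHp hcX hS₀
  obtain ⟨b1, b2⟩ := one_side (S₀ := S₀) hY M K₂ hK₂ hM hq hp hqc (by
    intro q' hq' hq'c
    have h10 := hmax p q' hp hq' hpc hq'c
    rw [Ph_comm q' p, Ph_comm q p]
    have : Λ * (Hc (Real.log Y.card + M) q' + 40 * M * Ph p q' S) ≤
        Λ * (Hc (Real.log Y.card + M) q + 40 * M * Ph p q S) := by linarith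
    exact le_of_mul_le_mul_left this (by linarith)) (by rw [Ph_comm]; exact hP) hHq hcY hS₀
  refine ⟨p, q, hp, hq, hpc, hqc, hP, ?_, ?_, a2, ?_⟩
  · intro π hπ hπS
    refine a1 (ng π) (isLaw_ng hπ) (Or.inr fun s hs => hπS (-s) hs)
  · intro π hπ hπS
    exact b1 π hπ (Or.inl hπS)
  · intro ν hν hνS
    have := b2 ν hν hνS
    rw [Ph_comm q p, Ph_comm (sm ν q) p, Ph_sm_right] at this
    exact this

end Pool.Agent.V8H19.AP
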