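import Pool.Agent.V8H19.AP.CS

/-!
# Laws on a finite abelian group, convolution, entropy

`cv π p` is the law of `s + x` for independent `s`, `x` of laws `π`, `p`. The increment of the entropy
`Ent (cv π p) - Ent p` does not increase when `p` is smoothed.
-/

set_option autoImplicit false
set_option linter.unusedSectionVars false

namespace Pool.Agent.V8H19.AP

open Finset

variable {G : Type} [AddCommGroup G] [Fintype G] [DecidableEq G]

/-- the law of `s + x` -/
noncomputable def cv (π p : G → ℝ) (z : G) : ℝ := ∑ s, π s * p (z - s)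

/-- the law of `- s` -/
def ng (π : G → ℝ) (s : G) : ℝ := π (-s)

theorem sum_cv (π p φ : G → ℝ) : ∑ z, cv π p z * φ z = ∑ s, π s * ∑ x, p x * φ (x + s) := by
  unfold cv
  simp_rw [sum_mul]
  rw [sum_comm]
  refine sum_congr rfl fun s _ => ?_
  rw [mul_sum, ← Equiv.sum_comp (Equiv.addRight s)]
  refine sum_congr rfl fun x _ => ?_
  rw [Equiv.coe_addRight, add_sub_cancel_right, mul_assoc]

theorem isLaw_cv {π p : G → ℝ} (hπ : IsLaw π) (hp : IsLaw p) : IsLaw (cv π p) := by
  constructor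
  · intro z
    exact sum_nonneg fun s _ => mul_nonneg (hπ.nonneg s) (hp.nonneg _)
  · have := sum_cv π p fun _ => 1
    simp only [mul_one] at this
    rw [this, ← hπ.sum_one]
    refine sum_congr rfl fun s _ => ?_
    rw [hp.sum_one, mul_one]

theorem isLaw_ng {π : G → ℝ} (hπ : IsLaw π) : IsLaw (ng π) := by
  constructor
  · intro s
    exact hπ.nonneg _
  · unfold ng
    rw [← hπ.sum_one]
    exact Equiv.sum_comp (Equiv.neg G) π

theorem cv_comm (π p : G → ℝ) : cv π p = cv p π := by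
  funext z
  unfold cv
  rw [← Equiv.sum_comp (Equiv.subLeft z)]
  refine sum_congr rfl fun s _ => ?_
  rw [Equiv.subLeft_apply, sub_sub_cancel, mul_comm]

/-- convolutions commute -/
theorem cv_left_comm (π τ p : G → ℝ) : cv π (cv τ p) = cv τ (cv π p) := by
  funext z
  unfold cv
  simp_rw [mul_sum]
  rw [sum_comm]
  refine sum_congr rfl fun s _ => sum_congr rfl fun t _ => ?_
  rw [show z - t - s = z - s - t by abel]
  ring

theorem cv_le {π p : G → ℝ} (hπ : IsLaw π) (c : ℝ) (hc : ∀ x, p x ≤ c) (z : G) : cv π p z ≤ c := by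
  unfold cv
  calc ∑ s, π s * p (z - s) ≤ ∑ s, π s * c := sum_le_sum fun s _ => mul_le_mul_of_nonneg_left (hc _) (hπ.nonneg s)
    _ = c := by rw [← sum_mul, hπ.sum_one, one_mul]

theorem cv_supp {π p : G → ℝ} {z : G} (hz : cv π p z ≠ 0) : ∃ s, π s ≠ 0 ∧ p (z - s) ≠ 0 := by
  by_contra hcon
  push Not at hcon
  apply hz
  unfold cv
  refine sum_eq_zero fun s _ => ?_
  by_cases h : π s = 0
  · rw [h, zero_mul]
  · rw [hcon s h, mul_zero]

theorem cv_pos {π p : G → ℝ} (hπ : IsLaw π) (hp : IsLaw p) {z s : G} (h1 : 0 < π s) (h2 : 0 < p (z - s)) :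
    0 < cv π p z := by
  refine lt_of_lt_of_le (mul_pos h1 h2) ?_
  exact single_le_sum (f := fun s => π s * p (z - s)) (fun t _ => mul_nonneg (hπ.nonneg t) (hp.nonneg _)) (mem_univ s)

/-- the translates have the same entropy -/
theorem Ent_shift (p : G → ℝ) (s : G) : ∑ z, Real.negMulLog (p (z - s)) = Ent p := by
  unfold Ent
  exact Equiv.sum_comp (Equiv.subRight s) fun x => Real.negMulLog (p x)

/-- the entropy increases under convolution -/
theorem Ent_cv_ge {π p : G → ℝ} (hπ : IsLaw π) (hp : IsLaw p) : Ent p ≤ Ent (cv π p) := by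
  have h1 : ∀ z, ∑ s, π s * Real.negMulLog (p (z - s)) ≤ Real.negMulLog (cv π p z) := by
    intro z
    have := Real.concaveOn_negMulLog.le_map_sum (t := univ) (w := π) (p := fun s => p (z - s))
      (fun s _ => hπ.nonneg s) hπ.sum_one (fun s _ => hp.nonneg _)
    simp only [smul_eq_mul] at this
    exact this
  have h2 : ∑ z, ∑ s, π s * Real.negMulLog (p (z - s)) = Ent p := by
    rw [sum_comm]
    simp_rw [← mul_sum, Ent_shift]
    rw [← sum_mul, hπ.sum_one, one_mul]
  rw [← h2]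
  exact sum_le_sum fun z _ => h1 z

/-- the increment of the entropy as a relative entropy -/
theorem gap_eq {π p : G → ℝ} (hπ : IsLaw π) :
    Ent (cv π p) - Ent p = ∑ s, π s * ∑ x, p x * (Real.log (p x) - Real.log (cv π p (x + s))) := by
  have h1 : Ent (cv π p) = - ∑ s, π s * ∑ x, p x * Real.log (cv π p (x + s)) := by
    rw [Ent_eq, sum_cv π p fun z => Real.log (cv π p z)]
  have h2 : Ent p = - ∑ s, π s * ∑ x, p x * Real.log (p x) := by
    rw [Ent_eq, ← sum_mul, hπ.sum_one, one_mul]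
  rw [h1, h2, ← neg_add', ← sub_eq_add_neg, ← sum_sub_distrib, ← sum_neg_distrib]
  refine sum_congr rfl fun s _ => ?_
  rw [← mul_sub, ← sum_sub_distrib, ← mul_neg, ← sum_neg_distrib]
  congr 1
  refine sum_congr rfl fun x _ => ?_
  ring

/-- the log-sum inequality -/
theorem log_sum {ι : Type} (I : Finset ι) (a b : ι → ℝ) (ha : ∀ i ∈ I, 0 ≤ a i) (hb : ∀ i ∈ I, 0 ≤ b i)
    (hab : ∀ i ∈ I, 0 < a i → 0 < b i) :
    (∑ i ∈ I, a i) * (Real.log (∑ i ∈ I, a i) - Real.log (∑ i ∈ I, b i)) ≤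
      ∑ i ∈ I, a i * (Real.log (a i) - Real.log (b i)) := by
  rcases (sum_nonneg ha).eq_or_lt with h0 | h0
  · have h1 : ∀ i ∈ I, a i = 0 := (sum_eq_zero_iff_of_nonneg ha).1 h0.symm
    rw [← h0, zero_mul]
    refine le_of_eq (sum_eq_zero fun i hi => ?_).symm
    rw [h1 i hi, zero_mul]
  · obtain ⟨i₀, hi₀, hi₀'⟩ : ∃ i ∈ I, 0 < a i := by
      by_contra hcon
      push Not at hcon
      have := sum_nonpos hcon
      linarith
    have hB : 0 < ∑ i ∈ I, b i := sum_pos' hb ⟨i₀, hi₀, hab i₀ hi₀ hi₀'⟩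
    obtain ⟨A, hA⟩ : ∃ A, A = ∑ i ∈ I, a i := ⟨_, rfl⟩
    obtain ⟨B, hB'⟩ : ∃ B, B = ∑ i ∈ I, b i := ⟨_, rfl⟩
    rw [← hA] at h0 ⊢
    rw [← hB'] at hB ⊢
    have h1 : ∀ i ∈ I, a i * (Real.log A - Real.log B) + (a i - b i * (A / B)) ≤
        a i * (Real.log (a i) - Real.log (b i)) := by
      intro i hi
      rcases (ha i hi).eq_or_lt with h2 | h2
      · rw [← h2]
        have := mul_nonneg (hb i hi) (div_nonneg h0.le hB.le)
        linarith
      · have hbi := hab i hi h2
        have h3 := Real.log_le_sub_one_of_pos (show 0 < b i * A / (a i * B) by positivity)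
        rw [Real.log_div (by positivity) (by positivity), Real.log_mul hbi.ne' h0.ne',
          Real.log_mul h2.ne' hB.ne'] at h3
        have h4 := mul_le_mul_of_nonneg_left h3 h2.le
        have h5 : a i * (b i * A / (a i * B) - 1) = b i * (A / B) - a i := by
          field_simp
        rw [h5] at h4
        linarith
    have h2 := sum_le_sum h1
    rw [sum_add_distrib, sum_sub_distrib, ← sum_mul, ← sum_mul, ← hA, ← hB', mul_div_cancel₀ _ hB.ne', sub_self,
      add_zero] at h2
    exact h2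

/-- smoothing decreases the increments of the entropy -/
theorem submod {π τ p : G → ℝ} (hπ : IsLaw π) (hτ : IsLaw τ) (hp : IsLaw p) :
    Ent (cv π (cv τ p)) - Ent (cv τ p) ≤ Ent (cv π p) - Ent p := by
  rw [gap_eq hπ, gap_eq hπ]
  have hm := isLaw_cv hπ hp
  refine sum_le_sum fun s _ => ?_
  rcases (hπ.nonneg s).eq_or_lt with h0 | h0
  · rw [← h0, zero_mul, zero_mul]
  refine mul_le_mul_of_nonneg_left ?_ (hπ.nonneg s)
  -- pointwise log-sum inequality
  have h1 : ∀ z, cv τ p z * (Real.log (cv τ p z) - Real.log (cv π (cv τ p) (z + s))) ≤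
      ∑ u, τ u * (p (z - u) * (Real.log (p (z - u)) - Real.log (cv π p (z - u + s)))) := by
    intro z
    have e1 : cv π (cv τ p) (z + s) = ∑ u, τ u * cv π p (z - u + s) := by
      rw [cv_left_comm]
      show cv τ (cv π p) (z + s) = _
      unfold cv
      refine sum_congr rfl fun u _ => ?_
      rw [show z + s - u = z - u + s by abel]
    rw [e1]
    have h2 := log_sum univ (fun u => τ u * p (z - u)) (fun u => τ u * cv π p (z - u + s))
      (fun u _ => mul_nonneg (hτ.nonneg u) (hp.nonneg _)) (fun u _ => mul_nonneg (hτ.nonneg u) (hm.nonneg _))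
      (fun u _ hu => by
        have h3 : 0 < τ u := by
          rcases (hτ.nonneg u).eq_or_lt with h | h
          · rw [← h, zero_mul] at hu
            exact absurd hu (lt_irrefl _)
          · exact h
        have h4 : 0 < p (z - u) := by
          rcases (hp.nonneg (z - u)).eq_or_lt with h | h
          · rw [← h, mul_zero] at hu
            exact absurd hu (lt_irrefl _)
          · exact h
        refine mul_pos h3 (cv_pos hπ hp h0 ?_)
        rwa [add_sub_cancel_right])
    refine h2.trans (le_of_eq (sum_congr rfl fun u _ => ?_))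
    by_cases h3 : τ u = 0
    · rw [h3]; ring
    by_cases h4 : p (z - u) = 0
    · rw [h4]; ring
    · have h5 : cv π p (z - u + s) ≠ 0 := by
        refine (cv_pos hπ hp h0 ?_).ne'
        rw [add_sub_cancel_right]
        exact lt_of_le_of_ne (hp.nonneg _) (Ne.symm h4)
      rw [Real.log_mul h3 h4, Real.log_mul h3 h5]
      ring
  refine (sum_le_sum fun z _ => h1 z).trans (le_of_eq ?_)
  rw [sum_comm]
  have h2 : ∀ u, ∑ z, τ u * (p (z - u) * (Real.log (p (z - u)) - Real.log (cv π p (z - u + s)))) =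
      τ u * ∑ x, p x * (Real.log (p x) - Real.log (cv π p (x + s))) := by
    intro u
    rw [← mul_sum]
    congr 1
    exact Equiv.sum_comp (Equiv.subRight u) fun x => p x * (Real.log (p x) - Real.log (cv π p (x + s)))
  simp_rw [h2]
  rw [← sum_mul, hτ.sum_one, one_mul]

/-- the law of `x + s - s'`, where `s`, `s'` are independent of law `π` -/
noncomputable def sm (π p : G → ℝ) : G → ℝ := cv π (cv (ng π) p)

theorem isLaw_sm {π p : G → ℝ} (hπ : IsLaw π) (hp : IsLaw p) : IsLaw (sm π p) :=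
  isLaw_cv hπ (isLaw_cv (isLaw_ng hπ) hp)

theorem sum_sm (π p φ : G → ℝ) :
    ∑ z, sm π p z * φ z = ∑ s, π s * ∑ s', π s' * ∑ x, p x * φ (x + s - s') := by
  unfold sm
  rw [sum_cv]
  refine sum_congr rfl fun s _ => ?_
  congr 1
  rw [sum_cv (ng π) p fun x => φ (x + s), ← Equiv.sum_comp (Equiv.neg G)]
  refine sum_congr rfl fun s' _ => ?_
  rw [Equiv.neg_apply]
  unfold ng
  rw [neg_neg]
  congr 1
  refine sum_congr rfl fun x _ => ?_
  rw [show x + -s' + s = x + s - s' by abel]

theorem sm_le {π p : G → ℝ} (hπ : IsLaw π) (c : ℝ) (hc : ∀ x, p x ≤ c) (z : G) : sm π p z ≤ c :=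
  cv_le hπ c (cv_le (isLaw_ng hπ) c hc) z

theorem sm_supp {π p : G → ℝ} {z : G} (hz : sm π p z ≠ 0) : ∃ s s', π s ≠ 0 ∧ π s' ≠ 0 ∧ p (z - s + s') ≠ 0 := by
  obtain ⟨s, hs, h1⟩ := cv_supp hz
  obtain ⟨t, ht, h2⟩ := cv_supp h1
  exact ⟨s, -t, hs, ht, by rwa [← sub_eq_add_neg]⟩

/-- submodularity for the smoothing -/
theorem submod_sm {π ν p : G → ℝ} (hπ : IsLaw π) (hν : IsLaw ν) (hp : IsLaw p) :
    Ent (cv π (sm ν p)) - Ent (sm ν p) ≤ Ent (cv π p) - Ent p :=
  (submod hπ hν (isLaw_cv (isLaw_ng hν) hp)).trans (submod hπ (isLaw_ng hν) hp)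

/-- the probability that `x + b ∈ S` -/
noncomputable def Ph (p q : G → ℝ) (S : Finset G) : ℝ := ∑ x, p x * Fl q S x

theorem Ph_le_one {p q : G → ℝ} (hp : IsLaw p) (hq : IsLaw q) (S : Finset G) : Ph p q S ≤ 1 := by
  unfold Ph
  rw [← hp.sum_one]
  exact sum_le_sum fun x _ => mul_le_of_le_one_right (hp.nonneg x) (Fl_le_one hq S x)

theorem Ph_nonneg {p q : G → ℝ} (hp : IsLaw p) (hq : IsLaw q) (S : Finset G) : 0 ≤ Ph p q S :=
  sum_nonneg fun x _ => mul_nonneg (hp.nonneg x) (Fl_nonneg hq S x)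

theorem Ph_comm (p q : G → ℝ) (S : Finset G) : Ph p q S = Ph q p S := by
  unfold Ph Fl
  simp_rw [mul_sum]
  rw [sum_comm]
  refine sum_congr rfl fun b _ => sum_congr rfl fun x _ => ?_
  rw [add_comm]
  ring

theorem Ph_sm (π p q : G → ℝ) (S : Finset G) :
    Ph (sm π p) q S = ∑ s, π s * ∑ s', π s' * ∑ x, p x * Fl q S (x + s - s') := by
  unfold Ph
  exact sum_sm π p (Fl q S)

/-- both factors may be smoothed -/
theorem Ph_sm_right (π p q : G → ℝ) (S : Finset G) : Ph p (sm π q) S = Ph (sm π p) q S := by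
  rw [Ph_comm, Ph_sm, Ph_sm]
  refine sum_congr rfl fun s _ => ?_
  congr 1
  refine sum_congr rfl fun s' _ => ?_
  congr 1
  unfold Fl
  simp_rw [mul_sum]
  rw [sum_comm]
  refine sum_congr rfl fun b _ => sum_congr rfl fun x _ => ?_
  rw [show x + s - s' + b = b + s - s' + x by abel]
  ring

end Pool.Agent.V8H19.AP
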