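import Pool.Agent.V8H19.AP.Four
import Pool.Agent.V8H19.AP.Law

/-!
# The Fourier step for smoothed laws

`g z = ∑ P x 1_S (x + z + b) q b` where `P` is obtained from a law of bounded density by `l` successive smoothings by
laws `ν₀, …, ν_{l-1}`. If `‖ψ (γ y) - 1‖ ≤ 1/40` for all `γ` with `∑ ‖ν̂_j γ‖ ≥ l / 2`, then `|g y - g 0| ≤ 11/50`.
-/

set_option autoImplicit false
set_option linter.unusedSectionVars false

namespace Pool.Agent.V8H19.AP

open Finset Pool.Agent.TH858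
open Pool.Agent.N142.CD (ψ)
open Pool.Agent.N142.CD.FOU (psi_norm psi_add ortho hh hh_norm_le hh_mul_neg parseval ind_eq)
open scoped Pointwise

variable {N : ℕ} [NeZero N]

/-- the comparison of `g y` and `g 0` when the Fourier coefficients outside of `Sp` are small -/
theorem four_ker (g : ZMod N → ℝ) (c : ZMod N → ℂ) (h0 : ∀ y, 0 ≤ g y) (h1 : ∀ y, g y ≤ 1)
    (hc : ∀ y, ((g y : ℝ) : ℂ) = ∑ γ, c γ * ψ (γ * y)) (Sp : Finset (ZMod N)) (hSp : ∑ γ ∈ Spᶜ, ‖c γ‖ ≤ 1 / 100)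
    (δ : ℝ) (hδ : 0 ≤ δ) (y : ZMod N) (hy : ∀ γ ∈ Sp, ‖ψ (γ * y) - 1‖ ≤ δ) :
    |g y - g 0| ≤ 8 * δ + 1 / 50 := by
  obtain ⟨κ, hκ1, hκ2⟩ := exists_ker N δ hδ
  obtain ⟨A, hA⟩ : ∃ A : ZMod N → ℂ, A = fun z => ∑ γ ∈ Sp, c γ * ψ (γ * z) := ⟨_, rfl⟩
  obtain ⟨E, hE⟩ : ∃ E : ZMod N → ℂ, E = fun z => ∑ γ ∈ Spᶜ, c γ * ψ (γ * z) := ⟨_, rfl⟩
  have hAE : ∀ z, ((g z : ℝ) : ℂ) = A z + E z := by
    intro z
    rw [hc z, hA, hE]
    exact (sum_add_sum_compl Sp _).symm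
  have hEb : ∀ z, ‖E z‖ ≤ 1 / 100 := by
    intro z
    rw [hE]
    refine (norm_sum_le _ _).trans ?_
    refine le_trans (sum_le_sum fun γ _ => ?_) hSp
    rw [norm_mul, psi_norm, mul_one]
  have hAb : ∀ z, ‖A z‖ ≤ 101 / 100 := by
    intro z
    have e : A z = ((g z : ℝ) : ℂ) - E z := by rw [hAE]; ring
    rw [e]
    refine (norm_sub_le _ _).trans ?_
    rw [Complex.norm_real, Real.norm_of_nonneg (h0 z)]
    linarith [h1 z, hEb z]
  have hA0 : A y - A 0 = ∑ n, κ n * A (n * y) := by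
    have e1 : A y - A 0 = ∑ γ ∈ Sp, c γ * (ψ (γ * y) - 1) := by
      rw [hA]
      simp only
      rw [← sum_sub_distrib]
      refine sum_congr rfl fun γ _ => ?_
      have : ψ (γ * (0 : ZMod N)) = 1 := by
        rw [mul_zero]
        exact AddChar.map_zero_eq_one _
      rw [this]
      ring
    rw [e1]
    have e2 : ∀ γ ∈ Sp, c γ * (ψ (γ * y) - 1) = ∑ n, κ n * (c γ * ψ (γ * (n * y))) := by
      intro γ hγ
      rw [← hκ2 (γ * y) (hy γ hγ), mul_sum]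
      refine sum_congr rfl fun n _ => ?_
      have : n * (γ * y) = γ * (n * y) := by ring
      rw [this]
      ring
    rw [sum_congr rfl e2, sum_comm]
    refine sum_congr rfl fun n _ => ?_
    rw [hA]
    simp only
    rw [mul_sum]
  have hAd : ‖A y - A 0‖ ≤ 8 * δ := by
    rw [hA0]
    refine (norm_sum_le _ _).trans ?_
    have : ∀ n ∈ (univ : Finset (ZMod N)), ‖κ n * A (n * y)‖ ≤ ‖κ n‖ * (101 / 100) := by
      intro n _
      rw [norm_mul]
      exact mul_le_mul_of_nonneg_left (hAb _) (norm_nonneg _)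
    refine (sum_le_sum this).trans ?_
    rw [← sum_mul]
    nlinarith
  have e : ((g y - g 0 : ℝ) : ℂ) = (A y - A 0) + (E y - E 0) := by
    push_cast
    rw [hAE, hAE]
    ring
  have h2 : ‖((g y - g 0 : ℝ) : ℂ)‖ ≤ 8 * δ + 1 / 50 := by
    rw [e]
    refine (norm_add_le _ _).trans ?_
    have h3 := norm_sub_le (E y) (E 0)
    linarith [hEb y, hEb 0]
  rwa [Complex.norm_real, Real.norm_eq_abs] at h2

/-- the Fourier transform of a law -/
noncomputable def ft (h : ZMod N → ℝ) (γ : ZMod N) : ℂ := ∑ b, (h b : ℂ) * ψ (γ * b)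

theorem ft_norm_le {h : ZMod N → ℝ} (hh' : IsLaw h) (γ : ZMod N) : ‖ft h γ‖ ≤ 1 := by
  refine (norm_sum_le _ _).trans ?_
  rw [← hh'.sum_one]
  refine sum_le_sum fun b _ => ?_
  rw [norm_mul, psi_norm, mul_one, Complex.norm_real, Real.norm_of_nonneg (hh'.nonneg b)]

theorem ft_cv (π p : ZMod N → ℝ) (γ : ZMod N) : ft (cv π p) γ = ft π γ * ft p γ := by
  unfold ft cv
  push_cast
  simp_rw [sum_mul]
  rw [sum_comm]
  refine sum_congr rfl fun s _ => ?_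
  rw [mul_sum, ← Equiv.sum_comp (Equiv.addRight s)]
  refine sum_congr rfl fun x _ => ?_
  rw [Equiv.coe_addRight, add_sub_cancel_right]
  have e : γ * (x + s) = γ * s + γ * x := by ring
  rw [e, psi_add]
  ring

theorem ft_ng (π : ZMod N → ℝ) (γ : ZMod N) : ft (ng π) γ = (starRingEnd ℂ) (ft π γ) := by
  unfold ft ng
  rw [map_sum, ← Equiv.sum_comp (Equiv.neg (ZMod N))]
  refine sum_congr rfl fun s _ => ?_
  rw [Equiv.neg_apply, neg_neg, map_mul, Complex.conj_ofReal, mul_neg]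
  congr 1
  exact AddChar.map_neg_eq_conj (ZMod.stdAddChar (N := N)) (γ * s)

theorem ft_sm (π p : ZMod N → ℝ) (γ : ZMod N) : ft (sm π p) γ = ((‖ft π γ‖ ^ 2 : ℝ) : ℂ) * ft p γ := by
  unfold sm
  rw [ft_cv, ft_cv, ft_ng, ← mul_assoc, Complex.mul_conj']
  push_cast
  rfl

theorem ft_parseval (h : ZMod N → ℝ) : ∑ γ, ‖ft h γ‖ ^ 2 = N * ∑ a, h a ^ 2 := by
  have h1 := ftz_parseval (N := N) fun b => (h b : ℂ)
  have e : ∀ γ : ZMod N, ft h γ = ftz (fun b => (h b : ℂ)) (-γ) := by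
    intro γ
    unfold ft ftz
    refine sum_congr rfl fun b _ => ?_
    rw [neg_mul, neg_neg]
  simp_rw [e]
  have h2 := Equiv.sum_comp (Equiv.neg (ZMod N)) fun γ => ‖ftz (fun b => (h b : ℂ)) γ‖ ^ 2
  simp only [Equiv.neg_apply] at h2
  rw [h2, h1]
  congr 1
  refine sum_congr rfl fun a _ => ?_
  rw [Complex.norm_real, Real.norm_eq_abs, sq_abs]

/-- the function `g` -/
noncomputable def gs (P q : ZMod N → ℝ) (S : Finset (ZMod N)) (z : ZMod N) : ℝ := ∑ x, P x * Fl q S (x + z)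

/-- its Fourier coefficients -/
noncomputable def cs (P q : ZMod N → ℝ) (S : Finset (ZMod N)) (γ : ZMod N) : ℂ := ft P γ * ft q γ * hh S (-γ) / N

theorem gs_eq (P q : ZMod N → ℝ) (S : Finset (ZMod N)) (z : ZMod N) :
    ((gs P q S z : ℝ) : ℂ) = ∑ γ, cs P q S γ * ψ (γ * z) := by
  have h1 : ((gs P q S z : ℝ) : ℂ) = ∑ x, ∑ b, (P x : ℂ) * (q b : ℂ) * (if x + z + b ∈ S then (1 : ℂ) else 0) := by
    unfold gs Fl
    push_cast
    refine sum_congr rfl fun x _ => ?_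
    rw [mul_sum]
    refine sum_congr rfl fun b _ => ?_
    split_ifs <;> simp
  rw [h1]
  simp_rw [ind_eq]
  have h2 : ∀ γ : ZMod N, cs P q S γ * ψ (γ * z) =
      ∑ x, ∑ b, (P x : ℂ) * (q b : ℂ) * (hh S (-γ) * ψ (γ * (x + z + b)) / N) := by
    intro γ
    have e : ft P γ * ft q γ = ∑ x, ∑ b, ((P x : ℂ) * ψ (γ * x)) * ((q b : ℂ) * ψ (γ * b)) := by
      unfold ft
      rw [sum_mul_sum]
    unfold cs
    rw [e, sum_mul, sum_div, sum_mul]
    refine sum_congr rfl fun x _ => ?_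
    rw [sum_mul, sum_div, sum_mul]
    refine sum_congr rfl fun b _ => ?_
    have e2 : γ * (x + z + b) = γ * x + γ * b + γ * z := by ring
    rw [e2, psi_add, psi_add]
    ring
  simp_rw [h2]
  symm
  rw [sum_comm]
  refine sum_congr rfl fun x _ => ?_
  rw [sum_comm]
  refine sum_congr rfl fun b _ => ?_
  rw [sum_div, mul_sum]

theorem gs_nonneg {P q : ZMod N → ℝ} (hP : IsLaw P) (hq : IsLaw q) (S : Finset (ZMod N)) (z : ZMod N) :
    0 ≤ gs P q S z := sum_nonneg fun x _ => mul_nonneg (hP.nonneg x) (Fl_nonneg hq S _)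

theorem gs_le_one {P q : ZMod N → ℝ} (hP : IsLaw P) (hq : IsLaw q) (S : Finset (ZMod N)) (z : ZMod N) :
    gs P q S z ≤ 1 := by
  unfold gs
  rw [← hP.sum_one]
  exact sum_le_sum fun x _ => mul_le_of_le_one_right (hP.nonneg x) (Fl_le_one hq S _)

theorem gs_zero (P q : ZMod N → ℝ) (S : Finset (ZMod N)) : gs P q S 0 = Ph P q S := by
  unfold gs Ph
  simp_rw [add_zero]

/-- the absolute sum of the coefficients -/
theorem cs_norm {P q : ZMod N → ℝ} (hP : IsLaw P) (hq : IsLaw q) (S : Finset (ZMod N)) (c : ℝ)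
    (hc : (∀ x, P x ≤ c) ∨ (∀ x, q x ≤ c)) : ∑ γ, ‖cs P q S γ‖ ≤ Real.sqrt (c * S.card) := by
  have hN : (0 : ℝ) < N := by exact_mod_cast NeZero.pos N
  have key : ∀ h : ZMod N → ℝ, IsLaw h → (∀ x, h x ≤ c) → (∀ γ, ‖cs P q S γ‖ ≤ ‖ft h γ‖ * ‖hh S (-γ)‖ / N) →
      ∑ γ, ‖cs P q S γ‖ ≤ Real.sqrt (c * S.card) := by
    intro h hlaw hhc hcs
    have hpS : ∑ γ : ZMod N, ‖hh S (-γ)‖ ^ 2 = N * S.card := by
      rw [← parseval S]
      exact Fintype.sum_equiv (Equiv.neg _) _ _ fun γ => rfl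
    have h1 := Real.sum_mul_le_sqrt_mul_sqrt univ (fun γ : ZMod N => ‖ft h γ‖) fun γ => ‖hh S (-γ)‖
    have h2 : ∑ a, h a ^ 2 ≤ c := by
      calc ∑ a, h a ^ 2 ≤ ∑ a, h a * c := sum_le_sum fun a _ => by
            rw [pow_two]
            exact mul_le_mul_of_nonneg_left (hhc a) (hlaw.nonneg a)
        _ = c := by rw [← sum_mul, hlaw.sum_one, one_mul]
    rw [ft_parseval, hpS, ← Real.sqrt_mul (by positivity)] at h1
    calc ∑ γ, ‖cs P q S γ‖ ≤ ∑ γ, ‖ft h γ‖ * ‖hh S (-γ)‖ / N := sum_le_sum fun γ _ => hcs γ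
      _ = (∑ γ, ‖ft h γ‖ * ‖hh S (-γ)‖) / N := by rw [sum_div]
      _ ≤ Real.sqrt (N * (∑ a, h a ^ 2) * (N * S.card)) / N := by gcongr
      _ ≤ Real.sqrt (N * c * (N * S.card)) / N := by gcongr
      _ = Real.sqrt (c * S.card) := by
          rw [show (N : ℝ) * c * (N * S.card) = (c * S.card) * N ^ 2 by ring, Real.sqrt_mul' _ (by positivity),
            Real.sqrt_sq hN.le]
          field_simp
  rcases hc with hc | hc
  · refine key P hP hc fun γ => ?_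
    unfold cs
    rw [norm_div, norm_mul, norm_mul, Complex.norm_natCast]
    have h1 := ft_norm_le hq γ
    have h2 : ‖ft P γ‖ * ‖ft q γ‖ ≤ ‖ft P γ‖ := mul_le_of_le_one_right (norm_nonneg _) h1
    gcongr
  · refine key q hq hc fun γ => ?_
    unfold cs
    rw [norm_div, norm_mul, norm_mul, Complex.norm_natCast]
    have h1 := ft_norm_le hP γ
    have h2 : ‖ft P γ‖ * ‖ft q γ‖ ≤ ‖ft q γ‖ := mul_le_of_le_one_left (norm_nonneg _) h1
    gcongr

/-- a product of numbers of mean at most `1/2` -/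
theorem prod_le (a : ℕ → ℝ) (ha : ∀ j, 0 ≤ a j) (l : ℕ) (h : ∑ j ∈ range l, a j ≤ l / 2) :
    ∏ j ∈ range l, a j ^ 2 ≤ (1 / 4) ^ l := by
  have h1 : ∏ j ∈ range l, (2 * a j) ≤ 1 := by
    calc ∏ j ∈ range l, (2 * a j) ≤ ∏ j ∈ range l, Real.exp (2 * a j - 1) := by
          refine prod_le_prod (fun j _ => by have := ha j; positivity) fun j _ => ?_
          have := Real.add_one_le_exp (2 * a j - 1)
          linarith
      _ = Real.exp (∑ j ∈ range l, (2 * a j - 1)) := (Real.exp_sum _ _).symm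
      _ ≤ 1 := by
          rw [Real.exp_le_one_iff, sum_sub_distrib, ← mul_sum, sum_const, card_range, nsmul_eq_mul]
          linarith
  have h2 : 0 ≤ ∏ j ∈ range l, (2 * a j) := prod_nonneg fun j _ => by have := ha j; positivity
  have h3 : (∏ j ∈ range l, (2 * a j)) ^ 2 ≤ 1 := pow_le_one₀ h2 h1
  have h4 : (∏ j ∈ range l, (2 * a j)) ^ 2 = 4 ^ l * ∏ j ∈ range l, a j ^ 2 := by
    rw [← prod_pow]
    calc ∏ j ∈ range l, (2 * a j) ^ 2 = ∏ j ∈ range l, (4 * a j ^ 2) := prod_congr rfl fun j _ => by ring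
      _ = 4 ^ l * ∏ j ∈ range l, a j ^ 2 := by rw [prod_mul_distrib, prod_const, card_range]
  rw [h4] at h3
  rw [one_div, inv_pow, ← one_div, le_div_iff₀ (by positivity), mul_comm]
  exact h3

theorem ft_iter (ν P : ℕ → ZMod N → ℝ) (hP : ∀ j, P (j + 1) = sm (ν j) (P j)) (l : ℕ) (γ : ZMod N) :
    ft (P l) γ = ((∏ j ∈ range l, ‖ft (ν j) γ‖ ^ 2 : ℝ) : ℂ) * ft (P 0) γ := by
  induction l with
  | zero => simp
  | succ l ih =>
    rw [hP, ft_sm, ih, prod_range_succ]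
    push_cast
    ring

/-- **the Fourier step** -/
theorem four2 (ν P : ℕ → ZMod N → ℝ) (q : ZMod N → ℝ) (S : Finset (ZMod N)) (hlaw : ∀ j, IsLaw (P j)) (hq : IsLaw q)
    (hP : ∀ j, P (j + 1) = sm (ν j) (P j)) (c : ℝ) (hc : (∀ x, P 0 x ≤ c) ∨ (∀ x, q x ≤ c)) (l : ℕ)
    (hl : 100 * Real.sqrt (c * S.card) ≤ 4 ^ l) (h9 : 9 / 10 ≤ Ph (P l) q S) (y : ZMod N)
    (hy : ∀ γ : ZMod N, (l : ℝ) / 2 ≤ ∑ j ∈ range l, ‖ft (ν j) γ‖ → ‖ψ (γ * y) - 1‖ ≤ 1 / 40) :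
    ∃ s ∈ S, ∃ s' ∈ S, y = s - s' := by
  classical
  obtain ⟨Sp, hSp⟩ : ∃ Sp : Finset (ZMod N), Sp = univ.filter fun γ => (l : ℝ) / 2 ≤ ∑ j ∈ range l, ‖ft (ν j) γ‖ :=
    ⟨_, rfl⟩
  have hSpc : ∑ γ ∈ Spᶜ, ‖cs (P l) q S γ‖ ≤ 1 / 100 := by
    have h1 : ∀ γ ∈ Spᶜ, ‖cs (P l) q S γ‖ ≤ ‖cs (P 0) q S γ‖ * (1 / 4) ^ l := by
      intro γ hγ
      rw [mem_compl, hSp, mem_filter, not_and] at hγ
      have hγ' := hγ (mem_univ _)
      push Not at hγ'
      have h2 := prod_le (fun j => ‖ft (ν j) γ‖) (fun j => norm_nonneg _) l hγ'.le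
      have h3 : cs (P l) q S γ = ((∏ j ∈ range l, ‖ft (ν j) γ‖ ^ 2 : ℝ) : ℂ) * cs (P 0) q S γ := by
        unfold cs
        rw [ft_iter ν P hP l γ]
        ring
      have h4 : 0 ≤ ∏ j ∈ range l, ‖ft (ν j) γ‖ ^ 2 := prod_nonneg fun j _ => by positivity
      rw [h3, norm_mul, Complex.norm_real, Real.norm_of_nonneg h4, mul_comm]
      exact mul_le_mul_of_nonneg_left h2 (norm_nonneg _)
    refine (sum_le_sum h1).trans ?_
    rw [← sum_mul]
    have h5 : ∑ γ ∈ Spᶜ, ‖cs (P 0) q S γ‖ ≤ Real.sqrt (c * S.card) :=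
      (sum_le_sum_of_subset_of_nonneg (subset_univ _) fun _ _ _ => norm_nonneg _).trans
        (cs_norm (hlaw 0) hq S c hc)
    have h6 : (0 : ℝ) < 4 ^ l := by positivity
    calc (∑ γ ∈ Spᶜ, ‖cs (P 0) q S γ‖) * (1 / 4) ^ l ≤ Real.sqrt (c * S.card) * (1 / 4) ^ l := by gcongr
      _ = Real.sqrt (c * S.card) / 4 ^ l := by rw [one_div, inv_pow]; rfl
      _ ≤ 1 / 100 := by
          rw [div_le_div_iff₀ h6 (by norm_num)]
          linarith
  have h1 := four_ker (gs (P l) q S) (cs (P l) q S) (gs_nonneg (hlaw l) hq S) (gs_le_one (hlaw l) hq S)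
    (gs_eq (P l) q S) Sp hSpc (1 / 40) (by norm_num) y (fun γ hγ => by
      rw [hSp, mem_filter] at hγ
      exact hy γ hγ.2)
  rw [gs_zero] at h1
  have h2 : 1 < gs (P l) q S y + gs (P l) q S 0 := by
    rw [gs_zero]
    have := (abs_le.1 h1).1
    norm_num at this
    linarith
  by_contra hcon
  push Not at hcon
  have h3 : gs (P l) q S y + gs (P l) q S 0 ≤ 1 := by
    unfold gs Fl
    rw [← sum_add_distrib]
    refine le_trans (sum_le_sum fun x _ => ?_) (hlaw l).sum_one.le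
    rw [← mul_add, ← sum_add_distrib]
    refine mul_le_of_le_one_right ((hlaw l).nonneg x) ?_
    refine le_trans (sum_le_sum fun b _ => ?_) hq.sum_one.le
    rw [← mul_add]
    refine mul_le_of_le_one_right (hq.nonneg b) ?_
    rw [add_zero]
    by_cases h4 : x + y + b ∈ S
    · by_cases h5 : x + b ∈ S
      · exact absurd (by ring) (hcon _ h4 _ h5)
      · rw [if_pos h4, if_neg h5]
        norm_num
    · rw [if_neg h4]
      split_ifs <;> norm_num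
  linarith

end Pool.Agent.V8H19.AP
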