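import Pool.Agent.V8H19.AP.Smooth
import Pool.Agent.V8H19.AP.Four2

/-!
# Subspaces in `4A` for dense subsets of `F₂ⁿ`

If `A ⊆ F₂ⁿ` has density `α ≤ 1/2` and `ℓ = log (1/α)` then there is a subspace `W` of codimension at most
`C ℓ² log (2 + ℓ)` and `x` such that `x + w ∈ A + A` for at least `7/8` of the elements `w` of `W`.
-/

set_option autoImplicit false
set_option linter.unusedSectionVars false

namespace Pool.Agent.V8H19.AP.F2

open Finset Pool.Agent.V8H19.AP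
open scoped Pointwise

/-- the sign of an element of `F₂` -/
def sgn (a : ZMod 2) : ℝ := if a = 0 then 1 else -1

theorem sgn_add (a b : ZMod 2) : sgn (a + b) = sgn a * sgn b := by
  have h : ∀ a b : ZMod 2, (a = 0 ∧ b = 0 ∧ a + b = 0) ∨ (a = 0 ∧ b ≠ 0 ∧ a + b ≠ 0) ∨
    (a ≠ 0 ∧ b = 0 ∧ a + b ≠ 0) ∨ (a ≠ 0 ∧ b ≠ 0 ∧ a + b = 0) := by decide
  unfold sgn
  rcases h a b with ⟨h1, h2, h3⟩ | ⟨h1, h2, h3⟩ | ⟨h1, h2, h3⟩ | ⟨h1, h2, h3⟩
  · rw [if_pos h1, if_pos h2, if_pos h3]; norm_num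
  · rw [if_pos h1, if_neg h2, if_neg h3]; norm_num
  · rw [if_neg h1, if_pos h2, if_neg h3]; norm_num
  · rw [if_neg h1, if_neg h2, if_pos h3]; norm_num

theorem sgn_zero : sgn 0 = 1 := if_pos rfl

theorem sgn_abs (a : ZMod 2) : |sgn a| = 1 := by
  unfold sgn
  split_ifs <;> norm_num

theorem sgn_mul_self (a : ZMod 2) : sgn a * sgn a = 1 := by
  unfold sgn
  split_ifs <;> norm_num

variable {n : ℕ}

/-- the characters -/
def ch (g x : Fin n → ZMod 2) : ℝ := sgn (dotProduct g x)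

theorem ch_add (g x y : Fin n → ZMod 2) : ch g (x + y) = ch g x * ch g y := by
  unfold ch
  rw [dotProduct_add, sgn_add]

theorem ch_add_left (g h x : Fin n → ZMod 2) : ch (g + h) x = ch g x * ch h x := by
  unfold ch
  rw [add_dotProduct, sgn_add]

theorem ch_neg (g x : Fin n → ZMod 2) : ch g (-x) = ch g x := by
  have h : -x = x := by
    funext i
    exact ZMod.neg_eq_self_mod_two (x i)
  rw [h]

theorem ch_zero (g : Fin n → ZMod 2) : ch g 0 = 1 := by
  unfold ch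
  rw [dotProduct_zero, sgn_zero]

theorem ch_zero_left (x : Fin n → ZMod 2) : ch 0 x = 1 := by
  unfold ch
  rw [zero_dotProduct, sgn_zero]

theorem ch_abs (g x : Fin n → ZMod 2) : |ch g x| = 1 := sgn_abs _

theorem ch_symm (g x : Fin n → ZMod 2) : ch g x = ch x g := by
  unfold ch
  rw [dotProduct_comm]

theorem sum_ch (x : Fin n → ZMod 2) : ∑ g, ch g x = if x = 0 then (2 : ℝ) ^ n else 0 := by
  split_ifs with h
  · rw [h]
    simp_rw [ch_zero]
    rw [sum_const, card_univ, nsmul_eq_mul, mul_one]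
    simp
  · obtain ⟨i, hi⟩ : ∃ i, x i ≠ 0 := by
      by_contra hcon
      push Not at hcon
      exact h (funext hcon)
    have h1 : ch (Pi.single i 1) x = -1 := by
      unfold ch
      rw [single_dotProduct, one_mul]
      unfold sgn
      rw [if_neg hi]
    have h2 := Equiv.sum_comp (Equiv.addRight (Pi.single i (1 : ZMod 2))) fun g => ch g x
    simp only [Equiv.coe_addRight] at h2
    simp_rw [ch_add_left, h1] at h2
    rw [← sum_mul] at h2
    linarith

/-- the Fourier transform -/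
noncomputable def fr (h : (Fin n → ZMod 2) → ℝ) (g : Fin n → ZMod 2) : ℝ := ∑ x, h x * ch g x

theorem fr_le {h : (Fin n → ZMod 2) → ℝ} (hh : IsLaw h) (g : Fin n → ZMod 2) : |fr h g| ≤ 1 := by
  refine (abs_sum_le_sum_abs _ _).trans ?_
  rw [← hh.sum_one]
  refine sum_le_sum fun b _ => ?_
  rw [abs_mul, ch_abs, mul_one, abs_of_nonneg (hh.nonneg b)]

theorem fr_cv (π p : (Fin n → ZMod 2) → ℝ) (g : Fin n → ZMod 2) : fr (cv π p) g = fr π g * fr p g := by
  unfold fr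
  rw [sum_cv, sum_mul]
  refine sum_congr rfl fun s _ => ?_
  have h1 : ∑ x, p x * ch g (x + s) = ch g s * ∑ x, p x * ch g x := by
    rw [mul_sum]
    refine sum_congr rfl fun x _ => ?_
    rw [ch_add]
    ring
  rw [h1]
  ring

theorem fr_ng (π : (Fin n → ZMod 2) → ℝ) (g : Fin n → ZMod 2) : fr (ng π) g = fr π g := by
  unfold fr ng
  have h1 := Equiv.sum_comp (Equiv.neg (Fin n → ZMod 2)) fun x => π x * ch g x
  rw [← h1]
  refine sum_congr rfl fun s _ => ?_
  rw [Equiv.neg_apply, ch_neg]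

theorem fr_sm (π p : (Fin n → ZMod 2) → ℝ) (g : Fin n → ZMod 2) : fr (sm π p) g = fr π g ^ 2 * fr p g := by
  unfold sm
  rw [fr_cv, fr_cv, fr_ng]
  ring

theorem fr_inv (h : (Fin n → ZMod 2) → ℝ) (z : Fin n → ZMod 2) : ∑ g, fr h g * ch g z = 2 ^ n * h z := by
  unfold fr
  simp_rw [sum_mul]
  rw [sum_comm]
  have h1 : ∀ x : Fin n → ZMod 2, ∑ g, h x * ch g x * ch g z = if x = z then 2 ^ n * h x else 0 := by
    intro x
    have h2 : ∀ g : Fin n → ZMod 2, h x * ch g x * ch g z = h x * ch g (x + z) := by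
      intro g
      rw [ch_add]
      ring
    simp_rw [h2]
    rw [← mul_sum, sum_ch]
    have h3 : x + z = 0 ↔ x = z := by
      have h4 : -z = z := by
        funext i
        exact ZMod.neg_eq_self_mod_two (z i)
      rw [← sub_eq_zero (a := x) (b := z), sub_eq_add_neg, h4]
    by_cases h5 : x = z
    · rw [if_pos (h3.2 h5), if_pos h5]
      ring
    · rw [if_neg (fun h6 => h5 (h3.1 h6)), if_neg h5, mul_zero]
  simp_rw [h1]
  rw [sum_ite_eq' univ z, if_pos (mem_univ _)]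

theorem parseval (h : (Fin n → ZMod 2) → ℝ) : ∑ g, fr h g ^ 2 = 2 ^ n * ∑ a, h a ^ 2 := by
  have h1 : ∀ g, fr h g ^ 2 = ∑ a, h a * (fr h g * ch g a) := by
    intro g
    have h2 : fr h g ^ 2 = fr h g * ∑ a, h a * ch g a := by
      rw [pow_two]
      rfl
    rw [h2, mul_sum]
    refine sum_congr rfl fun a _ => ?_
    ring
  simp_rw [h1]
  rw [sum_comm, mul_sum]
  refine sum_congr rfl fun a _ => ?_
  rw [← mul_sum, fr_inv]
  ring

/-- the indicator function -/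
noncomputable def ind (S : Finset (Fin n → ZMod 2)) (x : Fin n → ZMod 2) : ℝ := if x ∈ S then 1 else 0

/-- the function `g` -/
noncomputable def gf (P q : (Fin n → ZMod 2) → ℝ) (S : Finset (Fin n → ZMod 2)) (z : Fin n → ZMod 2) : ℝ :=
  ∑ x, P x * Fl q S (x + z)

/-- its Fourier coefficients -/
noncomputable def cf (P q : (Fin n → ZMod 2) → ℝ) (S : Finset (Fin n → ZMod 2)) (g : Fin n → ZMod 2) : ℝ :=
  fr P g * fr q g * fr (ind S) g / 2 ^ n

theorem gf_eq (P q : (Fin n → ZMod 2) → ℝ) (S : Finset (Fin n → ZMod 2)) (z : Fin n → ZMod 2) :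
    gf P q S z = ∑ g, cf P q S g * ch g z := by
  have h2 : ∀ g : Fin n → ZMod 2, cf P q S g * ch g z =
      ∑ x, ∑ b, P x * (q b * (fr (ind S) g * ch g (x + z + b) / 2 ^ n)) := by
    intro g
    unfold cf
    have e : fr P g * fr q g = ∑ x, ∑ b, (P x * ch g x) * (q b * ch g b) := by
      unfold fr
      rw [sum_mul_sum]
    rw [e, sum_mul, sum_div, sum_mul]
    refine sum_congr rfl fun x _ => ?_
    rw [sum_mul, sum_div, sum_mul]
    refine sum_congr rfl fun b _ => ?_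
    rw [ch_add, ch_add]
    ring
  simp_rw [h2]
  symm
  rw [sum_comm]
  unfold gf Fl
  refine sum_congr rfl fun x _ => ?_
  rw [sum_comm, mul_sum]
  refine sum_congr rfl fun b _ => ?_
  rw [← mul_sum, ← mul_sum, ← sum_div, fr_inv]
  have h2n : (2 : ℝ) ^ n ≠ 0 := by positivity
  rw [mul_div_cancel_left₀ _ h2n]
  rfl

theorem cf_norm {P q : (Fin n → ZMod 2) → ℝ} (hP : IsLaw P) (hq : IsLaw q) (S : Finset (Fin n → ZMod 2)) (c : ℝ)
    (hc : ∀ x, P x ≤ c) : ∑ g, |cf P q S g| ≤ Real.sqrt (c * S.card) := by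
  have hN : (0 : ℝ) < 2 ^ n := by positivity
  have h1 := Real.sum_mul_le_sqrt_mul_sqrt univ (fun g => |fr P g|) fun g => |fr (ind S) g|
  simp_rw [sq_abs] at h1
  rw [parseval, parseval] at h1
  have h2 : ∑ a, P a ^ 2 ≤ c := by
    calc ∑ a, P a ^ 2 ≤ ∑ a, P a * c := sum_le_sum fun a _ => by
          rw [pow_two]
          exact mul_le_mul_of_nonneg_left (hc a) (hP.nonneg a)
      _ = c := by rw [← sum_mul, hP.sum_one, one_mul]
  have h3 : ∑ a, ind S a ^ 2 = (S.card : ℝ) := by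
    unfold ind
    simp_rw [ite_pow]
    simp
  rw [h3, ← Real.sqrt_mul (by positivity)] at h1
  calc ∑ g, |cf P q S g| ≤ ∑ g, |fr P g| * |fr (ind S) g| / 2 ^ n := by
        refine sum_le_sum fun g _ => ?_
        unfold cf
        rw [abs_div, abs_mul, abs_mul, abs_of_pos hN]
        have h4 := fr_le hq g
        have h5 : |fr P g| * |fr q g| ≤ |fr P g| := mul_le_of_le_one_right (abs_nonneg _) h4
        gcongr
    _ = (∑ g, |fr P g| * |fr (ind S) g|) / 2 ^ n := by rw [sum_div]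
    _ ≤ Real.sqrt (2 ^ n * (∑ a, P a ^ 2) * (2 ^ n * S.card)) / 2 ^ n := by gcongr
    _ ≤ Real.sqrt (2 ^ n * c * (2 ^ n * S.card)) / 2 ^ n := by gcongr
    _ = Real.sqrt (c * S.card) := by
        rw [show (2 : ℝ) ^ n * c * (2 ^ n * S.card) = (c * S.card) * (2 ^ n) ^ 2 by ring,
          Real.sqrt_mul' _ (by positivity), Real.sqrt_sq hN.le]
        field_simp

theorem fr_iter (ν P : ℕ → (Fin n → ZMod 2) → ℝ) (hP : ∀ j, P (j + 1) = sm (ν j) (P j)) (l : ℕ)
    (g : Fin n → ZMod 2) : fr (P l) g = (∏ j ∈ range l, |fr (ν j) g| ^ 2) * fr (P 0) g := by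
  induction l with
  | zero => simp
  | succ l ih =>
    rw [hP, fr_sm, ih, prod_range_succ, sq_abs]
    ring

/-- the exponential moment of a sum of independent characters -/
theorem rudin (Λ : Finset (Fin n → ZMod 2)) (hΛ : ∀ T ⊆ Λ, ∑ g ∈ T, g = 0 → T = ∅) (ε : (Fin n → ZMod 2) → ℝ)
    (hε : ∀ g, ε g = 1 ∨ ε g = -1) (t : ℝ) :
    ∑ x : Fin n → ZMod 2, Real.exp (t * ∑ g ∈ Λ, ε g * ch g x) ≤ 2 ^ n * Real.exp (t ^ 2 / 2 * Λ.card) := by
  have h1 : ∀ x : Fin n → ZMod 2, Real.exp (t * ∑ g ∈ Λ, ε g * ch g x) =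
      ∏ g ∈ Λ, (Real.sinh t * ε g * ch g x + Real.cosh t) := by
    intro x
    rw [mul_sum, Real.exp_sum]
    refine prod_congr rfl fun g _ => ?_
    have h2 : ch g x = 1 ∨ ch g x = -1 := by
      unfold ch sgn
      split_ifs <;> simp
    have h3 := Real.cosh_add_sinh t
    have h4 := Real.cosh_sub_sinh t
    rcases hε g with h | h <;> rcases h2 with h' | h' <;> rw [h, h']
    · rw [← (by ring : t = t * (1 * 1)), ← h3]; ring
    · rw [(by ring : t * (1 * -1) = -t), ← h4]; ring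
    · rw [(by ring : t * (-1 * 1) = -t), ← h4]; ring
    · rw [(by ring : t * (-1 * -1) = t), ← h3]; ring
  simp_rw [h1]
  have h2 : ∀ x : Fin n → ZMod 2, ∏ g ∈ Λ, (Real.sinh t * ε g * ch g x + Real.cosh t) =
      ∑ T ∈ Λ.powerset, (∏ g ∈ T, (Real.sinh t * ε g)) * Real.cosh t ^ (Λ.card - T.card) * ch (∑ g ∈ T, g) x := by
    intro x
    rw [prod_add]
    refine sum_congr rfl fun T hT => ?_
    rw [prod_mul_distrib, prod_const, card_sdiff_of_subset (mem_powerset.1 hT)]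
    have h3 : ∏ g ∈ T, ch g x = ch (∑ g ∈ T, g) x := by
      classical
      induction T using Finset.induction_on with
      | empty => rw [prod_empty, sum_empty, ch_zero_left]
      | insert g T hg ih =>
        rw [prod_insert hg, sum_insert hg, ch_add_left, ih (mem_powerset.2
          ((subset_insert g T).trans (mem_powerset.1 hT)))]
    rw [h3]
    ring
  simp_rw [h2]
  rw [sum_comm]
  have h3 : ∀ T ∈ Λ.powerset, ∑ x : Fin n → ZMod 2,
      (∏ g ∈ T, (Real.sinh t * ε g)) * Real.cosh t ^ (Λ.card - T.card) * ch (∑ g ∈ T, g) x =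
      if T = ∅ then Real.cosh t ^ Λ.card * 2 ^ n else 0 := by
    intro T hT
    rw [← mul_sum]
    simp_rw [ch_symm (∑ g ∈ T, g)]
    rw [sum_ch]
    by_cases h4 : T = ∅
    · rw [if_pos h4, h4, if_pos (by simp)]
      simp
    · rw [if_neg h4, if_neg (fun h5 => h4 (hΛ T (mem_powerset.1 hT) h5)), mul_zero]
  rw [sum_congr rfl h3, sum_ite_eq' _ ∅, if_pos (empty_mem_powerset Λ)]
  have h5 : Real.cosh t ^ Λ.card ≤ Real.exp (t ^ 2 / 2 * Λ.card) := by
    rw [mul_comm (t ^ 2 / 2), Real.exp_nat_mul]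
    exact pow_le_pow_left₀ (Real.cosh_pos t).le (Real.cosh_le_exp_half_sq t) _
  have h6 : (0 : ℝ) < 2 ^ n := by positivity
  calc Real.cosh t ^ Λ.card * 2 ^ n ≤ Real.exp (t ^ 2 / 2 * Λ.card) * 2 ^ n := by gcongr
    _ = _ := by ring

/-- Chang's theorem for a law of bounded density -/
theorem chang {ν : (Fin n → ZMod 2) → ℝ} (hν : IsLaw ν) (D : ℝ) (hD : ∀ x, ν x ≤ Real.exp D / 2 ^ n)
    (Λ : Finset (Fin n → ZMod 2)) (hΛ : ∀ T ⊆ Λ, ∑ g ∈ T, g = 0 → T = ∅)
    (hbig : (Λ.card : ℝ) / 2 ≤ ∑ g ∈ Λ, |fr ν g|) : (Λ.card : ℝ) ≤ 8 * D := by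
  obtain ⟨ε, hε⟩ : ∃ ε : (Fin n → ZMod 2) → ℝ, ε = fun g => if 0 ≤ fr ν g then 1 else -1 := ⟨_, rfl⟩
  have hε1 : ∀ g, ε g = 1 ∨ ε g = -1 := by
    intro g
    rw [hε]
    beta_reduce
    split_ifs <;> simp
  have hε2 : ∀ g, ε g * fr ν g = |fr ν g| := by
    intro g
    rw [hε]
    beta_reduce
    split_ifs with h
    · rw [one_mul, abs_of_nonneg h]
    · rw [neg_one_mul, abs_of_neg (not_le.1 h)]
  have h1 : ∑ x, ν x * (∑ g ∈ Λ, ε g * ch g x) = ∑ g ∈ Λ, |fr ν g| := by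
    simp_rw [mul_sum]
    rw [sum_comm]
    refine sum_congr rfl fun g _ => ?_
    rw [← hε2 g]
    unfold fr
    rw [mul_sum]
    refine sum_congr rfl fun x _ => ?_
    ring
  have h2 : Real.exp ((Λ.card : ℝ) / 4) ≤ ∑ x, ν x * Real.exp (1 / 2 * ∑ g ∈ Λ, ε g * ch g x) := by
    have h3 : ∀ x, ν x * (Real.exp (Λ.card / 4) * (1 + (1 / 2 * (∑ g ∈ Λ, ε g * ch g x) - Λ.card / 4))) ≤
        ν x * Real.exp (1 / 2 * ∑ g ∈ Λ, ε g * ch g x) := by
      intro x
      refine mul_le_mul_of_nonneg_left ?_ (hν.nonneg x)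
      have h4 := Real.add_one_le_exp (1 / 2 * (∑ g ∈ Λ, ε g * ch g x) - Λ.card / 4)
      have h5 : Real.exp (1 / 2 * ∑ g ∈ Λ, ε g * ch g x) =
          Real.exp (Λ.card / 4) * Real.exp (1 / 2 * (∑ g ∈ Λ, ε g * ch g x) - Λ.card / 4) := by
        rw [← Real.exp_add]; congr 1; ring
      rw [h5]
      exact mul_le_mul_of_nonneg_left (by linarith) (Real.exp_pos _).le
    refine le_trans ?_ (sum_le_sum fun x _ => h3 x)
    have h6 : ∑ x, ν x * (Real.exp (Λ.card / 4) * (1 + (1 / 2 * (∑ g ∈ Λ, ε g * ch g x) - Λ.card / 4))) =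
        Real.exp (Λ.card / 4) * ((1 - Λ.card / 4) * ∑ x, ν x +
          (∑ x, ν x * (∑ g ∈ Λ, ε g * ch g x)) / 2) := by
      rw [mul_sum, sum_div, ← sum_add_distrib, mul_sum]
      refine sum_congr rfl fun x _ => ?_
      ring
    rw [h6, hν.sum_one, h1]
    refine le_mul_of_one_le_right (Real.exp_pos _).le ?_
    linarith
  have h3 : ∑ x, ν x * Real.exp (1 / 2 * ∑ g ∈ Λ, ε g * ch g x) ≤
      Real.exp D / 2 ^ n * (2 ^ n * Real.exp ((1 / 2) ^ 2 / 2 * Λ.card)) := by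
    refine le_trans (sum_le_sum fun x _ => mul_le_mul_of_nonneg_right (hD x) (Real.exp_pos _).le) ?_
    rw [← mul_sum]
    exact mul_le_mul_of_nonneg_left (rudin Λ hΛ ε hε1 (1 / 2)) (by positivity)
  have h4 : Real.exp D / 2 ^ n * (2 ^ n * Real.exp ((1 / 2) ^ 2 / 2 * Λ.card)) = Real.exp (D + Λ.card / 8) := by
    rw [Real.exp_add]
    have h2n : (2 : ℝ) ^ n ≠ 0 := by positivity
    field_simp
    congr 1
    ring
  rw [h4] at h3
  have h5 := Real.exp_le_exp.1 (h2.trans h3)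
  linarith

end Pool.Agent.V8H19.AP.F2
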