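import Pool.Agent.V8H19.AP.F2

/-!
# Subspaces in `4A` for dense subsets of `F₂ⁿ`: the main theorem
-/

set_option autoImplicit false
set_option linter.unusedSectionVars false

namespace Pool.Agent.V8H19.AP.F2

open Finset Pool.Agent.V8H19.AP
open scoped Pointwise

variable {n : ℕ}

/-- independence over `F₂` -/
def Ind (Λ : Finset (Fin n → ZMod 2)) : Prop := ∀ T ⊆ Λ, ∑ g ∈ T, g = 0 → T = ∅

theorem self_add (g : Fin n → ZMod 2) : g + g = 0 := by
  funext i
  exact CharTwo.add_self_eq_zero (g i)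

/-- a maximal independent subset -/
theorem exists_basis (Low : Finset (Fin n → ZMod 2)) : ∃ Λ ⊆ Low, Ind Λ ∧
    ∀ g ∈ Low, ∀ y : Fin n → ZMod 2, (∀ h ∈ Λ, ch h y = 1) → ch g y = 1 := by
  classical
  have hne : (Low.powerset.filter fun Λ => Ind Λ).Nonempty := by
    refine ⟨∅, ?_⟩
    rw [mem_filter]
    exact ⟨empty_mem_powerset _, fun T hT _ => subset_empty.1 hT⟩
  obtain ⟨Λ, hΛ, hmax⟩ := exists_max_image _ card hne
  rw [mem_filter, mem_powerset] at hΛ
  refine ⟨Λ, hΛ.1, hΛ.2, fun g hg y hy => ?_⟩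
  by_cases hgΛ : g ∈ Λ
  · exact hy g hgΛ
  have h1 : ¬ Ind (insert g Λ) := by
    intro hd
    have h2 := hmax (insert g Λ) (by
      rw [mem_filter, mem_powerset]
      exact ⟨insert_subset hg hΛ.1, hd⟩)
    rw [card_insert_of_notMem hgΛ] at h2
    omega
  unfold Ind at h1
  push Not at h1
  obtain ⟨T, hT, hT0, hTne⟩ := h1
  have hgT : g ∈ T := by
    by_contra hcon
    have h2 : T ⊆ Λ := fun h hh => by
      rcases mem_insert.1 (hT hh) with h3 | h3
      · exact absurd (h3 ▸ hh) hcon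
      · exact h3
    have h3 := hΛ.2 T h2 hT0
    rw [h3] at hTne
    simp at hTne
  have h2 : ∏ h ∈ T, ch h y = ch (∑ h ∈ T, h) y := by
    clear hT hT0 hTne hgT
    induction T using Finset.induction_on with
    | empty => rw [prod_empty, sum_empty, ch_zero_left]
    | insert h T hh ih => rw [prod_insert hh, sum_insert hh, ch_add_left, ih]
  rw [hT0, ch_zero_left, ← insert_erase hgT, prod_insert (notMem_erase g T)] at h2
  have h3 : ∏ h ∈ T.erase g, ch h y = 1 := prod_eq_one fun h hh => by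
    rw [mem_erase] at hh
    rcases mem_insert.1 (hT hh.2) with h4 | h4
    · exact absurd h4 hh.1
    · exact hy h h4
  rwa [h3, mul_one] at h2

/-- the annihilator -/
def ann (Λ : Finset (Fin n → ZMod 2)) : Submodule (ZMod 2) (Fin n → ZMod 2) where
  carrier := {y | ∀ h ∈ Λ, dotProduct h y = 0}
  add_mem' := by
    intro a b ha hb h hh
    rw [dotProduct_add, ha h hh, hb h hh, add_zero]
  zero_mem' := by
    intro h _
    exact dotProduct_zero h
  smul_mem' := by
    intro c x hx h hh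
    rw [dotProduct_smul, hx h hh, smul_zero]

theorem ann_finrank (Λ : Finset (Fin n → ZMod 2)) :
    (n : ℝ) - (Module.finrank (ZMod 2) (ann Λ) : ℝ) ≤ Λ.card := by
  let L : (Fin n → ZMod 2) →ₗ[ZMod 2] (Λ → ZMod 2) :=
    { toFun := fun x h => dotProduct h.1 x
      map_add' := fun x y => by
        funext h
        exact dotProduct_add _ _ _
      map_smul' := fun c x => by
        funext h
        exact dotProduct_smul _ _ _ }
  have h1 : LinearMap.ker L = ann Λ := by
    ext y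
    constructor
    · intro hy h hh
      have h2 : L y = 0 := hy
      exact congrFun h2 ⟨h, hh⟩
    · intro hy
      show L y = 0
      funext h
      exact hy h.1 h.2
  have h2 := LinearMap.finrank_range_add_finrank_ker L
  rw [h1, Module.finrank_fin_fun] at h2
  have h3 : Module.finrank (ZMod 2) (LinearMap.range L) ≤ Λ.card := by
    refine (Submodule.finrank_le _).trans (le_of_eq ?_)
    rw [Module.finrank_fintype_fun_eq_card, Fintype.card_coe]
  have h4 : n ≤ Λ.card + Module.finrank (ZMod 2) (ann Λ) := by omega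
  have h5 : (n : ℝ) ≤ Λ.card + Module.finrank (ZMod 2) (ann Λ) := by exact_mod_cast h4
  linarith

theorem ch_of_ann {Λ : Finset (Fin n → ZMod 2)} {y : Fin n → ZMod 2} (hy : y ∈ ann Λ) (h : Fin n → ZMod 2)
    (hh : h ∈ Λ) : ch h y = 1 := by
  have h1 : dotProduct h y = 0 := hy h hh
  unfold ch
  rw [h1, sgn_zero]

theorem gf_nonneg {P q : (Fin n → ZMod 2) → ℝ} (hP : IsLaw P) (hq : IsLaw q) (S : Finset (Fin n → ZMod 2))
    (z : Fin n → ZMod 2) : 0 ≤ gf P q S z := sum_nonneg fun x _ => mul_nonneg (hP.nonneg x) (Fl_nonneg hq S _)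

/-- **the main theorem over `F₂`** -/
theorem main (A : Finset (Fin n → ZMod 2)) (hA : A.Nonempty) (hα : (A.card : ℝ) ≤ 2 ^ n / 2) :
    ∃ W : Submodule (ZMod 2) (Fin n → ZMod 2),
      (n : ℝ) - (Module.finrank (ZMod 2) W : ℝ) ≤
        10000000000000 * (Real.log (2 ^ n / A.card) ^ 2 * Real.log (2 + Real.log (2 ^ n / A.card))) ∧
      ∃ z : Fin n → ZMod 2, (7 / 8 : ℝ) * (W : Set (Fin n → ZMod 2)).ncard ≤ {w | w ∈ W ∧ z + w ∈ A + A}.ncard := by
  classical
  have h2n : (0 : ℝ) < 2 ^ n := by positivity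
  have hA0 : (0 : ℝ) < A.card := by exact_mod_cast hA.card_pos
  have hlog2 := Real.log_two_gt_d9
  obtain ⟨K, hK⟩ : ∃ K : ℝ, K = 2 ^ n / A.card := ⟨_, rfl⟩
  obtain ⟨ℓ, hℓ⟩ : ∃ ℓ : ℝ, ℓ = Real.log K := ⟨_, rfl⟩
  rw [← hK, ← hℓ]
  have hK2 : 2 ≤ K := by
    rw [hK, le_div_iff₀ hA0]
    linarith
  have hℓ2 : Real.log 2 ≤ ℓ := by rw [hℓ]; exact Real.log_le_log (by norm_num) hK2
  have hKA : K * A.card = 2 ^ n := by rw [hK]; field_simp
  have hu : (univ : Finset (Fin n → ZMod 2)).Nonempty := univ_nonempty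
  have hcu : ((univ : Finset (Fin n → ZMod 2)).card : ℝ) = 2 ^ n := by
    rw [card_univ]
    simp
  obtain ⟨Λ, hΛ⟩ : ∃ Λ : ℝ, Λ = ℓ + 3 := ⟨_, rfl⟩
  obtain ⟨l, hl⟩ : ∃ l : ℕ, l = ⌈3 * Λ⌉₊ := ⟨_, rfl⟩
  have hl1 : 3 * Λ ≤ l := by rw [hl]; exact Nat.le_ceil _
  have hl2 : (l : ℝ) ≤ 3 * Λ + 1 := by rw [hl]; exact (Nat.ceil_lt_add_one (by linarith)).le
  have hl3 : 1 ≤ l := by
    have : (1 : ℝ) ≤ l := by linarith
    exact_mod_cast this
  have hcard : ((A + A + ((univ : Finset (Fin n → ZMod 2)) - univ)).card : ℝ) ≤ K * A.card := by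
    rw [hKA, ← hcu]
    exact_mod_cast card_le_univ _
  obtain ⟨q, ν, P, hq, hPl, hPs, hP0, -, hPh, hν⟩ := smooth hA hA hu (fun x hx y hy => add_mem_add hx hy) Λ Λ K K
    (by linarith) (by linarith) (by rw [hΛ, hℓ]) (by rw [hΛ, hℓ]) hcard hcard l hl3 (by linarith) (by linarith)
  obtain ⟨D, hD⟩ : ∃ D : ℝ, D = 1280000000 * (Λ * Λ) * (1 + Real.log l) := ⟨_, rfl⟩
  rw [← hD] at hν
  have hνD : ∀ j s, ν j s ≤ Real.exp D / 2 ^ n := by
    intro j s
    refine ((hν j).2 s).trans (le_of_eq ?_)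
    unfold uf
    rw [if_pos (mem_univ s), hcu]
    ring
  obtain ⟨Low, hLow⟩ : ∃ Low : Finset (Fin n → ZMod 2), Low = univ.filter fun g =>
    (l : ℝ) / 2 ≤ ∑ j ∈ range l, |fr (ν j) g| := ⟨_, rfl⟩
  obtain ⟨B, hB, hBind, hBy⟩ := exists_basis Low
  have hBc : (B.card : ℝ) ≤ 8 * D := by
    have h1 : ∑ j ∈ range l, (B.card : ℝ) / 2 ≤ ∑ j ∈ range l, ∑ z ∈ B, |fr (ν j) z| := by
      rw [sum_comm, sum_const, card_range, nsmul_eq_mul]
      calc (l : ℝ) * ((B.card : ℝ) / 2) = ∑ z ∈ B, (l : ℝ) / 2 := by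
            rw [sum_const, nsmul_eq_mul]; ring
        _ ≤ ∑ z ∈ B, ∑ j ∈ range l, |fr (ν j) z| := sum_le_sum fun z hz => by
            have := hB hz
            rw [hLow, mem_filter] at this
            exact this.2
    obtain ⟨j, _, hj⟩ := exists_le_of_sum_le ⟨0, mem_range.2 (by omega)⟩ h1
    exact chang (hν j).1 D (hνD j) B hBind hj
  have htail : ∑ g ∈ Lowᶜ, |cf (P l) q (A + A) g| ≤ 1 / 100 := by
    have h1 : ∀ g ∈ Lowᶜ, |cf (P l) q (A + A) g| ≤ |cf (P 0) q (A + A) g| * (1 / 4) ^ l := by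
      intro g hg
      rw [mem_compl, hLow, mem_filter, not_and] at hg
      have hg' := hg (mem_univ _)
      push Not at hg'
      have h2 := prod_le (fun j => |fr (ν j) g|) (fun j => abs_nonneg _) l hg'.le
      have h3 : cf (P l) q (A + A) g = (∏ j ∈ range l, |fr (ν j) g| ^ 2) * cf (P 0) q (A + A) g := by
        unfold cf
        rw [fr_iter ν P hPs l g]
        ring
      have h4 : 0 ≤ ∏ j ∈ range l, |fr (ν j) g| ^ 2 := prod_nonneg fun j _ => by positivity
      rw [h3, abs_mul, abs_of_nonneg h4, mul_comm]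
      exact mul_le_mul_of_nonneg_left h2 (abs_nonneg _)
    refine (sum_le_sum h1).trans ?_
    rw [← sum_mul]
    have h5 : ∑ g ∈ Lowᶜ, |cf (P 0) q (A + A) g| ≤ Real.exp (5 * Λ / 2) := by
      refine (sum_le_sum_of_subset_of_nonneg (subset_univ _) fun _ _ _ => abs_nonneg _).trans
        ((cf_norm (hPl 0) hq (A + A) _ hP0).trans ?_)
      rw [Real.sqrt_le_left (Real.exp_pos _).le, ← Real.exp_nat_mul]
      have h6 : ((A + A).card : ℝ) ≤ Real.exp Λ * A.card := by
        have h7 : ((A + A).card : ℝ) ≤ 2 ^ n := by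
          rw [← hcu]
          exact_mod_cast card_le_univ _
        refine h7.trans ?_
        rw [← hKA]
        refine mul_le_mul_of_nonneg_right ?_ hA0.le
        have h8 : K = Real.exp ℓ := by rw [hℓ, Real.exp_log (by linarith)]
        rw [h8]
        exact Real.exp_le_exp.2 (by linarith)
      calc Real.exp (4 * Λ) / A.card * (A + A).card ≤ Real.exp (4 * Λ) / A.card * (Real.exp Λ * A.card) := by gcongr
        _ = Real.exp (4 * Λ) * Real.exp Λ := by field_simp
        _ = Real.exp ((2 : ℕ) * (5 * Λ / 2)) := by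
            rw [← Real.exp_add]
            congr 1
            push_cast
            ring
    have h6 : (0 : ℝ) < 4 ^ l := by positivity
    have h7 : 100 * Real.exp (5 * Λ / 2) ≤ 4 ^ l := by
      have h2 : (4 : ℝ) ^ l = Real.exp (l * Real.log 4) := by
        rw [mul_comm, Real.exp_mul, Real.exp_log (by norm_num), Real.rpow_natCast]
      have h3 : Real.log 4 = 2 * Real.log 2 := by
        rw [show (4 : ℝ) = 2 ^ 2 by norm_num, Real.log_pow]; norm_num
      have h4 : (100 : ℝ) ≤ Real.exp 4.95 := by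
        have h4 : Real.exp 4.95 = Real.exp 1 ^ 5 * Real.exp (-0.05) := by
          rw [← Real.exp_nat_mul, ← Real.exp_add]; norm_num
        rw [h4]
        have h5 := Real.exp_one_gt_d9
        have h6 : 0.95 ≤ Real.exp (-0.05) := by
          have := Real.add_one_le_exp (-0.05 : ℝ)
          linarith
        calc (100 : ℝ) ≤ 2.7182 ^ 5 * 0.95 := by norm_num
          _ ≤ Real.exp 1 ^ 5 * Real.exp (-0.05) := by gcongr; linarith
      rw [h2, h3]
      calc 100 * Real.exp (5 * Λ / 2) ≤ Real.exp 4.95 * Real.exp (5 * Λ / 2) := by gcongr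
        _ = Real.exp (4.95 + 5 * Λ / 2) := by rw [Real.exp_add]
        _ ≤ Real.exp (l * (2 * Real.log 2)) := by
            apply Real.exp_le_exp.2
            have : (3 * Λ) * (2 * 0.6931) ≤ l * (2 * Real.log 2) := by
              gcongr
              linarith
            have h9 : 3.69 ≤ Λ := by linarith
            linarith
    calc (∑ g ∈ Lowᶜ, |cf (P 0) q (A + A) g|) * (1 / 4) ^ l ≤ Real.exp (5 * Λ / 2) * (1 / 4) ^ l := by gcongr
      _ = Real.exp (5 * Λ / 2) / 4 ^ l := by rw [one_div, inv_pow]; rfl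
      _ ≤ 1 / 100 := by
          rw [div_le_div_iff₀ h6 (by norm_num)]
          linarith
  -- the lower bound on the subspace
  have hg : ∀ y ∈ ann B, 88 / 100 ≤ gf (P l) q (A + A) y := by
    intro y hy
    have h1 : ∀ g ∈ Low, ch g y = 1 := fun g hg => hBy g hg y fun h hh => ch_of_ann hy h hh
    have h2 : gf (P l) q (A + A) 0 - gf (P l) q (A + A) y = ∑ g ∈ Lowᶜ, cf (P l) q (A + A) g * (1 - ch g y) := by
      rw [gf_eq, gf_eq, ← sum_sub_distrib, ← sum_add_sum_compl Low]
      have h3 : ∑ g ∈ Low, (cf (P l) q (A + A) g * ch g 0 - cf (P l) q (A + A) g * ch g y) = 0 :=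
        sum_eq_zero fun g hg => by rw [h1 g hg, ch_zero, sub_self]
      rw [h3, zero_add]
      refine sum_congr rfl fun g _ => ?_
      rw [ch_zero]
      ring
    have h3 : gf (P l) q (A + A) 0 - gf (P l) q (A + A) y ≤ 2 * (1 / 100) := by
      rw [h2]
      calc ∑ g ∈ Lowᶜ, cf (P l) q (A + A) g * (1 - ch g y) ≤ ∑ g ∈ Lowᶜ, |cf (P l) q (A + A) g| * 2 := by
            refine sum_le_sum fun g _ => ?_
            have h4 := ch_abs g y
            have h5 := abs_le.1 h4.le
            calc cf (P l) q (A + A) g * (1 - ch g y) ≤ |cf (P l) q (A + A) g| * (1 - ch g y) :=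
                  mul_le_mul_of_nonneg_right (le_abs_self _) (by linarith)
              _ ≤ |cf (P l) q (A + A) g| * 2 := mul_le_mul_of_nonneg_left (by linarith) (abs_nonneg _)
        _ = (∑ g ∈ Lowᶜ, |cf (P l) q (A + A) g|) * 2 := by rw [sum_mul]
        _ ≤ 2 * (1 / 100) := by linarith
    have h4 : gf (P l) q (A + A) 0 = Ph (P l) q (A + A) := by
      unfold gf Ph
      simp_rw [add_zero]
    linarith
  obtain ⟨Wf, hWf⟩ : ∃ Wf : Finset (Fin n → ZMod 2), Wf = univ.filter fun y => y ∈ ann B := ⟨_, rfl⟩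
  have hWfm : ∀ y, y ∈ Wf ↔ y ∈ ann B := fun y => by
    rw [hWf, mem_filter]
    exact ⟨fun h => h.2, fun h => ⟨mem_univ _, h⟩⟩
  have hWs : ((ann B : Submodule (ZMod 2) (Fin n → ZMod 2)) : Set (Fin n → ZMod 2)) = (Wf : Set (Fin n → ZMod 2)) := by
    ext y
    rw [Finset.mem_coe, hWfm]
    rfl
  have hWf0 : (0 : ℝ) < Wf.card := by
    have : 0 ∈ Wf := (hWfm 0).2 (Submodule.zero_mem _)
    exact_mod_cast card_pos.2 ⟨0, this⟩
  refine ⟨ann B, (ann_finrank B).trans (hBc.trans ?_), ?_⟩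
  · -- the numbers
    have h1 : Λ ≤ 6 * ℓ := by linarith
    have h2 : Real.log l ≤ 3 + Real.log (2 + ℓ) := by
      have h3 : (l : ℝ) ≤ 10 * (2 + ℓ) := by linarith
      have h4 : Real.log l ≤ Real.log (10 * (2 + ℓ)) := Real.log_le_log (by exact_mod_cast hl3) h3
      rw [Real.log_mul (by norm_num) (by linarith)] at h4
      have h5 : Real.log 10 ≤ 3 := by
        rw [Real.log_le_iff_le_exp (by norm_num)]
        have h6 : Real.exp 3 = Real.exp 1 ^ 3 := by rw [← Real.exp_nat_mul]; norm_num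
        rw [h6]
        have h7 := Real.exp_one_gt_d9
        calc (10 : ℝ) ≤ 2.7 ^ 3 := by norm_num
          _ ≤ Real.exp 1 ^ 3 := by gcongr; linarith
      linarith
    have h3 : Real.log 2 ≤ Real.log (2 + ℓ) := Real.log_le_log (by norm_num) (by linarith)
    have h4 : 1 + Real.log l ≤ 8 * Real.log (2 + ℓ) := by linarith
    have h5 : 0 ≤ 1 + Real.log l := by
      have : 0 ≤ Real.log l := Real.log_nonneg (by exact_mod_cast hl3)
      linarith
    have hℓ0 : 0 ≤ ℓ := by linarith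
    have hΛ0 : 0 ≤ Λ := by linarith
    have h6 : 0 ≤ ℓ ^ 2 * Real.log (2 + ℓ) := by
      have : 0 ≤ Real.log (2 + ℓ) := by linarith
      positivity
    rw [hD]
    calc 8 * (1280000000 * (Λ * Λ) * (1 + Real.log l))
        ≤ 8 * (1280000000 * ((6 * ℓ) * (6 * ℓ)) * (8 * Real.log (2 + ℓ))) := by gcongr
      _ = 2949120000000 * (ℓ ^ 2 * Real.log (2 + ℓ)) := by ring
      _ ≤ 10000000000000 * (ℓ ^ 2 * Real.log (2 + ℓ)) := by linarith
  · by_contra hcon
    push Not at hcon
    have h1 : ∀ z : Fin n → ZMod 2, ((Wf.filter fun w => z + w ∈ A + A).card : ℝ) ≤ 7 / 8 * Wf.card := by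
      intro z
      have h2 := hcon z
      rw [hWs, Set.ncard_coe_finset] at h2
      have h3 : {w | w ∈ ann B ∧ z + w ∈ A + A} = ((Wf.filter fun w => z + w ∈ A + A : Finset (Fin n → ZMod 2)) :
          Set (Fin n → ZMod 2)) := by
        ext w
        rw [Finset.mem_coe, mem_filter, hWfm]
        rfl
      rw [h3, Set.ncard_coe_finset] at h2
      exact h2.le
    have h2 : ∑ y ∈ Wf, gf (P l) q (A + A) y ≤ 7 / 8 * Wf.card := by
      unfold gf Fl
      rw [sum_comm]
      have h3 : ∀ x, ∑ y ∈ Wf, P l x * ∑ b, q b * (if x + y + b ∈ A + A then (1 : ℝ) else 0) ≤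
          P l x * (7 / 8 * Wf.card) := by
        intro x
        rw [← mul_sum]
        refine mul_le_mul_of_nonneg_left ?_ ((hPl l).nonneg x)
        rw [sum_comm]
        have h4 : ∀ b, ∑ y ∈ Wf, q b * (if x + y + b ∈ A + A then (1 : ℝ) else 0) ≤ q b * (7 / 8 * Wf.card) := by
          intro b
          rw [← mul_sum]
          refine mul_le_mul_of_nonneg_left ?_ (hq.nonneg b)
          refine le_trans (le_of_eq ?_) (h1 (x + b))
          rw [sum_boole]
          congr 2
          refine filter_congr fun y _ => ?_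
          rw [show x + y + b = x + b + y by abel]
        refine (sum_le_sum fun b _ => h4 b).trans (le_of_eq ?_)
        rw [← sum_mul, hq.sum_one, one_mul]
      refine (sum_le_sum fun x _ => h3 x).trans (le_of_eq ?_)
      rw [← sum_mul, (hPl l).sum_one, one_mul]
    have h3 : 88 / 100 * (Wf.card : ℝ) ≤ ∑ y ∈ Wf, gf (P l) q (A + A) y := by
      calc 88 / 100 * (Wf.card : ℝ) = ∑ y ∈ Wf, (88 / 100 : ℝ) := by rw [sum_const, nsmul_eq_mul]; ring
        _ ≤ _ := sum_le_sum fun y hy => hg y ((hWfm y).1 hy)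
    linarith

end Pool.Agent.V8H19.AP.F2
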