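import Pool.Agent.V8H19.AP.Kernel
import Pool.Agent.V8H19.AP.Chain

/-!
# The Fourier step with an absolute tolerance

Let `g : ℤ/N → [0, 1]` have Fourier coefficients of absolute sum `≤ K`, and let all differences of `T` be `η`-almost
periods of `g`. If `4 ^ l ≥ 100 K` then `|g y - g 0| ≤ 2 l η + 8 δ + 1/50` for all `y` such that `‖ψ (γ y) - 1‖ ≤ δ` for
the `γ` in the large spectrum of `T`: the tolerance `δ` does not depend on `K`.
-/

set_option autoImplicit false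
set_option linter.unusedSectionVars false

namespace Pool.Agent.V8H19.AP

open Finset Pool.Agent.TH858
open Pool.Agent.N142.CD (ψ)
open Pool.Agent.N142.CD.FOU (psi_norm psi_add ortho hh hh_norm_le hh_mul_neg ww ww_nonneg ww_le_one parseval ind_eq)
open scoped Pointwise

variable {N : ℕ} [NeZero N]

/-- the iterated averages of `g` -/
noncomputable def ga (g : ZMod N → ℝ) (T : Finset (ZMod N)) : ℕ → ZMod N → ℝ
  | 0, y => g y
  | j + 1, y => (∑ s ∈ T, ∑ s' ∈ T, ga g T j (y + s - s')) / (T.card : ℝ) ^ 2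

theorem ga_bd (g : ZMod N → ℝ) (T : Finset (ZMod N)) (hT : T.Nonempty) (h0 : ∀ y, 0 ≤ g y) (h1 : ∀ y, g y ≤ 1)
    (j : ℕ) : ∀ y, 0 ≤ ga g T j y ∧ ga g T j y ≤ 1 := by
  have hT0 : (0 : ℝ) < (T.card : ℝ) ^ 2 := by
    have : (0 : ℝ) < T.card := by exact_mod_cast hT.card_pos
    positivity
  induction j with
  | zero => exact fun y => ⟨h0 y, h1 y⟩
  | succ j ih =>
    intro y
    simp only [ga]
    constructor
    · exact div_nonneg (sum_nonneg fun s _ => sum_nonneg fun s' _ => (ih _).1) hT0.le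
    · rw [div_le_one hT0]
      calc ∑ s ∈ T, ∑ s' ∈ T, ga g T j (y + s - s') ≤ ∑ s ∈ T, ∑ s' ∈ T, (1 : ℝ) :=
            sum_le_sum fun s _ => sum_le_sum fun s' _ => (ih _).2
        _ = (T.card : ℝ) ^ 2 := by
            rw [sum_const, sum_const, nsmul_eq_mul, nsmul_eq_mul]
            ring

theorem ga_eq (g : ZMod N → ℝ) (c : ZMod N → ℂ) (T : Finset (ZMod N))
    (hc : ∀ y, ((g y : ℝ) : ℂ) = ∑ γ, c γ * ψ (γ * y)) (j : ℕ) : ∀ y : ZMod N,
    ((ga g T j y : ℝ) : ℂ) = ∑ γ : ZMod N, c γ * ((ww T γ : ℝ) : ℂ) ^ j * ψ (γ * y) := by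
  induction j with
  | zero =>
    intro y
    simp only [ga, pow_zero, mul_one]
    exact hc y
  | succ j ih =>
    intro y
    simp only [ga]
    push_cast
    simp_rw [ih]
    have h2 : ∑ s ∈ T, ∑ s' ∈ T, ∑ γ : ZMod N, c γ * ((ww T γ : ℝ) : ℂ) ^ j * ψ (γ * (y + s - s')) =
        ∑ γ : ZMod N, c γ * ((ww T γ : ℝ) : ℂ) ^ j * ψ (γ * y) * ((‖hh T γ‖ ^ 2 : ℝ) : ℂ) := by
      calc ∑ s ∈ T, ∑ s' ∈ T, ∑ γ : ZMod N, c γ * ((ww T γ : ℝ) : ℂ) ^ j * ψ (γ * (y + s - s'))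
          = ∑ s ∈ T, ∑ γ : ZMod N, ∑ s' ∈ T, c γ * ((ww T γ : ℝ) : ℂ) ^ j * ψ (γ * (y + s - s')) :=
            sum_congr rfl fun x _ => sum_comm
        _ = ∑ γ : ZMod N, ∑ s ∈ T, ∑ s' ∈ T, c γ * ((ww T γ : ℝ) : ℂ) ^ j * ψ (γ * (y + s - s')) := sum_comm
        _ = _ := by
            refine sum_congr rfl fun γ _ => ?_
            rw [← hh_mul_neg]
            have e : hh T γ * hh T (-γ) = ∑ s ∈ T, ∑ s' ∈ T, ψ (γ * s) * ψ (-γ * s') := by
              unfold hh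
              rw [sum_mul_sum]
            rw [e, mul_sum]
            refine sum_congr rfl fun s _ => ?_
            rw [mul_sum]
            refine sum_congr rfl fun s' _ => ?_
            have e2 : γ * (y + s - s') = γ * y + γ * s + -γ * s' := by ring
            rw [e2, psi_add, psi_add]
            ring
    rw [h2, sum_div]
    refine sum_congr rfl fun γ _ => ?_
    rw [pow_succ]
    unfold ww
    push_cast
    ring

theorem ga_step (g : ZMod N → ℝ) (T : Finset (ZMod N)) (hT : T.Nonempty) (η : ℝ)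
    (h : ∀ s ∈ T, ∀ s' ∈ T, ∀ y : ZMod N, |g (y + s - s') - g y| ≤ η) (j : ℕ) :
    ∀ y, |ga g T (j + 1) y - ga g T j y| ≤ η := by
  have hT0 : (0 : ℝ) < (T.card : ℝ) ^ 2 := by
    have : (0 : ℝ) < T.card := by exact_mod_cast hT.card_pos
    positivity
  have avg : ∀ (F : ZMod N → ZMod N → ℝ) (y : ZMod N), (∀ s ∈ T, ∀ s' ∈ T, |F s s'| ≤ η) →
      |(∑ s ∈ T, ∑ s' ∈ T, F s s') / (T.card : ℝ) ^ 2| ≤ η := by
    intro F y hF
    rw [abs_div, abs_of_pos hT0, div_le_iff₀ hT0]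
    calc |∑ s ∈ T, ∑ s' ∈ T, F s s'| ≤ ∑ s ∈ T, |∑ s' ∈ T, F s s'| := abs_sum_le_sum_abs _ _
      _ ≤ ∑ s ∈ T, ∑ s' ∈ T, |F s s'| := sum_le_sum fun s _ => abs_sum_le_sum_abs _ _
      _ ≤ ∑ s ∈ T, ∑ s' ∈ T, η := sum_le_sum fun s hs => sum_le_sum fun s' hs' => hF s hs s' hs'
      _ = η * (T.card : ℝ) ^ 2 := by
          rw [sum_const, sum_const, nsmul_eq_mul, nsmul_eq_mul]
          ring
  have hconst : ∀ c : ℝ, (∑ _s ∈ T, ∑ _s' ∈ T, c) / (T.card : ℝ) ^ 2 = c := by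
    intro c
    rw [sum_const, sum_const, nsmul_eq_mul, nsmul_eq_mul, ← mul_assoc, ← pow_two, mul_comm, mul_div_assoc,
      div_self hT0.ne', mul_one]
  induction j with
  | zero =>
    intro y
    have e : ga g T (0 + 1) y - ga g T 0 y =
        (∑ s ∈ T, ∑ s' ∈ T, (g (y + s - s') - g y)) / (T.card : ℝ) ^ 2 := by
      simp only [ga]
      simp_rw [sum_sub_distrib]
      rw [sub_div]
      congr 1
      exact (hconst (g y)).symm
    rw [e]
    exact avg _ y fun s hs s' hs' => h s hs s' hs' y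
  | succ j ih =>
    intro y
    have e : ga g T (j + 1 + 1) y - ga g T (j + 1) y =
        (∑ s ∈ T, ∑ s' ∈ T, (ga g T (j + 1) (y + s - s') - ga g T j (y + s - s'))) / (T.card : ℝ) ^ 2 := by
      simp_rw [sum_sub_distrib]
      rw [sub_div]
      rfl
    rw [e]
    exact avg _ y fun s hs s' hs' => ih _

theorem ga_diff (g : ZMod N → ℝ) (T : Finset (ZMod N)) (hT : T.Nonempty) (η : ℝ)
    (h : ∀ s ∈ T, ∀ s' ∈ T, ∀ y : ZMod N, |g (y + s - s') - g y| ≤ η) (l : ℕ) (y : ZMod N) :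
    |ga g T l y - g y| ≤ l * η := by
  induction l with
  | zero => simp [ga]
  | succ l ih =>
    have h1 := ga_step g T hT η h l y
    calc |ga g T (l + 1) y - g y|
        = |(ga g T (l + 1) y - ga g T l y) + (ga g T l y - g y)| := by ring_nf
      _ ≤ |ga g T (l + 1) y - ga g T l y| + |ga g T l y - g y| := abs_add_le _ _
      _ ≤ η + l * η := add_le_add h1 ih
      _ = ((l + 1 : ℕ) : ℝ) * η := by push_cast; ring

/-- the comparison of `g y` and `g 0` -/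
theorem four (g : ZMod N → ℝ) (c : ZMod N → ℂ) (K : ℝ) (h0 : ∀ y, 0 ≤ g y) (h1 : ∀ y, g y ≤ 1)
    (hc : ∀ y, ((g y : ℝ) : ℂ) = ∑ γ, c γ * ψ (γ * y)) (hK : ∑ γ, ‖c γ‖ ≤ K)
    (T : Finset (ZMod N)) (hT : T.Nonempty) (η : ℝ)
    (h : ∀ s ∈ T, ∀ s' ∈ T, ∀ y : ZMod N, |g (y + s - s') - g y| ≤ η) (l : ℕ) (hl : 100 * K ≤ 4 ^ l)
    (δ : ℝ) (hδ : 0 ≤ δ) (y : ZMod N)
    (hy : ∀ γ : ZMod N, (T.card : ℝ) / 2 ≤ ‖∑ t ∈ T, ψ (γ * t)‖ → ‖ψ (γ * y) - 1‖ ≤ δ) :
    |g y - g 0| ≤ 2 * (l * η) + 8 * δ + 1 / 50 := by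
  classical
  have hT0 : (0 : ℝ) < T.card := by exact_mod_cast hT.card_pos
  obtain ⟨κ, hκ1, hκ2⟩ := exists_ker N δ hδ
  -- the part of the sum outside of the spectrum
  obtain ⟨Sp, hSp⟩ : ∃ Sp : Finset (ZMod N), Sp = univ.filter fun γ => (T.card : ℝ) / 2 ≤ ‖∑ t ∈ T, ψ (γ * t)‖ :=
    ⟨_, rfl⟩
  obtain ⟨A, hA⟩ : ∃ A : ZMod N → ℂ, A = fun z => ∑ γ ∈ Sp, c γ * ((ww T γ : ℝ) : ℂ) ^ l * ψ (γ * z) := ⟨_, rfl⟩
  obtain ⟨E, hE⟩ : ∃ E : ZMod N → ℂ, E = fun z => ∑ γ ∈ Spᶜ, c γ * ((ww T γ : ℝ) : ℂ) ^ l * ψ (γ * z) := ⟨_, rfl⟩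
  have hAE : ∀ z, ((ga g T l z : ℝ) : ℂ) = A z + E z := by
    intro z
    rw [ga_eq g c T hc l z, hA, hE]
    exact (sum_add_sum_compl Sp _).symm
  have hEb : ∀ z, ‖E z‖ ≤ 1 / 100 := by
    intro z
    rw [hE]
    refine (norm_sum_le _ _).trans ?_
    have hb : ∀ γ ∈ Spᶜ, ‖c γ * ((ww T γ : ℝ) : ℂ) ^ l * ψ (γ * z)‖ ≤ ‖c γ‖ * (1 / 4) ^ l := by
      intro γ hγ
      rw [mem_compl, hSp, mem_filter, not_and] at hγ
      have hγ' := hγ (mem_univ _)
      push Not at hγ'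
      have h4 : ww T γ ≤ 1 / 4 := by
        unfold ww
        rw [div_le_iff₀ (by positivity)]
        have h5 : ‖hh T γ‖ ≤ (T.card : ℝ) / 2 := hγ'.le
        calc ‖hh T γ‖ ^ 2 ≤ ((T.card : ℝ) / 2) ^ 2 := pow_le_pow_left₀ (norm_nonneg _) h5 2
          _ = _ := by ring
      rw [norm_mul, norm_mul, norm_pow, psi_norm, mul_one, Complex.norm_real, Real.norm_of_nonneg (ww_nonneg T γ)]
      exact mul_le_mul_of_nonneg_left (pow_le_pow_left₀ (ww_nonneg T γ) h4 l) (norm_nonneg _)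
    refine (sum_le_sum hb).trans ?_
    rw [← sum_mul]
    have h5 : ∑ γ ∈ Spᶜ, ‖c γ‖ ≤ K :=
      (sum_le_sum_of_subset_of_nonneg (subset_univ _) fun _ _ _ => norm_nonneg _).trans hK
    have h6 : (0 : ℝ) < 4 ^ l := by positivity
    calc (∑ γ ∈ Spᶜ, ‖c γ‖) * (1 / 4) ^ l ≤ K * (1 / 4) ^ l := by gcongr
      _ = K / 4 ^ l := by rw [one_div, inv_pow]; rfl
      _ ≤ 1 / 100 := by
          rw [div_le_div_iff₀ h6 (by norm_num)]
          linarith
  have hga := ga_bd g T hT h0 h1 l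
  have hAb : ∀ z, ‖A z‖ ≤ 101 / 100 := by
    intro z
    have e : A z = ((ga g T l z : ℝ) : ℂ) - E z := by rw [hAE]; ring
    rw [e]
    refine (norm_sub_le _ _).trans ?_
    rw [Complex.norm_real, Real.norm_of_nonneg (hga z).1]
    linarith [(hga z).2, hEb z]
  have hA0 : A y - A 0 = ∑ n, κ n * A (n * y) := by
    have e1 : A y - A 0 = ∑ γ ∈ Sp, c γ * ((ww T γ : ℝ) : ℂ) ^ l * (ψ (γ * y) - 1) := by
      rw [hA]
      simp only
      rw [← sum_sub_distrib]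
      refine sum_congr rfl fun γ _ => ?_
      have : ψ (γ * (0 : ZMod N)) = 1 := by
        rw [mul_zero]
        exact AddChar.map_zero_eq_one _
      rw [this]
      ring
    rw [e1]
    have e2 : ∀ γ ∈ Sp, c γ * ((ww T γ : ℝ) : ℂ) ^ l * (ψ (γ * y) - 1) =
        ∑ n, κ n * (c γ * ((ww T γ : ℝ) : ℂ) ^ l * ψ (γ * (n * y))) := by
      intro γ hγ
      rw [hSp, mem_filter] at hγ
      rw [← hκ2 (γ * y) (hy γ hγ.2), mul_sum]
      refine sum_congr rfl fun n _ => ?_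
      have : n * (γ * y) = γ * (n * y) := by ring
      rw [this]
      ring
    rw [sum_congr rfl e2, sum_comm]
    refine sum_congr rfl fun n _ => ?_
    rw [hA]
    simp only
    rw [mul_sum]
  have hAd : ‖A y - A 0‖ ≤ 8 * δ := by
    rw [hA0]
    refine (norm_sum_le _ _).trans ?_
    have : ∀ n ∈ (univ : Finset (ZMod N)), ‖κ n * A (n * y)‖ ≤ ‖κ n‖ * (101 / 100) := by
      intro n _
      rw [norm_mul]
      exact mul_le_mul_of_nonneg_left (hAb _) (norm_nonneg _)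
    refine (sum_le_sum this).trans ?_
    rw [← sum_mul]
    nlinarith
  have hgd : |ga g T l y - ga g T l 0| ≤ 8 * δ + 1 / 50 := by
    have e : ((ga g T l y - ga g T l 0 : ℝ) : ℂ) = (A y - A 0) + (E y - E 0) := by
      push_cast
      rw [hAE, hAE]
      ring
    have h2 : ‖((ga g T l y - ga g T l 0 : ℝ) : ℂ)‖ ≤ 8 * δ + 1 / 50 := by
      rw [e]
      refine (norm_add_le _ _).trans ?_
      have h3 := norm_sub_le (E y) (E 0)
      linarith [hEb y, hEb 0]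
    rwa [Complex.norm_real, Real.norm_eq_abs] at h2
  have h2 := ga_diff g T hT η h l y
  have h3 := ga_diff g T hT η h l 0
  have a1 := abs_le.1 h2
  have a2 := abs_le.1 h3
  have a3 := abs_le.1 hgd
  rw [abs_le]
  constructor <;> linarith [a1.1, a1.2, a2.1, a2.2, a3.1, a3.2]

/-- the Fourier coefficients of `Gl h X S` -/
noncomputable def cG (h : ZMod N → ℝ) (X S : Finset (ZMod N)) (γ : ZMod N) : ℂ :=
  (∑ b, (h b : ℂ) * ψ (γ * b)) * hh X γ * hh S (-γ) / (N * X.card)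

theorem Gl_eq (h : ZMod N → ℝ) (X S : Finset (ZMod N)) (y : ZMod N) :
    ((Gl h X S y : ℝ) : ℂ) = ∑ γ : ZMod N, cG h X S γ * ψ (γ * y) := by
  have h1 : ((Gl h X S y : ℝ) : ℂ) =
      (∑ x ∈ X, ∑ b, (h b : ℂ) * (if x + y + b ∈ S then (1 : ℂ) else 0)) / (X.card : ℂ) := by
    unfold Gl Fl
    push_cast
    congr 1
    refine sum_congr rfl fun x _ => sum_congr rfl fun b _ => ?_
    split_ifs <;> simp
  rw [h1]
  simp_rw [ind_eq]
  have h2 : ∑ x ∈ X, ∑ b, (h b : ℂ) * ((∑ γ : ZMod N, hh S (-γ) * ψ (γ * (x + y + b))) / N) =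
      ∑ γ : ZMod N, (∑ b, (h b : ℂ) * ψ (γ * b)) * hh X γ * hh S (-γ) / N * ψ (γ * y) := by
    calc ∑ x ∈ X, ∑ b, (h b : ℂ) * ((∑ γ : ZMod N, hh S (-γ) * ψ (γ * (x + y + b))) / N)
        = ∑ x ∈ X, ∑ b, ∑ γ : ZMod N, (h b : ℂ) * (hh S (-γ) * ψ (γ * (x + y + b)) / N) := by
          refine sum_congr rfl fun x _ => sum_congr rfl fun b _ => ?_
          rw [sum_div, mul_sum]
      _ = ∑ x ∈ X, ∑ γ : ZMod N, ∑ b, (h b : ℂ) * (hh S (-γ) * ψ (γ * (x + y + b)) / N) :=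
          sum_congr rfl fun x _ => sum_comm
      _ = ∑ γ : ZMod N, ∑ x ∈ X, ∑ b, (h b : ℂ) * (hh S (-γ) * ψ (γ * (x + y + b)) / N) := sum_comm
      _ = _ := by
          refine sum_congr rfl fun γ _ => ?_
          have e : (∑ b, (h b : ℂ) * ψ (γ * b)) * hh X γ = ∑ x ∈ X, ∑ b, (h b : ℂ) * ψ (γ * b) * ψ (γ * x) := by
            unfold hh
            rw [mul_comm, sum_mul_sum]
            refine sum_congr rfl fun x _ => sum_congr rfl fun b _ => ?_
            ring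
          rw [e, sum_mul, sum_div, sum_mul]
          refine sum_congr rfl fun x _ => ?_
          rw [sum_mul, sum_div, sum_mul]
          refine sum_congr rfl fun b _ => ?_
          have e2 : γ * (x + y + b) = γ * x + γ * b + γ * y := by ring
          rw [e2, psi_add, psi_add]
          ring
  rw [h2, sum_div]
  refine sum_congr rfl fun γ _ => ?_
  unfold cG
  rw [← div_div]
  ring

theorem cG_norm {h : ZMod N → ℝ} (hh' : IsLaw h) (X S : Finset (ZMod N)) (hX : X.Nonempty) (K : ℝ) (hK : 1 ≤ K)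
    (hS : (S.card : ℝ) ≤ K * X.card) : ∑ γ : ZMod N, ‖cG h X S γ‖ ≤ K := by
  have hN : (0 : ℝ) < N := by exact_mod_cast NeZero.pos N
  have hX0 : (0 : ℝ) < X.card := by exact_mod_cast hX.card_pos
  have hb : ∀ γ : ZMod N, ‖cG h X S γ‖ ≤ ‖hh X γ‖ * ‖hh S (-γ)‖ / (N * X.card) := by
    intro γ
    unfold cG
    rw [norm_div, norm_mul, norm_mul, norm_mul, Complex.norm_natCast, Complex.norm_natCast]
    have h1 : ‖∑ b, (h b : ℂ) * ψ (γ * b)‖ ≤ 1 := by
      refine (norm_sum_le _ _).trans ?_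
      rw [← hh'.sum_one]
      refine sum_le_sum fun b _ => ?_
      rw [norm_mul, psi_norm, mul_one, Complex.norm_real, Real.norm_of_nonneg (hh'.nonneg b)]
    gcongr
    calc ‖∑ b, (h b : ℂ) * ψ (γ * b)‖ * ‖hh X γ‖ ≤ 1 * ‖hh X γ‖ := by gcongr
      _ = _ := one_mul _
  have hpS : ∑ γ : ZMod N, ‖hh S (-γ)‖ ^ 2 = N * S.card := by
    rw [← parseval S]
    exact Fintype.sum_equiv (Equiv.neg _) _ _ fun γ => rfl
  have hcs := Real.sum_mul_le_sqrt_mul_sqrt univ (fun γ : ZMod N => ‖hh X γ‖) fun γ => ‖hh S (-γ)‖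
  rw [parseval X, hpS, ← Real.sqrt_mul (by positivity)] at hcs
  have h2 : Real.sqrt (N * X.card * (N * S.card)) ≤ K * (N * X.card) := by
    rw [Real.sqrt_le_left (by positivity)]
    calc (N : ℝ) * X.card * (N * S.card) ≤ N * X.card * (N * (K * X.card)) := by gcongr
      _ = K * (N * X.card) ^ 2 := by ring
      _ ≤ K * K * (N * X.card) ^ 2 := by
          gcongr
          nlinarith
      _ = _ := by ring
  calc ∑ γ : ZMod N, ‖cG h X S γ‖ ≤ ∑ γ : ZMod N, ‖hh X γ‖ * ‖hh S (-γ)‖ / (N * X.card) :=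
        sum_le_sum fun γ _ => hb γ
    _ = (∑ γ : ZMod N, ‖hh X γ‖ * ‖hh S (-γ)‖) / (N * X.card) := by rw [sum_div]
    _ ≤ K * (N * X.card) / (N * X.card) := by gcongr; exact hcs.trans h2
    _ = K := by field_simp

theorem Gl_nonneg {h : ZMod N → ℝ} (hh' : IsLaw h) (X S : Finset (ZMod N)) (y : ZMod N) : 0 ≤ Gl h X S y := by
  unfold Gl
  exact div_nonneg (sum_nonneg fun x _ => Fl_nonneg hh' S _) (Nat.cast_nonneg _)

theorem Gl_le_one {h : ZMod N → ℝ} (hh' : IsLaw h) (X S : Finset (ZMod N)) (hX : X.Nonempty) (y : ZMod N) :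
    Gl h X S y ≤ 1 := by
  have hX0 : (0 : ℝ) < X.card := by exact_mod_cast hX.card_pos
  unfold Gl
  rw [div_le_one hX0]
  calc ∑ x ∈ X, Fl h S (x + y) ≤ ∑ _x ∈ X, (1 : ℝ) := sum_le_sum fun x _ => Fl_le_one hh' S _
    _ = X.card := by rw [sum_const, nsmul_eq_mul, mul_one]

theorem Gl_zero (X Y : Finset (ZMod N)) (hX : X.Nonempty) (hY : Y.Nonempty) : Gl (uf Y) X (X + Y) 0 = 1 := by
  have hX0 : (X.card : ℝ) ≠ 0 := by exact_mod_cast hX.card_pos.ne'
  have hu := isLaw_uf hY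
  unfold Gl
  have e : ∀ x ∈ X, Fl (uf Y) (X + Y) (x + 0) = 1 := by
    intro x hx
    unfold Fl
    refine (sum_congr rfl fun b _ => ?_).trans hu.sum_one
    by_cases hb : b ∈ Y
    · rw [if_pos, mul_one]
      rw [add_zero]
      exact add_mem_add hx hb
    · have : uf Y b = 0 := by unfold uf; rw [if_neg hb]
      rw [this, zero_mul]
  rw [sum_congr rfl e, sum_const, nsmul_eq_mul, mul_one, div_self hX0]

theorem Gl_pos (X Y S : Finset (ZMod N)) (y : ZMod N) (h : 0 < Gl (uf Y) X S y) :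
    ∃ x ∈ X, ∃ b ∈ Y, x + y + b ∈ S := by
  by_contra hcon
  push Not at hcon
  have : Gl (uf Y) X S y = 0 := by
    unfold Gl Fl
    rw [sum_eq_zero, zero_div]
    intro x hx
    rw [sum_eq_zero]
    intro b _
    by_cases hb : b ∈ Y
    · rw [if_neg (hcon x hx b hb), mul_zero]
    · have : uf Y b = 0 := by unfold uf; rw [if_neg hb]
      rw [this, zero_mul]
  rw [this] at h
  exact lt_irrefl _ h

end Pool.Agent.V8H19.AP
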