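import Pool.Agent.TH858.GP.Two
import Pool.Agent.N142.CD.FOU

/-!
# A kernel for `ψ - 1` near `0`

There is a function `κ` on `ℤ/N` with `∑ ‖κ n‖ ≤ 7 δ` and `∑ κ n ψ (n a) = ψ a - 1` for all `a` with
`‖ψ a - 1‖ ≤ δ`. This replaces the trivial estimate of a sum over the large spectrum by the supremum of the
function, as in the inequality of Bernstein.
-/

set_option autoImplicit false

namespace Pool.Agent.V8H19.AP

open Finset Pool.Agent.TH858
open Pool.Agent.N142.CD (ψ)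
open Pool.Agent.N142.CD.FOU (psi_norm psi_add ortho)

variable {N : ℕ} [NeZero N]

/-- the Fourier transform -/
noncomputable def ftz (f : ZMod N → ℂ) (n : ZMod N) : ℂ := ∑ a, f a * ψ (-(n * a))

theorem psi_zero : ψ (0 : ZMod N) = 1 := GP.ψ_zero

theorem ftz_inv (f : ZMod N → ℂ) (a : ZMod N) : ∑ n, ftz f n * ψ (n * a) = N * f a := by
  unfold ftz
  have e : ∀ n : ZMod N, (∑ b, f b * ψ (-(n * b))) * ψ (n * a) = ∑ b, f b * ψ (n * (a - b)) := by
    intro n
    rw [sum_mul]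
    refine sum_congr rfl fun b _ => ?_
    rw [mul_assoc, ← psi_add]
    congr 2
    ring
  simp_rw [e]
  rw [sum_comm]
  have e2 : ∀ b : ZMod N, ∑ n : ZMod N, f b * ψ (n * (a - b)) = if b = a then N * f a else 0 := by
    intro b
    rw [← mul_sum, ortho]
    by_cases h : b = a
    · rw [if_pos (by rw [h, sub_self]), if_pos h, h]
      ring
    · rw [if_neg (fun h' => h (sub_eq_zero.1 h').symm), if_neg h, mul_zero]
  simp_rw [e2]
  rw [sum_ite_eq' univ a, if_pos (mem_univ _)]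

theorem ftz_conj (f : ZMod N → ℂ) (n : ZMod N) :
    (starRingEnd ℂ) (ftz f n) = ∑ a, (starRingEnd ℂ) (f a) * ψ (n * a) := by
  unfold ftz
  rw [map_sum]
  refine sum_congr rfl fun a _ => ?_
  rw [map_mul]
  congr 1
  have := AddChar.map_neg_eq_conj (ZMod.stdAddChar (N := N)) (n * a)
  change (starRingEnd ℂ) (ψ (-(n * a))) = ψ (n * a)
  rw [show ψ (-(n * a)) = (starRingEnd ℂ) (ψ (n * a)) from this, Complex.conj_conj]

theorem ftz_parseval (f : ZMod N → ℂ) : ∑ n, ‖ftz f n‖ ^ 2 = N * ∑ a, ‖f a‖ ^ 2 := by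
  have h : ((∑ n, ‖ftz f n‖ ^ 2 : ℝ) : ℂ) = ((N * ∑ a, ‖f a‖ ^ 2 : ℝ) : ℂ) := by
    rw [Complex.ofReal_sum]
    have e1 : ∀ n : ZMod N, ((‖ftz f n‖ ^ 2 : ℝ) : ℂ) =
        ∑ a, (starRingEnd ℂ) (f a) * (ftz f n * ψ (n * a)) := by
      intro n
      have : ((‖ftz f n‖ ^ 2 : ℝ) : ℂ) = ftz f n * (starRingEnd ℂ) (ftz f n) := by
        rw [Complex.mul_conj']
        push_cast
        rfl
      rw [this, ftz_conj, mul_sum]
      refine sum_congr rfl fun a _ => ?_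
      ring
    simp_rw [e1]
    rw [sum_comm]
    simp_rw [← mul_sum, ftz_inv]
    push_cast
    rw [mul_sum]
    refine sum_congr rfl fun a _ => ?_
    have : ((‖f a‖ : ℝ) : ℂ) ^ 2 = f a * (starRingEnd ℂ) (f a) := by
      rw [Complex.mul_conj']
    rw [this]
    ring
  exact_mod_cast h

/-- the residues of the integers of absolute value at most `r` -/
noncomputable def II (N : ℕ) (r : ℕ) : Finset (ZMod N) := (Icc (-(r : ℤ)) r).image fun k : ℤ => (k : ZMod N)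

theorem mem_II (r : ℕ) (a : ZMod N) : a ∈ II N r ↔ ∃ k : ℤ, |k| ≤ r ∧ (k : ZMod N) = a := by
  unfold II
  rw [mem_image]
  constructor
  · rintro ⟨k, hk, h⟩
    rw [mem_Icc] at hk
    exact ⟨k, abs_le.2 hk, h⟩
  · rintro ⟨k, hk, h⟩
    exact ⟨k, mem_Icc.2 (abs_le.1 hk), h⟩

theorem II_sub (r : ℕ) (a b : ZMod N) (ha : a ∈ II N r) (hb : b ∈ II N r) : a - b ∈ II N (2 * r) := by
  rw [mem_II] at ha hb ⊢
  obtain ⟨k, hk, rfl⟩ := ha
  obtain ⟨k', hk', rfl⟩ := hb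
  refine ⟨k - k', ?_, by push_cast; ring⟩
  rw [abs_le] at hk hk' ⊢
  push_cast
  constructor <;> omega

theorem II_card (r : ℕ) : (II N (2 * r)).card ≤ 2 * (II N r).card := by
  have h1 : II N (2 * r) ⊆ (II N r).image (fun a => a - (r : ZMod N)) ∪ (II N r).image fun a => a + (r : ZMod N) := by
    intro a ha
    rw [mem_II] at ha
    obtain ⟨k, hk, rfl⟩ := ha
    rw [abs_le] at hk
    push_cast at hk
    rw [mem_union, mem_image, mem_image]
    rcases le_total k 0 with h | h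
    · left
      refine ⟨((k + r : ℤ) : ZMod N), ?_, by push_cast; ring⟩
      rw [mem_II]
      exact ⟨k + r, by rw [abs_le]; constructor <;> omega, rfl⟩
    · right
      refine ⟨((k - r : ℤ) : ZMod N), ?_, by push_cast; ring⟩
      rw [mem_II]
      exact ⟨k - r, by rw [abs_le]; constructor <;> omega, rfl⟩
  refine (card_le_card h1).trans ((card_union_le _ _).trans ?_)
  have h2 : ((II N r).image fun a => a - (r : ZMod N)).card ≤ (II N r).card := card_image_le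
  have h3 : ((II N r).image fun a => a + (r : ZMod N)).card ≤ (II N r).card := card_image_le
  omega

theorem II_ne (r : ℕ) : (II N r).Nonempty := ⟨0, (mem_II r 0).2 ⟨0, by simp, by simp⟩⟩

theorem nn_le_II (r : ℕ) (a : ZMod N) (ha : a ∈ II N r) : ‖ψ a - 1‖ ≤ 2 * Real.pi * r / N := by
  rw [mem_II] at ha
  obtain ⟨k, hk, rfl⟩ := ha
  have hN : (0 : ℝ) < N := by exact_mod_cast NeZero.pos N
  have h1 := GP.norm_ψ_sub_one_le ((k : ZMod N))
  refine h1.trans ?_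
  rw [mul_div_assoc]
  refine mul_le_mul_of_nonneg_left ?_ (by positivity)
  rw [← CB.nint_eq_nn k (k : ZMod N) rfl]
  unfold CB.nint
  calc |(k : ℝ) / N - ((round ((k : ℝ) / N) : ℤ) : ℝ)| ≤ |(k : ℝ) / N - ((0 : ℤ) : ℝ)| := round_le _ _
    _ = |(k : ℝ)| / N := by
        rw [Int.cast_zero, sub_zero, abs_div, abs_of_pos hN]
    _ ≤ r / N := by
        gcongr
        exact_mod_cast hk

theorem four_mul_nn_le (c : ZMod N) : 4 * CB.nn c ≤ ‖ψ c - 1‖ := by
  obtain ⟨θ, hθ⟩ : ∃ θ : ℝ, θ = (c.val : ℝ) / N + ((-round ((c.val : ℝ) / N) : ℤ) : ℝ) := ⟨_, rfl⟩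
  have hnn : CB.nn c = |θ| := by
    rw [hθ]
    unfold CB.nn CB.nint
    congr 1
    push_cast
    ring
  have h1 : ψ c = Complex.exp (Complex.I * ((2 * Real.pi * θ : ℝ) : ℂ)) := by
    change GP.ψ c = _
    rw [GP.ψ_eq c (-round ((c.val : ℝ) / N)), ← hθ]
    congr 1
    push_cast
    ring
  have hθ2 : |θ| ≤ 1 / 2 := by
    rw [hθ]
    have := abs_sub_round ((c.val : ℝ) / N)
    push_cast
    rwa [← sub_eq_add_neg]
  rw [h1, hnn, Complex.norm_exp_I_mul_ofReal_sub_one]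
  have h2 : (2 * Real.pi * θ) / 2 = Real.pi * θ := by ring
  rw [h2, Real.norm_eq_abs, abs_mul, abs_of_pos (by norm_num : (0:ℝ) < 2)]
  have hpi := Real.pi_pos
  have h3 := Real.mul_abs_le_abs_sin (x := Real.pi * θ) (by
    rw [abs_mul, abs_of_pos hpi]
    nlinarith)
  rw [abs_mul, abs_of_pos hpi] at h3
  have h4 : 2 / Real.pi * (Real.pi * |θ|) = 2 * |θ| := by field_simp
  rw [h4] at h3
  linarith

theorem mem_II_of_small (δ : ℝ) (hδ : 0 ≤ δ) (a : ZMod N) (ha : ‖ψ a - 1‖ ≤ δ) : a ∈ II N ⌊δ * N / 4⌋₊ := by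
  have hN : (0 : ℝ) < N := by exact_mod_cast NeZero.pos N
  have h1 := (four_mul_nn_le a).trans ha
  rw [mem_II]
  refine ⟨(a.val : ℤ) - round ((a.val : ℝ) / N) * N, ?_, by push_cast; simp⟩
  have h2 : (((a.val : ℤ) - round ((a.val : ℝ) / N) * N : ℤ) : ℝ) =
      N * ((a.val : ℝ) / N - ((round ((a.val : ℝ) / N) : ℤ) : ℝ)) := by
    push_cast
    field_simp
  have h3 : |(((a.val : ℤ) - round ((a.val : ℝ) / N) * N : ℤ) : ℝ)| = N * CB.nn a := by
    rw [h2, abs_mul, abs_of_pos hN]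
    rfl
  have h4 : |(((a.val : ℤ) - round ((a.val : ℝ) / N) * N : ℤ) : ℝ)| ≤ δ * N / 4 := by
    rw [h3]
    nlinarith
  rw [← Int.cast_abs, Int.abs_eq_natAbs, Int.cast_natCast] at h4
  rw [Int.abs_eq_natAbs]
  exact_mod_cast Nat.le_floor h4

/-- the kernel -/
noncomputable def ker (N : ℕ) [NeZero N] (r : ℕ) (n : ZMod N) : ℂ :=
  (ftz (fun b => if b ∈ II N r then ψ b else 0) n * ftz (fun c => if c ∈ II N (2 * r) then ψ c - 1 else 0) n +
    ftz (fun b => if b ∈ II N r then ψ b - 1 else 0) n * ftz (fun c => if c ∈ II N (2 * r) then (1 : ℂ) else 0) n) /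
    (N * (II N r).card)

/-- convolution -/
theorem ftz_mul (f g : ZMod N → ℂ) (a : ZMod N) :
    ∑ n, ftz f n * ftz g n * ψ (n * a) = N * ∑ b, f b * g (a - b) := by
  have e1 : ∀ n : ZMod N, ftz f n * ftz g n * ψ (n * a) =
      ∑ b, f b * (ftz g n * ψ (n * (a - b))) := by
    intro n
    unfold ftz
    rw [sum_mul, sum_mul]
    refine sum_congr rfl fun b _ => ?_
    have : ψ (n * (a - b)) = ψ (n * a) * ψ (-(n * b)) := by
      rw [← psi_add]
      congr 1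
      ring
    rw [this]
    ring
  simp_rw [e1]
  rw [sum_comm]
  simp_rw [← mul_sum, ftz_inv]
  rw [mul_sum]
  refine sum_congr rfl fun b _ => ?_
  ring

theorem ker_eq (r : ℕ) (a : ZMod N) (ha : a ∈ II N r) : ∑ n, ker N r n * ψ (n * a) = ψ a - 1 := by
  have hN : (N : ℂ) ≠ 0 := by exact_mod_cast NeZero.ne N
  have hI : ((II N r).card : ℂ) ≠ 0 := by exact_mod_cast (II_ne r).card_pos.ne'
  unfold ker
  have e : ∀ n : ZMod N,
      (ftz (fun b => if b ∈ II N r then ψ b else 0) n * ftz (fun c => if c ∈ II N (2 * r) then ψ c - 1 else 0) n +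
      ftz (fun b => if b ∈ II N r then ψ b - 1 else 0) n *
        ftz (fun c => if c ∈ II N (2 * r) then (1 : ℂ) else 0) n) / (N * (II N r).card) * ψ (n * a) =
      (ftz (fun b => if b ∈ II N r then ψ b else 0) n *
        ftz (fun c => if c ∈ II N (2 * r) then ψ c - 1 else 0) n * ψ (n * a) +
      ftz (fun b => if b ∈ II N r then ψ b - 1 else 0) n *
        ftz (fun c => if c ∈ II N (2 * r) then (1 : ℂ) else 0) n * ψ (n * a)) / (N * (II N r).card) := by
    intro n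
    ring
  simp_rw [e]
  rw [← sum_div, sum_add_distrib, ftz_mul, ftz_mul, ← mul_add, ← sum_add_distrib]
  have e2 : ∀ b : ZMod N, ((if b ∈ II N r then ψ b else 0) * (if a - b ∈ II N (2 * r) then ψ (a - b) - 1 else 0) +
      (if b ∈ II N r then ψ b - 1 else 0) * (if a - b ∈ II N (2 * r) then (1 : ℂ) else 0)) =
      if b ∈ II N r then ψ a - 1 else 0 := by
    intro b
    by_cases hb : b ∈ II N r
    · rw [if_pos hb, if_pos hb, if_pos hb, if_pos (II_sub r a b ha hb), if_pos (II_sub r a b ha hb), mul_sub,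
        ← psi_add]
      have : b + (a - b) = a := by ring
      rw [this]
      ring
    · rw [if_neg hb, if_neg hb, if_neg hb]
      ring
  simp_rw [e2]
  rw [sum_ite_mem, univ_inter, sum_const, nsmul_eq_mul]
  field_simp

theorem ftz_ind_bound (S : Finset (ZMod N)) (f : ZMod N → ℂ) (c : ℝ) (hc : ∀ a ∈ S, ‖f a‖ ≤ c) :
    ∑ n, ‖ftz (fun a => if a ∈ S then f a else 0) n‖ ^ 2 ≤ N * S.card * c ^ 2 := by
  rw [ftz_parseval, mul_assoc]
  refine mul_le_mul_of_nonneg_left ?_ (by positivity)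
  have e : ∀ a : ZMod N, ‖(if a ∈ S then f a else 0)‖ ^ 2 = if a ∈ S then ‖f a‖ ^ 2 else 0 := by
    intro a
    split_ifs <;> simp
  simp_rw [e]
  rw [sum_ite_mem, univ_inter]
  calc ∑ a ∈ S, ‖f a‖ ^ 2 ≤ ∑ _a ∈ S, c ^ 2 := sum_le_sum fun a ha => pow_le_pow_left₀ (norm_nonneg _) (hc a ha) 2
    _ = S.card * c ^ 2 := by rw [sum_const, nsmul_eq_mul]

theorem ker_norm (r : ℕ) : ∑ n, ‖ker N r n‖ ≤ 27 * r / N := by
  have hN : (0 : ℝ) < N := by exact_mod_cast NeZero.pos N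
  have hI : (0 : ℝ) < (II N r).card := by exact_mod_cast (II_ne r).card_pos
  have hJ : ((II N (2 * r)).card : ℝ) ≤ 2 * (II N r).card := by exact_mod_cast II_card r
  obtain ⟨η, hη⟩ : ∃ η : ℝ, η = 2 * Real.pi * r / N := ⟨_, rfl⟩
  have hη0 : 0 ≤ η := by rw [hη]; have := Real.pi_pos; positivity
  have hb1 := ftz_ind_bound (II N r) (fun b => ψ b) 1 (fun a _ => (psi_norm a).le)
  have hb2 := ftz_ind_bound (II N (2 * r)) (fun b => ψ b - 1) (2 * η) (fun a ha => by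
    have := nn_le_II (2 * r) a ha
    refine this.trans (le_of_eq ?_)
    rw [hη]
    push_cast
    ring)
  have hb3 := ftz_ind_bound (II N r) (fun b => ψ b - 1) η (fun a ha => by rw [hη]; exact nn_le_II r a ha)
  have hb4 := ftz_ind_bound (II N (2 * r)) (fun _ => (1 : ℂ)) 1 (fun a _ => by simp)
  obtain ⟨F1, hF1⟩ : ∃ F : ZMod N → ℂ, F = ftz (fun b => if b ∈ II N r then ψ b else 0) := ⟨_, rfl⟩
  obtain ⟨F2, hF2⟩ : ∃ F : ZMod N → ℂ, F = ftz (fun c => if c ∈ II N (2 * r) then ψ c - 1 else 0) := ⟨_, rfl⟩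
  obtain ⟨F3, hF3⟩ : ∃ F : ZMod N → ℂ, F = ftz (fun b => if b ∈ II N r then ψ b - 1 else 0) := ⟨_, rfl⟩
  obtain ⟨F4, hF4⟩ : ∃ F : ZMod N → ℂ, F = ftz (fun c => if c ∈ II N (2 * r) then (1 : ℂ) else 0) := ⟨_, rfl⟩
  have hk : ∀ n, ‖ker N r n‖ ≤ (‖F1 n‖ * ‖F2 n‖ + ‖F3 n‖ * ‖F4 n‖) / (N * (II N r).card) := by
    intro n
    unfold ker
    rw [← hF1, ← hF2, ← hF3, ← hF4, norm_div, norm_mul, Complex.norm_natCast, Complex.norm_natCast]
    gcongr
    refine (norm_add_le _ _).trans ?_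
    rw [norm_mul, norm_mul]
  rw [← hF1] at hb1
  rw [← hF2] at hb2
  rw [← hF3] at hb3
  rw [← hF4] at hb4
  have hc1 : ∑ n, ‖F1 n‖ * ‖F2 n‖ ≤ Real.sqrt 2 * (N * (II N r).card * (2 * η)) := by
    refine (Real.sum_mul_le_sqrt_mul_sqrt univ _ _).trans ?_
    rw [← Real.sqrt_mul (sum_nonneg fun _ _ => by positivity)]
    have h1 : (∑ n, ‖F1 n‖ ^ 2) * ∑ n, ‖F2 n‖ ^ 2 ≤ (N * (II N r).card * 1 ^ 2) *
        (N * (II N (2 * r)).card * (2 * η) ^ 2) :=
      mul_le_mul hb1 hb2 (sum_nonneg fun _ _ => by positivity) (by positivity)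
    have h2 : (N * (II N r).card * 1 ^ 2) * (N * (II N (2 * r)).card * (2 * η) ^ 2) ≤
        2 * (N * (II N r).card * (2 * η)) ^ 2 := by
      have : ((N : ℝ) * (II N r).card * 1 ^ 2) * (N * (II N (2 * r)).card * (2 * η) ^ 2) ≤
          ((N : ℝ) * (II N r).card * 1 ^ 2) * (N * (2 * (II N r).card) * (2 * η) ^ 2) := by gcongr
      refine this.trans (le_of_eq ?_)
      ring
    refine (Real.sqrt_le_sqrt (h1.trans h2)).trans (le_of_eq ?_)
    rw [Real.sqrt_mul (by norm_num), Real.sqrt_sq (by positivity)]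
  have hc2 : ∑ n, ‖F3 n‖ * ‖F4 n‖ ≤ Real.sqrt 2 * (N * (II N r).card * η) := by
    refine (Real.sum_mul_le_sqrt_mul_sqrt univ _ _).trans ?_
    rw [← Real.sqrt_mul (sum_nonneg fun _ _ => by positivity)]
    have h1 : (∑ n, ‖F3 n‖ ^ 2) * ∑ n, ‖F4 n‖ ^ 2 ≤ (N * (II N r).card * η ^ 2) *
        (N * (II N (2 * r)).card * 1 ^ 2) :=
      mul_le_mul hb3 hb4 (sum_nonneg fun _ _ => by positivity) (by positivity)
    have h2 : (N * (II N r).card * η ^ 2) * (N * (II N (2 * r)).card * 1 ^ 2) ≤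
        2 * (N * (II N r).card * η) ^ 2 := by
      have : ((N : ℝ) * (II N r).card * η ^ 2) * (N * (II N (2 * r)).card * 1 ^ 2) ≤
          ((N : ℝ) * (II N r).card * η ^ 2) * (N * (2 * (II N r).card) * 1 ^ 2) := by gcongr
      refine this.trans (le_of_eq ?_)
      ring
    refine (Real.sqrt_le_sqrt (h1.trans h2)).trans (le_of_eq ?_)
    rw [Real.sqrt_mul (by norm_num), Real.sqrt_sq (by positivity)]
  calc ∑ n, ‖ker N r n‖ ≤ ∑ n, (‖F1 n‖ * ‖F2 n‖ + ‖F3 n‖ * ‖F4 n‖) / (N * (II N r).card) :=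
        sum_le_sum fun n _ => hk n
    _ = (∑ n, ‖F1 n‖ * ‖F2 n‖ + ∑ n, ‖F3 n‖ * ‖F4 n‖) / (N * (II N r).card) := by
        rw [← sum_div, sum_add_distrib]
    _ ≤ (Real.sqrt 2 * (N * (II N r).card * (2 * η)) + Real.sqrt 2 * (N * (II N r).card * η)) /
          (N * (II N r).card) := by gcongr
    _ = 3 * Real.sqrt 2 * η := by field_simp; ring
    _ ≤ 27 * r / N := by
        rw [hη]
        have h1 : Real.sqrt 2 ≤ 1.4143 := by
          rw [Real.sqrt_le_left (by norm_num)]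
          norm_num
        have h2 := Real.pi_lt_d4
        have h3 := Real.pi_pos
        have h4 : 3 * Real.sqrt 2 * (2 * Real.pi) ≤ 27 := by
          calc 3 * Real.sqrt 2 * (2 * Real.pi) ≤ 3 * 1.4143 * (2 * 3.1416) := by gcongr
            _ ≤ 27 := by norm_num
        calc 3 * Real.sqrt 2 * (2 * Real.pi * r / N) = (3 * Real.sqrt 2 * (2 * Real.pi)) * (r / N) := by ring
          _ ≤ 27 * (r / N) := by gcongr
          _ = 27 * r / N := by ring

/-- the kernel for the tolerance `δ` -/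
theorem exists_ker (N : ℕ) [NeZero N] (δ : ℝ) (hδ : 0 ≤ δ) : ∃ κ : ZMod N → ℂ, ∑ n, ‖κ n‖ ≤ 7 * δ ∧
    ∀ a : ZMod N, ‖ψ a - 1‖ ≤ δ → ∑ n, κ n * ψ (n * a) = ψ a - 1 := by
  have hN : (0 : ℝ) < N := by exact_mod_cast NeZero.pos N
  refine ⟨ker N ⌊δ * N / 4⌋₊, ?_, fun a ha => ker_eq _ a (mem_II_of_small δ hδ a ha)⟩
  refine (ker_norm _).trans ?_
  have h1 := Nat.floor_le (show (0 : ℝ) ≤ δ * N / 4 by positivity)
  rw [div_le_iff₀ hN]
  nlinarith

end Pool.Agent.V8H19.AP
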