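import Pool.Agent.N142.CD.LCH
import Pool.Agent.V8H19.AP.Four2

/-!
# Chang's theorem relative to a set `S`, for a family of laws

As `N142.CD.LCH`, for laws `ν_0, …, ν_{l-1}` with densities at most `M / |X|` on a translate of `X` and the set of the
`γ` with `∑ ‖ν̂_j γ‖ ≥ l / 2`.
-/

set_option autoImplicit false
set_option linter.all false

open scoped Classical

namespace Pool.Agent.V8H19.AP

open Finset
open Pool.Agent.N142.CD Pool.Agent.N142.CD.LCH
open scoped ComplexConjugate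

variable {N : ℕ} [NeZero N]

theorem card_bound2 (ν : ZMod N → ℝ) (hν : IsLaw ν) (X Y S Λ : Finset (ZMod N)) (t : ZMod N) (m : ℕ) (M : ℝ)
    (hS0 : S.Nonempty) (hS : ∀ s ∈ S, -s ∈ S) (hTX : ∀ x, ν x ≠ 0 → x - t ∈ X) (hM : ∀ x, ν x ≤ M / X.card)
    (hXY : ∀ x ∈ X, ∀ s : Fin m → ZMod N, (∀ i, s i ∈ S) → x + ∑ i, s i ∈ Y)
    (hY : (Y.card : ℝ) ≤ 2 * X.card) (hm : Λ.card ≤ m)
    (hSp : (Λ.card : ℝ) / 2 ≤ ∑ z ∈ Λ, ‖ft ν z‖) (hΛ : Dis S Λ) :
    (Λ.card : ℝ) ≤ 8 * Real.log (4 * M) := by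
  have hSc : (0 : ℝ) < S.card := by exact_mod_cast hS0.card_pos
  obtain ⟨x₀, hx₀⟩ : ∃ x₀, ν x₀ ≠ 0 := by
    by_contra hcon
    push Not at hcon
    have h0 := hν.sum_one
    rw [sum_eq_zero fun x _ => hcon x] at h0
    exact zero_ne_one h0
  have hXc : (0 : ℝ) < X.card := by
    exact_mod_cast card_pos.2 ⟨_, hTX x₀ hx₀⟩
  have hM0 : 0 < M := by
    have h1 := hM x₀
    have h2 : 0 < ν x₀ := lt_of_le_of_ne (hν.nonneg x₀) (Ne.symm hx₀)
    have h3 : 0 < M / X.card := lt_of_lt_of_le h2 h1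
    have h4 := mul_pos h3 hXc
    rwa [div_mul_cancel₀ _ hXc.ne'] at h4
  set h : ZMod N → ℂ := fun z => ∑ x, (ν x : ℂ) * ψ (z * (x - t)) with hh
  have hnorm : ∀ z, ‖h z‖ = ‖ft ν z‖ := by
    intro z
    have h1 : h z = ft ν z * ψ (-(z * t)) := by
      rw [hh]
      unfold ft
      simp only
      rw [sum_mul]
      refine sum_congr rfl fun x _ => ?_
      rw [mul_sub, sub_eq_add_neg, psi_add]
      ring
    rw [h1, norm_mul, norm_psi, mul_one]
  set u : ZMod N → ℂ := fun z => conj (h z) / ‖h z‖ with hu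
  have hu1 : ∀ z, ‖u z‖ ≤ 1 := by
    intro z
    rw [hu]
    simp only
    rw [norm_div, RCLike.norm_conj]
    simp only [Complex.norm_real, norm_norm]
    exact div_self_le_one _
  have huh : ∀ z, u z * h z = ‖h z‖ := by
    intro z
    by_cases h0 : h z = 0
    · rw [hu]
      simp [h0]
    have h1 : (‖h z‖ : ℂ) ≠ 0 := by
      have : ‖h z‖ ≠ 0 := norm_ne_zero_iff.2 h0
      exact_mod_cast this
    rw [hu]
    simp only
    rw [div_mul_eq_mul_div, div_eq_iff h1, mul_comm, Complex.mul_conj, Complex.normSq_eq_norm_sq]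
    push_cast
    ring
  set Xf : ZMod N → ℝ := fun x => ∑ z ∈ Λ, (u z * ψ (z * x)).re with hXf
  have hsum : (Λ.card : ℝ) / 2 ≤ ∑ x, ν x * Xf (x - t) := by
    refine hSp.trans (le_of_eq ?_)
    rw [hXf]
    simp only
    simp_rw [mul_sum]
    rw [sum_comm]
    refine sum_congr rfl fun z hz => ?_
    have h1 : ∑ x, ν x * (u z * ψ (z * (x - t))).re = (u z * h z).re := by
      rw [hh]
      simp only
      rw [mul_sum, Complex.re_sum]
      refine sum_congr rfl fun x _ => ?_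
      rw [show u z * ((ν x : ℂ) * ψ (z * (x - t))) = (ν x : ℂ) * (u z * ψ (z * (x - t))) by ring,
        Complex.re_ofReal_mul]
    rw [h1, huh z, Complex.ofReal_re, hnorm]
  set c : ℝ := Real.cosh (1 / 2) with hc
  set s : ℝ := Real.sinh (1 / 2) with hs
  have hc0 : 0 ≤ c := (Real.cosh_pos _).le
  have hs0 : 0 ≤ s := Real.sinh_nonneg_iff.2 (by norm_num)
  have hcs : c + s = Real.exp (1 / 2) := Real.cosh_add_sinh _
  have hre : ∀ z x, |(u z * ψ (z * x)).re| ≤ 1 := by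
    intro z x
    refine (Complex.abs_re_le_norm _).trans ?_
    rw [norm_mul, norm_psi, mul_one]
    exact hu1 z
  have hlow : Real.exp (Λ.card / 4) ≤ ∑ x, ν x * Real.exp (Xf (x - t) / 2) := by
    have h1 : ∀ x, ν x * (Real.exp (Λ.card / 4) * (1 + (Xf (x - t) / 2 - Λ.card / 4))) ≤
        ν x * Real.exp (Xf (x - t) / 2) := by
      intro x
      refine mul_le_mul_of_nonneg_left ?_ (hν.nonneg x)
      have h2 := Real.add_one_le_exp (Xf (x - t) / 2 - Λ.card / 4)
      have h3 : Real.exp (Xf (x - t) / 2) =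
          Real.exp (Λ.card / 4) * Real.exp (Xf (x - t) / 2 - Λ.card / 4) := by
        rw [← Real.exp_add]; congr 1; ring
      rw [h3]
      refine mul_le_mul_of_nonneg_left (by linarith) (Real.exp_pos _).le
    refine le_trans ?_ (sum_le_sum fun x _ => h1 x)
    have h2 : ∑ x, ν x * (Real.exp (Λ.card / 4) * (1 + (Xf (x - t) / 2 - Λ.card / 4))) =
        Real.exp (Λ.card / 4) * ((1 - Λ.card / 4) * ∑ x, ν x + (∑ x, ν x * Xf (x - t)) / 2) := by
      rw [mul_sum, sum_div, ← sum_add_distrib, mul_sum]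
      refine sum_congr rfl fun x _ => ?_
      ring
    rw [h2, hν.sum_one]
    refine le_mul_of_one_le_right (Real.exp_pos _).le ?_
    linarith
  obtain ⟨P, hP⟩ : ∃ P : ZMod N → ℝ, P = fun x => ∏ z ∈ Λ, (c + s * (u z * ψ (z * x)).re) :=
    ⟨_, rfl⟩
  have hprod : ∀ x : ZMod N, Real.exp (Xf x / 2) ≤ P x := by
    intro x
    rw [hXf, hP]
    simp only
    rw [sum_div, Real.exp_sum]
    refine prod_le_prod (fun z _ => (Real.exp_pos _).le) fun z _ => ?_
    have h1 := abs_le.1 (hre z x)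
    exact exp_half_le h1.1 h1.2
  have hP0 : ∀ x, 0 ≤ P x := fun x => (Real.exp_pos _).le.trans (hprod x)
  have hTXs : ∑ x, ν x * Real.exp (Xf (x - t) / 2) ≤ M / X.card * ∑ x ∈ X, P x := by
    have h0 : ∀ x, ν x * Real.exp (Xf (x - t) / 2) ≤ M / X.card * (if x - t ∈ X then P (x - t) else 0) := by
      intro x
      by_cases hx : ν x = 0
      · rw [hx, zero_mul]
        refine mul_nonneg (by positivity) ?_
        split_ifs
        · exact hP0 _
        · exact le_rfl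
      · rw [if_pos (hTX x hx)]
        exact mul_le_mul (hM x) (hprod _) (Real.exp_pos _).le (by positivity)
    refine (sum_le_sum fun x _ => h0 x).trans ?_
    rw [← mul_sum]
    refine mul_le_mul_of_nonneg_left (le_of_eq ?_) (by positivity)
    have h2 := Equiv.sum_comp (Equiv.subRight t) fun x => if x ∈ X then P x else 0
    simp only [Equiv.subRight_apply] at h2
    rw [h2, sum_ite_mem, univ_inter]
  -- upper bound
  set J := Y ×ˢ Fintype.piFinset (fun _ : Fin m => S) with hJ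
  have hJc : (J.card : ℝ) = Y.card * (S.card : ℝ) ^ m := by
    rw [hJ, card_product, Fintype.card_piFinset_const]
    push_cast
    ring
  have hB : ∀ d : ZMod N, ¬ DD S d →
      ‖∑ j ∈ J, (ψ (d * (j.1 + ∑ i, j.2 i)) : ℂ)‖ ≤ Y.card * ((S.card : ℝ) / 2) ^ m := by
    intro d hd
    rw [hJ, Jhat, norm_mul, norm_pow]
    refine mul_le_mul ?_ ?_ (by positivity) (by positivity)
    · refine (norm_sum_le _ _).trans ?_
      rw [sum_congr rfl fun j _ => norm_psi _, sum_const, nsmul_eq_mul, mul_one]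
    · unfold DD at hd
      push Not at hd
      exact pow_le_pow_left₀ (norm_nonneg _) hd.le m
  have hup : (S.card : ℝ) ^ m * ∑ x ∈ X, P x ≤
      (Y.card * (S.card : ℝ) ^ m) * c ^ Λ.card +
        Real.exp (1 / 2) ^ Λ.card * (Y.card * ((S.card : ℝ) / 2) ^ m) := by
    refine (low X Y S m hS hXY P hP0).trans ?_
    have h2 := SS_dis S J (fun j => j.1 + ∑ i, j.2 i) (c : ℂ) (fun z => (s / 2 : ℂ) * u z)
      (fun z => (s / 2 : ℂ) * conj (u z)) (by positivity) hc0 hs0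
      (by rw [Complex.norm_real, Real.norm_of_nonneg hc0])
      (fun z => by
        rw [norm_mul]
        have e : ‖(s / 2 : ℂ)‖ = s / 2 := by
          rw [show (s / 2 : ℂ) = ((s / 2 : ℝ) : ℂ) by push_cast; rfl, Complex.norm_real,
            Real.norm_of_nonneg (by positivity)]
        rw [e]
        have := hu1 z
        nlinarith)
      (fun z => by
        rw [norm_mul, RCLike.norm_conj]
        have e : ‖(s / 2 : ℂ)‖ = s / 2 := by
          rw [show (s / 2 : ℂ) = ((s / 2 : ℝ) : ℂ) by push_cast; rfl, Complex.norm_real,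
            Real.norm_of_nonneg (by positivity)]
        rw [e]
        have := hu1 z
        nlinarith) hB Λ hΛ
    rw [hJc, hcs] at h2
    refine le_trans ?_ h2
    have h3 : ((∑ j ∈ J, P (j.1 + ∑ i, j.2 i) : ℝ) : ℂ) =
        SS J (fun j => j.1 + ∑ i, j.2 i) (c : ℂ) (fun z => (s / 2 : ℂ) * u z)
          (fun z => (s / 2 : ℂ) * conj (u z)) 0 Λ := by
      unfold SS
      rw [Complex.ofReal_sum]
      refine sum_congr rfl fun j _ => ?_
      rw [zero_mul, LCH.psi_zero, one_mul, hP, Complex.ofReal_prod]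
      refine prod_congr rfl fun z _ => ?_
      rw [psi_neg, Complex.ofReal_add, Complex.ofReal_mul]
      have h6 : (((u z * ψ (z * (j.1 + ∑ i, j.2 i))).re : ℝ) : ℂ) =
          (u z * ψ (z * (j.1 + ∑ i, j.2 i)) + conj (u z * ψ (z * (j.1 + ∑ i, j.2 i)))) / 2 :=
        Complex.re_eq_add_conj _
      rw [h6, map_mul]
      ring
    rw [← h3, Complex.norm_real]
    exact le_abs_self _
  have hc1 : c ^ Λ.card ≤ Real.exp (Λ.card / 8) := by
    have h1 : c ≤ Real.exp (1 / 8) := by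
      have h2 := Real.cosh_le_exp_half_sq (1 / 2)
      have h3 : ((1 / 2 : ℝ) ^ 2 / 2) = 1 / 8 := by norm_num
      rw [h3] at h2
      exact h2
    refine (pow_le_pow_left₀ hc0 h1 _).trans (le_of_eq ?_)
    rw [← Real.exp_nat_mul]
    congr 1
    ring
  have hSm : (0 : ℝ) < (S.card : ℝ) ^ m := by positivity
  have h2m : Real.exp (1 / 2) ^ Λ.card * ((S.card : ℝ) / 2) ^ m ≤ (S.card : ℝ) ^ m := by
    have h1 : Real.exp (1 / 2) ^ Λ.card ≤ 2 ^ m :=
      (pow_le_pow_left₀ (Real.exp_pos _).le exp_half_lt _).trans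
        (pow_le_pow_right₀ (by norm_num) hm)
    calc Real.exp (1 / 2) ^ Λ.card * ((S.card : ℝ) / 2) ^ m ≤ 2 ^ m * ((S.card : ℝ) / 2) ^ m :=
          mul_le_mul_of_nonneg_right h1 (by positivity)
      _ = (S.card : ℝ) ^ m := by
          rw [← mul_pow]
          congr 1
          ring
  have hY0 : (0 : ℝ) ≤ Y.card := Nat.cast_nonneg _
  have he1 : (1 : ℝ) ≤ Real.exp (Λ.card / 8) := Real.one_le_exp (by positivity)
  have hXP : ∑ x ∈ X, P x ≤ 4 * X.card * Real.exp (Λ.card / 8) := by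
    have h1 : (S.card : ℝ) ^ m * ∑ x ∈ X, P x ≤
        (S.card : ℝ) ^ m * (4 * X.card * Real.exp (Λ.card / 8)) := by
      refine hup.trans ?_
      have h3 : (Y.card : ℝ) * (S.card : ℝ) ^ m * c ^ Λ.card ≤
          Y.card * (S.card : ℝ) ^ m * Real.exp (Λ.card / 8) :=
        mul_le_mul_of_nonneg_left hc1 (by positivity)
      have h4 : Real.exp (1 / 2) ^ Λ.card * (Y.card * ((S.card : ℝ) / 2) ^ m) ≤
          Y.card * (S.card : ℝ) ^ m * Real.exp (Λ.card / 8) := by
        calc Real.exp (1 / 2) ^ Λ.card * (Y.card * ((S.card : ℝ) / 2) ^ m) =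
              Y.card * (Real.exp (1 / 2) ^ Λ.card * ((S.card : ℝ) / 2) ^ m) := by ring
          _ ≤ Y.card * (S.card : ℝ) ^ m := mul_le_mul_of_nonneg_left h2m hY0
          _ ≤ Y.card * (S.card : ℝ) ^ m * Real.exp (Λ.card / 8) :=
              le_mul_of_one_le_right (by positivity) he1
      have h5 : (Y.card : ℝ) * ((S.card : ℝ) ^ m * Real.exp (Λ.card / 8)) ≤
          2 * X.card * ((S.card : ℝ) ^ m * Real.exp (Λ.card / 8)) :=
        mul_le_mul_of_nonneg_right hY (by positivity)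
      nlinarith
    exact le_of_mul_le_mul_left h1 hSm
  have hfin : Real.exp (Λ.card / 8) ≤ 4 * M := by
    have h1 : Real.exp (Λ.card / 4) ≤ 4 * M * Real.exp (Λ.card / 8) := by
      refine (hlow.trans hTXs).trans ?_
      calc M / X.card * ∑ x ∈ X, P x ≤ M / X.card * (4 * X.card * Real.exp (Λ.card / 8)) := by gcongr
        _ = 4 * M * Real.exp (Λ.card / 8) := by field_simp
    have h2 : Real.exp ((Λ.card : ℝ) / 4) = Real.exp (Λ.card / 8) * Real.exp (Λ.card / 8) := by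
      rw [← Real.exp_add]; congr 1; ring
    rw [h2] at h1
    exact le_of_mul_le_mul_right h1 (Real.exp_pos _)
  have h9 : (Λ.card : ℝ) / 8 ≤ Real.log (4 * M) := by
    rw [Real.le_log_iff_exp_le (by positivity)]
    exact hfin
  linarith

/-- a maximal dissociated subset spans -/
theorem span_max (S Sp : Finset (ZMod N)) (n : ℕ) (hb : ∀ Λ ⊆ Sp, Dis S Λ → Λ.card ≠ n + 1) :
    ∃ Λ : Finset (ZMod N), Λ.card ≤ n ∧ ∀ γ ∈ Sp, ∃ ε : ZMod N → ℤ, (∀ z, ε z = 0 ∨ ε z = 1 ∨ ε z = -1) ∧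
      DD S (γ - ∑ z ∈ Λ, (ε z : ZMod N) * z) := by
  have hne : (Sp.powerset.filter fun Λ => Dis S Λ).Nonempty := by
    refine ⟨∅, ?_⟩
    rw [mem_filter]
    exact ⟨empty_mem_powerset _, fun e _ _ z hz => absurd hz (notMem_empty z)⟩
  obtain ⟨Λ, hΛ, hmax⟩ := exists_max_image _ card hne
  rw [mem_filter, mem_powerset] at hΛ
  refine ⟨Λ, ?_, fun γ hγ => ?_⟩
  · by_contra hcon
    push Not at hcon
    obtain ⟨Λ', h1, h2⟩ := exists_subset_card_eq (Nat.succ_le_of_lt hcon)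
    exact hb Λ' (h1.trans hΛ.1) (Dis_sub hΛ.2 h1) h2
  by_cases hg : γ ∈ Λ
  · refine ⟨fun z => if z = γ then 1 else 0, fun z => ?_, ?_⟩
    · by_cases h : z = γ
      · exact Or.inr (Or.inl (if_pos h))
      · exact Or.inl (if_neg h)
    · have h1 : γ - ∑ z ∈ Λ, (((if z = γ then 1 else 0 : ℤ)) : ZMod N) * z = 0 := by
        rw [sum_eq_single γ]
        · simp
        · intro z _ hz
          simp [hz]
        · intro h
          exact absurd hg h
      rw [h1]
      exact DD_zero S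
  · have h1 : ¬ Dis S (insert γ Λ) := by
      intro hd
      have h2 := hmax (insert γ Λ) (by
        rw [mem_filter, mem_powerset]
        exact ⟨insert_subset hγ hΛ.1, hd⟩)
      rw [card_insert_of_notMem hg] at h2
      omega
    unfold Dis at h1
    push Not at h1
    obtain ⟨e, he, h0, z, hz, hz0⟩ := h1
    rw [sum_insert hg] at h0
    rcases he γ with h | h | h
    · exfalso
      rw [h] at h0
      have h2 := hΛ.2 e he (by simpa using h0)
      rcases mem_insert.1 hz with h3 | h3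
      · exact hz0 (h3 ▸ h)
      · exact hz0 (h2 z h3)
    · refine ⟨fun z => - e z, fun z => ?_, ?_⟩
      · rcases he z with h' | h' | h'
        · left; simp [h']
        · right; right; simp [h']
        · right; left; simp [h']
      · rw [h] at h0
        have h3 : ∑ z ∈ Λ, ((-e z : ℤ) : ZMod N) * z = - ∑ z ∈ Λ, (e z : ZMod N) * z := by
          rw [← sum_neg_distrib]
          exact sum_congr rfl fun z _ => by push_cast; ring
        have h4 : γ - ∑ z ∈ Λ, ((-e z : ℤ) : ZMod N) * z =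
            ((1 : ℤ) : ZMod N) * γ + ∑ z ∈ Λ, (e z : ZMod N) * z := by
          rw [h3]; push_cast; ring
        rw [h4]
        exact h0
    · refine ⟨e, he, ?_⟩
      rw [h] at h0
      have h4 : γ - ∑ z ∈ Λ, (e z : ZMod N) * z =
          -(((-1 : ℤ) : ZMod N) * γ + ∑ z ∈ Λ, (e z : ZMod N) * z) := by
        push_cast; ring
      rw [h4]
      exact DD_neg S _ h0

/-- **Chang's theorem relative to `S` for a family of laws** -/
theorem lch2 (ν : ℕ → ZMod N → ℝ) (l : ℕ) (hl : 1 ≤ l) (hν : ∀ j, IsLaw (ν j)) (X Y S : Finset (ZMod N))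
    (t : ZMod N) (m n : ℕ) (M : ℝ)
    (hS0 : S.Nonempty) (hS : ∀ s ∈ S, -s ∈ S) (hTX : ∀ j x, ν j x ≠ 0 → x - t ∈ X)
    (hM : ∀ j x, ν j x ≤ M / X.card)
    (hXY : ∀ x ∈ X, ∀ s : Fin m → ZMod N, (∀ i, s i ∈ S) → x + ∑ i, s i ∈ Y)
    (hY : (Y.card : ℝ) ≤ 2 * X.card) (hn : 8 * Real.log (4 * M) ≤ n) (hm : n + 1 ≤ m) :
    ∃ Λ : Finset (ZMod N), Λ.card ≤ n ∧ ∀ γ : ZMod N, (l : ℝ) / 2 ≤ ∑ j ∈ range l, ‖ft (ν j) γ‖ →
      ∃ ε : ZMod N → ℤ, (∀ z, ε z = 0 ∨ ε z = 1 ∨ ε z = -1) ∧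
      (S.card : ℝ) / 2 ≤ ‖∑ s ∈ S, ψ ((γ - ∑ z ∈ Λ, (ε z : ZMod N) * z) * s)‖ := by
  obtain ⟨Λ, hΛ1, hΛ2⟩ := span_max S (univ.filter fun γ : ZMod N => (l : ℝ) / 2 ≤ ∑ j ∈ range l, ‖ft (ν j) γ‖) n (by
    intro Λ hΛ hdis hcard
    -- choose the index
    have h1 : ∑ j ∈ range l, (Λ.card : ℝ) / 2 ≤ ∑ j ∈ range l, ∑ z ∈ Λ, ‖ft (ν j) z‖ := by
      rw [sum_comm, sum_const, card_range, nsmul_eq_mul]
      calc (l : ℝ) * ((Λ.card : ℝ) / 2) = ∑ z ∈ Λ, (l : ℝ) / 2 := by
            rw [sum_const, nsmul_eq_mul]; ring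
        _ ≤ ∑ z ∈ Λ, ∑ j ∈ range l, ‖ft (ν j) z‖ := sum_le_sum fun z hz => (mem_filter.1 (hΛ hz)).2
    obtain ⟨j, _, hj⟩ := exists_le_of_sum_le ⟨0, mem_range.2 (by omega)⟩ h1
    have h2 := card_bound2 (ν j) (hν j) X Y S Λ t m M hS0 hS (hTX j) (hM j) hXY hY (by rw [hcard]; exact hm) hj hdis
    have h3 := h2.trans hn
    rw [hcard] at h3
    push_cast at h3
    linarith)
  exact ⟨Λ, hΛ1, fun γ hγ => hΛ2 γ (mem_filter.2 ⟨mem_univ _, hγ⟩)⟩

end Pool.Agent.V8H19.AP
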