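import Pool.Agent.V8H19.AP.Post

/-!
# One step: a law with a bounded density whose differences are almost periods in the mean
-/

set_option autoImplicit false
set_option linter.unusedSectionVars false

namespace Pool.Agent.V8H19.AP

open Finset

variable {G : Type} [AddCommGroup G] [Fintype G] [DecidableEq G]

/-- selection of an index -/
theorem select {ι : Type} [Fintype ι] (V a b : ι → ℝ) (hV : ∀ i, 0 ≤ V i) (hV1 : ∑ i, V i = 1)
    (ha : ∀ i, 0 < V i → 0 ≤ a i) (hb : ∀ i, 0 < V i → 0 ≤ b i) (A B : ℝ) (hA : 0 < A) (hB : 0 < B)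
    (h1 : ∑ i, V i * a i ≤ A) (h2 : ∑ i, V i * b i ≤ B) : ∃ i, 0 < V i ∧ a i ≤ 2 * A ∧ b i ≤ 2 * B := by
  by_contra hcon
  push Not at hcon
  have h3 : ∀ i, 2 * V i ≤ V i * a i / A + V i * b i / B := by
    intro i
    rcases (hV i).eq_or_lt with h | h
    · rw [← h]; simp
    · have h4 : 0 ≤ V i * a i / A := div_nonneg (mul_nonneg h.le (ha i h)) hA.le
      have h5 : 0 ≤ V i * b i / B := div_nonneg (mul_nonneg h.le (hb i h)) hB.le
      rcases le_or_gt (a i) (2 * A) with h6 | h6
      · have h7 := hcon i h h6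
        have : 2 * V i ≤ V i * b i / B := by
          rw [le_div_iff₀ hB]
          nlinarith
        linarith
      · have : 2 * V i ≤ V i * a i / A := by
          rw [le_div_iff₀ hA]
          nlinarith
        linarith
  -- one strict inequality
  obtain ⟨i₀, hi₀⟩ : ∃ i, 0 < V i := by
    by_contra hc
    push Not at hc
    have := sum_nonpos fun i (_ : i ∈ univ) => hc i
    linarith
  have h3' : 2 * V i₀ < V i₀ * a i₀ / A + V i₀ * b i₀ / B := by
    have h4 : 0 ≤ V i₀ * a i₀ / A := div_nonneg (mul_nonneg hi₀.le (ha i₀ hi₀)) hA.le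
    have h5 : 0 ≤ V i₀ * b i₀ / B := div_nonneg (mul_nonneg hi₀.le (hb i₀ hi₀)) hB.le
    rcases le_or_gt (a i₀) (2 * A) with h6 | h6
    · have h7 := hcon i₀ hi₀ h6
      have : 2 * V i₀ < V i₀ * b i₀ / B := by
        rw [lt_div_iff₀ hB]
        nlinarith
      linarith
    · have : 2 * V i₀ < V i₀ * a i₀ / A := by
        rw [lt_div_iff₀ hA]
        nlinarith
      linarith
  have h6 : ∑ i, 2 * V i < ∑ i, (V i * a i / A + V i * b i / B) :=
    sum_lt_sum (fun i _ => h3 i) ⟨i₀, mem_univ _, h3'⟩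
  rw [← mul_sum, hV1, sum_add_distrib, ← sum_div, ← sum_div] at h6
  have h7 : (∑ i, V i * a i) / A ≤ 1 := by rw [div_le_one hA]; exact h1
  have h8 : (∑ i, V i * b i) / B ≤ 1 := by rw [div_le_one hB]; exact h2
  linarith

/-- truncation of the density -/
theorem trunc {ρ π : G → ℝ} (hρ : IsLaw ρ) (hπ : IsLaw π) (hsupp : ∀ s, ρ s ≠ 0 → π s ≠ 0) (A : ℝ) (hA : 0 < A)
    (hK : ∑ s, ρ s * (Real.log (ρ s) - Real.log (π s)) ≤ 2 * A) (e : G → G → ℝ) (he : ∀ s s', 0 ≤ e s s') :
    ∃ ν : G → ℝ, IsLaw ν ∧ (∀ s, ν s ≤ Real.exp (4 * A + 3) * π s) ∧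
      ∑ s, ν s * ∑ s', ν s' * e s s' ≤ 4 * ∑ s, ρ s * ∑ s', ρ s' * e s s' := by
  obtain ⟨T, hT⟩ : ∃ T : ℝ, T = 4 * A + 2 := ⟨_, rfl⟩
  obtain ⟨E, hE⟩ : ∃ E : Finset G, E = univ.filter fun s => ρ s ≤ Real.exp T * π s := ⟨_, rfl⟩
  have hEm : ∀ s, s ∈ E ↔ ρ s ≤ Real.exp T * π s := fun s => by
    rw [hE, mem_filter]
    exact ⟨fun h => h.2, fun h => ⟨mem_univ s, h⟩⟩
  obtain ⟨P, hP⟩ : ∃ P : ℝ, P = ∑ s ∈ E, ρ s := ⟨_, rfl⟩
  -- the lower bound of the relative entropy
  have h1 : ∀ s ∈ Eᶜ, T * ρ s ≤ ρ s * (Real.log (ρ s) - Real.log (π s)) := by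
    intro s hs
    rw [mem_compl, hEm] at hs
    push Not at hs
    have hπs0 := hπ.nonneg s
    have hρs : 0 < ρ s := lt_of_le_of_lt (mul_nonneg (Real.exp_pos T).le hπs0) hs
    have hπs : 0 < π s := lt_of_le_of_ne hπs0 (Ne.symm (hsupp s hρs.ne'))
    have h2 := Real.log_lt_log (by positivity) hs
    rw [Real.log_mul (Real.exp_pos T).ne' hπs.ne', Real.log_exp] at h2
    rw [mul_comm]
    exact mul_le_mul_of_nonneg_left (by linarith) hρs.le
  have h2 : ∀ s ∈ E, ρ s - π s ≤ ρ s * (Real.log (ρ s) - Real.log (π s)) := by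
    intro s _
    rcases (hρ.nonneg s).eq_or_lt with h0 | h0
    · rw [← h0]
      have := hπ.nonneg s
      linarith
    · have hπs : 0 < π s := lt_of_le_of_ne (hπ.nonneg s) (Ne.symm (hsupp s h0.ne'))
      have h3 := Real.log_le_sub_one_of_pos (show 0 < π s / ρ s by positivity)
      rw [Real.log_div hπs.ne' h0.ne'] at h3
      have h4 := mul_le_mul_of_nonneg_left h3 h0.le
      have h5 : ρ s * (π s / ρ s - 1) = π s - ρ s := by field_simp
      rw [h5] at h4
      linarith
  have h3 : ∑ s ∈ Eᶜ, ρ s = 1 - P := by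
    have := sum_add_sum_compl E ρ
    rw [hρ.sum_one] at this
    rw [hP]
    linarith
  have h4 : ∑ s ∈ E, π s ≤ 1 := by
    rw [← hπ.sum_one]
    exact sum_le_sum_of_subset_of_nonneg (subset_univ _) fun s _ _ => hπ.nonneg s
  have hP0 : 0 ≤ P := by rw [hP]; exact sum_nonneg fun s _ => hρ.nonneg s
  have h5 : T * (1 - P) - 1 ≤ 2 * A := by
    have h6 := sum_le_sum h1
    have h7 := sum_le_sum h2
    rw [← mul_sum, h3] at h6
    rw [sum_sub_distrib, ← hP] at h7
    have h8 := sum_add_sum_compl E fun s => ρ s * (Real.log (ρ s) - Real.log (π s))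
    linarith
  have hP2 : 1 / 2 ≤ P := by
    rw [hT] at h5
    by_contra hc
    push Not at hc
    nlinarith
  have hP1 : 0 < P := by linarith
  refine ⟨fun s => if s ∈ E then ρ s / P else 0, ⟨fun s => ?_, ?_⟩, fun s => ?_, ?_⟩
  · split_ifs
    · exact div_nonneg (hρ.nonneg s) hP1.le
    · exact le_rfl
  · rw [sum_ite_mem, univ_inter, ← sum_div, ← hP]
    exact div_self hP1.ne'
  · have hπ0 := hπ.nonneg s
    beta_reduce
    split_ifs with h
    · rw [hEm] at h
      rw [div_le_iff₀ hP1]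
      have h6 : Real.exp (4 * A + 3) = Real.exp 1 * Real.exp T := by
        rw [← Real.exp_add, hT]
        congr 1
        ring
      have h7 : (2 : ℝ) ≤ Real.exp 1 := by linarith [Real.add_one_le_exp (1 : ℝ)]
      calc ρ s ≤ Real.exp T * π s := h
        _ = 2 * (Real.exp T * π s) * (1 / 2) := by ring
        _ ≤ Real.exp 1 * (Real.exp T * π s) * P := by gcongr
        _ = Real.exp (4 * A + 3) * π s * P := by rw [h6]; ring
    · positivity
  · have h6 : ∀ s, (if s ∈ E then ρ s / P else 0) ≤ 2 * ρ s := by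
      intro s
      have := hρ.nonneg s
      split_ifs
      · rw [div_le_iff₀ hP1]
        nlinarith
      · linarith
    have h6' : ∀ s, 0 ≤ (if s ∈ E then ρ s / P else 0) := by
      intro s
      split_ifs
      · exact div_nonneg (hρ.nonneg s) hP1.le
      · exact le_rfl
    calc ∑ s, (if s ∈ E then ρ s / P else 0) * ∑ s', (if s' ∈ E then ρ s' / P else 0) * e s s'
        ≤ ∑ s, (2 * ρ s) * ∑ s', (2 * ρ s') * e s s' := by
          refine sum_le_sum fun s _ => ?_
          refine mul_le_mul (h6 s) ?_ (sum_nonneg fun s' _ => mul_nonneg (h6' s') (he s s'))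
            (by have := hρ.nonneg s; linarith)
          exact sum_le_sum fun s' _ => mul_le_mul_of_nonneg_right (h6 s') (he s s')
      _ = 4 * ∑ s, ρ s * ∑ s', ρ s' * e s s' := by
          rw [mul_sum]
          refine sum_congr rfl fun s _ => ?_
          have : ∑ s', 2 * ρ s' * e s s' = 2 * ∑ s', ρ s' * e s s' := by
            rw [mul_sum]
            refine sum_congr rfl fun s' _ => ?_
            ring
          rw [this]
          ring

/-- the relative entropy is nonnegative -/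
theorem kl_nonneg {ρ π : G → ℝ} (hρ : IsLaw ρ) (hπ : IsLaw π) (hsupp : ∀ s, ρ s ≠ 0 → π s ≠ 0) :
    0 ≤ ∑ s, ρ s * (Real.log (ρ s) - Real.log (π s)) := by
  have := log_sum univ ρ π (fun s _ => hρ.nonneg s) (fun s _ => hπ.nonneg s) (fun s _ hs =>
    lt_of_le_of_ne (hπ.nonneg s) (Ne.symm (hsupp s hs.ne')))
  rw [hρ.sum_one, hπ.sum_one, sub_self, mul_zero] at this
  exact this

/-- **the step** -/
theorem step {p q π : G → ℝ} (hp : IsLaw p) (hq : IsLaw q) (hπ : IsLaw π) (S : Finset G) (n : ℕ) (A Δ : ℝ)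
    (hA : 0 < A) (hnA : n * (Ent (cv π q) - Ent q) ≤ A) (hΔ : 0 ≤ Δ) (hΔ' : Ent (cv (ng π) p) - Ent p ≤ Δ)
    (hn : Δ + 1 ≤ n) :
    ∃ ν : G → ℝ, IsLaw ν ∧ (∀ s, ν s ≤ Real.exp (4 * A + 3) * π s) ∧
      ∑ s, ν s * ∑ s', ν s' * ∑ x, p x * |Fl q S (x + s - s') - Fl q S x| ≤ 32 * Real.sqrt ((Δ + 1) / n) := by
  have hn0 : (0 : ℝ) < n := by linarith
  have hn1 : 1 ≤ n := by exact_mod_cast (by linarith : (1 : ℝ) ≤ n)
  obtain ⟨t, ht⟩ : ∃ t : ℝ, t = Real.sqrt (n * (Δ + 1)) := ⟨_, rfl⟩
  have ht2 : t ^ 2 = n * (Δ + 1) := by rw [ht]; exact Real.sq_sqrt (by positivity)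
  have ht0 : 0 < t := by rw [ht]; exact Real.sqrt_pos.2 (by positivity)
  have htn : t ≤ n := by
    rw [ht]
    calc Real.sqrt (n * (Δ + 1)) ≤ Real.sqrt (n * n) := Real.sqrt_le_sqrt (by gcongr)
      _ = n := by rw [← pow_two, Real.sqrt_sq hn0.le]
  have htn2 : t ^ 2 / n = Δ + 1 := by
    rw [ht2]
    field_simp
  have h1 := err_one hp hq hπ S n hn1 t ht0.le htn
  have h2 := err_two hp hq hπ S n hn1 t ht0.le htn
  rw [htn2] at h1 h2
  obtain ⟨η, hη⟩ : ∃ η : ℝ, η = Real.sqrt ((Δ + 1) / n) := ⟨_, rfl⟩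
  have hη0 : 0 < η := by rw [hη]; exact Real.sqrt_pos.2 (by positivity)
  have htη : t * η = Δ + 1 := by
    rw [ht, hη, ← Real.sqrt_mul (by positivity)]
    have : (n : ℝ) * (Δ + 1) * ((Δ + 1) / n) = (Δ + 1) ^ 2 := by field_simp
    rw [this, Real.sqrt_sq (by positivity)]
  obtain ⟨E1, hE1⟩ : ∃ E : ℝ, E = ∑ w : Fin n → G, ∑ s, Pr π q w s * ∑ x, p x * |Fa S w (x - s) - Fl q S x| :=
    ⟨_, rfl⟩
  obtain ⟨E2, hE2⟩ : ∃ E : ℝ, E = ∑ w : Fin n → G, ∑ s, Pr π q w s *
    ∑ z, cv (ng (post π q w)) p z * |Fa S w z - Fl q S (z + s)| := ⟨_, rfl⟩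
  rw [← hE1] at h1
  rw [← hE2] at h2
  have hE1' : E1 ≤ 2 * η := by
    have : t * E1 ≤ t * (2 * η) := by
      calc t * E1 ≤ 1 + (Δ + 1) := h1
        _ ≤ 2 * (Δ + 1) := by linarith
        _ = t * (2 * η) := by rw [← htη]; ring
    exact le_of_mul_le_mul_left this ht0
  have hE2' : E2 ≤ 2 * η := by
    have : t * E2 ≤ t * (2 * η) := by
      calc t * E2 ≤ Δ + (1 + (Δ + 1)) := by linarith
        _ = 2 * (Δ + 1) := by ring
        _ = t * (2 * η) := by rw [← htη]; ring
    exact le_of_mul_le_mul_left this ht0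
  -- the mean error
  obtain ⟨e, he⟩ : ∃ e : G → G → ℝ, e = fun s s' => ∑ x, p x * |Fl q S (x + s - s') - Fl q S x| := ⟨_, rfl⟩
  have he0 : ∀ s s', 0 ≤ e s s' := fun s s' => by
    rw [he]
    exact sum_nonneg fun x _ => mul_nonneg (hp.nonneg x) (abs_nonneg _)
  have hErr : ∑ w : Fin n → G, Vw π q w * ∑ s, post π q w s * ∑ s', post π q w s' * e s s' ≤ 4 * η := by
    have h3 : ∀ w : Fin n → G, Vw π q w * ∑ s, post π q w s * ∑ s', post π q w s' * e s s' ≤
        (∑ s, Pr π q w s * ∑ x, p x * |Fa S w (x - s) - Fl q S x|) +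
          ∑ s, Pr π q w s * ∑ z, cv (ng (post π q w)) p z * |Fa S w z - Fl q S (z + s)| := by
      intro w
      rcases (Vw_nonneg hπ hq w).eq_or_lt with h | h
      · have h0 : ∀ s, Pr π q w s = 0 := fun s =>
          (sum_eq_zero_iff_of_nonneg fun s _ => Pr_nonneg hπ hq w s).1 h.symm s (mem_univ s)
        rw [← h, zero_mul]
        simp [h0]
      · have hpost := isLaw_post hπ hq h
        have h4 : ∀ s s', e s s' ≤ (∑ x, p x * |Fa S w (x - s') - Fl q S x|) +
            ∑ x, p x * |Fa S w (x - s') - Fl q S (x - s' + s)| := by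
          intro s s'
          rw [he, ← sum_add_distrib]
          refine sum_le_sum fun x _ => ?_
          rw [← mul_add]
          refine mul_le_mul_of_nonneg_left ?_ (hp.nonneg x)
          have e1 : Fl q S (x + s - s') - Fl q S x =
              (Fa S w (x - s') - Fl q S x) - (Fa S w (x - s') - Fl q S (x - s' + s)) := by
            rw [show x - s' + s = x + s - s' by abel]
            ring
          rw [e1]
          exact abs_sub _ _
        calc Vw π q w * ∑ s, post π q w s * ∑ s', post π q w s' * e s s'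
            ≤ Vw π q w * ∑ s, post π q w s * ∑ s', post π q w s' *
              ((∑ x, p x * |Fa S w (x - s') - Fl q S x|) +
                ∑ x, p x * |Fa S w (x - s') - Fl q S (x - s' + s)|) := by
              refine mul_le_mul_of_nonneg_left ?_ h.le
              refine sum_le_sum fun s _ => mul_le_mul_of_nonneg_left ?_ (hpost.nonneg s)
              exact sum_le_sum fun s' _ => mul_le_mul_of_nonneg_left (h4 s s') (hpost.nonneg s')
          _ = _ := by
              simp_rw [mul_add, sum_add_distrib, mul_add, sum_add_distrib, mul_add]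
              congr 1
              · rw [← sum_mul, hpost.sum_one, one_mul, mul_sum]
                refine sum_congr rfl fun s _ => ?_
                rw [← mul_assoc, Vw_mul_post hπ hq]
              · rw [mul_sum]
                refine sum_congr rfl fun s _ => ?_
                rw [← mul_assoc, Vw_mul_post hπ hq]
                congr 1
                rw [sum_cv, ← Equiv.sum_comp (Equiv.neg G)]
                refine sum_congr rfl fun s' _ => ?_
                rw [Equiv.neg_apply]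
                unfold ng
                congr 1
                refine sum_congr rfl fun x _ => ?_
                rw [sub_neg_eq_add]
    refine (sum_le_sum fun w _ => h3 w).trans ?_
    rw [sum_add_distrib, ← hE1, ← hE2]
    linarith
  -- selection
  obtain ⟨w, hw, hw1, hw2⟩ := select (fun w : Fin n → G => Vw π q w)
    (fun w => ∑ s, post π q w s * (Real.log (post π q w s) - Real.log (π s)))
    (fun w => ∑ s, post π q w s * ∑ s', post π q w s' * e s s') (fun w => Vw_nonneg hπ hq w) (sum_Vw hπ hq)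
    (fun w hw => kl_nonneg (isLaw_post hπ hq hw) hπ fun s hs => post_supp hs)
    (fun w hw => sum_nonneg fun s _ => mul_nonneg ((isLaw_post hπ hq hw).nonneg s)
      (sum_nonneg fun s' _ => mul_nonneg ((isLaw_post hπ hq hw).nonneg s') (he0 s s')))
    A (4 * η) hA (by positivity) ((info hπ hq n).trans hnA) hErr
  obtain ⟨ν, hν1, hν2, hν3⟩ := trunc (isLaw_post hπ hq hw) hπ (fun s hs => post_supp hs) A hA hw1 e he0
  refine ⟨ν, hν1, hν2, ?_⟩
  rw [he] at hν3 hw2
  refine hν3.trans ?_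
  rw [← hη]
  linarith

end Pool.Agent.V8H19.AP
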