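import Pool.Agent.V8H19.AP.Ext
import Pool.Agent.V8H19.AP.Step

/-!
# The levels and the final smoothing steps
-/

set_option autoImplicit false
set_option linter.unusedSectionVars false

namespace Pool.Agent.V8H19.AP

open Finset
open scoped Pointwise

variable {G : Type} [AddCommGroup G] [Fintype G] [DecidableEq G]

theorem uf_supp {S₀ : Finset G} {s : G} (h : uf S₀ s ≠ 0) : s ∈ S₀ := by
  by_contra hs
  apply h
  unfold uf
  rw [if_neg hs]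

theorem supp_of_le {ν : G → ℝ} (hν : IsLaw ν) {S₀ : Finset G} {c : ℝ} (h : ∀ s, ν s ≤ c * uf S₀ s) (s : G)
    (hs : ν s ≠ 0) : s ∈ S₀ := by
  apply uf_supp
  intro h0
  have h1 := h s
  rw [h0, mul_zero] at h1
  exact hs (le_antisymm h1 (hν.nonneg s))

/-- the harm of a smoothing -/
theorem harm_le {p q ν : G → ℝ} (hν : IsLaw ν) (S : Finset G) (h : ℝ)
    (he : ∑ s, ν s * ∑ s', ν s' * ∑ x, p x * |Fl q S (x + s - s') - Fl q S x| ≤ h) (hp : IsLaw p) :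
    Ph p q S - Ph (sm ν p) q S ≤ h := by
  refine le_trans ?_ he
  have h1 : Ph p q S = ∑ s, ν s * ∑ s', ν s' * ∑ x, p x * Fl q S x := by
    rw [← sum_mul, ← sum_mul, hν.sum_one, one_mul, one_mul]
    rfl
  rw [Ph_sm, h1, ← sum_sub_distrib]
  refine sum_le_sum fun s _ => ?_
  rw [← mul_sub, ← sum_sub_distrib]
  refine mul_le_mul_of_nonneg_left ?_ (hν.nonneg s)
  refine sum_le_sum fun s' _ => ?_
  rw [← mul_sub, ← sum_sub_distrib]
  refine mul_le_mul_of_nonneg_left ?_ (hν.nonneg s')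
  refine sum_le_sum fun x _ => ?_
  rw [← mul_sub]
  refine mul_le_mul_of_nonneg_left ?_ (hp.nonneg x)
  have := neg_abs_le (Fl q S (x + s - s') - Fl q S x)
  linarith

/-- a numeric form of the step -/
theorem step_num {p q π : G → ℝ} (hp : IsLaw p) (hq : IsLaw q) (hπ : IsLaw π) (S : Finset G) (ΔX ΔY h A : ℝ)
    (hΔX : 0 ≤ ΔX) (hΔY : 0 < ΔY) (hX : Ent (cv (ng π) p) - Ent p ≤ ΔX) (hY : Ent (cv π q) - Ent q ≤ ΔY)
    (hh : 0 < h) (hh1 : h ≤ 1) (hA : ((32 / h) ^ 2 * (ΔX + 1) + 1) * ΔY ≤ A) :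
    ∃ ν : G → ℝ, IsLaw ν ∧ (∀ s, ν s ≤ Real.exp (4 * A + 3) * π s) ∧ Ph p q S - Ph (sm ν p) q S ≤ h := by
  obtain ⟨n, hn⟩ : ∃ n : ℕ, n = ⌈(32 / h) ^ 2 * (ΔX + 1)⌉₊ := ⟨_, rfl⟩
  have h32 : 1 ≤ 32 / h := by
    rw [le_div_iff₀ hh]
    linarith
  have h322 : 1 ≤ (32 / h) ^ 2 := one_le_pow₀ h32
  have hn1 : (32 / h) ^ 2 * (ΔX + 1) ≤ n := by rw [hn]; exact Nat.le_ceil _
  have hn2 : (n : ℝ) ≤ (32 / h) ^ 2 * (ΔX + 1) + 1 := by
    rw [hn]
    exact (Nat.ceil_lt_add_one (by positivity)).le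
  have hn3 : ΔX + 1 ≤ n := by nlinarith
  have hn0 : (0 : ℝ) < n := by linarith
  have hA0 : 0 < A := lt_of_lt_of_le (by positivity) hA
  obtain ⟨ν, h1, h2, h3⟩ := step hp hq hπ S n A ΔX hA0 (by
    calc (n : ℝ) * (Ent (cv π q) - Ent q) ≤ n * ΔY := by gcongr
      _ ≤ ((32 / h) ^ 2 * (ΔX + 1) + 1) * ΔY := by gcongr
      _ ≤ A := hA) hΔX hX hn3
  refine ⟨ν, h1, h2, harm_le h1 S h (h3.trans ?_) hp⟩
  have h4 : (ΔX + 1) / n ≤ (h / 32) ^ 2 := by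
    rw [div_le_iff₀ hn0]
    have h5 : (h / 32) ^ 2 * ((32 / h) ^ 2 * (ΔX + 1)) = ΔX + 1 := by field_simp
    calc ΔX + 1 = (h / 32) ^ 2 * ((32 / h) ^ 2 * (ΔX + 1)) := h5.symm
      _ ≤ (h / 32) ^ 2 * n := by gcongr
  calc 32 * Real.sqrt ((ΔX + 1) / n) ≤ 32 * Real.sqrt ((h / 32) ^ 2) := by gcongr
    _ = h := by rw [Real.sqrt_sq (by positivity)]; ring

/-- **the levels** -/
theorem levels {p q : G → ℝ} (hp : IsLaw p) (hq : IsLaw q) (S S₀ : Finset G) (hS₀ : S₀.Nonempty) (a b : ℝ)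
    (ha : 1 ≤ a) (hb : 1 ≤ b)
    (H1 : ∀ π : G → ℝ, IsLaw π → (∀ s, π s ≠ 0 → s ∈ S₀) → Ent (cv (ng π) p) - Ent p ≤ a)
    (H2 : ∀ π : G → ℝ, IsLaw π → (∀ s, π s ≠ 0 → s ∈ S₀) → Ent (cv π q) - Ent q ≤ b)
    (H3 : ∀ ν : G → ℝ, IsLaw ν → (∀ s, ν s ≠ 0 → s ∈ S₀) →
        Ent (sm ν p) - Ent p ≤ 20 * a * (Ph p q S - Ph (sm ν p) q S) + 1 / 20)
    (H4 : ∀ ν : G → ℝ, IsLaw ν → (∀ s, ν s ≠ 0 → s ∈ S₀) →
        Ent (sm ν q) - Ent q ≤ 20 * b * (Ph p q S - Ph (sm ν p) q S) + 1 / 20)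
    (J : ℕ) (hJa : (2 : ℝ) ^ J ≤ 10 * a) (hJb : (2 : ℝ) ^ J ≤ 10 * b) :
    ∃ π : G → ℝ, IsLaw π ∧ (∀ s, π s ≤ Real.exp (160000000 * J * (a * b)) * uf S₀ s) ∧
      Ent (cv (ng π) p) - Ent p ≤ a / 2 ^ J ∧ Ent (cv π q) - Ent q ≤ b / 2 ^ J := by
  induction J with
  | zero =>
    refine ⟨uf S₀, isLaw_uf hS₀, fun s => ?_, ?_, ?_⟩
    · simp
    · rw [pow_zero, div_one]
      exact H1 _ (isLaw_uf hS₀) fun s hs => uf_supp hs
    · rw [pow_zero, div_one]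
      exact H2 _ (isLaw_uf hS₀) fun s hs => uf_supp hs
  | succ J ih =>
    have h2J : (1 : ℝ) ≤ 2 ^ J := one_le_pow₀ (by norm_num)
    have h2J0 : (0 : ℝ) < 2 ^ J := by positivity
    rw [pow_succ] at hJa hJb
    obtain ⟨π, h1, h2, h3, h4⟩ := ih (by linarith) (by linarith)
    have ha' : 1 ≤ 5 * (a / 2 ^ J) := by
      rw [← mul_div_assoc, le_div_iff₀ h2J0]
      linarith
    have hb' : 1 ≤ 5 * (b / 2 ^ J) := by
      rw [← mul_div_assoc, le_div_iff₀ h2J0]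
      linarith
    have hab : 1 ≤ a * b := by nlinarith
    obtain ⟨ν, h5, h6, h7⟩ := step_num hp hq h1 S (a / 2 ^ J) (b / 2 ^ J) (1 / (80 * 2 ^ J)) (39321601 * (a * b))
      (by positivity) (by positivity) h3 h4 (by positivity) (by
        rw [div_le_one (by positivity)]
        linarith) (by
        have e1 : (32 / (1 / (80 * 2 ^ J)) : ℝ) ^ 2 = 6553600 * (2 ^ J * 2 ^ J) := by
          field_simp
          norm_num
        rw [e1]
        have e2 : 6553600 * (2 ^ J * 2 ^ J) * (a / 2 ^ J + 1) + 1 ≤ 39321601 * 2 ^ J * a := by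
          have e3 : 6553600 * (2 ^ J * 2 ^ J) * (a / 2 ^ J + 1) ≤
              6553600 * (2 ^ J * 2 ^ J) * (a / 2 ^ J + 5 * (a / 2 ^ J)) := by gcongr
          have e4 : 6553600 * (2 ^ J * 2 ^ J) * (a / 2 ^ J + 5 * (a / 2 ^ J)) = 39321600 * 2 ^ J * a := by
            field_simp
            ring
          have e5 : 1 ≤ 2 ^ J * a := by nlinarith
          linarith
        calc (6553600 * (2 ^ J * 2 ^ J) * (a / 2 ^ J + 1) + 1) * (b / 2 ^ J) ≤ 39321601 * 2 ^ J * a * (b / 2 ^ J) := by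
              gcongr
          _ = 39321601 * (a * b) := by field_simp)
    have h6' : ∀ s, ν s ≤ Real.exp (160000000 * (J + 1 : ℕ) * (a * b)) * uf S₀ s := by
      intro s
      have hu : 0 ≤ uf S₀ s := (isLaw_uf hS₀).nonneg s
      refine (h6 s).trans ?_
      calc Real.exp (4 * (39321601 * (a * b)) + 3) * π s
          ≤ Real.exp (4 * (39321601 * (a * b)) + 3) * (Real.exp (160000000 * J * (a * b)) * uf S₀ s) := by
            gcongr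
            exact h2 s
        _ = Real.exp (4 * (39321601 * (a * b)) + 3 + 160000000 * J * (a * b)) * uf S₀ s := by
            rw [← mul_assoc, ← Real.exp_add]
        _ ≤ Real.exp (160000000 * (J + 1 : ℕ) * (a * b)) * uf S₀ s := by
            gcongr
            push_cast
            linarith
    have hνS := supp_of_le h5 h6'
    refine ⟨ν, h5, h6', ?_, ?_⟩
    · have h8 := H3 ν h5 hνS
      have h9 : Ent (cv (ng ν) p) ≤ Ent (sm ν p) := Ent_cv_ge h5 (isLaw_cv (isLaw_ng h5) hp)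
      have h10 : 20 * a * (Ph p q S - Ph (sm ν p) q S) ≤ 20 * a * (1 / (80 * 2 ^ J)) := by gcongr
      have h11 : 20 * a * (1 / (80 * 2 ^ J)) = a / 2 ^ J / 4 := by field_simp; norm_num
      have h12 : a / 2 ^ (J + 1) = a / 2 ^ J / 2 := by rw [pow_succ]; field_simp
      rw [h12]
      linarith
    · have h8 := H4 ν h5 hνS
      have h9 : Ent (cv ν q) ≤ Ent (sm ν q) := by
        unfold sm
        rw [cv_left_comm]
        exact Ent_cv_ge (isLaw_ng h5) (isLaw_cv h5 hq)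
      have h10 : 20 * b * (Ph p q S - Ph (sm ν p) q S) ≤ 20 * b * (1 / (80 * 2 ^ J)) := by gcongr
      have h11 : 20 * b * (1 / (80 * 2 ^ J)) = b / 2 ^ J / 4 := by field_simp; norm_num
      have h12 : b / 2 ^ (J + 1) = b / 2 ^ J / 2 := by rw [pow_succ]; field_simp
      rw [h12]
      linarith

/-- **the final steps** -/
theorem finals {p q π : G → ℝ} (hp : IsLaw p) (hq : IsLaw q) (hπ : IsLaw π) (S : Finset G) (ΔX ΔY h A : ℝ)
    (hΔX : 0 ≤ ΔX) (hΔY : 0 < ΔY) (hX : Ent (cv (ng π) p) - Ent p ≤ ΔX) (hY : Ent (cv π q) - Ent q ≤ ΔY)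
    (hh : 0 < h) (hh1 : h ≤ 1) (hA : ((32 / h) ^ 2 * (ΔX + 1) + 1) * ΔY ≤ A) :
    ∃ ν P : ℕ → G → ℝ, P 0 = p ∧ (∀ j, IsLaw (P j)) ∧ (∀ j, P (j + 1) = sm (ν j) (P j)) ∧
      (∀ j, IsLaw (ν j) ∧ ∀ s, ν j s ≤ Real.exp (4 * A + 3) * π s) ∧
      ∀ j : ℕ, Ph p q S - j * h ≤ Ph (P j) q S := by
  have h1 : ∀ r : {P : G → ℝ // IsLaw P ∧ Ent (cv (ng π) P) - Ent P ≤ ΔX}, ∃ ν : G → ℝ, IsLaw ν ∧
      (∀ s, ν s ≤ Real.exp (4 * A + 3) * π s) ∧ Ph r.1 q S - Ph (sm ν r.1) q S ≤ h := by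
    rintro ⟨P, hP, hPX⟩
    exact step_num hP hq hπ S ΔX ΔY h A hΔX hΔY hPX hY hh hh1 hA
  choose Φ hΦ1 hΦ2 hΦ3 using h1
  let nxt : {P : G → ℝ // IsLaw P ∧ Ent (cv (ng π) P) - Ent P ≤ ΔX} →
      {P : G → ℝ // IsLaw P ∧ Ent (cv (ng π) P) - Ent P ≤ ΔX} := fun r =>
    ⟨sm (Φ r) r.1, isLaw_sm (hΦ1 r) r.2.1, (submod_sm (isLaw_ng hπ) (hΦ1 r) r.2.1).trans r.2.2⟩
  let st : ℕ → {P : G → ℝ // IsLaw P ∧ Ent (cv (ng π) P) - Ent P ≤ ΔX} := fun j => nxt^[j] ⟨p, hp, hX⟩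
  have hst : ∀ j, st (j + 1) = nxt (st j) := fun j => Function.iterate_succ_apply' nxt j _
  refine ⟨fun j => Φ (st j), fun j => (st j).1, rfl, fun j => (st j).2.1, fun j => ?_,
    fun j => ⟨hΦ1 _, hΦ2 _⟩, fun j => ?_⟩
  · beta_reduce
    rw [hst j]
  · beta_reduce
    induction j with
    | zero => simp [st]
    | succ j ih =>
      have h2 := hΦ3 (st j)
      have h3 : (st (j + 1)).1 = sm (Φ (st j)) (st j).1 := by rw [hst j]
      rw [h3]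
      push_cast
      linarith

end Pool.Agent.V8H19.AP
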