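import Mathlib

/-!
# Moments of a sum of independent samples of a weighted law

For a law `h` on a finite type and `f : G → [0, 1]` with mean `F` the `2m`-th moment of the centered sum of
`n ≥ m` independent samples of `f` is at most `(12 m n)^m F`. The factor `F` is what matters later.
-/

set_option autoImplicit false

namespace Pool.Agent.V8H19.AP

open Finset

/-- `h` is the mass function of a probability measure -/
structure IsLaw {G : Type} [Fintype G] (h : G → ℝ) : Prop where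
  nonneg : ∀ x, 0 ≤ h x
  sum_one : ∑ x, h x = 1

/-- the weight of a tuple of independent samples -/
def W {G : Type} (h : G → ℝ) {n : ℕ} (u : Fin n → G) : ℝ := ∏ i, h (u i)

section basic

variable {G : Type} [Fintype G]

theorem W_nonneg {h : G → ℝ} (hh : IsLaw h) {n : ℕ} (u : Fin n → G) : 0 ≤ W h u :=
  prod_nonneg fun i _ => hh.nonneg (u i)

theorem sum_prod (n : ℕ) (φ : Fin n → G → ℝ) : ∑ u : Fin n → G, ∏ i, φ i (u i) = ∏ i, ∑ b, φ i b := by
  classical
  rw [Finset.prod_univ_sum]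
  simp

theorem sum_W {h : G → ℝ} (hh : IsLaw h) (n : ℕ) : ∑ u : Fin n → G, W h u = 1 := by
  unfold W
  rw [sum_prod n fun _ => h]
  simp [hh.sum_one]

/-- the marginals of the product law -/
theorem sum_W_marg {h : G → ℝ} (hh : IsLaw h) (n : ℕ) (φ : G → ℝ) (i : Fin n) :
    ∑ u : Fin n → G, W h u * φ (u i) = ∑ b, h b * φ b := by
  classical
  have h1 : ∀ u : Fin n → G, W h u * φ (u i) = ∏ j, (if j = i then h (u j) * φ (u j) else h (u j)) := by
    intro u
    unfold W
    rw [← mul_prod_erase univ (fun j => h (u j)) (mem_univ i),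
      ← mul_prod_erase univ (fun j => if j = i then h (u j) * φ (u j) else h (u j)) (mem_univ i), if_pos rfl]
    rw [prod_congr rfl (g := fun j => h (u j)) fun j hj => if_neg (ne_of_mem_erase hj)]
    ring
  simp_rw [h1]
  rw [sum_prod n fun j b => if j = i then h b * φ b else h b,
    ← mul_prod_erase univ (fun j => ∑ b, if j = i then h b * φ b else h b) (mem_univ i)]
  rw [prod_eq_one, mul_one]
  · simp
  · intro j hj
    have : ∀ b, (if j = i then h b * φ b else h b) = h b := fun b => if_neg (ne_of_mem_erase hj)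
    simp_rw [this]
    exact hh.sum_one

end basic

theorem two_fact (n : ℕ) (hn : 2 ≤ n) : 2 * n.factorial ≤ n ^ n := by
  induction n, hn using Nat.le_induction with
  | base => decide
  | succ n hn ih =>
    rw [Nat.factorial_succ, pow_succ]
    calc 2 * ((n + 1) * n.factorial) = (2 * n.factorial) * (n + 1) := by ring
      _ ≤ n ^ n * (n + 1) := Nat.mul_le_mul_right _ ih
      _ ≤ (n + 1) ^ n * (n + 1) := Nat.mul_le_mul_right _ (Nat.pow_le_pow_left (by omega) _)

/-- `x^(2m) / (2m)! ≤ e^x + e^(-x) - 2` -/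
theorem pow_le_cosh (x : ℝ) (m : ℕ) (hm : 1 ≤ m) :
    x ^ (2 * m) / (2 * m).factorial ≤ Real.exp x + Real.exp (-x) - 2 := by
  have key : ∀ y : ℝ, 0 ≤ y → y ^ (2 * m) / (2 * m).factorial ≤ Real.exp y + Real.exp (-y) - 2 := by
    intro y hy
    have h1 := Real.sum_le_exp_of_nonneg hy (2 * m + 1)
    have h2 : (1 : ℝ) + y + y ^ (2 * m) / (2 * m).factorial ≤ ∑ i ∈ range (2 * m + 1), y ^ i / i.factorial := by
      rw [sum_range_succ]
      have h3 : (1 : ℝ) + y ≤ ∑ i ∈ range (2 * m), y ^ i / i.factorial := by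
        have h4 : ∑ i ∈ range 2, y ^ i / (i.factorial : ℝ) = 1 + y := by
          simp [sum_range_succ]
        rw [← h4]
        apply sum_le_sum_of_subset_of_nonneg
        · exact range_subset_range.2 (by omega)
        · intro i _ _
          positivity
      linarith
    have h3 := Real.add_one_le_exp (-y)
    linarith
  rcases le_total 0 x with h | h
  · exact key x h
  · have h1 := key (-x) (by linarith)
    rw [neg_neg] at h1
    have h2 : (-x) ^ (2 * m) = x ^ (2 * m) := Even.neg_pow (even_two_mul m) x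
    rw [h2] at h1
    linarith

theorem exp_le_quad (x : ℝ) (hx : |x| ≤ 1) : Real.exp x ≤ 1 + x + x ^ 2 := by
  have := Real.abs_exp_sub_one_sub_id_le hx
  have := abs_le.1 this
  linarith [this.2]

/-- convexity -/
theorem exp_conv (a F : ℝ) (h0 : 0 ≤ F) (h1 : F ≤ 1) : Real.exp (F * a) - 1 ≤ F * (Real.exp a - 1) := by
  have h := convexOn_exp.2 (Set.mem_univ a) (Set.mem_univ 0) h0 (by linarith : 0 ≤ 1 - F) (by ring)
  simp only [smul_eq_mul, mul_zero, add_zero, Real.exp_zero, mul_one] at h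
  linarith

section mom

variable {G : Type} [Fintype G]

/-- the exponential moment -/
theorem exp_mom {h : G → ℝ} (hh : IsLaw h) (f : G → ℝ) (hf0 : ∀ x, 0 ≤ f x) (hf1 : ∀ x, f x ≤ 1) (F : ℝ)
    (hF : F = ∑ b, h b * f b) (t : ℝ) (ht : |t| ≤ 1) (n : ℕ) :
    ∑ u : Fin n → G, W h u * Real.exp (t * ∑ i, (f (u i) - F)) ≤ Real.exp (n * (t ^ 2 * F)) := by
  have hF0 : 0 ≤ F := by rw [hF]; exact sum_nonneg fun b _ => mul_nonneg (hh.nonneg b) (hf0 b)
  have hF1 : F ≤ 1 := by
    rw [hF, ← hh.sum_one]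
    exact sum_le_sum fun b _ => mul_le_of_le_one_right (hh.nonneg b) (hf1 b)
  have h1 : ∀ u : Fin n → G, W h u * Real.exp (t * ∑ i, (f (u i) - F)) =
      ∏ i, (h (u i) * Real.exp (t * (f (u i) - F))) := by
    intro u
    rw [prod_mul_distrib, ← Real.exp_sum, mul_sum]
    rfl
  simp_rw [h1]
  rw [sum_prod n fun _ b => h b * Real.exp (t * (f b - F)), prod_const, card_univ, Fintype.card_fin,
    Real.exp_nat_mul]
  apply pow_le_pow_left₀ (sum_nonneg fun b _ => mul_nonneg (hh.nonneg b) (Real.exp_pos _).le)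
  have h2 : ∑ b, h b * Real.exp (t * (f b - F)) ≤ 1 + t ^ 2 * F := by
    calc ∑ b, h b * Real.exp (t * (f b - F)) ≤
        ∑ b, h b * (1 + t * (f b - F) + (t * (f b - F)) ^ 2) := by
          refine sum_le_sum fun b _ => mul_le_mul_of_nonneg_left (exp_le_quad _ ?_) (hh.nonneg b)
          rw [abs_mul]
          have : |f b - F| ≤ 1 := by
            rw [abs_le]
            constructor <;> linarith [hf0 b, hf1 b]
          calc |t| * |f b - F| ≤ 1 * 1 := mul_le_mul ht this (abs_nonneg _) zero_le_one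
            _ = 1 := one_mul 1
      _ ≤ ∑ b, (h b * 1 + t * (h b * f b) - t * F * h b + t ^ 2 * (h b * f b - 2 * F * (h b * f b) + F ^ 2 * h b)) := by
          refine sum_le_sum fun b _ => ?_
          have h3 : f b ^ 2 ≤ f b := by nlinarith [hf0 b, hf1 b]
          have h4 : 0 ≤ t ^ 2 * h b := mul_nonneg (sq_nonneg t) (hh.nonneg b)
          nlinarith [mul_le_mul_of_nonneg_left h3 h4]
      _ = 1 + t ^ 2 * (F - F ^ 2) := by
          rw [sum_add_distrib, sum_sub_distrib, sum_add_distrib, ← mul_sum, ← mul_sum, ← mul_sum, sum_add_distrib,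
            sum_sub_distrib, ← mul_sum, ← mul_sum, ← sum_mul, ← hF, hh.sum_one]
          ring
      _ ≤ _ := by nlinarith [sq_nonneg t, sq_nonneg F, mul_nonneg (sq_nonneg t) (sq_nonneg F)]
  refine h2.trans ?_
  have := Real.add_one_le_exp (t ^ 2 * F)
  linarith

/-- **moments of a sum of independent samples** -/
theorem mom {h : G → ℝ} (hh : IsLaw h) (f : G → ℝ) (hf0 : ∀ x, 0 ≤ f x) (hf1 : ∀ x, f x ≤ 1) (F : ℝ)
    (hF : F = ∑ b, h b * f b) (m n : ℕ) (hm : 1 ≤ m) (hmn : m ≤ n) :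
    ∑ u : Fin n → G, W h u * (∑ i, (f (u i) - F)) ^ (2 * m) ≤ (12 * m * n : ℝ) ^ m * F := by
  have hF0 : 0 ≤ F := by rw [hF]; exact sum_nonneg fun b _ => mul_nonneg (hh.nonneg b) (hf0 b)
  have hF1 : F ≤ 1 := by
    rw [hF, ← hh.sum_one]
    exact sum_le_sum fun b _ => mul_le_of_le_one_right (hh.nonneg b) (hf1 b)
  have hmR : (1 : ℝ) ≤ m := by exact_mod_cast hm
  have hmnR : (m : ℝ) ≤ n := by exact_mod_cast hmn
  have hnR : (1 : ℝ) ≤ n := hmR.trans hmnR
  have hn0 : (0 : ℝ) < n := by linarith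
  obtain ⟨t, ht⟩ : ∃ t : ℝ, t = √(m / n) := ⟨_, rfl⟩
  have ht2 : t ^ 2 = m / n := by rw [ht]; exact Real.sq_sqrt (by positivity)
  have ht0 : 0 ≤ t := by rw [ht]; exact Real.sqrt_nonneg _
  have ht1 : |t| ≤ 1 := by
    rw [abs_of_nonneg ht0, ht]
    refine Real.sqrt_le_one.2 ?_
    rwa [div_le_one hn0]
  have e1 := exp_mom hh f hf0 hf1 F hF t ht1 n
  have e2 := exp_mom hh f hf0 hf1 F hF (-t) (by rwa [abs_neg]) n
  have e3 : (n : ℝ) * (t ^ 2 * F) = F * m := by
    rw [ht2]; field_simp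
  rw [neg_sq] at e2
  rw [e3] at e1 e2
  have e4 := exp_conv m F hF0 hF1
  obtain ⟨P, hP⟩ : ∃ P : ℝ, P = ∑ u : Fin n → G, W h u * (∑ i, (f (u i) - F)) ^ (2 * m) := ⟨_, rfl⟩
  rw [← hP]
  have hfpos : (0 : ℝ) < ((2 * m).factorial : ℝ) := by exact_mod_cast Nat.factorial_pos _
  have e5 : (t ^ 2) ^ m / ((2 * m).factorial : ℝ) * P ≤ 2 * (F * Real.exp m) := by
    calc (t ^ 2) ^ m / ((2 * m).factorial : ℝ) * P
        = ∑ u : Fin n → G, W h u * ((t * ∑ i, (f (u i) - F)) ^ (2 * m) / ((2 * m).factorial : ℝ)) := by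
          rw [hP, mul_sum]
          refine sum_congr rfl fun u _ => ?_
          rw [mul_pow, ← pow_mul]
          ring
      _ ≤ ∑ u : Fin n → G, W h u * (Real.exp (t * ∑ i, (f (u i) - F)) + Real.exp (-t * ∑ i, (f (u i) - F)) - 2) := by
          refine sum_le_sum fun u _ => mul_le_mul_of_nonneg_left ?_ (W_nonneg hh u)
          have := pow_le_cosh (t * ∑ i, (f (u i) - F)) m hm
          rwa [← neg_mul] at this
      _ = ∑ u : Fin n → G, W h u * Real.exp (t * ∑ i, (f (u i) - F)) +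
          ∑ u : Fin n → G, W h u * Real.exp (-t * ∑ i, (f (u i) - F)) - 2 * ∑ u : Fin n → G, W h u := by
          rw [mul_sum, ← sum_add_distrib, ← sum_sub_distrib]
          refine sum_congr rfl fun u _ => ?_
          ring
      _ ≤ Real.exp (F * m) + Real.exp (F * m) - 2 * 1 := by
          rw [sum_W hh]
          linarith
      _ ≤ _ := by nlinarith [Real.exp_pos (m : ℝ)]
  have hfact : 2 * ((2 * m).factorial : ℝ) ≤ (2 * m : ℝ) ^ (2 * m) := by
    exact_mod_cast two_fact (2 * m) (by omega)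
  have htpos : 0 < (t ^ 2) ^ m := by rw [ht2]; positivity
  have he : Real.exp m = Real.exp 1 ^ m := by
    rw [← Real.exp_nat_mul, mul_one]
  have he3 : Real.exp 1 ≤ 3 := by linarith [Real.exp_one_lt_d9]
  have e6 : (t ^ 2) ^ m * P ≤ (2 * m : ℝ) ^ (2 * m) * (F * Real.exp m) := by
    have h1 : (t ^ 2) ^ m * P = ((2 * m).factorial : ℝ) * ((t ^ 2) ^ m / ((2 * m).factorial : ℝ) * P) := by
      field_simp
    rw [h1]
    calc ((2 * m).factorial : ℝ) * ((t ^ 2) ^ m / ((2 * m).factorial : ℝ) * P)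
        ≤ ((2 * m).factorial : ℝ) * (2 * (F * Real.exp m)) := mul_le_mul_of_nonneg_left e5 hfpos.le
      _ = (2 * ((2 * m).factorial : ℝ)) * (F * Real.exp m) := by ring
      _ ≤ _ := mul_le_mul_of_nonneg_right hfact (by positivity)
  have e7 : (2 * m : ℝ) ^ (2 * m) * (F * Real.exp m) ≤ (t ^ 2) ^ m * ((12 * m * n : ℝ) ^ m * F) := by
    have h2 : (2 * m : ℝ) ^ (2 * m) = (t ^ 2) ^ m * (4 * m * n) ^ m := by
      rw [pow_mul, ← mul_pow, ht2]
      congr 1
      field_simp
      norm_num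
    rw [h2, he]
    have h3 : (4 * m * n : ℝ) ^ m * Real.exp 1 ^ m ≤ (12 * m * n) ^ m := by
      rw [← mul_pow]
      apply pow_le_pow_left₀ (by positivity)
      nlinarith [mul_nonneg (by linarith : (0 : ℝ) ≤ m) (by linarith : (0 : ℝ) ≤ n)]
    calc (t ^ 2) ^ m * (4 * m * n : ℝ) ^ m * (F * Real.exp 1 ^ m)
        = (t ^ 2) ^ m * (((4 * m * n : ℝ) ^ m * Real.exp 1 ^ m) * F) := by ring
      _ ≤ _ := by
        apply mul_le_mul_of_nonneg_left _ htpos.le
        exact mul_le_mul_of_nonneg_right h3 hF0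
  exact le_of_mul_le_mul_left (e6.trans e7) htpos

end mom

end Pool.Agent.V8H19.AP
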