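import Pool.Agent.V8H19.AP.Law

/-!
# Almost periods in the mean

`p`, `q`, `π` are laws. A sample `s` of `π` is observed through the noise of `n` samples of `q`: `w_i = b_i + s`.
Two independent samples `s`, `s'` of the posterior law of `s` given `w` satisfy
`E |F (x + s - s') - F x| ≤ C √((Δ + 1) / n)` for the law `p` of `x`, where `F x` is the probability of `x + b ∈ S` and
`Δ` is the increment of the entropy of `p` under smoothing by `- s`. The information in `w` about `s` is at most `n`
times the increment of the entropy of `q` under smoothing by `s`.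
-/

set_option autoImplicit false
set_option linter.unusedSectionVars false

namespace Pool.Agent.V8H19.AP

open Finset

variable {G : Type} [AddCommGroup G] [Fintype G] [DecidableEq G]

/-- the joint law of `w` and `s` -/
noncomputable def Pr (π q : G → ℝ) {n : ℕ} (w : Fin n → G) (s : G) : ℝ := π s * W q fun i => w i - s

/-- the law of `w` -/
noncomputable def Vw (π q : G → ℝ) {n : ℕ} (w : Fin n → G) : ℝ := ∑ s, Pr π q w s

/-- the posterior law -/
noncomputable def post (π q : G → ℝ) {n : ℕ} (w : Fin n → G) (s : G) : ℝ := Pr π q w s / Vw π q w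

theorem Pr_nonneg {π q : G → ℝ} (hπ : IsLaw π) (hq : IsLaw q) {n : ℕ} (w : Fin n → G) (s : G) : 0 ≤ Pr π q w s :=
  mul_nonneg (hπ.nonneg s) (W_nonneg hq _)

theorem Vw_nonneg {π q : G → ℝ} (hπ : IsLaw π) (hq : IsLaw q) {n : ℕ} (w : Fin n → G) : 0 ≤ Vw π q w :=
  sum_nonneg fun s _ => Pr_nonneg hπ hq w s

/-- the change of variables `w = u + s` -/
theorem sum_Pr (π q : G → ℝ) {n : ℕ} (s : G) (φ : (Fin n → G) → ℝ) :
    ∑ w, Pr π q w s * φ w = π s * ∑ u : Fin n → G, W q u * φ fun i => u i + s := by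
  unfold Pr
  rw [mul_sum, ← Equiv.sum_comp (Equiv.addRight (fun _ : Fin n => s))]
  refine sum_congr rfl fun u _ => ?_
  rw [Equiv.coe_addRight]
  have : (fun i => (u + fun _ : Fin n => s) i - s) = u := by
    funext i
    rw [Pi.add_apply, add_sub_cancel_right]
  rw [this, mul_assoc]
  rfl

theorem sum_Pr_one {π q : G → ℝ} (hq : IsLaw q) {n : ℕ} (s : G) : ∑ w : Fin n → G, Pr π q w s = π s := by
  have := sum_Pr π q (n := n) s fun _ => 1
  simp only [mul_one] at this
  rw [this, sum_W hq, mul_one]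

theorem sum_Vw {π q : G → ℝ} (hπ : IsLaw π) (hq : IsLaw q) {n : ℕ} : ∑ w : Fin n → G, Vw π q w = 1 := by
  unfold Vw
  rw [sum_comm]
  simp_rw [sum_Pr_one hq]
  exact hπ.sum_one

theorem Vw_mul_post {π q : G → ℝ} (hπ : IsLaw π) (hq : IsLaw q) {n : ℕ} (w : Fin n → G) (s : G) :
    Vw π q w * post π q w s = Pr π q w s := by
  rcases (Vw_nonneg hπ hq w).eq_or_lt with h | h
  · rw [← h, zero_mul]
    exact ((sum_eq_zero_iff_of_nonneg fun s _ => Pr_nonneg hπ hq w s).1 h.symm s (mem_univ s)).symm
  · unfold post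
    rw [mul_div_cancel₀ _ h.ne']

theorem isLaw_post {π q : G → ℝ} (hπ : IsLaw π) (hq : IsLaw q) {n : ℕ} {w : Fin n → G} (h : 0 < Vw π q w) :
    IsLaw (post π q w) := by
  constructor
  · intro s
    exact div_nonneg (Pr_nonneg hπ hq w s) h.le
  · unfold post
    rw [← sum_div]
    exact div_self h.ne'

theorem post_supp {π q : G → ℝ} {n : ℕ} {w : Fin n → G} {s : G} (h : post π q w s ≠ 0) : π s ≠ 0 := by
  intro h0
  apply h
  unfold post Pr
  rw [h0, zero_mul, zero_div]

/-- the information in `w` about `s` -/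
theorem info {π q : G → ℝ} (hπ : IsLaw π) (hq : IsLaw q) (n : ℕ) :
    ∑ w : Fin n → G, Vw π q w * ∑ s, post π q w s * (Real.log (post π q w s) - Real.log (π s)) ≤
      n * (Ent (cv π q) - Ent q) := by
  have hm := isLaw_cv hπ hq
  -- rewriting
  have h1 : ∀ w : Fin n → G, Vw π q w * ∑ s, post π q w s * (Real.log (post π q w s) - Real.log (π s)) =
      ∑ s, Pr π q w s * (∑ i, Real.log (q (w i - s))) - Vw π q w * Real.log (Vw π q w) := by
    intro w
    have e1 : Vw π q w * Real.log (Vw π q w) = ∑ s, Pr π q w s * Real.log (Vw π q w) := by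
      rw [← sum_mul]
      rfl
    rw [e1, ← sum_sub_distrib, mul_sum]
    refine sum_congr rfl fun s _ => ?_
    rw [← mul_assoc, Vw_mul_post hπ hq, ← mul_sub]
    rcases (Pr_nonneg hπ hq w s).eq_or_lt with h | h
    · rw [← h, zero_mul, zero_mul]
    · have hV : 0 < Vw π q w :=
        lt_of_lt_of_le h (single_le_sum (fun s _ => Pr_nonneg hπ hq w s) (mem_univ s))
      congr 1
      have hs : π s ≠ 0 := by
        intro h0
        unfold Pr at h
        rw [h0, zero_mul] at h
        exact lt_irrefl _ h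
      have hW : W q (fun i => w i - s) ≠ 0 := by
        intro h0
        unfold Pr at h
        rw [h0, mul_zero] at h
        exact lt_irrefl _ h
      unfold post
      rw [Real.log_div h.ne' hV.ne']
      unfold Pr
      rw [Real.log_mul hs hW]
      unfold W
      rw [Real.log_prod]
      · change Real.log (π s) + ∑ i, Real.log (q (w i - s)) - Real.log (Vw π q w) - Real.log (π s) = _
        ring
      · intro i _ h0
        exact hW (prod_eq_zero (mem_univ i) h0)
  simp_rw [h1]
  rw [sum_sub_distrib]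
  have h2 : ∑ w : Fin n → G, ∑ s, Pr π q w s * (∑ i, Real.log (q (w i - s))) = - (n * Ent q) := by
    rw [sum_comm]
    have e : ∀ s, ∑ w : Fin n → G, Pr π q w s * (∑ i, Real.log (q (w i - s))) = π s * - (n * Ent q) := by
      intro s
      rw [sum_Pr π q s fun w => ∑ i, Real.log (q (w i - s))]
      congr 1
      simp_rw [add_sub_cancel_right, mul_sum]
      rw [sum_comm]
      simp_rw [sum_W_marg hq n (fun b => Real.log (q b))]
      rw [sum_const, card_univ, Fintype.card_fin, nsmul_eq_mul, Ent_eq]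
      ring
    simp_rw [e]
    rw [← sum_mul, hπ.sum_one, one_mul]
  have h3 : ∑ w : Fin n → G, Vw π q w * (∑ i, Real.log (cv π q (w i))) = - (n * Ent (cv π q)) := by
    have e1 : ∀ w : Fin n → G, Vw π q w * (∑ i, Real.log (cv π q (w i))) =
        ∑ s, Pr π q w s * (∑ i, Real.log (cv π q (w i))) := by
      intro w
      rw [← sum_mul]
      rfl
    simp_rw [e1]
    rw [sum_comm]
    have e : ∀ s, ∑ w : Fin n → G, Pr π q w s * (∑ i, Real.log (cv π q (w i))) =
        π s * ∑ i : Fin n, ∑ b, q b * Real.log (cv π q (b + s)) := by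
      intro s
      rw [sum_Pr π q s fun w => ∑ i, Real.log (cv π q (w i))]
      congr 1
      simp_rw [mul_sum]
      rw [sum_comm]
      refine sum_congr rfl fun i _ => ?_
      exact sum_W_marg hq n (fun b => Real.log (cv π q (b + s))) i
    simp_rw [e]
    simp only [sum_const, card_univ, Fintype.card_fin, nsmul_eq_mul]
    have e2 := sum_cv π q fun z => Real.log (cv π q z)
    rw [Ent_eq, e2]
    rw [mul_neg, neg_neg, mul_sum]
    refine sum_congr rfl fun s _ => ?_
    ring
  have h4 : ∑ w : Fin n → G, (Vw π q w * (∑ i, Real.log (cv π q (w i))) - Vw π q w * Real.log (Vw π q w)) ≤ 0 := by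
    have e : ∀ w : Fin n → G, Vw π q w * (∑ i, Real.log (cv π q (w i))) - Vw π q w * Real.log (Vw π q w) ≤
        W (cv π q) w - Vw π q w := by
      intro w
      rcases (Vw_nonneg hπ hq w).eq_or_lt with h | h
      · rw [← h, zero_mul, zero_mul]
        have := W_nonneg hm w
        linarith
      · have hex : ∃ s, 0 < Pr π q w s := by
          by_contra hcon
          push Not at hcon
          have := sum_nonpos fun s (_ : s ∈ univ) => hcon s
          unfold Vw at h
          linarith
        obtain ⟨s, hs⟩ := hex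
        have hs1 : 0 < π s := by
          rcases (hπ.nonneg s).eq_or_lt with h0 | h0
          · unfold Pr at hs
            rw [← h0, zero_mul] at hs
            exact absurd hs (lt_irrefl _)
          · exact h0
        have hci : ∀ i, 0 < cv π q (w i) := by
          intro i
          refine cv_pos hπ hq hs1 ?_
          rcases (hq.nonneg (w i - s)).eq_or_lt with h0 | h0
          · unfold Pr W at hs
            rw [prod_eq_zero (mem_univ i) h0.symm, mul_zero] at hs
            exact absurd hs (lt_irrefl _)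
          · exact h0
        have hM : 0 < W (cv π q) w := prod_pos fun i _ => hci i
        have hlog : ∑ i, Real.log (cv π q (w i)) = Real.log (W (cv π q) w) := by
          unfold W
          rw [Real.log_prod]
          intro i _
          exact (hci i).ne'
        rw [hlog, ← mul_sub, ← Real.log_div hM.ne' h.ne']
        have h5 := Real.log_le_sub_one_of_pos (show 0 < W (cv π q) w / Vw π q w by positivity)
        have h6 := mul_le_mul_of_nonneg_left h5 h.le
        have h7 : Vw π q w * (W (cv π q) w / Vw π q w - 1) = W (cv π q) w - Vw π q w := by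
          field_simp
        rwa [h7] at h6
    refine (sum_le_sum fun w _ => e w).trans (le_of_eq ?_)
    rw [sum_sub_distrib, sum_W hm, sum_Vw hπ hq, sub_self]
  rw [sum_sub_distrib, h3] at h4
  rw [h2]
  linarith

/-- exponential moments of the error of the sample mean -/
theorem exp_abs {q : G → ℝ} (hq : IsLaw q) (S : Finset G) (n : ℕ) (hn : 1 ≤ n) (t : ℝ) (ht : 0 ≤ t) (htn : t ≤ n)
    (x : G) : ∑ u : Fin n → G, W q u * Real.exp (t * |Fa S u x - Fl q S x| - (1 + t ^ 2 / n)) ≤ 1 := by
  have hn0 : (0 : ℝ) < n := by exact_mod_cast hn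
  have hF0 := Fl_nonneg hq S x
  have hF1 := Fl_le_one hq S x
  have key : ∀ v : ℝ, |v| ≤ t → ∑ u : Fin n → G, W q u * Real.exp (v * (Fa S u x - Fl q S x)) ≤
      Real.exp (t ^ 2 / n) := by
    intro v hv
    have h1 := exp_mom hq (fun b => if x + b ∈ S then (1 : ℝ) else 0) (fun b => by split_ifs <;> norm_num)
      (fun b => by split_ifs <;> norm_num) (Fl q S x) rfl (v / n) (by
        rw [abs_div, abs_of_pos hn0, div_le_one hn0]
        linarith) n
    have h2 : ∀ u : Fin n → G, v / n * (∑ i, ((if x + u i ∈ S then (1 : ℝ) else 0) - Fl q S x)) =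
        v * (Fa S u x - Fl q S x) := by
      intro u
      rw [sum_sub_distrib, sum_const, card_univ, Fintype.card_fin, nsmul_eq_mul]
      unfold Fa
      field_simp
    simp_rw [h2] at h1
    refine h1.trans (Real.exp_le_exp.2 ?_)
    have h3 : (n : ℝ) * ((v / n) ^ 2 * Fl q S x) = v ^ 2 / n * Fl q S x := by
      field_simp
    rw [h3]
    have h4 : v ^ 2 ≤ t ^ 2 := sq_le_sq' (by linarith [(abs_le.1 hv).1]) (abs_le.1 hv).2
    calc v ^ 2 / n * Fl q S x ≤ v ^ 2 / n * 1 := by gcongr
      _ ≤ t ^ 2 / n := by rw [mul_one]; gcongr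
  have h1 := key t (by rw [abs_of_nonneg ht])
  have h2 := key (-t) (by rw [abs_neg, abs_of_nonneg ht])
  have h3 : ∀ u : Fin n → G, W q u * Real.exp (t * |Fa S u x - Fl q S x| - (1 + t ^ 2 / n)) ≤
      (W q u * Real.exp (t * (Fa S u x - Fl q S x)) + W q u * Real.exp (-t * (Fa S u x - Fl q S x))) *
        Real.exp (-(1 + t ^ 2 / n)) := by
    intro u
    rw [sub_eq_add_neg, Real.exp_add, ← mul_assoc, ← mul_add]
    refine mul_le_mul_of_nonneg_right (mul_le_mul_of_nonneg_left ?_ (W_nonneg hq u)) (Real.exp_pos _).le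
    rcases abs_cases (Fa S u x - Fl q S x) with h | h
    · rw [h.1]
      have := Real.exp_pos (-t * (Fa S u x - Fl q S x))
      linarith
    · rw [h.1]
      have e : t * -(Fa S u x - Fl q S x) = -t * (Fa S u x - Fl q S x) := by ring
      rw [e]
      have := Real.exp_pos (t * (Fa S u x - Fl q S x))
      linarith
  refine (sum_le_sum fun u _ => h3 u).trans ?_
  rw [← sum_mul, sum_add_distrib]
  calc (∑ u : Fin n → G, W q u * Real.exp (t * (Fa S u x - Fl q S x)) +
        ∑ u : Fin n → G, W q u * Real.exp (-t * (Fa S u x - Fl q S x))) * Real.exp (-(1 + t ^ 2 / n))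
      ≤ (Real.exp (t ^ 2 / n) + Real.exp (t ^ 2 / n)) * Real.exp (-(1 + t ^ 2 / n)) := by gcongr
    _ = 2 * Real.exp (-1) := by
        rw [← two_mul, mul_assoc, ← Real.exp_add]
        congr 2
        ring
    _ ≤ 1 := by
        rw [Real.exp_neg]
        have := Real.add_one_le_exp (1 : ℝ)
        rw [← div_eq_mul_inv, div_le_one (Real.exp_pos _)]
        linarith

theorem Fa_add (S : Finset G) {n : ℕ} (u : Fin n → G) (s x : G) : Fa S (fun i => u i + s) x = Fa S u (x + s) := by
  unfold Fa
  congr 1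
  refine sum_congr rfl fun i _ => ?_
  rw [show x + (u i + s) = x + s + u i by abel]

/-- the first error -/
theorem err_one {p q π : G → ℝ} (hp : IsLaw p) (hq : IsLaw q) (hπ : IsLaw π) (S : Finset G) (n : ℕ) (hn : 1 ≤ n)
    (t : ℝ) (ht : 0 ≤ t) (htn : t ≤ n) :
    t * ∑ w : Fin n → G, ∑ s, Pr π q w s * ∑ x, p x * |Fa S w (x - s) - Fl q S x| ≤ 1 + t ^ 2 / n := by
  have h1 : ∑ w : Fin n → G, ∑ s, Pr π q w s * ∑ x, p x * |Fa S w (x - s) - Fl q S x| =
      ∑ s, π s * ∑ x, p x * ∑ u : Fin n → G, W q u * |Fa S u x - Fl q S x| := by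
    rw [sum_comm]
    refine sum_congr rfl fun s _ => ?_
    rw [sum_Pr π q s fun w => ∑ x, p x * |Fa S w (x - s) - Fl q S x|]
    congr 1
    simp_rw [Fa_add, sub_add_cancel, mul_sum]
    rw [sum_comm]
    refine sum_congr rfl fun x _ => sum_congr rfl fun u _ => ?_
    ring
  rw [h1]
  have h2 : ∀ x, t * ∑ u : Fin n → G, W q u * |Fa S u x - Fl q S x| ≤ 1 + t ^ 2 / n := by
    intro x
    have h3 := exp_abs hq S n hn t ht htn x
    have h4 : ∀ u : Fin n → G, W q u * (t * |Fa S u x - Fl q S x| - (1 + t ^ 2 / n) + 1) ≤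
        W q u * Real.exp (t * |Fa S u x - Fl q S x| - (1 + t ^ 2 / n)) := fun u =>
      mul_le_mul_of_nonneg_left (Real.add_one_le_exp _) (W_nonneg hq u)
    have h5 := (sum_le_sum fun u _ => h4 u).trans h3
    have h6 : ∑ u : Fin n → G, W q u * (t * |Fa S u x - Fl q S x| - (1 + t ^ 2 / n) + 1) =
        t * (∑ u : Fin n → G, W q u * |Fa S u x - Fl q S x|) - t ^ 2 / n * ∑ u : Fin n → G, W q u := by
      rw [mul_sum, mul_sum, ← sum_sub_distrib]
      refine sum_congr rfl fun u _ => ?_
      ring
    rw [h6, sum_W hq, mul_one] at h5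
    linarith
  calc t * ∑ s, π s * ∑ x, p x * ∑ u : Fin n → G, W q u * |Fa S u x - Fl q S x|
      = ∑ s, π s * ∑ x, p x * (t * ∑ u : Fin n → G, W q u * |Fa S u x - Fl q S x|) := by
        rw [mul_sum]
        refine sum_congr rfl fun s _ => ?_
        rw [mul_left_comm, mul_sum]
        congr 1
        refine sum_congr rfl fun x _ => ?_
        ring
    _ ≤ ∑ s, π s * ∑ x, p x * (1 + t ^ 2 / n) := by
        refine sum_le_sum fun s _ => mul_le_mul_of_nonneg_left ?_ (hπ.nonneg s)
        exact sum_le_sum fun x _ => mul_le_mul_of_nonneg_left (h2 x) (hp.nonneg x)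
    _ = 1 + t ^ 2 / n := by
        simp_rw [← sum_mul, hp.sum_one, one_mul]
        rw [hπ.sum_one, one_mul]

/-- the second error -/
theorem err_two {p q π : G → ℝ} (hp : IsLaw p) (hq : IsLaw q) (hπ : IsLaw π) (S : Finset G) (n : ℕ) (hn : 1 ≤ n)
    (t : ℝ) (ht : 0 ≤ t) (htn : t ≤ n) :
    t * ∑ w : Fin n → G, ∑ s, Pr π q w s * ∑ z, cv (ng (post π q w)) p z * |Fa S w z - Fl q S (z + s)| ≤
      Ent (cv (ng π) p) - Ent p + (1 + t ^ 2 / n) := by
  obtain ⟨c, hc⟩ : ∃ c : ℝ, c = 1 + t ^ 2 / n := ⟨_, rfl⟩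
  rw [← hc]
  obtain ⟨m, hm⟩ : ∃ m : G → ℝ, m = cv (ng π) p := ⟨_, rfl⟩
  obtain ⟨r, hr⟩ : ∃ r : (Fin n → G) → G → ℝ, r = fun w => cv (ng (post π q w)) p := ⟨_, rfl⟩
  have hmlaw : IsLaw m := by rw [hm]; exact isLaw_cv (isLaw_ng hπ) hp
  have hrlaw : ∀ w, 0 < Vw π q w → IsLaw (r w) := fun w hw => by
    rw [hr]; exact isLaw_cv (isLaw_ng (isLaw_post hπ hq hw)) hp
  have hrm : ∀ z, ∑ w, Vw π q w * r w z = m z := by
    intro z
    rw [hr, hm]
    unfold cv ng
    simp_rw [mul_sum]
    rw [sum_comm]
    refine sum_congr rfl fun s _ => ?_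
    rw [← sum_Pr_one (π := π) hq (n := n) (-s), sum_mul]
    refine sum_congr rfl fun w _ => ?_
    rw [← mul_assoc, Vw_mul_post hπ hq]
  have hrpos : ∀ w z, 0 < Vw π q w → 0 < r w z → 0 < m z := by
    intro w z hw hz
    rw [← hrm z]
    refine lt_of_lt_of_le (mul_pos hw hz) ?_
    refine single_le_sum (f := fun w => Vw π q w * r w z) (fun w' _ => ?_) (mem_univ w)
    rcases (Vw_nonneg hπ hq w').eq_or_lt with h | h
    · rw [← h, zero_mul]
    · exact mul_nonneg h.le ((hrlaw w' h).nonneg z)
  -- the Fenchel inequality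
  have hF : ∀ w s, Pr π q w s * ∑ z, r w z * (t * |Fa S w z - Fl q S (z + s)| - c) ≤
      Pr π q w s * ((∑ z, r w z * (Real.log (r w z) - Real.log (m z))) - 1 +
        ∑ z, m z * Real.exp (t * |Fa S w z - Fl q S (z + s)| - c)) := by
    intro w s
    rcases (Pr_nonneg hπ hq w s).eq_or_lt with h | h
    · rw [← h, zero_mul, zero_mul]
    · have hV : 0 < Vw π q w :=
        lt_of_lt_of_le h (single_le_sum (fun s _ => Pr_nonneg hπ hq w s) (mem_univ s))
      refine mul_le_mul_of_nonneg_left ?_ h.le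
      have h1 : ∀ z, r w z * (t * |Fa S w z - Fl q S (z + s)| - c) ≤
          r w z * (Real.log (r w z) - Real.log (m z)) - r w z +
            m z * Real.exp (t * |Fa S w z - Fl q S (z + s)| - c) := by
        intro z
        rcases ((hrlaw w hV).nonneg z).eq_or_lt with h0 | h0
        · rw [← h0]
          have := mul_nonneg (hmlaw.nonneg z) (Real.exp_pos (t * |Fa S w z - Fl q S (z + s)| - c)).le
          linarith
        · have hmz := hrpos w z hV h0
          obtain ⟨v, hv⟩ : ∃ v : ℝ, v = t * |Fa S w z - Fl q S (z + s)| - c := ⟨_, rfl⟩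
          rw [← hv]
          have h2 := Real.log_le_sub_one_of_pos (show 0 < m z * Real.exp v / r w z by positivity)
          rw [Real.log_div (by positivity) h0.ne', Real.log_mul hmz.ne' (Real.exp_pos v).ne', Real.log_exp] at h2
          have h3 := mul_le_mul_of_nonneg_left h2 h0.le
          have h4 : r w z * (m z * Real.exp v / r w z - 1) = m z * Real.exp v - r w z := by
            field_simp
          rw [h4] at h3
          linarith
      refine (sum_le_sum fun z _ => h1 z).trans (le_of_eq ?_)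
      rw [sum_add_distrib, sum_sub_distrib, (hrlaw w hV).sum_one]
  have hsum := sum_le_sum fun (w : Fin n → G) (_ : w ∈ univ) => sum_le_sum fun s (_ : s ∈ univ) => hF w s
  -- the left side
  have hL : ∑ w : Fin n → G, ∑ s, Pr π q w s * ∑ z, r w z * (t * |Fa S w z - Fl q S (z + s)| - c) =
      t * (∑ w : Fin n → G, ∑ s, Pr π q w s * ∑ z, r w z * |Fa S w z - Fl q S (z + s)|) - c := by
    have e1 : ∀ (w : Fin n → G) (s : G), Pr π q w s * ∑ z, r w z * (t * |Fa S w z - Fl q S (z + s)| - c) =
        t * (Pr π q w s * ∑ z, r w z * |Fa S w z - Fl q S (z + s)|) - c * Pr π q w s := by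
      intro w s
      rcases (Pr_nonneg hπ hq w s).eq_or_lt with h | h
      · rw [← h]; ring
      · have hV : 0 < Vw π q w :=
          lt_of_lt_of_le h (single_le_sum (fun s _ => Pr_nonneg hπ hq w s) (mem_univ s))
        have e2 : ∑ z, r w z * (t * |Fa S w z - Fl q S (z + s)| - c) =
            t * (∑ z, r w z * |Fa S w z - Fl q S (z + s)|) - c * ∑ z, r w z := by
          rw [mul_sum, mul_sum, ← sum_sub_distrib]
          refine sum_congr rfl fun z _ => ?_
          ring
        rw [e2, (hrlaw w hV).sum_one]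
        ring
    simp_rw [e1, sum_sub_distrib, ← mul_sum]
    congr 1
    have e3 : ∑ w : Fin n → G, ∑ s, Pr π q w s = 1 := sum_Vw hπ hq
    rw [e3, mul_one]
  -- the right side
  have hR : ∑ w : Fin n → G, ∑ s, Pr π q w s * ((∑ z, r w z * (Real.log (r w z) - Real.log (m z))) - 1 +
        ∑ z, m z * Real.exp (t * |Fa S w z - Fl q S (z + s)| - c)) =
      (∑ w : Fin n → G, Vw π q w * ∑ z, r w z * (Real.log (r w z) - Real.log (m z))) - 1 +
        ∑ w : Fin n → G, ∑ s, Pr π q w s * ∑ z, m z * Real.exp (t * |Fa S w z - Fl q S (z + s)| - c) := by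
    have e3 : ∑ w : Fin n → G, ∑ s, Pr π q w s = 1 := sum_Vw hπ hq
    simp_rw [mul_add, mul_sub, sum_add_distrib, sum_sub_distrib, mul_one]
    rw [e3]
    congr 2
    refine sum_congr rfl fun w _ => ?_
    rw [← sum_mul]
    rfl
  have hR2 : ∑ w : Fin n → G, ∑ s, Pr π q w s * ∑ z, m z * Real.exp (t * |Fa S w z - Fl q S (z + s)| - c) ≤ 1 := by
    have e1 : ∑ w : Fin n → G, ∑ s, Pr π q w s * ∑ z, m z * Real.exp (t * |Fa S w z - Fl q S (z + s)| - c) =
        ∑ s, π s * ∑ z, m z * ∑ u : Fin n → G, W q u * Real.exp (t * |Fa S u (z + s) - Fl q S (z + s)| - c) := by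
      rw [sum_comm]
      refine sum_congr rfl fun s _ => ?_
      rw [sum_Pr π q s fun w => ∑ z, m z * Real.exp (t * |Fa S w z - Fl q S (z + s)| - c)]
      congr 1
      simp_rw [Fa_add, mul_sum]
      rw [sum_comm]
      refine sum_congr rfl fun x _ => sum_congr rfl fun u _ => ?_
      ring
    rw [e1]
    calc ∑ s, π s * ∑ z, m z * ∑ u : Fin n → G, W q u * Real.exp (t * |Fa S u (z + s) - Fl q S (z + s)| - c)
        ≤ ∑ s, π s * ∑ z, m z * 1 := by
          refine sum_le_sum fun s _ => mul_le_mul_of_nonneg_left ?_ (hπ.nonneg s)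
          refine sum_le_sum fun z _ => mul_le_mul_of_nonneg_left ?_ (hmlaw.nonneg z)
          rw [hc]
          exact exp_abs hq S n hn t ht htn (z + s)
      _ = 1 := by
          simp_rw [mul_one, hmlaw.sum_one, mul_one]
          exact hπ.sum_one
  -- the mean of the relative entropies
  have hK : ∑ w : Fin n → G, Vw π q w * ∑ z, r w z * (Real.log (r w z) - Real.log (m z)) ≤ Ent m - Ent p := by
    have e1 : ∀ w, Vw π q w * ∑ z, r w z * (Real.log (r w z) - Real.log (m z)) =
        - (Vw π q w * Ent (r w)) - ∑ z, Vw π q w * r w z * Real.log (m z) := by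
      intro w
      rw [Ent_eq, mul_neg, neg_neg, mul_sum, mul_sum, ← sum_sub_distrib]
      refine sum_congr rfl fun z _ => ?_
      ring
    simp_rw [e1]
    rw [sum_sub_distrib, sum_comm]
    have e2 : ∀ z, ∑ w, Vw π q w * r w z * Real.log (m z) = m z * Real.log (m z) := by
      intro z
      rw [← sum_mul, hrm]
    simp_rw [e2]
    have e3 : ∑ w, - (Vw π q w * Ent (r w)) ≤ - Ent p := by
      have e4 : ∀ w : Fin n → G, - (Vw π q w * Ent (r w)) ≤ - (Vw π q w * Ent p) := by
        intro w
        rcases (Vw_nonneg hπ hq w).eq_or_lt with h | h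
        · rw [← h, zero_mul, zero_mul]
        · have h5 : Ent p ≤ Ent (r w) := by
            rw [hr]
            exact Ent_cv_ge (isLaw_ng (isLaw_post hπ hq h)) hp
          have := mul_le_mul_of_nonneg_left h5 h.le
          linarith
      refine (sum_le_sum fun w _ => e4 w).trans (le_of_eq ?_)
      rw [sum_neg_distrib, ← sum_mul, sum_Vw hπ hq, one_mul]
    have e5 : Ent m = - ∑ z, m z * Real.log (m z) := Ent_eq m
    linarith
  rw [hL, hR] at hsum
  have hgoal : t * (∑ w : Fin n → G, ∑ s, Pr π q w s * ∑ z, r w z * |Fa S w z - Fl q S (z + s)|) ≤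
      Ent m - Ent p + c := by linarith
  rw [hr, hm] at hgoal
  exact hgoal

end Pool.Agent.V8H19.AP
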