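import Pool.Agent.V8H19.AP.Core4

/-!
# Iterated sumsets
-/

set_option autoImplicit false

namespace Pool.Agent.V8H19.AP

open Finset Pool.Agent.TH858
open scoped Pointwise

section Sums

variable {G : Type*} [AddCommGroup G] [DecidableEq G]

/-- the `n`-fold sumset -/
def sumk (A : Finset G) : ℕ → Finset G
  | 0 => {0}
  | n + 1 => sumk A n + A

theorem mem_sumk (A : Finset G) (n : ℕ) (x : G) :
    x ∈ sumk A n ↔ ∃ a : Fin n → G, (∀ i, a i ∈ A) ∧ x = ∑ i, a i := by
  induction n generalizing x with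
  | zero => simp [sumk]
  | succ n ih =>
    rw [sumk, mem_add]
    constructor
    · rintro ⟨y, hy, z, hz, rfl⟩
      obtain ⟨a, ha, rfl⟩ := (ih y).1 hy
      refine ⟨Fin.snoc a z, fun i => ?_, ?_⟩
      · refine Fin.lastCases ?_ (fun j => ?_) i
        · simpa using hz
        · simpa using ha j
      · rw [Fin.sum_univ_castSucc]
        simp
    · rintro ⟨a, ha, rfl⟩
      refine ⟨∑ i : Fin n, a i.castSucc, (ih _).2 ⟨fun i => a i.castSucc, fun i => ha _, rfl⟩, a (Fin.last n), ha _, ?_⟩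
      rw [Fin.sum_univ_castSucc]

theorem sumk_nonempty {A : Finset G} (hA : A.Nonempty) (n : ℕ) : (sumk A n).Nonempty := by
  induction n with
  | zero => exact singleton_nonempty 0
  | succ n ih => exact ih.add hA

theorem zero_add' (A : Finset G) : ({0} : Finset G) + A = A := by
  ext x
  simp [mem_add]

theorem sumk_one (A : Finset G) : sumk A 1 = A := by
  rw [sumk, sumk, zero_add']

theorem sumk_add (A : Finset G) (m n : ℕ) : sumk A (m + n) = sumk A m + sumk A n := by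
  induction n with
  | zero => rw [add_zero, sumk, add_comm, zero_add']
  | succ n ih => rw [← add_assoc, sumk, sumk, ih, add_assoc]

/-- `(j + 1) A - j A` -/
def Xk (A : Finset G) (j : ℕ) : Finset G := sumk A (j + 1) - sumk A j

theorem Xk_zero (A : Finset G) : Xk A 0 = A := by
  rw [Xk, sumk_one, sumk]
  ext x
  simp

theorem Xk_nonempty {A : Finset G} (hA : A.Nonempty) (j : ℕ) : (Xk A j).Nonempty :=
  (sumk_nonempty hA _).sub (sumk_nonempty hA _)

theorem Xk_card {A : Finset G} (hA : A.Nonempty) (j : ℕ) :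
    (Xk A j + A + (A - A)).card ≤ (Xk A (j + 2)).card := by
  obtain ⟨a₀, ha₀⟩ := hA
  have h1 : Xk A j + A + (A - A) ⊆ Xk A (j + 2) + {a₀} := by
    intro y hy
    rw [Xk, mem_add] at hy
    obtain ⟨z, hz, w, hw, rfl⟩ := hy
    obtain ⟨u, hu, a, ha, rfl⟩ := mem_add.1 hz
    obtain ⟨p, hp, q, hq, rfl⟩ := mem_sub.1 hu
    obtain ⟨b, hb, c, hc, rfl⟩ := mem_sub.1 hw
    refine mem_add.2 ⟨p + a + b - (q + c + a₀), ?_, a₀, mem_singleton_self _, by abel⟩
    refine mem_sub.2 ⟨p + a + b, ?_, q + c + a₀, ?_, rfl⟩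
    · exact add_mem_add (add_mem_add hp ha) hb
    · exact add_mem_add (add_mem_add hq hc) ha₀
  refine (card_le_card h1).trans ?_
  rw [card_add_singleton]

theorem Xk_final {A : Finset G} (hA : A.Nonempty) (j k : ℕ) (hjk : 2 * j + 2 ≤ k) (y : G)
    (hy : ∃ x ∈ Xk A j, ∃ b ∈ A, ∃ x' ∈ Xk A j, ∃ b' ∈ A, y = x + b - x' - b') :
    ∃ a b : Fin k → G, (∀ i, a i ∈ A) ∧ (∀ i, b i ∈ A) ∧ y = ∑ i, a i - ∑ i, b i := by
  obtain ⟨a₀, ha₀⟩ := hA
  obtain ⟨x, hx, b, hb, x', hx', b', hb', rfl⟩ := hy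
  obtain ⟨p, hp, q, hq, rfl⟩ := mem_sub.1 hx
  obtain ⟨p', hp', q', hq', rfl⟩ := mem_sub.1 hx'
  obtain ⟨r, rfl⟩ := Nat.exists_eq_add_of_le hjk
  obtain ⟨w, hw⟩ := sumk_nonempty ⟨a₀, ha₀⟩ (A := A) r
  have e : 2 * j + 2 + r = (j + 1) + j + 1 + r := by ring
  have h1 : p + q' + b + w ∈ sumk A (2 * j + 2 + r) := by
    rw [e, sumk_add, sumk_add, sumk_add, sumk_one]
    exact add_mem_add (add_mem_add (add_mem_add hp hq') hb) hw
  have h2 : p' + q + b' + w ∈ sumk A (2 * j + 2 + r) := by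
    rw [e, sumk_add, sumk_add, sumk_add, sumk_one]
    exact add_mem_add (add_mem_add (add_mem_add hp' hq) hb') hw
  obtain ⟨a, ha, ha'⟩ := (mem_sumk A _ _).1 h1
  obtain ⟨c, hc, hc'⟩ := (mem_sumk A _ _).1 h2
  refine ⟨a, c, ha, hc, ?_⟩
  rw [← ha', ← hc']
  abel

end Sums

/-- pigeonhole -/
theorem pig (f : ℕ → ℝ) (m : ℕ) (hm : 1 ≤ m) (L : ℝ) (hL : f m - f 0 ≤ L) :
    ∃ i < m, f (i + 1) - f i ≤ L / m := by
  by_contra h
  push Not at h
  have h1 : ∑ i ∈ range m, (f (i + 1) - f i) = f m - f 0 := sum_range_sub f m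
  have h2 : ∑ i ∈ range m, L / (m : ℝ) < ∑ i ∈ range m, (f (i + 1) - f i) :=
    sum_lt_sum_of_nonempty (nonempty_range_iff.2 (by omega)) fun i hi => h i (mem_range.1 hi)
  have hm0 : (0 : ℝ) < m := by exact_mod_cast hm
  rw [h1, sum_const, card_range, nsmul_eq_mul, mul_div_cancel₀ _ hm0.ne'] at h2
  linarith

/-- the bound for `kA - kA` with absolute constants -/
theorem few (C₀ : ℝ) (hC₀ : 1 ≤ C₀)
    (hcore : ∀ (N : ℕ) [NeZero N] (X Y T A : Finset (ZMod N)) (K K₁ K₂ : ℝ) (R : ℕ),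
    X.Nonempty → Y.Nonempty → T.Nonempty →
    T ⊆ A → 1 ≤ K → 1 ≤ K₁ → 1 ≤ K₂ → ((A + A).card : ℝ) ≤ K * A.card →
    ((X + Y + (T - T)).card : ℝ) ≤ K₁ * X.card → ((X + Y + (T - T)).card : ℝ) ≤ K₂ * Y.card →
    300 * Real.log (2 * K) + 3 ≤ R → Real.log (2 * K₁) ≤ R → Real.log (2 * K₂) ≤ R →
    Real.log (A.card / T.card) ≤ R →
    ∃ Γ : Finset (ZMod N), (Γ.card : ℝ) ≤ C₀ * (Real.log (N / A.card) / Real.log R + (Real.log (2 * K) ^ 2 +
        Real.log (A.card / T.card) + Wc (Real.log (2 * K₁)) (Real.log (2 * K₂)))) ∧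
      ∀ y : ZMod N, (∀ g ∈ Γ, CB.nn (g * y) ≤ 1 / (8 * R)) →
        ∃ x ∈ X, ∃ b ∈ Y, ∃ x' ∈ X, ∃ b' ∈ Y, y = x + b - x' - b')
    (N : ℕ) [NeZero N] (A : Finset (ZMod N)) (hA : A.Nonempty) (hα : (A.card : ℝ) / N ≤ 1 / 2) (k : ℕ)
    (hk : 2 ≤ k) (x u : ℝ) (hx : x = Real.log (N / A.card)) (hu : u = x / k) :
    ∃ Γ : Finset (ZMod N), (Γ.card : ℝ) ≤ 100 * C₀ * (x * (1 + u * Real.log (2 + u))) ∧
      ∀ y : ZMod N, (∀ g ∈ Γ, CB.nn (g * y) ≤ 1 / (3000 * x)) →
        ∃ a b : Fin k → ZMod N, (∀ i, a i ∈ A) ∧ (∀ i, b i ∈ A) ∧ y = ∑ i, a i - ∑ i, b i := by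
  classical
  have hlog2 := Real.log_two_gt_d9
  have hlog2' := Real.log_two_lt_d9
  have hAc : (0 : ℝ) < A.card := by exact_mod_cast hA.card_pos
  have hNpos : (0 : ℝ) < N := by exact_mod_cast NeZero.pos N
  have hAN : (A.card : ℝ) ≤ N := by
    have := card_le_univ A
    rw [ZMod.card] at this
    exact_mod_cast this
  have hNA : 2 ≤ (N : ℝ) / A.card := by
    rw [div_le_iff₀ hNpos] at hα
    rw [le_div_iff₀ hAc]
    linarith
  have hx2 : Real.log 2 ≤ x := by
    rw [hx]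
    exact Real.log_le_log (by norm_num) hNA
  have hx0 : 0 < x := by linarith
  have hk0 : (2 : ℝ) ≤ k := by exact_mod_cast hk
  have hu0 : 0 < u := by rw [hu]; positivity
  obtain ⟨m, hm⟩ : ∃ m : ℕ, m = (k + 2) / 4 := ⟨_, rfl⟩
  have hm1 : 1 ≤ m := by omega
  have hmk : k ≤ 8 * m := by omega
  have hmkR : (k : ℝ) ≤ 8 * m := by exact_mod_cast hmk
  have hm0 : (0 : ℝ) < m := by exact_mod_cast hm1
  have hxm : x / m ≤ 8 * u := by
    rw [hu, ← mul_div_assoc, div_le_div_iff₀ hm0 (by linarith)]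
    nlinarith
  have hxm0 : 0 < x / m := by positivity
  have hXc : ∀ j, (0 : ℝ) < (Xk A j).card := fun j => by exact_mod_cast (Xk_nonempty hA j).card_pos
  obtain ⟨i, hi, hi2⟩ := pig (fun i => Real.log (Xk A (2 * i)).card) m hm1 x (by
    change Real.log (Xk A (2 * m)).card - Real.log (Xk A (2 * 0)).card ≤ x
    rw [mul_zero, Xk_zero, ← Real.log_div (hXc _).ne' hAc.ne', hx]
    apply Real.log_le_log (div_pos (hXc _) hAc)
    have h1 : ((Xk A (2 * m)).card : ℝ) ≤ N := by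
      have := card_le_univ (Xk A (2 * m))
      rw [ZMod.card] at this
      exact_mod_cast this
    gcongr)
  change Real.log (Xk A (2 * (i + 1))).card - Real.log (Xk A (2 * i)).card ≤ x / m at hi2
  obtain ⟨X, hX⟩ : ∃ X, X = Xk A (2 * i) := ⟨_, rfl⟩
  have hX0 : X.Nonempty := by rw [hX]; exact Xk_nonempty hA _
  have hXc0 : (0 : ℝ) < X.card := by exact_mod_cast hX0.card_pos
  have hcX : ((X + A + (A - A)).card : ℝ) ≤ Real.exp (x / m) * X.card := by
    have h1 : ((X + A + (A - A)).card : ℝ) ≤ (Xk A (2 * (i + 1))).card := by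
      rw [hX]
      exact_mod_cast Xk_card hA (2 * i)
    refine h1.trans ?_
    rw [← hX] at hi2
    have h2 : Real.log (Xk A (2 * (i + 1))).card ≤ Real.log (Real.exp (x / m) * X.card) := by
      rw [Real.log_mul (Real.exp_pos _).ne' hXc0.ne', Real.log_exp]
      linarith
    exact (Real.log_le_log_iff (hXc _) (by positivity)).1 h2
  have hcA : ((X + A + (A - A)).card : ℝ) ≤ N / A.card * A.card := by
    rw [div_mul_cancel₀ _ hAc.ne']
    have := card_le_univ (X + A + (A - A))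
    rw [ZMod.card] at this
    exact_mod_cast this
  have hU : (univ : Finset (ZMod N)) + univ = univ := by
    refine eq_univ_iff_forall.2 fun y => mem_add.2 ⟨y, mem_univ _, 0, mem_univ _, add_zero y⟩
  have hUc : (((univ : Finset (ZMod N)).card : ℕ) : ℝ) = N := by rw [card_univ, ZMod.card]
  obtain ⟨R, hR⟩ : ∃ R : ℕ, R = ⌊3000 * x / 8⌋₊ := ⟨_, rfl⟩
  have hR1 : (R : ℝ) ≤ 3000 * x / 8 := by rw [hR]; exact Nat.floor_le (by positivity)
  have hR2 : 3000 * x / 8 < R + 1 := by rw [hR]; exact Nat.lt_floor_add_one _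
  have hR3 : 360 * x ≤ R := by linarith
  have hR0 : (0 : ℝ) < R := by linarith
  have hl1 : Real.log (2 * Real.exp (x / m)) = Real.log 2 + x / m := by
    rw [Real.log_mul (by norm_num) (Real.exp_pos _).ne', Real.log_exp]
  have hl2 : Real.log (2 * (N / A.card)) = Real.log 2 + x := by
    rw [Real.log_mul (by norm_num) (by positivity), ← hx]
  have hxm' : x / m ≤ x := div_le_self hx0.le (by exact_mod_cast hm1)
  obtain ⟨Γ, h1, h2⟩ := hcore N X A A univ 1 (Real.exp (x / m)) (N / A.card) R hX0 hA hA (subset_univ A) le_rfl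
    (Real.one_le_exp hxm0.le) (by linarith) (by rw [hU, one_mul]) hcX hcA
    (by rw [mul_one]; nlinarith) (by rw [hl1]; nlinarith) (by rw [hl2]; nlinarith)
    (by rw [hUc, ← hx]; nlinarith)
  refine ⟨Γ, h1.trans ?_, fun y hy => ?_⟩
  · rw [hUc, div_self hNpos.ne', Real.log_one, zero_div, zero_add, mul_one, ← hx, hl1, hl2, Wc]
    have h3 : Real.log 2 ^ 2 ≤ x := by nlinarith
    have h4 : min (Real.log 2 + x / m) (Real.log 2 + x) ≤ 1 + 8 * u := (min_le_left _ _).trans (by linarith)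
    have h5 : 0 ≤ min (Real.log 2 + x / m) (Real.log 2 + x) := le_min (by linarith) (by linarith)
    obtain ⟨v, hv⟩ : ∃ v : ℝ, v = u * Real.log (2 + u) := ⟨_, rfl⟩
    have h6 : Real.log 2 ≤ Real.log (2 + u) := Real.log_le_log (by norm_num) (by linarith)
    have h7 : 0.69 * u ≤ v := by rw [hv]; nlinarith
    have h8 : Real.log (1 + min (Real.log 2 + x / m) (Real.log 2 + x)) ≤ 2.1 + Real.log (2 + u) := by
      have h9 : Real.log (1 + min (Real.log 2 + x / m) (Real.log 2 + x)) ≤ Real.log (2 ^ 3 * (2 + u)) :=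
        Real.log_le_log (by linarith) (by linarith)
      rw [Real.log_mul (by norm_num) (by linarith), Real.log_pow] at h9
      push_cast at h9
      linarith
    have h10 : Real.log (2 + u) ≤ 1 + u := by
      have := Real.log_le_sub_one_of_pos (by linarith : 0 < 2 + u)
      linarith
    have h11 : 0 ≤ Real.log (1 + min (Real.log 2 + x / m) (Real.log 2 + x)) := Real.log_nonneg (by linarith)
    have h12 : (Real.log 2 + x / m) * (Real.log 2 + x) *
        (1 + Real.log (1 + min (Real.log 2 + x / m) (Real.log 2 + x))) ≤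
        (1 + 8 * u) * (2 * x) * (3.1 + Real.log (2 + u)) := by
      refine mul_le_mul (mul_le_mul (by linarith) (by linarith) (by linarith) (by linarith)) (by linarith)
        (by linarith) (by positivity)
    have h13 : (1 + 8 * u) * (3.1 + Real.log (2 + u)) ≤ 46 * (1 + v) := by
      have : (1 + 8 * u) * (3.1 + Real.log (2 + u)) = 3.1 + Real.log (2 + u) + 24.8 * u + 8 * v := by
        rw [hv]; ring
      rw [this]
      linarith
    rw [← hv]
    have hv0 : 0 ≤ v := by linarith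
    have h14 : (1 + 8 * u) * (2 * x) * (3.1 + Real.log (2 + u)) ≤ 92 * (x * (1 + v)) := by
      calc (1 + 8 * u) * (2 * x) * (3.1 + Real.log (2 + u)) = 2 * x * ((1 + 8 * u) * (3.1 + Real.log (2 + u))) := by
            ring
        _ ≤ 2 * x * (46 * (1 + v)) := by gcongr
        _ = 92 * (x * (1 + v)) := by ring
    have h15 : x ≤ x * (1 + v) := by nlinarith [mul_nonneg hx0.le hv0]
    have h16 : Real.log 2 ^ 2 + x + (Real.log 2 + x / m) * (Real.log 2 + x) *
        (1 + Real.log (1 + min (Real.log 2 + x / m) (Real.log 2 + x))) ≤ 100 * (x * (1 + v)) := by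
      linarith
    calc C₀ * (Real.log 2 ^ 2 + x + (Real.log 2 + x / m) * (Real.log 2 + x) *
        (1 + Real.log (1 + min (Real.log 2 + x / m) (Real.log 2 + x))))
        ≤ C₀ * (100 * (x * (1 + v))) := by gcongr
      _ = 100 * C₀ * (x * (1 + v)) := by ring
  · refine Xk_final hA (2 * i) k (by omega) y ?_
    rw [← hX]
    refine h2 y fun g hg => (hy g hg).trans ?_
    apply one_div_le_one_div_of_le (by positivity)
    linarith

end Pool.Agent.V8H19.AP
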